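import Pool.Agent.Lib.MP_ed1a61_al.Fill.CLBasic

/-! # The predicate `Bd` -/

set_option autoImplicit false

namespace Pool.MP_ed1a61_al.Fill

variable {H H' : Type} [Group H] [Group H'] {k k' K : ℕ} {h h' u v x : H} {us us' : List H}

theorem Bd.mono (hb : Bd K us) (hk : K ≤ k) : Bd k us := by
  obtain ⟨vs, h1, h2⟩ := hb
  exact ⟨vs, h1, h2.mono hk⟩

private theorem perm_aux {us us' : List H} (hp : us.Perm us') :
    ∀ vs : List H, List.Forall₂ IsConj us vs →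
      ∃ vs' : List H, List.Forall₂ IsConj us' vs' ∧ vs'.prod = vs.prod := by
  induction hp with
  | nil => exact fun vs h => ⟨vs, h, rfl⟩
  | cons x _ ih =>
    intro vs h
    obtain ⟨v, vs0, hv, h0, rfl⟩ := List.forall₂_cons_left_iff.1 h
    obtain ⟨vs1, h1, h2⟩ := ih vs0 h0
    exact ⟨v :: vs1, List.Forall₂.cons hv h1, by rw [List.prod_cons, List.prod_cons, h2]⟩
  | swap x y l =>
    intro vs h
    obtain ⟨a, vs0, ha, h0, rfl⟩ := List.forall₂_cons_left_iff.1 h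
    obtain ⟨b, vs1, hb, h1, rfl⟩ := List.forall₂_cons_left_iff.1 h0
    refine ⟨(a * b * a⁻¹) :: a :: vs1, List.Forall₂.cons (hb.trans ?_) (List.Forall₂.cons ha h1),
      ?_⟩
    · exact isConj_iff.2 ⟨a, rfl⟩
    · simp only [List.prod_cons]
      group
  | trans _ _ ih1 ih2 =>
    intro vs h
    obtain ⟨vs1, h1, e1⟩ := ih1 vs h
    obtain ⟨vs2, h2, e2⟩ := ih2 vs1 h1
    exact ⟨vs2, h2, e2.trans e1⟩

theorem Bd.perm (hb : Bd K us) (hp : us.Perm us') : Bd K us' := by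
  obtain ⟨vs, h1, h2⟩ := hb
  obtain ⟨vs', h3, h4⟩ := perm_aux hp vs h1
  exact ⟨vs', h3, by rw [h4]; exact h2⟩

theorem Bd.of_isConj (hb : Bd K (u :: us)) (hh : IsConj u v) : Bd K (v :: us) := by
  obtain ⟨vs, h1, h2⟩ := hb
  obtain ⟨w, vs0, hw, h0, rfl⟩ := List.forall₂_cons_left_iff.1 h1
  exact ⟨w :: vs0, List.Forall₂.cons (hh.symm.trans hw) h0, h2⟩

theorem bd_one_iff : Bd K (1 :: us) ↔ Bd K us := by
  constructor
  · rintro ⟨vs, h1, h2⟩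
    obtain ⟨w, vs0, hw, h0, rfl⟩ := List.forall₂_cons_left_iff.1 h1
    rw [isConj_one_right.1 hw, List.prod_cons, one_mul] at h2
    exact ⟨vs0, h0, h2⟩
  · rintro ⟨vs, h1, h2⟩
    exact ⟨1 :: vs, List.Forall₂.cons (IsConj.refl 1) h1, by rwa [List.prod_cons, one_mul]⟩

theorem bd_nil : Bd K ([] : List H) :=
  ⟨[], List.Forall₂.nil, by rw [List.prod_nil]; exact cl_one⟩

theorem Bd.split (hb : Bd K ((u * v) :: us)) : Bd K (u :: v :: us) := by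
  obtain ⟨vs, h1, h2⟩ := hb
  obtain ⟨w, vs0, hw, h0, rfl⟩ := List.forall₂_cons_left_iff.1 h1
  obtain ⟨c, rfl⟩ := isConj_iff.1 hw
  refine ⟨(c * u * c⁻¹) :: (c * v * c⁻¹) :: vs0, List.Forall₂.cons (isConj_iff.2 ⟨c, rfl⟩)
    (List.Forall₂.cons (isConj_iff.2 ⟨c, rfl⟩) h0), ?_⟩
  have e : ((c * u * c⁻¹) :: (c * v * c⁻¹) :: vs0).prod = ((c * (u * v) * c⁻¹) :: vs0).prod := by
    simp only [List.prod_cons]
    group
  rw [e]
  exact h2

theorem Bd.handle (hb : Bd K (u :: v :: us)) (x : H) : Bd (K + 1) ((x * u * x⁻¹ * v) :: us) := by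
  obtain ⟨vs, h1, h2⟩ := hb
  obtain ⟨v1, vs0, hv1, h0, rfl⟩ := List.forall₂_cons_left_iff.1 h1
  obtain ⟨v2, vs1, hv2, h3, rfl⟩ := List.forall₂_cons_left_iff.1 h0
  obtain ⟨a, rfl⟩ := isConj_iff.1 hv1
  obtain ⟨b, rfl⟩ := isConj_iff.1 hv2
  refine ⟨(b * (x * u * x⁻¹ * v) * b⁻¹) :: vs1,
    List.Forall₂.cons (isConj_iff.2 ⟨b, rfl⟩) h3, ?_⟩
  have h4 := (cl_commutator (b * x * a⁻¹) (a * u * a⁻¹)).mul h2
  have e : ((b * (x * u * x⁻¹ * v) * b⁻¹) :: vs1).prod =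
      b * x * a⁻¹ * (a * u * a⁻¹) * (b * x * a⁻¹)⁻¹ * (a * u * a⁻¹)⁻¹ *
        ((a * u * a⁻¹) :: (b * v * b⁻¹) :: vs1).prod := by
    simp only [List.prod_cons]
    group
  rw [e, add_comm K 1]
  exact h4

theorem Bd.map (hb : Bd K us) (f : H →* H') : Bd K (us.map f) := by
  obtain ⟨vs, h1, h2⟩ := hb
  refine ⟨vs.map f, ?_, ?_⟩
  · rw [List.forall₂_map_left_iff, List.forall₂_map_right_iff]
    exact h1.imp fun _ _ h => f.map_isConj h
  · rw [← map_list_prod]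
    exact h2.map f

end Pool.MP_ed1a61_al.Fill
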