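import Pool.Agent.Lib.MP_ed1a61_al.Fill.ConnBasic

/-! # Counting components: removal of a bigon -/

set_option autoImplicit false

namespace Pool.MP_ed1a61_al.Fill

open Equiv

variable {Ω Ω' : Type}

/-- the components after the removal of a bigon `{p, q}` -/
theorem comps_bigon [Finite Ω] [DecidableEq Ω] {σ π : Perm Ω} {p q u : Ω}
    (hpq : σ p = q) (hqp : σ q = p) (hne : p ≠ q) (hinv : ∀ x, π (π x) = x)
    (hfix : ∀ x, π x ≠ x) (hu : π p = u) (huq : u ≠ q) :
    comps σ (swap q u * π * swap q u) ≤ comps σ π + 1 := by
  classical
  have hπpu : π u = p := by rw [← hu, hinv]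
  have hinj : ∀ x y, π x = y → x = π y := fun x y h => by rw [← h, hinv]
  have hup : u ≠ p := by rw [← hu]; exact hfix p
  obtain ⟨v, hv⟩ : ∃ v, π q = v := ⟨_, rfl⟩
  have hπv : π v = q := by rw [← hv, hinv]
  have hvq : v ≠ q := by rw [← hv]; exact hfix q
  have hvp : v ≠ p := by
    intro h
    apply huq
    rw [← hu, ← h, hπv]
  have huv : u ≠ v := by
    intro h
    apply hne
    apply π.injective
    rw [hu, hv, h]
  set ρ : Perm Ω := swap q u * π * swap q u with hρ
  have ρap : ∀ x, ρ x = swap q u (π (swap q u x)) := fun x => rfl
  have ρp : ρ p = q := by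
    rw [ρap, swap_apply_of_ne_of_ne hne hup.symm, hu, swap_apply_right]
  have ρq : ρ q = p := by
    rw [ρap, swap_apply_left, hπpu, swap_apply_of_ne_of_ne hne hup.symm]
  have ρu : ρ u = v := by
    rw [ρap, swap_apply_right, hv, swap_apply_of_ne_of_ne hvq huv.symm]
  have ρv : ρ v = u := by
    rw [ρap, swap_apply_of_ne_of_ne hvq huv.symm, hπv, swap_apply_left]
  have ρo : ∀ x, x ≠ p → x ≠ q → x ≠ u → x ≠ v → ρ x = π x := by
    intro x h1 h2 h3 h4
    rw [ρap, swap_apply_of_ne_of_ne h2 h3, swap_apply_of_ne_of_ne]
    · intro h
      exact h4 ((hinj _ _ h).trans hv)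
    · intro h
      exact h1 ((hinj _ _ h).trans hπpu)
  let r : Ω → Ω := fun x => if x = p ∨ x = q then u else x
  have rp : r p = u := if_pos (Or.inl rfl)
  have rq : r q = u := if_pos (Or.inr rfl)
  have ro : ∀ x, x ≠ p → x ≠ q → r x = x := fun x h1 h2 => if_neg (by
    rintro (h | h)
    · exact h1 h
    · exact h2 h)
  have ru : r u = u := ro u hup huq
  have rv : r v = v := ro v hvp hvq
  have huv' : (connS σ ρ) u v := by
    have := conn_right σ ρ u
    rwa [ρu] at this
  have key : ∀ x y, (connS σ π) x y → (connS σ ρ) (r x) (r y) := by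
    intro x y h
    have h' : Relation.EqvGen (fun x y => y = σ x ∨ y = π x) x y := h
    clear h
    induction h' with
    | rel x y h =>
      rcases h with h | h
      · subst h
        by_cases h1 : x = p
        · subst h1
          rw [hpq, rp, rq]
        by_cases h2 : x = q
        · subst h2
          rw [hqp, rp, rq]
        have h3 : σ x ≠ p := by
          intro h
          apply h2
          apply σ.injective
          rw [h, hqp]
        have h4 : σ x ≠ q := by
          intro h
          apply h1
          apply σ.injective
          rw [h, hpq]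
        rw [ro x h1 h2, ro _ h3 h4]
        exact conn_left σ ρ x
      · subst h
        by_cases h1 : x = p
        · subst h1
          rw [hu, rp, ru]
        by_cases h2 : x = q
        · subst h2
          rw [hv, rq, rv]
          exact huv'
        by_cases h3 : x = u
        · subst h3
          rw [hπpu, rp, ru]
        by_cases h4 : x = v
        · subst h4
          rw [hπv, rq, rv]
          exact (connS σ ρ).symm huv'
        have h5 : π x ≠ p := fun h => h3 ((hinj _ _ h).trans hu)
        have h6 : π x ≠ q := fun h => h4 ((hinj _ _ h).trans hv)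
        rw [ro x h1 h2, ro _ h5 h6, ← ρo x h1 h2 h3 h4]
        exact conn_right σ ρ x
    | refl x => exact (connS σ ρ).refl _
    | symm x y _ ih => exact (connS σ ρ).symm ih
    | trans x y z _ _ ih1 ih2 => exact (connS σ ρ).trans ih1 ih2
  have hpq' : (connS σ ρ) p q := by
    have := conn_right σ ρ p
    rwa [ρp] at this
  have hmem : ∀ x y, (x = p ∨ x = q) → (y = p ∨ y = q) → (connS σ ρ) x y := by
    rintro x y (rfl | rfl) (rfl | rfl)
    · exact (connS σ ρ).refl _
    · exact hpq'
    · exact (connS σ ρ).symm hpq'
    · exact (connS σ ρ).refl _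
  let g : Quotient (connS σ ρ) → Option (Quotient (connS σ π)) := fun c =>
    if c.out = p ∨ c.out = q then none else some (Quotient.mk (connS σ π) c.out)
  have hg : Function.Injective g := by
    intro c d h
    rw [← Quotient.out_eq c, ← Quotient.out_eq d]
    apply Quotient.sound
    show (connS σ ρ) c.out d.out
    by_cases hc : c.out = p ∨ c.out = q
    · have h1 : g c = none := if_pos hc
      by_cases hd : d.out = p ∨ d.out = q
      · exact hmem _ _ hc hd
      · have h2 : g d = some (Quotient.mk (connS σ π) d.out) := if_neg hd
        rw [h1, h2] at h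
        exact absurd h (by simp)
    · have h1 : g c = some (Quotient.mk (connS σ π) c.out) := if_neg hc
      by_cases hd : d.out = p ∨ d.out = q
      · have h2 : g d = none := if_pos hd
        rw [h1, h2] at h
        exact absurd h (by simp)
      · have h2 : g d = some (Quotient.mk (connS σ π) d.out) := if_neg hd
        rw [h1, h2] at h
        have h3 := Quotient.exact (Option.some.inj h)
        have h4 : (connS σ π) c.out d.out := h3
        have h5 := key _ _ h4
        push Not at hc hd
        rwa [ro _ hc.1 hc.2, ro _ hd.1 hd.2] at h5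
  have h1 := Nat.card_le_card_of_injective g hg
  rw [Finite.card_option] at h1
  exact h1

end Pool.MP_ed1a61_al.Fill
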