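import Pool.Agent.Lib.MP_ed1a61_al.Fill.ConnBasic

/-! # Counting components: sums -/

set_option autoImplicit false

namespace Pool.MP_ed1a61_al.Fill

open Equiv

variable {Ω Ω' : Type}

private theorem conn_map {σ π : Perm Ω} {σ' π' : Perm Ω'} (f : Ω → Ω')
    (h1 : ∀ x, f (σ x) = σ' (f x)) (h2 : ∀ x, f (π x) = π' (f x)) {x y : Ω}
    (h : (connS σ π) x y) : (connS σ' π') (f x) (f y) := by
  have h' : Relation.EqvGen (fun x y => y = σ x ∨ y = π x) x y := h
  induction h' with
  | rel a b hab =>
    rcases hab with rfl | rfl
    · rw [h1]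
      exact conn_left σ' π' (f a)
    · rw [h2]
      exact conn_right σ' π' (f a)
  | refl a => exact (connS σ' π').refl _
  | symm a b _ ih => exact (connS σ' π').symm (ih ‹_›)
  | trans a b c _ _ ih1 ih2 => exact (connS σ' π').trans (ih1 ‹_›) (ih2 ‹_›)

theorem comps_self (π : Perm Ω) : comps π π = cyc π := by
  have h : connS π π = Perm.SameCycle.setoid π := by
    ext x y
    constructor
    · intro h
      have h' : Relation.EqvGen (fun x y => y = π x ∨ y = π x) x y := h
      induction h' with
      | rel a b hab =>
        rw [or_self] at hab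
        rw [hab]
        exact Perm.sameCycle_apply_right.2 (Perm.SameCycle.refl π a)
      | refl a => exact Perm.SameCycle.refl π a
      | symm a b _ ih => exact Perm.SameCycle.symm (ih ‹_›)
      | trans a b c _ _ ih1 ih2 => exact Perm.SameCycle.trans (ih1 ‹_›) (ih2 ‹_›)
    · intro h
      exact conn_of_sameCycle h
  unfold comps cyc
  rw [h]

theorem comps_equiv (e : Ω ≃ Ω') (σ π : Perm Ω) :
    comps (e.permCongr σ) (e.permCongr π) = comps σ π := by
  unfold comps
  refine (Nat.card_congr (Quotient.congr e fun x y => ?_)).symm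
  constructor
  · intro h
    exact conn_map e (fun x => by simp) (fun x => by simp) h
  · intro h
    have h3 := conn_map (σ' := σ) (π' := π) e.symm (fun x => by simp) (fun x => by simp) h
    rwa [e.symm_apply_apply, e.symm_apply_apply] at h3

private theorem conn_sum {σ π : Perm Ω} {σ' π' : Perm Ω'} {a b : Ω ⊕ Ω'}
    (h : (connS (Perm.sumCongr σ σ') (Perm.sumCongr π π')) a b) :
    (Sum.map (Quotient.mk (connS σ π)) (Quotient.mk (connS σ' π')) a) =
      Sum.map (Quotient.mk (connS σ π)) (Quotient.mk (connS σ' π')) b := by
  have h' : Relation.EqvGen (fun x y => y = Perm.sumCongr σ σ' x ∨ y = Perm.sumCongr π π' x) a b :=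
    h
  induction h' with
  | rel a b hab =>
    rcases hab with rfl | rfl
    · rcases a with x | x
      · exact congrArg Sum.inl (Quotient.sound (conn_left σ π x))
      · exact congrArg Sum.inr (Quotient.sound (conn_left σ' π' x))
    · rcases a with x | x
      · exact congrArg Sum.inl (Quotient.sound (conn_right σ π x))
      · exact congrArg Sum.inr (Quotient.sound (conn_right σ' π' x))
  | refl a => rfl
  | symm a b _ ih => exact (ih ‹_›).symm
  | trans a b c _ _ ih1 ih2 => exact (ih1 ‹_›).trans (ih2 ‹_›)

theorem comps_sum [Finite Ω] [Finite Ω'] (σ π : Perm Ω) (σ' π' : Perm Ω') :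
    comps (Perm.sumCongr σ σ') (Perm.sumCongr π π') = comps σ π + comps σ' π' := by
  unfold comps
  rw [← Nat.card_sum]
  refine Nat.card_congr ⟨Quotient.lift (Sum.map (Quotient.mk (connS σ π))
    (Quotient.mk (connS σ' π'))) fun a b h => conn_sum h,
    Sum.elim (Quotient.map Sum.inl fun a b h => ?_) (Quotient.map Sum.inr fun a b h => ?_),
    ?_, ?_⟩
  · exact conn_map (σ' := Perm.sumCongr σ σ') (π' := Perm.sumCongr π π') Sum.inl
      (fun x => rfl) (fun x => rfl) h
  · exact conn_map (σ' := Perm.sumCongr σ σ') (π' := Perm.sumCongr π π') Sum.inr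
      (fun x => rfl) (fun x => rfl) h
  · intro q
    induction q using Quotient.inductionOn with
    | h a =>
      rcases a with x | x
      · rfl
      · rfl
  · intro q
    rcases q with q | q
    · induction q using Quotient.inductionOn with
      | h a => rfl
    · induction q using Quotient.inductionOn with
      | h a => rfl

end Pool.MP_ed1a61_al.Fill
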