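import Pool.Agent.Lib.MP_ed1a61_al.Fill.StrOps
import Pool.Agent.Lib.MP_ed1a61_al.Fill.Comps

/-! # Surfaces with several boundary components -/

set_option autoImplicit false

namespace Pool.MP_ed1a61_al.Fill

open Equiv

variable {α : Type}

private theorem Red2_disj {Ω : Type} {l l' : List Ω} {rest : List (List Ω)}
    (h : (l :: l' :: rest).flatten.Nodup) {b : Ω} (h1 : b ∈ l) (h2 : b ∈ l') : False := by
  rw [List.flatten_cons, List.flatten_cons] at h
  exact List.disjoint_of_nodup_append h h1 (List.mem_append_left _ h2)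

private theorem Red2_conn {Ω : Type} [DecidableEq Ω] {σ π : Perm Ω}
    {lab : Ω → α × Bool} {ls : List (List Ω)} (h : IsStr σ π lab ls) {l : List Ω} (hl : l ∈ ls)
    (hC : ∀ p ∈ l, π p ∈ l) {a b : Ω} (hab : (connS σ π) a b) : a ∈ l ↔ b ∈ l := by
  have hab' : Relation.EqvGen (fun x y => y = σ x ∨ y = π x) a b := hab
  induction hab' with
  | rel x y hxy =>
    rcases hxy with rfl | rfl
    · refine ⟨fun hx => h.sig_mem hl hx, fun hx => ?_⟩
      exact (h.sameCycle_iff hl hx).1 (Perm.sameCycle_apply_left.2 (Perm.SameCycle.refl _ _))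
    · refine ⟨fun hx => hC _ hx, fun hx => ?_⟩
      have h1 := hC _ hx
      rwa [h.inv] at h1
  | refl x => exact Iff.rfl
  | symm x y _ ih => exact (ih ‹_›).symm
  | trans x y z _ _ ih1 ih2 => exact (ih1 ‹_›).trans (ih2 ‹_›)

/-- one step for a surface with several boundary components: two of them can be joined -/
theorem str_reduce_many {κ : ℤ} {Ω : Type} [Finite Ω] [DecidableEq Ω] {σ π : Perm Ω}
    {lab : Ω → α × Bool} {ls : List (List Ω)} (h : IsStr σ π lab ls) (hg : gen σ π ≤ κ)
    (hne : ∀ l ∈ ls, l ≠ []) (hlen : 2 ≤ ls.length) :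
    ∃ (u v : List (α × Bool)) (ws : List (List (α × Bool))),
      u ≠ [] ∧ v ≠ [] ∧ (∀ w ∈ ws, w ≠ []) ∧ Str κ ((u ++ v) :: ws) ∧
      ∃ (u' v' : List (α × Bool)), u'.IsRotated u ∧ v'.IsRotated v ∧
        (u' :: v' :: ws).Perm (ls.map (List.map lab)) := by
  by_cases hC : ∀ l ∈ ls, ∀ p ∈ l, π p ∈ l
  · obtain ⟨l, l', rest, rfl⟩ : ∃ l l' rest, ls = l :: l' :: rest := by
      match ls, hlen with
      | l :: l' :: rest, _ => exact ⟨l, l', rest, rfl⟩
    have hl : l ∈ l :: l' :: rest := List.mem_cons_self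
    have hl' : l' ∈ l :: l' :: rest := List.mem_cons_of_mem _ List.mem_cons_self
    obtain ⟨σ', h', hg'⟩ := h.join_diff (fun a ha b hb hab =>
      Red2_disj h.nodup ((Red2_conn h hl (hC l hl) hab).1 ha) hb)
    refine ⟨l.map lab, l'.map lab, rest.map (List.map lab), ?_, ?_, ?_, ?_,
      l.map lab, l'.map lab, List.IsRotated.refl _, List.IsRotated.refl _, List.Perm.refl _⟩
    · simpa using hne l hl
    · simpa using hne l' hl'
    · intro w hw
      obtain ⟨x, hx, rfl⟩ := List.mem_map.1 hw
      simpa using hne x (List.mem_cons_of_mem _ (List.mem_cons_of_mem _ hx))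
    · exact ⟨Ω, inferInstance, inferInstance, σ', π, lab, _, h', by simp, hg'.trans hg⟩
  · push Not at hC
    obtain ⟨l, hl, p, hp, hpl⟩ := hC
    have hq : π p ∈ ls.flatten := h.pi_mem_flatten.2 (List.mem_flatten.2 ⟨l, hl, hp⟩)
    obtain ⟨l', hl', hpl'⟩ := List.mem_flatten.1 hq
    have hll' : l' ≠ l := by
      rintro rfl
      exact hpl hpl'
    have hP : ls.Perm (l :: l' :: (ls.erase l).erase l') :=
      (List.perm_cons_erase hl).trans
        ((List.perm_cons_erase ((List.mem_erase_of_ne hll').2 hl')).cons l)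
    set rest := (ls.erase l).erase l' with hrest
    obtain ⟨s, t, rfl⟩ := List.append_of_mem hp
    obtain ⟨s', t', hst'⟩ := List.append_of_mem hpl'
    have hr1 : (s ++ p :: t).rotate s.length = p :: (t ++ s) := by
      rw [List.rotate_append_length_eq, List.cons_append]
    have hr2 : l'.rotate (s' ++ [π p]).length = (t' ++ s') ++ [π p] := by
      have e : l' = (s' ++ [π p]) ++ t' := by rw [hst']; simp
      rw [e, List.rotate_append_length_eq, List.append_assoc]
    have h1 := (h.perm hP).rotate s.length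
    rw [hr1] at h1
    have h2 := (h1.perm (List.Perm.swap _ _ _)).rotate (s' ++ [π p]).length
    rw [hr2] at h2
    have h3 := h2.perm (List.Perm.swap _ _ _)
    obtain ⟨σ', h', hg'⟩ := h3.join_band rfl
    refine ⟨(p :: (t ++ s)).map lab, ((t' ++ s') ++ [π p]).map lab, rest.map (List.map lab),
      by simp, by simp, ?_, ?_, (s ++ p :: t).map lab, l'.map lab, ?_, ?_, ?_⟩
    · intro w hw
      obtain ⟨x, hx, rfl⟩ := List.mem_map.1 hw
      have hx' : x ∈ ls := List.mem_of_mem_erase (List.mem_of_mem_erase hx)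
      simpa using hne x hx'
    · exact ⟨Ω, inferInstance, inferInstance, σ', π, lab, _, h', by simp, hg'.trans hg⟩
    · refine List.IsRotated.map ?_ lab
      exact ⟨s.length, hr1⟩
    · refine List.IsRotated.map ?_ lab
      exact ⟨_, hr2⟩
    · exact (hP.map (List.map lab)).symm

end Pool.MP_ed1a61_al.Fill
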