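import Pool.Agent.Lib.MP_ed1a61_al.Fill.Red1
import Pool.Agent.Lib.MP_ed1a61_al.Fill.Red2
import Pool.Agent.Lib.MP_ed1a61_al.Fill.BdBasic

/-! # From surfaces to algebra -/

set_option autoImplicit false

namespace Pool.MP_ed1a61_al.Fill

open Equiv

variable {α : Type}

theorem BdOfStr_isConj {w w' : List (α × Bool)} (h : w.IsRotated w') :
    IsConj (FreeGroup.mk w) (FreeGroup.mk w') := by
  obtain ⟨n, rfl⟩ := h
  rw [List.rotate_eq_drop_append_take_mod]
  have h1 : FreeGroup.mk w = FreeGroup.mk (w.take (n % w.length)) *
      FreeGroup.mk (w.drop (n % w.length)) := by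
    rw [FreeGroup.mul_mk, List.take_append_drop]
  rw [h1, ← FreeGroup.mul_mk, isConj_iff]
  exact ⟨(FreeGroup.mk (w.take (n % w.length)))⁻¹, by group⟩

/-- a surface without boundary has nonnegative genus -/
theorem str_nil_nonneg {κ : ℤ} (h : Str κ ([] : List (List (α × Bool)))) : 0 ≤ κ := by
  obtain ⟨Ω, hF, hD, σ, π, lab, ls, h1, h2, h3⟩ := h
  rw [List.map_eq_nil_iff] at h2
  subst h2
  have h4 : σ = π := by
    ext x
    exact h1.gar x (by simp)
  subst h4
  rw [gen_self h1.inv h1.pi_ne] at h3
  exact h3

theorem bd_of_str {κ : ℤ} {ws : List (List (α × Bool))} (h : Str κ ws) :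
    ∃ K : ℕ, 2 * (K : ℤ) ≤ κ ∧ Bd K (ws.map FreeGroup.mk) := by
  suffices H : ∀ (n : ℕ) (κ : ℤ) (ws : List (List (α × Bool))),
      (ws.map List.length).sum + ws.length < n → Str κ ws →
      ∃ K : ℕ, 2 * (K : ℤ) ≤ κ ∧ Bd K (ws.map FreeGroup.mk) from H _ κ ws (Nat.lt_succ_self _) h
  clear h
  intro n
  induction n with
  | zero => exact fun κ ws hn _ => absurd hn (Nat.not_lt_zero _)
  | succ n ih =>
    intro κ ws hn h
    classical
    by_cases hnil : [] ∈ ws
    · have hp := List.perm_cons_erase hnil
      have hlen : (ws.map List.length).sum = ((ws.erase []).map List.length).sum := by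
        have := (hp.map List.length).sum_eq
        simpa using this
      have hlen2 := hp.length_eq
      rw [List.length_cons] at hlen2
      obtain ⟨K, hK, hb⟩ := ih κ (ws.erase []) (by omega) (str_cons_nil.1 (h.perm hp))
      refine ⟨K, hK, ?_⟩
      have h1 : Bd K (([] :: ws.erase []).map FreeGroup.mk) := by
        rw [List.map_cons, ← FreeGroup.one_eq_mk]
        exact bd_one_iff.2 hb
      exact h1.perm (hp.symm.map _)
    · rcases ws with - | ⟨w, ws⟩
      · exact ⟨0, by simpa using str_nil_nonneg h, bd_nil⟩
      · obtain ⟨Ω, hF, hD, σ, π, lab, ls, h1, h2, h3⟩ := h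
        have hne : ∀ l ∈ ls, l ≠ [] := by
          rintro l hl rfl
          apply hnil
          rw [← h2]
          exact List.mem_map.2 ⟨[], hl, rfl⟩
        rcases ws with - | ⟨w2, ws⟩
        · -- one word
          obtain ⟨l, rfl⟩ : ∃ l, ls = [l] := by
            have := congrArg List.length h2
            simp only [List.length_map, List.length_cons, List.length_nil] at this
            exact List.length_eq_one_iff.1 this
          have h4 : l.map lab = w := by simpa using h2
          rcases str_reduce_one h1 h3 (hne l (by simp)) with ⟨x, u, hr, hs⟩ | ⟨x, u, v, hr, hs⟩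
          · rw [h4] at hr
            have hlen := hr.perm.length_eq
            simp only [List.length_cons] at hlen
            obtain ⟨K, hK, hb⟩ := ih κ [u] (by
              simp only [List.map_cons, List.map_nil, List.sum_cons, List.sum_nil,
                List.length_cons, List.length_nil] at hn ⊢
              omega) hs
            refine ⟨K, hK, ?_⟩
            rw [List.map_cons, List.map_nil] at hb ⊢
            rw [← mk_linv_cons x u] at hb
            exact hb.of_isConj (BdOfStr_isConj hr.symm)
          · rw [h4] at hr
            have hlen := hr.perm.length_eq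
            simp only [List.length_cons, List.length_append] at hlen
            obtain ⟨K, hK, hb⟩ := ih (κ - 2) [u, v] (by
              simp only [List.map_cons, List.map_nil, List.sum_cons, List.sum_nil,
                List.length_cons, List.length_nil] at hn ⊢
              omega) hs
            refine ⟨K + 1, by push_cast; linarith, ?_⟩
            rw [List.map_cons, List.map_cons, List.map_nil] at hb
            have h5 := hb.handle (FreeGroup.mk [x])
            have h6 : FreeGroup.mk [x] * FreeGroup.mk u * (FreeGroup.mk [x])⁻¹ * FreeGroup.mk v =
                FreeGroup.mk ((x :: u) ++ (linv x :: v)) := by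
              rw [FreeGroup.inv_mk, FreeGroup.mul_mk, FreeGroup.mul_mk, FreeGroup.mul_mk]
              congr 1
              simp [FreeGroup.invRev, linv]
            rw [h6] at h5
            rw [List.map_cons, List.map_nil]
            exact h5.of_isConj (BdOfStr_isConj hr.symm)
        · -- several words
          have hlen : 2 ≤ ls.length := by
            have := congrArg List.length h2
            simp only [List.length_map, List.length_cons] at this
            omega
          obtain ⟨u, v, ws', hu, hv, hws, hs, u', v', hu', hv', hp⟩ :=
            str_reduce_many h1 h3 hne hlen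
          rw [h2] at hp
          have hl1 := (hp.map List.length).sum_eq
          have hl2 := hp.length_eq
          have hl3 := hu'.perm.length_eq
          have hl4 := hv'.perm.length_eq
          simp only [List.map_cons, List.sum_cons, List.length_cons] at hl1 hl2 hn
          obtain ⟨K, hK, hb⟩ := ih κ ((u ++ v) :: ws') (by
            simp only [List.map_cons, List.sum_cons, List.length_cons, List.length_append]
            omega) hs
          refine ⟨K, hK, ?_⟩
          rw [List.map_cons, ← FreeGroup.mul_mk] at hb
          have h5 := (hb.split.of_isConj (BdOfStr_isConj hu'.symm)).perm (List.Perm.swap _ _ _)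
          have h6 := (h5.of_isConj (BdOfStr_isConj hv'.symm)).perm (List.Perm.swap _ _ _)
          exact h6.perm (hp.map FreeGroup.mk)

end Pool.MP_ed1a61_al.Fill
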