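import Pool.Agent.Lib.MP_ed1a61_al.Fill.Defs

/-! # Products of commutators -/

set_option autoImplicit false

namespace Pool.MP_ed1a61_al.Fill

variable {H H' : Type} [Group H] [Group H'] {k k' K : ℕ} {h h' u v x : H} {us us' : List H}

theorem CLBasic_mem_map (f : H →* H') {c : H} (hc : c ∈ commutatorSet H) :
    f c ∈ commutatorSet H' := by
  obtain ⟨a, b, rfl⟩ := hc
  exact ⟨f a, f b, (map_commutatorElement f a b).symm⟩

theorem cl_zero_iff : CL 0 h ↔ h = 1 := by
  constructor
  · rintro ⟨l, hl, -, rfl⟩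
    rw [List.length_eq_zero_iff] at hl
    rw [hl, List.prod_nil]
  · rintro rfl
    exact ⟨[], rfl, by simp, by simp⟩

theorem cl_one : CL k (1 : H) :=
  ⟨List.replicate k 1, List.length_replicate, fun c hc => by
    rw [List.eq_of_mem_replicate hc]
    exact one_mem_commutatorSet H, by simp⟩

theorem CL.mul (hc : CL k h) (hc' : CL k' h') : CL (k + k') (h * h') := by
  obtain ⟨l, h1, h2, h3⟩ := hc
  obtain ⟨l', h1', h2', h3'⟩ := hc'
  refine ⟨l ++ l', by rw [List.length_append, h1, h1'], fun c hc => ?_, by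
    rw [List.prod_append, h3, h3']⟩
  rcases List.mem_append.1 hc with h | h
  · exact h2 c h
  · exact h2' c h

theorem CL.mono (hc : CL k h) (hk : k ≤ k') : CL k' h := by
  have h1 := hc.mul (cl_one (H := H) (k := k' - k))
  rwa [mul_one, Nat.add_sub_cancel' hk] at h1

theorem CL.map (hc : CL k h) (f : H →* H') : CL k (f h) := by
  obtain ⟨l, h1, h2, h3⟩ := hc
  refine ⟨l.map f, by rw [List.length_map, h1], fun c hc => ?_, by
    rw [← map_list_prod, h3]⟩
  obtain ⟨a, ha, rfl⟩ := List.mem_map.1 hc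
  exact CLBasic_mem_map f (h2 a ha)

theorem CL.conj (hc : CL k h) (x : H) : CL k (x * h * x⁻¹) := by
  have h1 := hc.map (MulAut.conj x).toMonoidHom
  simpa using h1

theorem CL.of_isConj (hc : CL k h) (hh : IsConj h h') : CL k h' := by
  obtain ⟨c, rfl⟩ := isConj_iff.1 hh
  exact hc.conj c

theorem CL.inv (hc : CL k h) : CL k h⁻¹ := by
  obtain ⟨l, h1, h2, h3⟩ := hc
  refine ⟨(l.map (fun x => x⁻¹)).reverse, by rw [List.length_reverse, List.length_map, h1],
    fun c hc => ?_, by rw [← List.prod_inv_reverse, h3]⟩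
  rw [List.mem_reverse, List.mem_map] at hc
  obtain ⟨a, ha, rfl⟩ := hc
  obtain ⟨p, q, rfl⟩ := h2 a ha
  exact ⟨q, p, (commutatorElement_inv p q).symm⟩

theorem cl_commutator (a b : H) : CL 1 (a * b * a⁻¹ * b⁻¹) := by
  refine ⟨[a * b * a⁻¹ * b⁻¹], rfl, fun c hc => ?_, by simp⟩
  rw [List.mem_singleton] at hc
  rw [hc]
  exact ⟨a, b, commutatorElement_def a b⟩

theorem exists_cl (hh : h ∈ commutator H) : ∃ k, CL k h := by
  rw [commutator_eq_closure] at hh
  induction hh using Subgroup.closure_induction with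
  | mem c hc => exact ⟨1, [c], rfl, fun d hd => by rw [List.mem_singleton] at hd; rwa [hd],
      by simp⟩
  | one => exact ⟨0, cl_one⟩
  | mul a b _ _ iha ihb =>
    obtain ⟨k, hk⟩ := iha
    obtain ⟨k', hk'⟩ := ihb
    exact ⟨k + k', hk.mul hk'⟩
  | inv a _ iha =>
    obtain ⟨k, hk⟩ := iha
    exact ⟨k, hk.inv⟩

/-- commutators lift along surjections -/
theorem CL.lift {f : H →* H'} (hf : Function.Surjective f) {y : H'} (hc : CL k y) :
    ∃ x : H, CL k x ∧ f x = y := by
  obtain ⟨l, h1, h2, h3⟩ := hc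
  induction l generalizing k y with
  | nil =>
    refine ⟨1, cl_one, ?_⟩
    rw [map_one, ← h3, List.prod_nil]
  | cons c l ih =>
    obtain ⟨x, hx, hxy⟩ := ih (k := l.length) (y := l.prod) rfl
      (fun d hd => h2 d (List.mem_cons_of_mem _ hd)) rfl
    obtain ⟨p, q, hpq⟩ := h2 c List.mem_cons_self
    obtain ⟨a, rfl⟩ := hf p
    obtain ⟨b, rfl⟩ := hf q
    refine ⟨(a * b * a⁻¹ * b⁻¹) * x, ?_, ?_⟩
    · have h4 := (cl_commutator a b).mul hx
      rw [List.length_cons] at h1
      rwa [add_comm, h1] at h4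
    · rw [map_mul, hxy, ← h3, List.prod_cons, ← hpq, commutatorElement_def]
      simp

end Pool.MP_ed1a61_al.Fill
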