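import Pool.Agent.Lib.MP_ed1a61_al.Fill.Defs

/-! # Number of visits of a first position -/

set_option autoImplicit false

namespace Pool.MP_ed1a61_al.Fill

open Equiv

variable {α ι P : Type} (D : PD α ι P)

private theorem CardBase_dvd {n : ℕ} (hn : 0 < n) (m : ℕ) :
    List.countP (fun k => decide (n ∣ k)) (List.range (m * n)) = m := by
  induction m with
  | zero => simp
  | succ m ih =>
    rw [Nat.succ_mul, List.range_add, List.countP_append, ih, List.countP_map]
    congr 1
    have h1 : List.countP ((fun k => decide (n ∣ k)) ∘ fun x => m * n + x) (List.range n) =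
        List.count 0 (List.range n) := by
      rw [List.count_eq_countP]
      refine List.countP_congr fun k hk => ?_
      have hk' : k < n := List.mem_range.1 hk
      have e : n ∣ m * n + k ↔ n ∣ k := Nat.dvd_add_right (Dvd.intro_left m rfl)
      simp only [Function.comp, decide_eq_true_eq, e, beq_iff_eq]
      refine ⟨fun h => Nat.eq_zero_of_dvd_of_lt h hk', ?_⟩
      rintro rfl
      exact dvd_zero n
    rw [h1]
    exact List.count_eq_one_of_mem List.nodup_range (List.mem_range.2 hn)

private theorem CardBase_ty (j : Option (ι × Bool)) (k : ℕ) :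
    D.ty ((D.s ^ k) (D.base j)) = j := by
  induction k with
  | zero => exact D.ty_base j
  | succ k ih => rw [pow_succ', Perm.mul_apply, D.ty_s, ih]

private theorem CardBase_walk [DecidableEq P] [DecidableEq ι] (j j' : Option (ι × Bool)) (m : ℕ) :
    List.count (D.base j) (D.walk j' (m * D.len j')) = if j' = j then m else 0 := by
  unfold PD.walk
  rw [List.count_eq_countP, List.countP_map]
  by_cases hj : j' = j
  · subst hj
    rw [if_pos rfl]
    conv_rhs => rw [← CardBase_dvd (D.len_pos j') m]
    refine List.countP_congr fun k _ => ?_
    simp only [Function.comp, decide_eq_true_eq, beq_iff_eq]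
    exact D.per j' k
  · rw [if_neg hj, List.countP_eq_zero]
    intro k _ hk
    simp only [Function.comp, beq_iff_eq] at hk
    apply hj
    rw [← CardBase_ty D j' k, hk, D.ty_base]

private theorem CardBase_sum [DecidableEq ι] (js : List (Option (ι × Bool) × ℕ))
    (j : Option (ι × Bool)) :
    (js.map fun y => if y.1 = j then y.2 else 0).sum =
      ((js.filter (fun y => y.1 = j)).map Prod.snd).sum := by
  induction js with
  | nil => rfl
  | cons y js ih =>
    rw [List.map_cons, List.sum_cons, ih]
    by_cases hy : y.1 = j
    · rw [if_pos hy, List.filter_cons_of_pos (by simpa using hy), List.map_cons, List.sum_cons]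
    · rw [if_neg hy, List.filter_cons_of_neg (by simpa using hy), zero_add]

/-- number of visits of a first position -/
theorem card_base {Ω : Type} [Finite Ω] [DecidableEq Ω] {θ : Ω → P} {ls : List (List Ω)}
    (hnd : ls.flatten.Nodup) (hall : ∀ x, x ∈ ls.flatten) {js : List (Option (ι × Bool) × ℕ)}
    (hw : ls.map (List.map θ) = js.map (fun y => D.walk y.1 (y.2 * D.len y.1)))
    [DecidableEq ι] (j : Option (ι × Bool)) :
    Nat.card {x // θ x = D.base j} = ((js.filter (fun y => y.1 = j)).map Prod.snd).sum := by
  classical
  have h1 : Nat.card {x // θ x = D.base j} = List.count (D.base j) (ls.flatten.map θ) := by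
    rw [Nat.subtype_card ((ls.flatten.filter fun x => θ x = D.base j).toFinset) (by
      intro x
      rw [List.mem_toFinset, List.mem_filter, decide_eq_true_eq]
      exact ⟨fun h => h.2, fun h => ⟨hall x, h⟩⟩),
      List.toFinset_card_of_nodup (hnd.filter _), List.count_eq_countP,
      List.countP_map, List.countP_eq_length_filter]
    rfl
  rw [h1, List.map_flatten, hw, List.count_flatten, List.map_map, ← CardBase_sum]
  congr 1
  refine List.map_congr_left fun y _ => ?_
  exact CardBase_walk D j y.1 y.2

end Pool.MP_ed1a61_al.Fill
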