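import Pool.Agent.Lib.MP_ed1a61_al.Fill.Comps

/-! # The moves: how the genus changes -/

set_option autoImplicit false

namespace Pool.MP_ed1a61_al.Fill

open Equiv

variable {Ω Ω' : Type}

private theorem moves_conn_left {σ π : Perm Ω} {a b : Ω} (h : σ.SameCycle a b) :
    (connS σ π) a b := by
  exact conn_of_sameCycle h

private theorem moves_conn {σ π : Perm Ω} {a b : Ω} (h : (π * σ).SameCycle a b) :
    (connS σ π) a b := by
  exact conn_of_sameCycle_mul h

/-- cutting a boundary cycle does not increase the genus -/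
theorem gen_cut [Finite Ω] [DecidableEq Ω] {σ π : Perm Ω} {a b : Ω}
    (h : σ.SameCycle a b) (hab : a ≠ b) : gen (σ * swap a b) π ≤ gen σ π := by
  have h1 := cyc_mul_swap_same h hab
  by_cases h' : (π * σ).SameCycle a b
  · have h2 := cyc_mul_swap_same h' hab
    have h3 := comps_mul_swap_le σ π a b
    unfold gen
    rw [← mul_assoc]
    omega
  · have h2 := cyc_mul_swap_diff h'
    have h4 : (connS (σ * swap a b) π) a b := by
      apply moves_conn
      rw [← mul_assoc]
      exact sameCycle_mul_swap h'
    have h3 := comps_mul_swap_le_of_conn h4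
    unfold gen
    rw [← mul_assoc]
    omega

/-- cutting along a band without disconnecting decreases the genus -/
theorem gen_cut_lt [Finite Ω] [DecidableEq Ω] {σ π : Perm Ω} {a b : Ω}
    (h : σ.SameCycle a b) (hab : a ≠ b) (h' : (π * σ).SameCycle a b)
    (hc : (connS (σ * swap a b) π) a b) : gen (σ * swap a b) π ≤ gen σ π - 2 := by
  have h1 := cyc_mul_swap_same h hab
  have h2 := cyc_mul_swap_same h' hab
  have h3 := comps_mul_swap_le_of_conn hc
  unfold gen
  rw [← mul_assoc]
  omega

/-- joining two boundary cycles in different components does not change the genus -/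
theorem gen_join_diff [Finite Ω] [DecidableEq Ω] {σ π : Perm Ω} {a b : Ω}
    (h : ¬ (connS σ π) a b) : gen (σ * swap a b) π ≤ gen σ π := by
  have h1 := cyc_mul_swap_diff (σ := σ) (a := a) (b := b) fun h' => h (moves_conn_left h')
  have h2 := cyc_mul_swap_diff (σ := π * σ) (a := a) (b := b) fun h' => h (moves_conn h')
  have h3 := comps_mul_swap_lt h
  unfold gen
  rw [← mul_assoc]
  omega

/-- joining two boundary cycles across a band -/
theorem gen_join_band [Finite Ω] [DecidableEq Ω] {σ π : Perm Ω} {a b : Ω}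
    (h : ¬ σ.SameCycle a b) (h' : (π * σ).SameCycle a b) : gen (σ * swap a b) π ≤ gen σ π := by
  have hab : a ≠ b := by
    rintro rfl
    exact h (Perm.SameCycle.refl σ a)
  have h1 := cyc_mul_swap_diff h
  have h2 := cyc_mul_swap_same h' hab
  have h3 := comps_mul_swap_le_of_conn (π := π) (moves_conn_left (sameCycle_mul_swap h))
  unfold gen
  rw [← mul_assoc]
  omega

/-- joining two arbitrary boundary cycles -/
theorem gen_join [Finite Ω] [DecidableEq Ω] {σ π : Perm Ω} {a b : Ω}
    (h : ¬ σ.SameCycle a b) : gen (σ * swap a b) π ≤ gen σ π + 2 := by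
  have h1 := cyc_mul_swap_diff h
  have h3 := comps_mul_swap_le_of_conn (π := π) (moves_conn_left (sameCycle_mul_swap h))
  have hab : a ≠ b := by
    rintro rfl
    exact h (Perm.SameCycle.refl σ a)
  by_cases h' : (π * σ).SameCycle a b
  · have h2 := cyc_mul_swap_same h' hab
    unfold gen
    rw [← mul_assoc]
    omega
  · have h2 := cyc_mul_swap_diff h'
    unfold gen
    rw [← mul_assoc]
    omega

/-- removing a bigon -/
theorem gen_bigon [Finite Ω] [DecidableEq Ω] {σ π : Perm Ω} {p q u : Ω}
    (hpq : σ p = q) (hqp : σ q = p) (hne : p ≠ q) (hinv : ∀ x, π (π x) = x)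
    (hfix : ∀ x, π x ≠ x) (hu : π p = u) (huq : u ≠ q) :
    gen σ (swap q u * π * swap q u) ≤ gen σ π := by
  have hup : u ≠ p := fun e => hfix p (hu.trans e)
  have hπu : π u = p := by rw [← hu, hinv]
  set v := π q with hv
  have hπv : π v = q := by rw [hv, hinv]
  have hvq : v ≠ q := hfix q
  have hvu : v ≠ u := by
    intro e
    apply hne
    rw [← hπv, ← hπu, e]
  have hvp : v ≠ p := by
    intro e
    apply huq
    rw [← hu, ← e, hπv]
  set a := σ⁻¹ u with ha
  set b := σ⁻¹ v with hb
  have hσa : σ a = u := by rw [ha]; simp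
  have hσb : σ b = v := by rw [hb]; simp
  have hap : a ≠ p := by
    intro e
    rw [e, hpq] at hσa
    exact huq hσa.symm
  have haq : a ≠ q := by
    intro e
    rw [e, hqp] at hσa
    exact hup hσa.symm
  have hbp : b ≠ p := by
    intro e
    rw [e, hpq] at hσb
    exact hvq hσb.symm
  have hbq : b ≠ q := by
    intro e
    rw [e, hqp] at hσb
    exact hvp hσb.symm
  have hab : a ≠ b := by
    intro e
    apply hvu
    rw [← hσa, ← hσb, e]
  have key : swap q u * π * swap q u * σ = π * σ * swap p a * swap q b := by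
    ext x
    simp only [Perm.mul_apply]
    by_cases h1 : x = p
    · subst h1
      rw [hpq, swap_apply_left, hπu, swap_apply_of_ne_of_ne hne hup.symm,
        swap_apply_of_ne_of_ne hne hbp.symm, swap_apply_left, hσa, hπu]
    by_cases h2 : x = q
    · subst h2
      rw [hqp, swap_apply_of_ne_of_ne hne hup.symm, hu, swap_apply_right, swap_apply_left,
        swap_apply_of_ne_of_ne hbp hab.symm, hσb, hπv]
    by_cases h3 : x = a
    · rw [h3, hσa, swap_apply_right, ← hv, swap_apply_of_ne_of_ne hvq hvu,
        swap_apply_of_ne_of_ne haq hab, swap_apply_right, hpq, ← hv]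
    by_cases h4 : x = b
    · rw [h4, hσb, swap_apply_of_ne_of_ne hvq hvu, hπv, swap_apply_left, swap_apply_right,
        swap_apply_of_ne_of_ne hne.symm haq.symm, hqp, hu]
    have g1 : σ x ≠ q := fun e => h1 (σ.injective (e.trans hpq.symm))
    have g2 : σ x ≠ u := fun e => h3 (σ.injective (e.trans hσa.symm))
    have g3 : π (σ x) ≠ q := fun e => h4 (σ.injective ((π.injective (e.trans hπv.symm)).trans
      hσb.symm))
    have g4 : π (σ x) ≠ u := fun e => h2 (σ.injective ((π.injective (e.trans hu.symm)).trans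
      hqp.symm))
    rw [swap_apply_of_ne_of_ne g1 g2, swap_apply_of_ne_of_ne g3 g4,
      swap_apply_of_ne_of_ne h2 h4, swap_apply_of_ne_of_ne h1 h3]
  have c1 : cyc (π * σ * swap p a) = cyc (π * σ) + 1 := by
    apply cyc_mul_swap_same _ hap.symm
    have : (π * σ) a = p := by rw [Perm.mul_apply, hσa, hπu]
    rw [← this]
    exact (Perm.SameCycle.refl (π * σ) a).apply_left
  have c2 : cyc (π * σ * swap p a * swap q b) = cyc (π * σ * swap p a) + 1 := by
    apply cyc_mul_swap_same _ hbq.symm
    have : (π * σ * swap p a) b = q := by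
      rw [Perm.mul_apply, swap_apply_of_ne_of_ne hbp hab.symm, Perm.mul_apply, hσb, hπv]
    rw [← this]
    exact (Perm.SameCycle.refl (π * σ * swap p a) b).apply_left
  have c3 : cyc (swap q u * π * swap q u) = cyc π := by
    have := cyc_conj π (swap q u)
    rwa [swap_inv] at this
  have c4 := comps_bigon hpq hqp hne hinv hfix hu huq
  unfold gen
  rw [key, c3]
  omega

theorem gen_equiv (e : Ω ≃ Ω') (σ π : Perm Ω) :
    gen (e.permCongr σ) (e.permCongr π) = gen σ π := by
  unfold gen
  have h1 : e.permCongr π * e.permCongr σ = e.permCongr (π * σ) :=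
    (map_mul e.permCongrHom π σ).symm
  rw [comps_equiv, cyc_equiv, cyc_equiv, h1, cyc_equiv, Nat.card_congr e]

theorem gen_sum [Finite Ω] [Finite Ω'] (σ π : Perm Ω) (σ' π' : Perm Ω') :
    gen (Perm.sumCongr σ σ') (Perm.sumCongr π π') = gen σ π + gen σ' π' := by
  unfold gen
  rw [comps_sum, cyc_sum, cyc_sum, Perm.sumCongr_mul, cyc_sum, Nat.card_sum]
  push_cast
  ring

/-- garbage has genus zero -/
theorem gen_self [Finite Ω] {π : Perm Ω} (h : ∀ x, π (π x) = x) (h' : ∀ x, π x ≠ x) :
    gen π π = 0 := by
  have _ := h'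
  have h1 : π * π = 1 := by
    ext x
    simp [h]
  unfold gen
  rw [h1, comps_self, cyc_one]
  ring

end Pool.MP_ed1a61_al.Fill
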