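import Pool.Agent.Lib.MP_ed1a61_al.Fill.StrBasic
import Pool.Agent.Lib.MP_ed1a61_al.Fill.Moves

/-! # Removing the garbage -/

set_option autoImplicit false

namespace Pool.MP_ed1a61_al.Fill

open Equiv

private theorem Clean_formPerm_map {A B : Type} [DecidableEq A] [DecidableEq B] {f : A → B}
    (hf : Function.Injective f) (l : List A) (x : A) :
    (l.map f).formPerm (f x) = f (l.formPerm x) := by
  induction l with
  | nil => simp
  | cons a l ih =>
    cases l with
    | nil => simp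
    | cons b l =>
      rw [List.map_cons, List.map_cons, List.formPerm_cons_cons, List.formPerm_cons_cons,
        Perm.mul_apply, Perm.mul_apply, ← List.map_cons, ih]
      exact (hf.map_swap _ _ _).symm

theorem exists_clean {α : Type} {κ : ℤ} {ws : List (List (α × Bool))} (h : Str κ ws) :
    ∃ (Ω : Type) (_ : Finite Ω) (_ : DecidableEq Ω) (σ π : Perm Ω) (lab : Ω → α × Bool)
      (ls : List (List Ω)), IsStr σ π lab ls ∧ ls.map (List.map lab) = ws ∧ gen σ π ≤ κ ∧
      ∀ x, x ∈ ls.flatten := by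
  classical
  obtain ⟨Ω, hΩ, hD, σ, π, lab, ls, hs, hls, hg⟩ := h
  have hσ : ∀ x, (σ x ∈ ls.flatten ↔ x ∈ ls.flatten) := fun x => hs.sig_mem_flatten
  have hπ : ∀ x, (π x ∈ ls.flatten ↔ x ∈ ls.flatten) := fun x => hs.pi_mem_flatten
  have hσ' : ∀ x, (σ x ∉ ls.flatten ↔ x ∉ ls.flatten) := fun x => not_congr (hσ x)
  have hπ' : ∀ x, (π x ∉ ls.flatten ↔ x ∉ ls.flatten) := fun x => not_congr (hπ x)
  let σ₁ : Perm {x // x ∈ ls.flatten} := σ.subtypePerm hσ
  let π₁ : Perm {x // x ∈ ls.flatten} := π.subtypePerm hπ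
  let σ₂ : Perm {x // x ∉ ls.flatten} := σ.subtypePerm hσ'
  let π₂ : Perm {x // x ∉ ls.flatten} := π.subtypePerm hπ'
  let e : {x // x ∈ ls.flatten} ⊕ {x // x ∉ ls.flatten} ≃ Ω := Equiv.sumCompl _
  have he : ∀ (τ : Perm Ω) (h1 : ∀ x, (τ x ∈ ls.flatten ↔ x ∈ ls.flatten))
      (h2 : ∀ x, (τ x ∉ ls.flatten ↔ x ∉ ls.flatten)),
      e.permCongr (Perm.sumCongr (τ.subtypePerm h1) (τ.subtypePerm h2)) = τ := by
    intro τ h1 h2
    ext x
    obtain ⟨y, rfl⟩ := e.surjective x
    rw [Equiv.permCongr_apply, Equiv.symm_apply_apply]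
    rcases y with y | y
    · rfl
    · rfl
  have hgen : gen σ π = gen σ₁ π₁ := by
    have h1 : gen σ π = gen (Perm.sumCongr σ₁ σ₂) (Perm.sumCongr π₁ π₂) := by
      rw [← gen_equiv e, he σ hσ hσ', he π hπ hπ']
    have h2 : σ₂ = π₂ := by
      ext x
      exact hs.gar x.1 x.2
    have h3 : gen π₂ π₂ = 0 := by
      refine gen_self (fun x => ?_) (fun x hx => ?_)
      · exact Subtype.ext (hs.inv x.1)
      · exact hs.pi_ne x.1 (congrArg Subtype.val hx)
    rw [h1, gen_sum, h2, h3, add_zero]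
  have hmem : ∀ l ∈ ls, ∀ x ∈ l, x ∈ ls.flatten := fun l hl x hx =>
    List.mem_flatten.2 ⟨l, hl, hx⟩
  let ls' : List (List {x // x ∈ ls.flatten}) :=
    ls.pmap (fun l hl => l.pmap (fun x hx => ⟨x, hx⟩) hl) hmem
  have hval : ls'.map (List.map Subtype.val) = ls := by
    show (ls.pmap (fun l hl => l.pmap (fun x hx => ⟨x, hx⟩) hl) hmem).map
      (List.map Subtype.val) = ls
    rw [List.map_pmap]
    have : ∀ (l : List Ω) (hl : ∀ x ∈ l, x ∈ ls.flatten),
        List.map Subtype.val (l.pmap (fun x hx => (⟨x, hx⟩ : {x // x ∈ ls.flatten})) hl) = l := by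
      intro l hl
      rw [List.map_pmap]
      simp
    simp only [this]
    simp
  have hflat : ls'.flatten.map Subtype.val = ls.flatten := by
    rw [List.map_flatten, hval]
  have hall : ∀ x, x ∈ ls'.flatten := by
    intro x
    have h1 : x.1 ∈ ls'.flatten.map Subtype.val := by
      rw [hflat]
      exact x.2
    obtain ⟨y, hy, hyx⟩ := List.mem_map.1 h1
    rwa [Subtype.ext hyx] at hy
  refine ⟨{x // x ∈ ls.flatten}, inferInstance, inferInstance, σ₁, π₁, fun x => lab x.1, ls',
    ⟨?_, ?_, ?_, ?_, ?_⟩, ?_, ?_, hall⟩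
  · intro x
    exact Subtype.ext (hs.inv x.1)
  · intro x
    exact hs.lab_inv x.1
  · refine List.Nodup.of_map Subtype.val ?_
    rw [hflat]
    exact hs.nodup
  · intro l hl x hx
    apply Subtype.ext
    have h1 : l.map Subtype.val ∈ ls := by
      have h0 : l.map Subtype.val ∈ ls'.map (List.map Subtype.val) := List.mem_map_of_mem hl
      rwa [hval] at h0
    have h2 := hs.sig _ h1 x.1 (List.mem_map_of_mem hx)
    rw [Clean_formPerm_map Subtype.val_injective] at h2
    exact h2
  · intro x hx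
    exact absurd (hall x) hx
  · have h0 : ls.map (List.map lab) = (ls'.map (List.map Subtype.val)).map (List.map lab) := by
      rw [hval]
    rw [← hls, h0, List.map_map]
    refine List.map_congr_left fun l _ => ?_
    rw [Function.comp_apply, List.map_map]
    rfl
  · rw [← hgen]
    exact hg

end Pool.MP_ed1a61_al.Fill
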