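import Pool.Agent.Lib.MP_ed1a61_al.Fill.ConnBasic

/-! # Counting components: multiplication by a swap -/

set_option autoImplicit false

namespace Pool.MP_ed1a61_al.Fill

open Equiv

variable {Ω Ω' : Type}

/-- `connS` is the smallest equivalence relation -/
private theorem conn_le {σ π : Perm Ω} {S : Setoid Ω} (h1 : ∀ x, S x (σ x))
    (h2 : ∀ x, S x (π x)) {x y : Ω} (h : (connS σ π) x y) : S x y := by
  have h' : Relation.EqvGen (fun x y => y = σ x ∨ y = π x) x y := h
  clear h
  induction h' with
  | rel x y h =>
    rcases h with rfl | rfl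
    · exact h1 _
    · exact h2 _
  | refl x => exact S.refl' x
  | symm x y _ ih => exact S.symm' ih
  | trans x y z _ _ ih1 ih2 => exact S.trans' ih1 ih2

private theorem swap_cases [DecidableEq Ω] (σ : Perm Ω) (a b x : Ω) :
    (x = a ∧ σ x = (σ * swap a b) b) ∨ (x = b ∧ σ x = (σ * swap a b) a) ∨
      σ x = (σ * swap a b) x := by
  by_cases ha : x = a
  · left
    subst ha
    simp
  · by_cases hb : x = b
    · right; left
      subst hb
      simp
    · right; right
      rw [Perm.mul_apply, swap_apply_of_ne_of_ne ha hb]

/-- cutting increases the number of components at most by one -/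
theorem comps_mul_swap_le [Finite Ω] [DecidableEq Ω] (σ π : Perm Ω) (a b : Ω) :
    comps (σ * swap a b) π ≤ comps σ π + 1 := by
  classical
  set R := connS σ π with hR
  set R' := connS (σ * swap a b) π with hR'
  let g : Quotient R' → Quotient R' := fun c => if c = Quotient.mk R' b then Quotient.mk R' a else c
  have ga : g (Quotient.mk R' a) = Quotient.mk R' a := by
    simp only [g]
    split_ifs <;> rfl
  have gb : g (Quotient.mk R' b) = Quotient.mk R' a := by
    simp only [g, if_true]
  have e' : ∀ x, Quotient.mk R' ((σ * swap a b) x) = Quotient.mk R' x := fun x =>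
    (Quotient.sound (conn_left (σ * swap a b) π x)).symm
  have key : ∀ {x y : Ω}, R x y → g (Quotient.mk R' x) = g (Quotient.mk R' y) := by
    intro x y h
    have : Setoid.ker (fun x => g (Quotient.mk R' x)) x y := by
      refine conn_le ?_ ?_ h
      · intro x
        rw [Setoid.ker_def]
        rcases swap_cases σ a b x with ⟨rfl, h⟩ | ⟨rfl, h⟩ | h
        · rw [h, e', ga, gb]
        · rw [h, e', ga, gb]
        · rw [h, e']
      · intro x
        rw [Setoid.ker_def]
        exact congrArg g (Quotient.sound (conn_right (σ * swap a b) π x))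
    exact this
  let F : Quotient R' → Option (Quotient R) := fun c =>
    if c = Quotient.mk R' b then none else some (Quotient.mk R c.out)
  have hF : Function.Injective F := by
    intro c d h
    simp only [F] at h
    by_cases hc : c = Quotient.mk R' b
    · by_cases hd : d = Quotient.mk R' b
      · rw [hc, hd]
      · rw [if_pos hc, if_neg hd] at h
        exact absurd h (by simp)
    · by_cases hd : d = Quotient.mk R' b
      · rw [if_neg hc, if_pos hd] at h
        exact absurd h (by simp)
      · rw [if_neg hc, if_neg hd] at h
        have h2 : R c.out d.out := Quotient.exact (Option.some.inj h)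
        have h3 := key h2
        rw [Quotient.out_eq, Quotient.out_eq] at h3
        simp only [g, if_neg hc, if_neg hd] at h3
        exact h3
  have h := Nat.card_le_card_of_injective F hF
  rw [Finite.card_option] at h
  exact h

private theorem conn_le_of_conn [DecidableEq Ω] {σ π : Perm Ω} {a b : Ω}
    (h : (connS (σ * swap a b) π) a b) {x y : Ω} (hxy : (connS σ π) x y) :
    (connS (σ * swap a b) π) x y := by
  refine conn_le (fun x => ?_) (fun x => conn_right _ _ x) hxy
  rcases swap_cases σ a b x with ⟨rfl, e⟩ | ⟨rfl, e⟩ | e
  · rw [e]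
    exact (connS _ π).trans' h (conn_left _ _ _)
  · rw [e]
    exact (connS _ π).trans' ((connS _ π).symm' h) (conn_left _ _ _)
  · rw [e]
    exact conn_left _ _ _

theorem comps_mul_swap_le_of_conn [Finite Ω] [DecidableEq Ω] {σ π : Perm Ω} {a b : Ω}
    (h : (connS (σ * swap a b) π) a b) : comps (σ * swap a b) π ≤ comps σ π := by
  let f : Quotient (connS σ π) → Quotient (connS (σ * swap a b) π) :=
    Quotient.map' id fun _ _ hxy => conn_le_of_conn h hxy
  have hf : Function.Surjective f := by
    intro c
    obtain ⟨x, rfl⟩ := Quotient.exists_rep c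
    exact ⟨Quotient.mk _ x, rfl⟩
  exact Nat.card_le_card_of_surjective f hf

theorem comps_mul_swap_lt [Finite Ω] [DecidableEq Ω] {σ π : Perm Ω} {a b : Ω}
    (h : ¬ (connS σ π) a b) : comps (σ * swap a b) π + 1 ≤ comps σ π := by
  classical
  have hc : ¬ σ.SameCycle a b := fun hs => h (conn_of_sameCycle hs)
  have h' : (connS (σ * swap a b) π) a b := conn_of_sameCycle (sameCycle_mul_swap hc)
  let f : Quotient (connS σ π) → Quotient (connS (σ * swap a b) π) :=
    Quotient.map' id fun _ _ hxy => conn_le_of_conn h' hxy
  have hf : Function.Surjective f := by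
    intro c
    obtain ⟨x, rfl⟩ := Quotient.exists_rep c
    exact ⟨Quotient.mk _ x, rfl⟩
  have hn : ¬ Function.Injective f := by
    intro hi
    have e : f (Quotient.mk _ a) = f (Quotient.mk _ b) :=
      (Quotient.sound h' : Quotient.mk (connS (σ * swap a b) π) a = Quotient.mk _ b)
    exact h (Quotient.exact (hi e))
  haveI := Fintype.ofFinite (Quotient (connS σ π))
  haveI := Fintype.ofFinite (Quotient (connS (σ * swap a b) π))
  have := Fintype.card_lt_of_surjective_not_injective f hf hn
  rw [comps, comps, Nat.card_eq_fintype_card, Nat.card_eq_fintype_card]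
  exact this

end Pool.MP_ed1a61_al.Fill
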