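import Pool.Agent.Lib.MP_ed1a61_al.Fill.Defs

/-! # Cyclically reduced representatives -/

set_option autoImplicit false

namespace Pool.MP_ed1a61_al.Fill

open Equiv

variable {α ι : Type}

/-- cyclically reduced representatives -/
theorem exists_cyc_red (h : FreeGroup α) (h1 : h ≠ 1) :
    ∃ w : List (α × Bool), w ≠ [] ∧ FreeGroup.IsCyclicallyReduced w ∧
      IsConj h (FreeGroup.mk w) := by
  classical
  have hconj := FreeGroup.reduceCyclically.conj_conjugator_reduceCyclically h.toWord
  have hh : h = FreeGroup.mk (FreeGroup.reduceCyclically.conjugator h.toWord) *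
      FreeGroup.mk (FreeGroup.reduceCyclically h.toWord) *
      (FreeGroup.mk (FreeGroup.reduceCyclically.conjugator h.toWord))⁻¹ := by
    rw [FreeGroup.inv_mk, FreeGroup.mul_mk, FreeGroup.mul_mk, hconj, FreeGroup.mk_toWord]
  refine ⟨FreeGroup.reduceCyclically h.toWord, ?_, ?_, ?_⟩
  · intro hw
    apply h1
    rw [hh, hw]
    have : (FreeGroup.mk ([] : List (α × Bool))) = 1 := rfl
    rw [this, mul_one, mul_inv_cancel]
  · exact FreeGroup.reduceCyclically.isCyclicallyReduced FreeGroup.isReduced_toWord
  · apply IsConj.symm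
    rw [isConj_iff]
    exact ⟨FreeGroup.mk (FreeGroup.reduceCyclically.conjugator h.toWord), hh.symm⟩

end Pool.MP_ed1a61_al.Fill
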