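import Pool.Agent.Lib.MP_ed1a61_al.Fill.Defs

/-! # The position data of cyclically reduced words -/

set_option autoImplicit false

namespace Pool.MP_ed1a61_al.Fill

open Equiv

variable {α ι : Type}

/-- positions -/
abbrev PDWords_P (W : Option (ι × Bool) → List (α × Bool)) : Type :=
  {p : Option (ι × Bool) × ℕ // p.2 < (W p.1).length}

theorem PDWords_pos {W : Option (ι × Bool) → List (α × Bool)} (hne : ∀ j, W j ≠ [])
    (j : Option (ι × Bool)) : 0 < (W j).length :=
  List.length_pos_iff.2 (hne j)

/-- the next position -/
def PDWords_s {W : Option (ι × Bool) → List (α × Bool)} (hne : ∀ j, W j ≠ []) :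
    Perm (PDWords_P W) where
  toFun p := ⟨(p.1.1, (p.1.2 + 1) % (W p.1.1).length), Nat.mod_lt _ (PDWords_pos hne _)⟩
  invFun p := ⟨(p.1.1, (p.1.2 + (W p.1.1).length - 1) % (W p.1.1).length),
    Nat.mod_lt _ (PDWords_pos hne _)⟩
  left_inv := by
    rintro ⟨⟨j, k⟩, hk⟩
    have h0 := PDWords_pos hne j
    apply Subtype.ext
    change k < (W j).length at hk
    change (j, ((k + 1) % (W j).length + (W j).length - 1) % (W j).length) = (j, k)
    congr 1
    rcases Nat.lt_or_ge (k + 1) (W j).length with h | h
    · rw [Nat.mod_eq_of_lt h]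
      have h1 : k + 1 + (W j).length - 1 = k + (W j).length := by omega
      rw [h1, Nat.add_mod_right, Nat.mod_eq_of_lt hk]
    · have h1 : k + 1 = (W j).length := by omega
      rw [h1, Nat.mod_self, Nat.zero_add, Nat.mod_eq_of_lt (by omega)]
      omega
  right_inv := by
    rintro ⟨⟨j, k⟩, hk⟩
    have h0 := PDWords_pos hne j
    apply Subtype.ext
    change k < (W j).length at hk
    change (j, ((k + (W j).length - 1) % (W j).length + 1) % (W j).length) = (j, k)
    congr 1
    rcases Nat.eq_zero_or_pos k with h | h
    · subst h
      rw [Nat.zero_add, Nat.mod_eq_of_lt (a := (W j).length - 1) (by omega),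
        Nat.sub_add_cancel h0, Nat.mod_self]
    · have h1 : k + (W j).length - 1 = k - 1 + (W j).length := by omega
      rw [h1, Nat.add_mod_right, Nat.mod_eq_of_lt (a := k - 1) (by omega),
        Nat.sub_add_cancel h, Nat.mod_eq_of_lt hk]

theorem PDWords_pow {W : Option (ι × Bool) → List (α × Bool)} (hne : ∀ j, W j ≠ [])
    (j : Option (ι × Bool)) (m : ℕ) (h0 : 0 < (W j).length) :
    ((PDWords_s hne) ^ m) ⟨(j, 0), h0⟩ = ⟨(j, m % (W j).length), Nat.mod_lt _ h0⟩ := by
  induction m with
  | zero =>
    apply Subtype.ext
    change (j, 0) = (j, 0 % (W j).length)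
    rw [Nat.zero_mod]
  | succ m ih =>
    rw [pow_succ', Perm.mul_apply, ih]
    apply Subtype.ext
    change (j, (m % (W j).length + 1) % (W j).length) = (j, (m + 1) % (W j).length)
    congr 1
    simp [Nat.add_mod]

/-- the mirror position -/
def PDWords_mu {W : Option (ι × Bool) → List (α × Bool)}
    (hlen : ∀ i ε, (W (some (i, !ε))).length = (W (some (i, ε))).length) :
    PDWords_P W → PDWords_P W
  | ⟨(none, k), hk⟩ => ⟨(none, k), hk⟩
  | ⟨(some (i, ε), k), hk⟩ => ⟨(some (i, !ε), (W (some (i, ε))).length - 1 - k), by
      change k < (W (some (i, ε))).length at hk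
      change (W (some (i, ε))).length - 1 - k < (W (some (i, !ε))).length
      rw [hlen]
      omega⟩

theorem PDWords_red {w : List (α × Bool)} (h : FreeGroup.IsCyclicallyReduced w) {k : ℕ}
    (hk : k < w.length) (hk' : (k + 1) % w.length < w.length) :
    w[(k + 1) % w.length] ≠ linv w[k] := by
  obtain ⟨h1, h2⟩ := FreeGroup.isCyclicallyReduced_iff.1 h
  intro hc
  have key : w[k].1 = w[(k + 1) % w.length].1 → w[k].2 = w[(k + 1) % w.length].2 := by
    rcases Nat.lt_or_ge (k + 1) w.length with h3 | h3
    · have h4 := List.isChain_iff_getElem.1 h1 k h3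
      have h5 : (k + 1) % w.length = k + 1 := Nat.mod_eq_of_lt h3
      simp only [h5]
      exact h4
    · have h4 : k + 1 = w.length := by omega
      have h5 : (k + 1) % w.length = 0 := by rw [h4, Nat.mod_self]
      simp only [h5]
      refine h2 w[k] ?_ w[0] ?_
      · rw [Option.mem_def, List.getLast?_eq_getElem?]
        have h6 : w.length - 1 = k := by omega
        rw [h6, List.getElem?_eq_getElem hk]
      · rw [Option.mem_def, List.head?_eq_getElem?, List.getElem?_eq_getElem]
  rw [hc] at key
  have := key rfl
  simp [linv] at this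

/-- the position data of cyclically reduced words -/
theorem exists_pd_of_words (W : Option (ι × Bool) → List (α × Bool)) (hne : ∀ j, W j ≠ [])
    (hred : ∀ j, FreeGroup.IsCyclicallyReduced (W j))
    (hinv : ∀ i, W (some (i, false)) = FreeGroup.invRev (W (some (i, true)))) [Finite ι] :
    ∃ (P : Type) (_ : Finite P) (D : PD α ι P),
      ∀ j, D.len j = (W j).length ∧ D.wd (D.base j) (D.len j) = W j := by
  have hinv' : ∀ i ε, W (some (i, !ε)) = FreeGroup.invRev (W (some (i, ε))) := by
    intro i ε
    cases ε
    · rw [hinv, FreeGroup.invRev_invRev]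
      rfl
    · exact hinv i
  have hlen : ∀ i ε, (W (some (i, !ε))).length = (W (some (i, ε))).length := by
    intro i ε
    rw [hinv', FreeGroup.invRev_length]
  have hfin : Finite (PDWords_P W) := by
    let f : PDWords_P W → Σ j : Option (ι × Bool), Fin (W j).length :=
      fun p => ⟨p.1.1, ⟨p.1.2, p.2⟩⟩
    refine Finite.of_injective f ?_
    rintro ⟨⟨j, k⟩, hk⟩ ⟨⟨j', k'⟩, hk'⟩ h
    have h1 : j = j' := congrArg Sigma.fst h
    subst h1
    have h2 : (⟨k, hk⟩ : Fin (W j).length) = ⟨k', hk'⟩ := by
      simpa [f] using h
    have h3 : k = k' := congrArg Fin.val h2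
    subst h3
    rfl
  let D : PD α ι (PDWords_P W) :=
    { s := PDWords_s hne
      ℓ := fun p => (W p.1.1)[p.1.2]'p.2
      ty := fun p => p.1.1
      base := fun j => ⟨(j, 0), PDWords_pos hne j⟩
      len := fun j => (W j).length
      μ := PDWords_mu hlen
      len_pos := fun j => PDWords_pos hne j
      len_symm := fun i => hlen i true
      ty_s := fun p => rfl
      ty_base := fun j => rfl
      reach := by
        rintro ⟨⟨j, k⟩, hk⟩
        refine ⟨k, ?_⟩
        rw [PDWords_pow hne j k (PDWords_pos hne j)]
        apply Subtype.ext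
        change (j, k % (W j).length) = (j, k)
        rw [Nat.mod_eq_of_lt hk]
      per := by
        intro j m
        rw [PDWords_pow hne j m (PDWords_pos hne j), Subtype.ext_iff, Nat.dvd_iff_mod_eq_zero]
        change (j, m % (W j).length) = (j, 0) ↔ m % (W j).length = 0
        rw [Prod.mk.injEq]
        exact ⟨fun h => h.2, fun h => ⟨rfl, h⟩⟩
      red := by
        rintro ⟨⟨j, k⟩, hk⟩
        exact PDWords_red (hred j) hk _
      μ_μ := by
        rintro ⟨⟨j, k⟩, hk⟩
        rcases j with _ | ⟨i, ε⟩
        · rfl
        · apply Subtype.ext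
          change k < (W (some (i, ε))).length at hk
          change (some (i, !(!ε)), (W (some (i, !ε))).length - 1 -
            ((W (some (i, ε))).length - 1 - k)) = (some (i, ε), k)
          rw [hlen, Bool.not_not]
          congr 1
          omega
      μ_s := by
        rintro ⟨⟨j, k⟩, hk⟩ hj
        rcases j with _ | ⟨i, ε⟩
        · exact absurd rfl hj
        · refine (PDWords_s hne).injective ?_
          rw [show (PDWords_s hne) ((PDWords_s hne)⁻¹ (PDWords_mu hlen
            ⟨(some (i, ε), k), hk⟩)) = PDWords_mu hlen ⟨(some (i, ε), k), hk⟩ from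
            (PDWords_s hne).apply_symm_apply _]
          apply Subtype.ext
          change k < (W (some (i, ε))).length at hk
          change (some (i, !ε), ((W (some (i, ε))).length - 1 -
            ((k + 1) % (W (some (i, ε))).length) + 1) % (W (some (i, !ε))).length) =
            (some (i, !ε), (W (some (i, ε))).length - 1 - k)
          rw [hlen]
          congr 1
          rcases Nat.lt_or_ge (k + 1) (W (some (i, ε))).length with h | h
          · rw [Nat.mod_eq_of_lt h, Nat.mod_eq_of_lt (by omega)]
            omega
          · have h1 : k + 1 = (W (some (i, ε))).length := by omega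
            rw [h1, Nat.mod_self, Nat.sub_zero, Nat.sub_add_cancel (by omega), Nat.mod_self]
            omega
      ty_μ := by
        rintro ⟨⟨j, k⟩, hk⟩
        rcases j with _ | ⟨i, ε⟩
        · rfl
        · rfl
      ℓ_μ := by
        rintro ⟨⟨j, k⟩, hk⟩ hj
        rcases j with _ | ⟨i, ε⟩
        · exact absurd rfl hj
        · change k < (W (some (i, ε))).length at hk
          have h1 : (W (some (i, ε))).length - 1 - k < (W (some (i, !ε))).length := by
            rw [hlen]
            omega
          change (W (some (i, !ε)))[(W (some (i, ε))).length - 1 - k]'h1 =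
            linv ((W (some (i, ε)))[k]'hk)
          have h2 : ∀ (w w' : List (α × Bool)) (_ : w' = FreeGroup.invRev w) (hk : k < w.length)
              (h1 : w.length - 1 - k < w'.length),
              w'[w.length - 1 - k]'h1 = linv (w[k]'hk) := by
            intro w w' hw hk h1
            subst hw
            simp only [FreeGroup.invRev, List.getElem_reverse, List.getElem_map,
              List.length_map]
            have h3 : w.length - 1 - (w.length - 1 - k) = k := by omega
            simp only [h3]
            rfl
          exact h2 _ _ (hinv' i ε) hk h1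
      base_μ := by
        intro i
        have h1 : (PDWords_s hne)⁻¹ ⟨(some (i, true), 0), PDWords_pos hne _⟩ =
            ⟨(some (i, true), (0 + (W (some (i, true))).length - 1) %
              (W (some (i, true))).length), Nat.mod_lt _ (PDWords_pos hne _)⟩ := rfl
        rw [h1]
        apply Subtype.ext
        change (some (i, false), 0) = (some (i, !true), (W (some (i, true))).length - 1 -
          (0 + (W (some (i, true))).length - 1) % (W (some (i, true))).length)
        have h2 := PDWords_pos hne (some (i, true))
        rw [Nat.zero_add, Nat.mod_eq_of_lt (by omega), Nat.sub_self]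
        rfl }
  refine ⟨PDWords_P W, hfin, D, fun j => ⟨rfl, ?_⟩⟩
  unfold PD.wd
  refine List.ext_getElem ?_ fun k h1 h2 => ?_
  · rw [List.length_map, List.length_range]
  · rw [List.getElem_map, List.getElem_range]
    have h3 : (D.s ^ k) (D.base j) = ⟨(j, k % (W j).length), Nat.mod_lt _ (PDWords_pos hne j)⟩ :=
      PDWords_pow hne j k (PDWords_pos hne j)
    rw [h3]
    change (W j)[k % (W j).length]'_ = (W j)[k]
    simp only [Nat.mod_eq_of_lt h2]

end Pool.MP_ed1a61_al.Fill
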