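import Pool.Agent.Lib.MP_ed1a61_al.Fill.SameWord
import Pool.Agent.Lib.MP_ed1a61_al.Fill.CycRed
import Pool.Agent.Lib.MP_ed1a61_al.Fill.PDWords

/-! # The position data of given elements of a free group -/

set_option autoImplicit false

namespace Pool.MP_ed1a61_al.Fill

open Equiv

variable {α ι : Type}

private theorem concPD_s_inv {P : Type} (D : PD α ι P) (y : P) : D.s (D.s⁻¹ y) = y :=
  D.s.apply_symm_apply y

private theorem concPD_inv_s {P : Type} (D : PD α ι P) (y : P) : D.s⁻¹ (D.s y) = y :=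
  D.s.symm_apply_apply y

private theorem concPD_ty {P : Type} (D : PD α ι P) (y : P) : D.ty (D.s⁻¹ y) = D.ty y := by
  have h := D.ty_s (D.s⁻¹ y)
  rw [concPD_s_inv] at h
  exact h.symm

private theorem concPD_ty_pow {P : Type} (D : PD α ι P) (y : P) (k : ℕ) :
    D.ty ((D.s⁻¹ ^ k) y) = D.ty y := by
  induction k with
  | zero => rfl
  | succ k ih => rw [pow_succ', Perm.mul_apply, concPD_ty, ih]

private theorem concPD_mu {P : Type} (D : PD α ι P) {q : P} (hq : D.ty q ≠ none) (k : ℕ) :
    (D.s ^ k) (D.μ q) = D.μ ((D.s⁻¹ ^ k) q) := by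
  induction k with
  | zero => rfl
  | succ k ih =>
    have h1 : D.ty (D.s⁻¹ ((D.s⁻¹ ^ k) q)) ≠ none := by
      rw [concPD_ty, concPD_ty_pow]
      exact hq
    have h2 := D.μ_s _ h1
    rw [concPD_s_inv] at h2
    rw [pow_succ', Perm.mul_apply, ih, h2, concPD_s_inv, pow_succ', Perm.mul_apply]

private theorem concPD_linv (x : α × Bool) : linv (linv x) = x := by
  cases x; simp [linv]

theorem noOverlap_of_prim {P : Type} (D : PD α ι P)
    (hprim : ∀ i, ∀ (x : FreeGroup α) (m : ℕ), x ^ m = D.el (some (i, true)) → m = 1)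
    (hconj : ∀ i j, i ≠ j → ¬ IsConj (D.el (some (i, true))) (D.el (some (j, true))) ∧
      ¬ IsConj (D.el (some (i, true))) (D.el (some (j, true)))⁻¹) : D.NoOverlap := by
  intro p q hp hq h
  have hp' : D.ty (D.s p) ≠ none := by
    rw [D.ty_s]
    exact hp
  have hq' : D.ty (D.μ q) ≠ none := by
    rw [D.ty_μ]
    intro h0
    exact hq (Option.map_eq_none_iff.1 h0)
  have key : D.s p = D.μ q := by
    refine eq_of_same_word D hprim hconj hp' hq' fun k => ?_
    rw [concPD_mu D hq, D.ℓ_μ _ (by rw [concPD_ty_pow]; exact hq), h k, concPD_linv,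
      pow_succ, Perm.mul_apply]
  rw [key, D.μ_μ]

private theorem concPD_red {w : List (α × Bool)} (h : FreeGroup.IsCyclicallyReduced w) :
    FreeGroup.IsCyclicallyReduced (FreeGroup.invRev w) := by
  constructor
  · unfold FreeGroup.invRev
    show List.IsChain _ _
    rw [List.isChain_reverse, List.isChain_map]
    refine h.1.imp fun a b hab h1 => ?_
    have h2 := hab h1.symm
    show (!b.2) = !a.2
    rw [h2]
  · intro a ha b hb h1
    unfold FreeGroup.invRev at ha hb
    rw [List.getLast?_reverse, List.head?_map] at ha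
    rw [List.head?_reverse, List.getLast?_map] at hb
    obtain ⟨a', ha', rfl⟩ := Option.mem_map.1 ha
    obtain ⟨b', hb', rfl⟩ := Option.mem_map.1 hb
    have h2 := h.2 b' hb' a' ha' h1.symm
    show (!a'.2) = !b'.2
    rw [h2]

private theorem concPD_conj_inv {G : Type} [Group G] {a b : G} (h : IsConj a b) :
    IsConj a⁻¹ b⁻¹ := by
  obtain ⟨c, hc⟩ := isConj_iff.1 h
  exact isConj_iff.2 ⟨c, by rw [← hc]; group⟩

theorem exists_pd [Finite ι] (r : ι → FreeGroup α) (g : FreeGroup α) (hg : g ≠ 1)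
    (hprim : ∀ i, ∀ (x : FreeGroup α) (m : ℕ), x ^ m = r i → m = 1)
    (hconj : ∀ i j, i ≠ j → ¬ IsConj (r i) (r j) ∧ ¬ IsConj (r i) (r j)⁻¹) :
    ∃ (P : Type) (_ : Finite P) (D : PD α ι P), D.NoOverlap ∧ IsConj g (D.el none) ∧
      ∀ i, IsConj (r i) (D.el (some (i, true))) := by
  have hr : ∀ i, r i ≠ 1 := fun i h0 => by
    have := hprim i 1 0 (by rw [pow_zero, h0])
    exact absurd this (by norm_num)
  obtain ⟨w₀, hw0, hw1, hw2⟩ := exists_cyc_red g hg
  choose w hv0 hv1 hv2 using fun i => exists_cyc_red (r i) (hr i)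
  obtain ⟨W, hWn, hWt, hWf⟩ : ∃ W : Option (ι × Bool) → List (α × Bool), W none = w₀ ∧
      (∀ i, W (some (i, true)) = w i) ∧
      ∀ i, W (some (i, false)) = FreeGroup.invRev (w i) :=
    ⟨fun j => match j with
      | none => w₀
      | some (i, true) => w i
      | some (i, false) => FreeGroup.invRev (w i), rfl, fun _ => rfl, fun _ => rfl⟩
  have c1 : ∀ j, W j ≠ [] := by
    rintro (_ | ⟨i, ε⟩)
    · rw [hWn]
      exact hw0
    · cases ε with
      | true =>
        rw [hWt]
        exact hv0 i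
      | false =>
        rw [hWf]
        intro h0
        have h1 := congrArg List.length h0
        rw [FreeGroup.invRev_length, List.length_nil] at h1
        exact hv0 i (List.eq_nil_of_length_eq_zero h1)
  have c2 : ∀ j, FreeGroup.IsCyclicallyReduced (W j) := by
    rintro (_ | ⟨i, ε⟩)
    · rw [hWn]
      exact hw1
    · cases ε with
      | true =>
        rw [hWt]
        exact hv1 i
      | false =>
        rw [hWf]
        exact concPD_red (hv1 i)
  have c3 : ∀ i, W (some (i, false)) = FreeGroup.invRev (W (some (i, true))) := fun i => by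
    rw [hWf, hWt]
  obtain ⟨P, hP, D, hD⟩ := exists_pd_of_words W c1 c2 c3
  have hel : ∀ j, D.el j = FreeGroup.mk (W j) := fun j => by
    unfold PD.el
    rw [(hD j).2]
  have hc : ∀ i, IsConj (r i) (D.el (some (i, true))) := fun i => by
    rw [hel, hWt]
    exact hv2 i
  refine ⟨P, hP, D, noOverlap_of_prim D (fun i x m hx => ?_) (fun i j hij => ⟨fun h => ?_,
    fun h => ?_⟩), ?_, hc⟩
  · obtain ⟨c, hc'⟩ := isConj_iff.1 (hc i).symm
    refine hprim i (c * x * c⁻¹) m ?_
    rw [conj_pow, hx, hc']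
  · exact (hconj i j hij).1 (((hc i).trans h).trans (hc j).symm)
  · exact (hconj i j hij).2 (((hc i).trans h).trans (concPD_conj_inv (hc j).symm))
  · rw [hel, hWn]
    exact hw2

end Pool.MP_ed1a61_al.Fill
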