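import Pool.Agent.Lib.MP_ed1a61_al.Fill.Cyc

/-! # The components of a pair of permutations -/

set_option autoImplicit false

namespace Pool.MP_ed1a61_al.Fill

open Equiv

variable {Ω Ω' : Type}

theorem conn_left (σ π : Perm Ω) (x : Ω) : (connS σ π) x (σ x) :=
  Relation.EqvGen.rel _ _ (Or.inl rfl)

theorem conn_right (σ π : Perm Ω) (x : Ω) : (connS σ π) x (π x) :=
  Relation.EqvGen.rel _ _ (Or.inr rfl)

private theorem rel_of_sameCycle {R : Setoid Ω} {ρ : Perm Ω} (hR : ∀ x, R x (ρ x)) {x y : Ω}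
    (h : ρ.SameCycle x y) : R x y := by
  have key : ∀ (n : ℕ) (z : Ω), R z ((ρ ^ n) z) := by
    intro n
    induction n with
    | zero => exact fun z => R.refl z
    | succ n ih =>
      intro z
      rw [pow_succ', Perm.mul_apply]
      exact R.trans (ih z) (hR _)
  obtain ⟨i, rfl⟩ := h
  obtain ⟨n, rfl | rfl⟩ := i.eq_nat_or_neg
  · rw [zpow_natCast]
    exact key n x
  · have h1 := key n ((ρ ^ (-(n : ℤ))) x)
    have h2 : (ρ ^ n) ((ρ ^ (-(n : ℤ))) x) = x := by
      rw [← Perm.mul_apply, ← zpow_natCast, ← zpow_add, add_neg_cancel, zpow_zero,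
        Perm.one_apply]
    rw [h2] at h1
    exact R.symm h1

theorem conn_of_sameCycle {σ π : Perm Ω} {x y : Ω} (h : σ.SameCycle x y) : (connS σ π) x y :=
  rel_of_sameCycle (conn_left σ π) h

theorem conn_of_sameCycle_mul {σ π : Perm Ω} {x y : Ω} (h : (π * σ).SameCycle x y) :
    (connS σ π) x y :=
  rel_of_sameCycle (fun z => (connS σ π).trans (conn_left σ π z) (conn_right σ π (σ z))) h

end Pool.MP_ed1a61_al.Fill
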