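import Pool.Agent.Lib.MP_ed1a61_al.Fill.Defs

/-! # Counting cycles: involutions, conjugation, sums -/

set_option autoImplicit false

namespace Pool.MP_ed1a61_al.Fill

open Equiv

variable {Ω Ω' : Type}

theorem cyc_one : cyc (1 : Perm Ω) = Nat.card Ω := by
  unfold cyc
  refine Nat.card_congr
    { toFun := Quotient.lift id fun a b h => Perm.sameCycle_one.1 h
      invFun := fun x => Quotient.mk _ x
      left_inv := ?_
      right_inv := fun x => rfl }
  rintro ⟨x⟩
  rfl

theorem CycMisc_zpow {π : Perm Ω} (h : ∀ x, π (π x) = x) (i : ℤ) (x : Ω) :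
    (π ^ i) x = x ∨ (π ^ i) x = π x := by
  have h2 : π ^ (2 : ℤ) = 1 := by
    rw [zpow_two]
    ext x
    simp [h]
  rcases Int.even_or_odd' i with ⟨k, rfl | rfl⟩
  · left
    rw [zpow_mul, h2, one_zpow, Perm.one_apply]
  · right
    rw [zpow_add, zpow_mul, h2, one_zpow, one_mul, zpow_one]

/-- a fixed point free involution has `card / 2` cycles -/
theorem cyc_invol [Finite Ω] {π : Perm Ω} (h : ∀ x, π (π x) = x) (h' : ∀ x, π x ≠ x) :
    2 * cyc π = Nat.card Ω := by
  unfold cyc
  let e : Quotient (Perm.SameCycle.setoid π) × Bool → Ω := fun p =>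
    if p.2 then π p.1.out else p.1.out
  have hmk : ∀ c : Quotient (Perm.SameCycle.setoid π), Quotient.mk _ c.out = c :=
    fun c => Quotient.out_eq c
  have hπ : ∀ c : Quotient (Perm.SameCycle.setoid π),
      Quotient.mk (Perm.SameCycle.setoid π) (π c.out) = c := by
    intro c
    conv_rhs => rw [← hmk c]
    refine Quotient.sound ?_
    exact (Perm.SameCycle.refl π c.out).apply_left
  have he : Function.Bijective e := by
    constructor
    · rintro ⟨c, b⟩ ⟨c', b'⟩ hcc
      have hc : c = c' := by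
        have h1 : Quotient.mk (Perm.SameCycle.setoid π) (e (c, b)) = c := by
          cases b
          · exact hmk c
          · exact hπ c
        have h2 : Quotient.mk (Perm.SameCycle.setoid π) (e (c', b')) = c' := by
          cases b'
          · exact hmk c'
          · exact hπ c'
        rw [← h1, ← h2, hcc]
      subst hc
      cases b <;> cases b'
      · rfl
      · exact absurd hcc.symm (h' c.out)
      · exact absurd hcc (h' c.out)
      · rfl
    · intro x
      have h1 : Perm.SameCycle π (Quotient.mk (Perm.SameCycle.setoid π) x).out x :=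
        Quotient.exact (hmk (Quotient.mk _ x))
      obtain ⟨i, hi⟩ := h1
      rcases CycMisc_zpow h i (Quotient.mk (Perm.SameCycle.setoid π) x).out with h2 | h2
      · exact ⟨(Quotient.mk _ x, false), by
          have h3 : e (Quotient.mk _ x, false) = (Quotient.mk _ x).out := rfl
          rw [h3, ← h2, hi]⟩
      · exact ⟨(Quotient.mk _ x, true), by
          have h3 : e (Quotient.mk _ x, true) = π (Quotient.mk _ x).out := rfl
          rw [h3, ← h2, hi]⟩
  rw [← Nat.card_congr (Equiv.ofBijective e he), Nat.card_prod, Nat.card_eq_fintype_card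
    (α := Bool), Fintype.card_bool, mul_comm]

theorem CycMisc_congr (e : Ω ≃ Ω') (σ : Perm Ω) (a b : Ω) :
    Perm.SameCycle σ a b ↔ Perm.SameCycle (e.permCongr σ) (e a) (e b) := by
  have hz : ∀ i : ℤ, (e.permCongr σ) ^ i = e.permCongr (σ ^ i) := fun i =>
    (map_zpow (e.permCongrHom) σ i).symm
  constructor
  · rintro ⟨i, hi⟩
    refine ⟨i, ?_⟩
    rw [hz, Equiv.permCongr_apply, Equiv.symm_apply_apply, hi]
  · rintro ⟨i, hi⟩
    refine ⟨i, ?_⟩
    rw [hz, Equiv.permCongr_apply, Equiv.symm_apply_apply] at hi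
    exact e.injective hi

theorem cyc_equiv (e : Ω ≃ Ω') (σ : Perm Ω) : cyc (e.permCongr σ) = cyc σ := by
  unfold cyc
  exact (Nat.card_congr (Quotient.congr e fun a b => CycMisc_congr e σ a b)).symm

theorem cyc_conj (σ ρ : Perm Ω) : cyc (ρ * σ * ρ⁻¹) = cyc σ := by
  have h : ρ * σ * ρ⁻¹ = ρ.permCongr σ := by
    ext x
    simp
  rw [h, cyc_equiv]

theorem CycMisc_sum (σ : Perm Ω) (ρ : Perm Ω') (i : ℤ) :
    (Perm.sumCongr σ ρ) ^ i = Perm.sumCongr (σ ^ i) (ρ ^ i) := by
  have := map_zpow (Perm.sumCongrHom Ω Ω') (σ, ρ) i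
  exact this.symm

theorem cyc_sum [Finite Ω] [Finite Ω'] (σ : Perm Ω) (ρ : Perm Ω') :
    cyc (Perm.sumCongr σ ρ) = cyc σ + cyc ρ := by
  unfold cyc
  have : Finite (Quotient (Perm.SameCycle.setoid σ)) := inferInstance
  have : Finite (Quotient (Perm.SameCycle.setoid ρ)) := inferInstance
  rw [← Nat.card_sum]
  refine Nat.card_congr
    { toFun := Quotient.lift (Sum.elim (fun a => Sum.inl (Quotient.mk _ a))
        (fun b => Sum.inr (Quotient.mk _ b))) ?_
      invFun := Sum.elim (Quotient.lift (fun a => Quotient.mk _ (Sum.inl a)) ?_)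
        (Quotient.lift (fun a => Quotient.mk _ (Sum.inr a)) ?_)
      left_inv := ?_
      right_inv := ?_ }
  · rintro (a | a) (b | b) ⟨i, hi⟩
    · rw [CycMisc_sum] at hi
      have h1 : (σ ^ i) a = b := by simpa using hi
      exact congrArg Sum.inl (Quotient.sound ⟨i, h1⟩)
    · rw [CycMisc_sum] at hi
      simp at hi
    · rw [CycMisc_sum] at hi
      simp at hi
    · rw [CycMisc_sum] at hi
      have h1 : (ρ ^ i) a = b := by simpa using hi
      exact congrArg Sum.inr (Quotient.sound ⟨i, h1⟩)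
  · rintro a b ⟨i, hi⟩
    refine Quotient.sound ⟨i, ?_⟩
    rw [CycMisc_sum]
    simpa using hi
  · rintro a b ⟨i, hi⟩
    refine Quotient.sound ⟨i, ?_⟩
    rw [CycMisc_sum]
    simpa using hi
  · rintro ⟨a | a⟩ <;> rfl
  · rintro (a | a)
    · obtain ⟨a, rfl⟩ := Quotient.exists_rep a
      rfl
    · obtain ⟨a, rfl⟩ := Quotient.exists_rep a
      rfl

end Pool.MP_ed1a61_al.Fill
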