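import Pool.Agent.Lib.MP_ed1a61_al.Fill.StrBasic
import Pool.Agent.Lib.MP_ed1a61_al.Fill.Cyc

/-! # Number of boundary cycles -/

set_option autoImplicit false

namespace Pool.MP_ed1a61_al.Fill

open Equiv

/-- number of boundary cycles -/
theorem cyc_eq_length {α Ω : Type} [Finite Ω] [DecidableEq Ω] {σ π : Perm Ω} {lab : Ω → α × Bool}
    {ls : List (List Ω)} (h : IsStr σ π lab ls) (hall : ∀ x, x ∈ ls.flatten)
    (hne : ∀ l ∈ ls, l ≠ []) : cyc σ = ls.length := by
  let f : Fin ls.length → Quotient (Perm.SameCycle.setoid σ) := fun i =>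
    Quotient.mk _ ((ls[i]).head (hne _ (List.getElem_mem i.2)))
  have hf : Function.Bijective f := by
    constructor
    · intro i j hij
      have h1 : σ.SameCycle ((ls[i]).head (hne _ (List.getElem_mem i.2)))
          ((ls[j]).head (hne _ (List.getElem_mem j.2))) :=
        Quotient.exact (s := Perm.SameCycle.setoid σ) hij
      have h2 := (h.sameCycle_iff (List.getElem_mem i.2) (List.head_mem _)).1 h1
      have h3 := (List.nodup_flatten.1 h.nodup).2
      rw [List.pairwise_iff_getElem] at h3
      rcases lt_trichotomy i.1 j.1 with h4 | h4 | h4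
      · exact absurd (List.head_mem _) (h3 i.1 j.1 i.2 j.2 h4 h2)
      · exact Fin.ext h4
      · exact absurd h2 (h3 j.1 i.1 j.2 i.2 h4 (List.head_mem _))
    · intro q
      induction q using Quotient.inductionOn with
      | h x =>
      obtain ⟨l, hl, hx⟩ := List.mem_flatten.1 (hall x)
      obtain ⟨i, hi, rfl⟩ := List.getElem_of_mem hl
      exact ⟨⟨i, hi⟩, Quotient.sound (s := Perm.SameCycle.setoid σ)
        ((h.sameCycle_iff hl (List.head_mem _)).2 hx)⟩
  have h1 : cyc σ = Nat.card (Fin ls.length) := (Nat.card_congr (Equiv.ofBijective f hf)).symm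
  rw [h1, Nat.card_eq_fintype_card, Fintype.card_fin]

end Pool.MP_ed1a61_al.Fill
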