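import Pool.Agent.Lib.MP_ed1a61_al.Fill.Defs

/-! # Counting cycles: multiplication by a swap -/

set_option autoImplicit false

namespace Pool.MP_ed1a61_al.Fill

open Equiv

variable {Ω Ω' : Type}

namespace CycSwap

theorem mem_iter {τ : Perm Ω} {S : Set Ω} (hS : ∀ x ∈ S, τ x ∈ S) {x : Ω} (hx : x ∈ S) (n : ℕ) :
    (τ ^ n) x ∈ S := by
  induction n with
  | zero => exact hx
  | succ n ih =>
    rw [pow_succ']
    exact hS _ ih

/-- an equivalence relation which relates `x` and `τ x` contains `SameCycle` -/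
theorem of_sameCycle [Finite Ω] {τ : Perm Ω} {E : Ω → Ω → Prop} (hr : ∀ x, E x x)
    (ht : ∀ x y z, E x y → E y z → E x z) (hE : ∀ x, E x (τ x)) {x y : Ω}
    (h : τ.SameCycle x y) : E x y := by
  obtain ⟨n, -, hn⟩ := h.exists_pow_eq'
  rw [← hn]
  clear hn h
  induction n with
  | zero => exact hr x
  | succ n ih =>
    rw [pow_succ']
    exact ht _ _ _ ih (hE _)

variable [DecidableEq Ω] {σ : Perm Ω} {a b : Ω}

theorem ap_a : (σ * swap a b) a = σ b := by
  rw [Perm.mul_apply, swap_apply_left]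

theorem ap_b : (σ * swap a b) b = σ a := by
  rw [Perm.mul_apply, swap_apply_right]

theorem ap_o {x : Ω} (ha : x ≠ a) (hb : x ≠ b) : (σ * swap a b) x = σ x := by
  rw [Perm.mul_apply, swap_apply_of_ne_of_ne ha hb]

theorem mul_swap_swap : σ * swap a b * swap a b = σ := by
  rw [mul_assoc, swap_mul_self, mul_one]

end CycSwap

open CycSwap

/-- multiplying by a swap joins two cycles ... -/
theorem sameCycle_mul_swap [Finite Ω] [DecidableEq Ω] {σ : Perm Ω} {a b : Ω}
    (h : ¬ σ.SameCycle a b) : (σ * swap a b).SameCycle a b := by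
  classical
  have hex : ∃ m : ℕ, 0 < m ∧ (σ ^ m) a = a := by
    refine ⟨orderOf σ, orderOf_pos σ, ?_⟩
    rw [pow_orderOf_eq_one]
    rfl
  obtain ⟨hm0, hma⟩ := Nat.find_spec hex
  have hmin := fun k (hk : k < Nat.find hex) => Nat.find_min hex hk
  set m := Nat.find hex with hm
  have key : ∀ k : ℕ, k + 1 ≤ m → ((σ * swap a b) ^ (k + 1)) b = (σ ^ (k + 1)) a := by
    intro k
    induction k with
    | zero =>
      intro _
      rw [zero_add, pow_one, pow_one]
      exact ap_b
    | succ k ih =>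
      intro hk
      have h1 := ih (by omega)
      rw [pow_succ', Perm.mul_apply, h1, ap_o, ← Perm.mul_apply, ← pow_succ']
      · intro h2
        exact hmin (k + 1) (by omega) ⟨by omega, h2⟩
      · intro h2
        exact h ⟨((k + 1 : ℕ) : ℤ), by rw [zpow_natCast]; exact h2⟩
  obtain ⟨k, hk⟩ : ∃ k, m = k + 1 := ⟨m - 1, by omega⟩
  have h2 := key k (by omega)
  rw [← hk, hma] at h2
  exact (show (σ * swap a b).SameCycle b a from ⟨(m : ℤ), by rw [zpow_natCast]; exact h2⟩).symm

/-- ... or cuts a cycle -/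
theorem not_sameCycle_mul_swap [Finite Ω] [DecidableEq Ω] {σ : Perm Ω} {a b : Ω}
    (h : σ.SameCycle a b) (hab : a ≠ b) : ¬ (σ * swap a b).SameCycle a b := by
  classical
  have hex : ∃ j : ℕ, 0 < j ∧ (σ ^ j) a = b := by
    obtain ⟨j, _, hj⟩ := h.exists_pow_eq'
    refine ⟨j, Nat.pos_of_ne_zero ?_, hj⟩
    rintro rfl
    exact hab hj
  obtain ⟨hj0, hjb⟩ := Nat.find_spec hex
  have hmin := fun k (hk : k < Nat.find hex) => Nat.find_min hex hk
  set j := Nat.find hex with hj
  have hna : ∀ i, 0 < i → i < j → (σ ^ i) a ≠ a := by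
    intro i hi hij h1
    refine hmin (j - i) (by omega) ⟨by omega, ?_⟩
    have h2 : (σ ^ (j - i)) ((σ ^ i) a) = b := by
      rw [← Perm.mul_apply, ← pow_add, Nat.sub_add_cancel hij.le]
      exact hjb
    rwa [h1] at h2
  set S : Set Ω := {x | ∃ i, 0 < i ∧ i ≤ j ∧ (σ ^ i) a = x} with hS
  have hinv : ∀ x ∈ S, (σ * swap a b) x ∈ S := by
    rintro x ⟨i, hi, hij, rfl⟩
    rcases hij.eq_or_lt with h1 | h1
    · rw [h1, hjb, ap_b]
      exact ⟨1, one_pos, hj0, by rw [pow_one]⟩
    · rw [ap_o (hna i hi h1) (fun h2 => hmin i h1 ⟨hi, h2⟩)]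
      exact ⟨i + 1, by omega, h1, by rw [pow_succ', Perm.mul_apply]⟩
  intro hc
  obtain ⟨n, -, hn⟩ := hc.symm.exists_pow_eq'
  have h1 : a ∈ S := by
    rw [← hn]
    exact mem_iter hinv ⟨j, hj0, le_rfl, hjb⟩ n
  obtain ⟨i, hi, hij, h2⟩ := h1
  rcases hij.eq_or_lt with h3 | h3
  · rw [h3, hjb] at h2
    exact hab h2.symm
  · exact hna i hi h3 h2

theorem cyc_mul_swap_diff [Finite Ω] [DecidableEq Ω] {σ : Perm Ω} {a b : Ω}
    (h : ¬ σ.SameCycle a b) : cyc (σ * swap a b) + 1 = cyc σ := by
  classical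
  have hT := sameCycle_mul_swap h
  have up : ∀ x y, σ.SameCycle x y → (σ * swap a b).SameCycle x y := by
    intro x y hxy
    refine of_sameCycle (E := fun x y => (σ * swap a b).SameCycle x y)
      (fun x => Perm.SameCycle.refl _ x)
      (fun x y z h1 h2 => h1.trans h2) (fun x => ?_) hxy
    have hs : ∀ z, (σ * swap a b).SameCycle z ((σ * swap a b) z) := fun z =>
      (Perm.sameCycle_apply_right (f := σ * swap a b)).2 (Perm.SameCycle.refl _ z)
    by_cases h1 : x = a
    · rw [h1]
      have h2 := hs b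
      rw [ap_b] at h2
      exact hT.trans h2
    · by_cases h2 : x = b
      · rw [h2]
        have h3 := hs a
        rw [ap_a] at h3
        exact hT.symm.trans h3
      · have h3 := hs x
        rwa [ap_o h1 h2] at h3
  have hσ : ∀ z, σ.SameCycle z (σ z) := fun z =>
    (Perm.sameCycle_apply_right (f := σ)).2 (Perm.SameCycle.refl _ z)
  have down : ∀ x y, (σ * swap a b).SameCycle x y → σ.SameCycle x y ∨
      ((σ.SameCycle x a ∨ σ.SameCycle x b) ∧ (σ.SameCycle y a ∨ σ.SameCycle y b)) := by
    intro x y hxy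
    refine of_sameCycle (E := fun x y => σ.SameCycle x y ∨
      ((σ.SameCycle x a ∨ σ.SameCycle x b) ∧ (σ.SameCycle y a ∨ σ.SameCycle y b)))
      (fun x => Or.inl (Perm.SameCycle.refl _ x)) (fun x y z h1 h2 => ?_) (fun x => ?_) hxy
    · rcases h1 with h1 | ⟨h1, h1'⟩
      · rcases h2 with h2 | ⟨h2, h2'⟩
        · exact Or.inl (h1.trans h2)
        · refine Or.inr ⟨?_, h2'⟩
          rcases h2 with h2 | h2
          · exact Or.inl (h1.trans h2)
          · exact Or.inr (h1.trans h2)
      · rcases h2 with h2 | ⟨h2, h2'⟩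
        · refine Or.inr ⟨h1, ?_⟩
          rcases h1' with h1' | h1'
          · exact Or.inl (h2.symm.trans h1')
          · exact Or.inr (h2.symm.trans h1')
        · exact Or.inr ⟨h1, h2'⟩
    · by_cases h1 : x = a
      · rw [h1, ap_a]
        exact Or.inr ⟨Or.inl (Perm.SameCycle.refl _ a), Or.inr (hσ b).symm⟩
      · by_cases h2 : x = b
        · rw [h2, ap_b]
          exact Or.inr ⟨Or.inr (Perm.SameCycle.refl _ b), Or.inl (hσ a).symm⟩
        · rw [ap_o h1 h2]
          exact Or.inl (hσ x)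
  let r := Perm.SameCycle.setoid σ
  let r' := Perm.SameCycle.setoid (σ * swap a b)
  let qb : Quotient r := Quotient.mk r b
  let f : {x : Quotient r // x ≠ qb} → Quotient r' := fun x =>
    Quotient.map' (s₁ := r) (s₂ := r') id (fun x y hxy => up x y hxy) x.1
  have hf : Function.Bijective f := by
    constructor
    · rintro ⟨x, hx⟩ ⟨y, hy⟩ hxy
      induction x using Quotient.inductionOn with
      | h x =>
      induction y using Quotient.inductionOn with
      | h y =>
      have h1 : (σ * swap a b).SameCycle x y := Quotient.exact (s := r') hxy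
      have hx' : ¬ σ.SameCycle x b := fun h2 => hx (Quotient.sound (s := r) h2)
      have hy' : ¬ σ.SameCycle y b := fun h2 => hy (Quotient.sound (s := r) h2)
      refine Subtype.ext (Quotient.sound (s := r) (show σ.SameCycle x y from ?_))
      rcases down x y h1 with h2 | ⟨h2, h3⟩
      · exact h2
      · rcases h2 with h2 | h2
        · rcases h3 with h3 | h3
          · exact h2.trans h3.symm
          · exact absurd h3 hy'
        · exact absurd h2 hx'
    · intro y
      induction y using Quotient.inductionOn with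
      | h y =>
      by_cases h1 : σ.SameCycle y b
      · refine ⟨⟨Quotient.mk r a, fun h2 => h (Quotient.exact (s := r) h2)⟩, ?_⟩
        exact Quotient.sound (s := r') (hT.trans (up y b h1).symm)
      · refine ⟨⟨Quotient.mk r y, fun h2 => h1 (Quotient.exact (s := r) h2)⟩, ?_⟩
        rfl
  have h1 : cyc (σ * swap a b) = Nat.card {x : Quotient r // x ≠ qb} :=
    (Nat.card_congr (Equiv.ofBijective f hf)).symm
  have h2 : cyc σ = Nat.card (Option {x : Quotient r // x ≠ qb}) :=
    (Nat.card_congr (Equiv.optionSubtypeNe qb)).symm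
  rw [h1, h2, Finite.card_option]

theorem cyc_mul_swap_same [Finite Ω] [DecidableEq Ω] {σ : Perm Ω} {a b : Ω}
    (h : σ.SameCycle a b) (hab : a ≠ b) : cyc (σ * swap a b) = cyc σ + 1 := by
  have h1 := cyc_mul_swap_diff (not_sameCycle_mul_swap h hab)
  rw [mul_swap_swap] at h1
  exact h1.symm

end Pool.MP_ed1a61_al.Fill
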