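import Mathlib

/-!
# scl in Dehn fillings of free groups: definitions (project SF, MP_ed1a61_al)

Text with all the proofs: /team-store/TEXT_ed1a61.md
-/

set_option autoImplicit false

namespace Pool.MP_ed1a61_al.Fill

open Equiv

/-! ## Cycles, components, genus -/

/-- number of cycles of a permutation (fixed points are cycles) -/
noncomputable def cyc {Ω : Type} (σ : Perm Ω) : ℕ :=
  Nat.card (Quotient (Perm.SameCycle.setoid σ))

/-- the equivalence relation generated by `x ~ σ x` and `x ~ π x` -/
def connS {Ω : Type} (σ π : Perm Ω) : Setoid Ω :=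
  Relation.EqvGen.setoid (fun x y => y = σ x ∨ y = π x)

/-- number of components of the pair `σ, π` -/
noncomputable def comps {Ω : Type} (σ π : Perm Ω) : ℕ := Nat.card (Quotient (connS σ π))

/-- twice the sum of the genera of the components of the pair `σ, π` -/
noncomputable def gen {Ω : Type} (σ π : Perm Ω) : ℤ :=
  (Nat.card Ω : ℤ) + 2 * (comps σ π : ℤ) - cyc σ - cyc π - cyc (π * σ)

/-! ## Surfaces with labelled boundary -/

/-- the inverse letter -/
def linv {α : Type} (x : α × Bool) : α × Bool := (x.1, !x.2)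

/-- `σ` (successor along the boundary) and `π` (pairing) are a surface glued from bands whose
boundary components are the lists `ls`; the letters outside `ls.flatten` are garbage
(bigons `{x, π x}`). -/
structure IsStr {α Ω : Type} [DecidableEq Ω] (σ π : Perm Ω) (lab : Ω → α × Bool)
    (ls : List (List Ω)) : Prop where
  inv : ∀ x, π (π x) = x
  lab_inv : ∀ x, lab (π x) = linv (lab x)
  nodup : ls.flatten.Nodup
  sig : ∀ l ∈ ls, ∀ x ∈ l, σ x = l.formPerm x
  gar : ∀ x, x ∉ ls.flatten → σ x = π x

/-- there is a surface of genus (sum over the components, doubled) at most `κ` with boundary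
words `ws` -/
def Str {α : Type} (κ : ℤ) (ws : List (List (α × Bool))) : Prop :=
  ∃ (Ω : Type) (_ : Finite Ω) (_ : DecidableEq Ω) (σ π : Perm Ω) (lab : Ω → α × Bool)
    (ls : List (List Ω)), IsStr σ π lab ls ∧ ls.map (List.map lab) = ws ∧ gen σ π ≤ κ

/-! ## Products of commutators -/

/-- `h` is a product of `k` commutators -/
def CL {H : Type} [Group H] (k : ℕ) (h : H) : Prop :=
  ∃ l : List H, l.length = k ∧ (∀ c ∈ l, c ∈ commutatorSet H) ∧ l.prod = h

/-- some product of conjugates of the elements of `us` is a product of `K` commutators -/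
def Bd {H : Type} [Group H] (K : ℕ) (us : List H) : Prop :=
  ∃ vs : List H, List.Forall₂ IsConj us vs ∧ CL K vs.prod

/-- the stable commutator length of the (rationally null homologous) chain `Σ us` is at
most `s` -/
def Sc {H : Type} [Group H] (us : List H) (s : ℝ) : Prop :=
  ∀ ε : ℝ, 0 < ε → ∃ m : ℕ, 0 < m ∧ ∃ C : ℝ, ∀ n : ℕ, ∃ k : ℕ,
    CL k ((us.map (fun u => u ^ (m * n))).prod) ∧ (k : ℝ) ≤ (s + ε) * (m * n : ℕ) + C

/-! ## Positions on the cyclic words `g` and `r_i^{±1}` -/

/-- The data of the cyclic words: `P` = set of positions, `s` = next position, `ℓ` = letter,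
`ty p = none` for the positions on `g`, `ty p = some (i, ε)` for the positions on `r_i`
(`ε = true`) and on `r_i⁻¹` (`ε = false`), `base` = first positions, `len` = lengths, `μ` = mirror
position (meaningful on the positions which are not on `g`). -/
structure PD (α ι P : Type) where
  s : Perm P
  ℓ : P → α × Bool
  ty : P → Option (ι × Bool)
  base : Option (ι × Bool) → P
  len : Option (ι × Bool) → ℕ
  μ : P → P
  len_pos : ∀ j, 0 < len j
  len_symm : ∀ i, len (some (i, false)) = len (some (i, true))
  ty_s : ∀ p, ty (s p) = ty p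
  ty_base : ∀ j, ty (base j) = j
  reach : ∀ p, ∃ k : ℕ, (s ^ k) (base (ty p)) = p
  per : ∀ j (m : ℕ), (s ^ m) (base j) = base j ↔ len j ∣ m
  red : ∀ p, ℓ (s p) ≠ linv (ℓ p)
  μ_μ : ∀ p, μ (μ p) = p
  μ_s : ∀ p, ty p ≠ none → μ (s p) = s⁻¹ (μ p)
  ty_μ : ∀ p, ty (μ p) = (ty p).map (fun x => (x.1, !x.2))
  ℓ_μ : ∀ p, ty p ≠ none → ℓ (μ p) = linv (ℓ p)
  base_μ : ∀ i, base (some (i, false)) = μ (s⁻¹ (base (some (i, true))))

namespace PD

variable {α ι P : Type} (D : PD α ι P)

/-- the successor of the position `p` may be glued to the position `q` -/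
def Adj (p q : P) : Prop := D.ℓ q = linv (D.ℓ (D.s p)) ∧ (D.ty p ≠ none → q ≠ D.μ (D.s p))

/-- the word of length `m` which starts at the position `p` -/
def wd (p : P) (m : ℕ) : List (α × Bool) := (List.range m).map (fun k => D.ℓ ((D.s ^ k) p))

/-- positions met when one starts at the first position of type `j` -/
def walk (j : Option (ι × Bool)) (m : ℕ) : List P :=
  (List.range m).map (fun k => (D.s ^ k) (D.base j))

/-- boundary word of a face -/
def face (N : ι → ℕ) (f : ι × Bool) : List (α × Bool) :=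
  D.wd (D.base (some f)) (N f.1 * D.len (some f))

/-- the elements `g`, `r_i`, `r_i⁻¹` -/
def el (j : Option (ι × Bool)) : FreeGroup α := FreeGroup.mk (D.wd (D.base j) (D.len j))

/-- no infinite overlap between two of the words `r_i^{±1}`, except the mirror one -/
def NoOverlap : Prop := ∀ p q, D.ty p ≠ none → D.ty q ≠ none →
  (∀ k : ℕ, D.ℓ ((D.s⁻¹ ^ k) q) = linv (D.ℓ ((D.s ^ (k + 1)) p))) → q = D.μ (D.s p)

/-- simple closed walks for the relation `Adj` -/
def Cy [DecidableEq P] : Type :=
  {c : List P // c ≠ [] ∧ c.Nodup ∧ ∀ p ∈ c, D.Adj p (c.formPerm p)}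

variable [DecidableEq P]

open Classical in
/-- number of steps from `p` to `q` in the family `u` of simple closed walks -/
noncomputable def flow (u : D.Cy → ℕ) (p q : P) : ℕ :=
  ∑ᶠ c : D.Cy, if p ∈ c.1 ∧ c.1.formPerm p = q then u c else 0

open Classical in
/-- number of visits of `p` -/
noncomputable def cnt (u : D.Cy → ℕ) (p : P) : ℕ := ∑ᶠ c : D.Cy, if p ∈ c.1 then u c else 0

/-- number of walks -/
noncomputable def num (u : D.Cy → ℕ) : ℕ := ∑ᶠ c : D.Cy, u c

/-- total length -/
noncomputable def size (u : D.Cy → ℕ) : ℕ := ∑ᶠ c : D.Cy, u c * c.1.length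

/-- twice (number of edges minus number of vertices) -/
noncomputable def cost (u : D.Cy → ℕ) : ℤ := (D.size u : ℤ) - 2 * D.num u

/-- the walks can be glued to a surface -/
def Sym (u : D.Cy → ℕ) : Prop := ∀ p q, D.flow u p q = D.flow u (D.s⁻¹ q) (D.s p)

/-- number of turns along `r_i` and `r_i⁻¹` -/
noncomputable def X (u : D.Cy → ℕ) (i : ι) : ℕ :=
  D.cnt u (D.base (some (i, true))) + D.cnt u (D.base (some (i, false)))

/-- irreducible symmetric vectors -/
def Irr (u : D.Cy → ℕ) : Prop :=
  u ≠ 0 ∧ D.Sym u ∧ ∀ v : D.Cy → ℕ, D.Sym v → v ≤ u → v = 0 ∨ v = u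

/-- value of a vector -/
noncomputable def val [Fintype ι] (N : ι → ℕ) (u : D.Cy → ℕ) : ℚ :=
  (D.cost u : ℚ) / 2 - ∑ i, (D.X u i : ℚ) / N i

end PD

end Pool.MP_ed1a61_al.Fill
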