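import Pool.Agent.Lib.MP_ed1a61_al.Fill.Vec

/-! # Irreducible symmetric vectors (Dickson's lemma) -/

set_option autoImplicit false

namespace Pool.MP_ed1a61_al.Fill

variable {α ι P : Type} [DecidableEq P] [Finite P] {D : PD α ι P}

theorem finite_irr : {u : D.Cy → ℕ | D.Irr u}.Finite := by
  have h1 : IsAntichain (· ≤ ·) {u : D.Cy → ℕ | D.Irr u} := by
    intro u hu v hv huv hle
    have h2 := hv.2.2 u hu.2.1 hle
    rcases h2 with h2 | h2
    · exact hu.1 h2
    · exact huv h2
  exact h1.finite_of_partiallyWellOrderedOn (Set.isPWO_of_wellQuasiOrderedLE _)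

private theorem Dickson_aux [Fintype D.Cy] (n : ℕ) : ∀ t : D.Cy → ℕ, D.Sym t → ∑ c, t c = n →
    ∃ m : Multiset (D.Cy → ℕ), (∀ u ∈ m, D.Irr u) ∧ m.sum = t := by
  induction n using Nat.strong_induction_on with
  | _ n ih =>
    intro t ht hn
    by_cases h0 : t = 0
    · exact ⟨0, by simp, by simp [h0]⟩
    by_cases hI : D.Irr t
    · exact ⟨{t}, by simpa using hI, by simp⟩
    · have h1 : ∃ v : D.Cy → ℕ, D.Sym v ∧ v ≤ t ∧ v ≠ 0 ∧ v ≠ t := by
        by_contra hc
        push Not at hc
        apply hI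
        refine ⟨h0, ht, fun v hv hvt => ?_⟩
        by_cases hv0 : v = 0
        · exact Or.inl hv0
        · exact Or.inr (hc v hv hvt hv0)
      obtain ⟨v, hv, hvt, hv0, hvne⟩ := h1
      have hs : D.Sym (t - v) := PD.Sym.sub ht hv hvt
      have hadd : v + (t - v) = t := by
        funext c
        simp only [Pi.add_apply, Pi.sub_apply]
        have h3 : v c ≤ t c := hvt c
        omega
      have hsum : ∑ c, v c + ∑ c, (t - v) c = n := by
        rw [← Finset.sum_add_distrib, ← hn]
        refine Finset.sum_congr rfl fun c _ => ?_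
        exact congrFun hadd c
      have hpos : ∀ w : D.Cy → ℕ, w ≠ 0 → 0 < ∑ c, w c := by
        intro w hw
        rw [Finset.sum_pos_iff]
        by_contra hc
        push Not at hc
        apply hw
        funext c
        have := hc c (Finset.mem_univ c)
        simpa using this
      have h2 : t - v ≠ 0 := by
        intro h
        rw [h, add_zero] at hadd
        exact hvne hadd
      have hp1 := hpos v hv0
      have hp2 := hpos (t - v) h2
      obtain ⟨m₁, hm₁, hs₁⟩ := ih (∑ c, v c) (by omega) v hv rfl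
      obtain ⟨m₂, hm₂, hs₂⟩ := ih (∑ c, (t - v) c) (by omega) (t - v) hs rfl
      refine ⟨m₁ + m₂, ?_, ?_⟩
      · intro u hu
        rcases Multiset.mem_add.1 hu with h | h
        · exact hm₁ u h
        · exact hm₂ u h
      · rw [Multiset.sum_add, hs₁, hs₂, hadd]

theorem exists_sum_irr {t : D.Cy → ℕ} (ht : D.Sym t) :
    ∃ m : Multiset (D.Cy → ℕ), (∀ u ∈ m, D.Irr u) ∧ m.sum = t := by
  have := Fintype.ofFinite D.Cy
  exact Dickson_aux _ t ht rfl

end Pool.MP_ed1a61_al.Fill
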