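import Pool.Agent.Lib.MP_ed1a61_al.Fill.StrBasic
import Pool.Agent.Lib.MP_ed1a61_al.Fill.Cyc

/-! # Writing the boundary cycles as lists -/

set_option autoImplicit false

namespace Pool.MP_ed1a61_al.Fill

open Equiv

variable {α ι P : Type} (D : PD α ι P)

private theorem theta_pow {Ω : Type} (σ : Perm Ω) (θ : Ω → P)
    (hθ : ∀ x, θ (σ x) = D.s (θ x)) (k : ℕ) (x : Ω) :
    θ ((σ ^ k) x) = (D.s ^ k) (θ x) := by
  induction k with
  | zero => rfl
  | succ k ih =>
    rw [pow_succ', pow_succ', Perm.mul_apply, Perm.mul_apply, hθ, ih]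

/-- one cycle -/
private theorem lists_one {Ω : Type} [Finite Ω] [DecidableEq Ω] (σ : Perm Ω) (θ : Ω → P)
    (hθ : ∀ x, θ (σ x) = D.s (θ x)) (x : Ω) :
    ∃ (l : List Ω) (y : Option (ι × Bool) × ℕ), l.Nodup ∧ (∀ z, z ∈ l ↔ σ.SameCycle x z) ∧
      (∀ z ∈ l, σ z = l.formPerm z) ∧ 0 < y.2 ∧
      l.map θ = D.walk y.1 (y.2 * D.len y.1) := by
  obtain ⟨k, hk⟩ := D.reach (θ x)
  set j := D.ty (θ x) with hj
  set x₀ := (σ ^ k)⁻¹ x with hx₀
  have hxk : (σ ^ k) x₀ = x := (σ ^ k).apply_symm_apply x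
  have hθ0 : θ x₀ = D.base j := by
    have h1 := theta_pow D σ θ hθ k x₀
    rw [hxk, ← hk] at h1
    exact ((D.s ^ k).injective h1).symm
  have hsc0 : σ.SameCycle x₀ x := ⟨k, by rw [zpow_natCast, hxk]⟩
  set L := Function.minimalPeriod σ x₀ with hL
  have hper : ∀ n : ℕ, (σ ^ n) x₀ = σ^[n] x₀ := fun n => by rw [Perm.iterate_eq_pow]
  have hLpos : 0 < L := by
    have : x₀ ∈ Function.periodicPts σ := by
      obtain ⟨n, hn, hn1⟩ := isOfFinOrder_iff_pow_eq_one.1 (isOfFinOrder_of_finite σ)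
      refine ⟨n, hn, ?_⟩
      change σ^[n] x₀ = x₀
      rw [← hper, hn1]
      rfl
    exact Function.minimalPeriod_pos_of_mem_periodicPts this
  have hmod : ∀ n : ℕ, (σ ^ (n % L)) x₀ = (σ ^ n) x₀ := fun n => by
    rw [hper, hper, Function.iterate_mod_minimalPeriod_eq]
  have hLx : (σ ^ L) x₀ = x₀ := by
    rw [← hmod L, Nat.mod_self]
    rfl
  have hdvd : D.len j ∣ L := by
    rw [← D.per j L, ← hθ0, ← theta_pow D σ θ hθ L x₀, hLx]
  have hnodup : ((List.range L).map fun i => (σ ^ i) x₀).Nodup := by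
    refine List.Nodup.map_on ?_ List.nodup_range
    intro a ha b hb hab
    rw [List.mem_range] at ha hb
    simp only [hper] at hab
    exact (Function.iterate_eq_iterate_iff_of_lt_minimalPeriod ha hb).1 hab
  refine ⟨(List.range L).map fun i => (σ ^ i) x₀, (j, L / D.len j), hnodup, ?_, ?_, ?_, ?_⟩
  · intro z
    rw [List.mem_map]
    constructor
    · rintro ⟨i, _, rfl⟩
      refine hsc0.symm.trans ⟨i, ?_⟩
      rw [zpow_natCast]
    · intro h
      obtain ⟨i, _, hi⟩ := (hsc0.trans h).exists_pow_eq' 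
      exact ⟨i % L, List.mem_range.2 (Nat.mod_lt _ hLpos), (hmod i).trans hi⟩
  · intro z hz
    rw [List.mem_map] at hz
    obtain ⟨i, hi, rfl⟩ := hz
    rw [List.mem_range] at hi
    have hlen : ((List.range L).map fun i => (σ ^ i) x₀).length = L := by simp
    have h1 := List.formPerm_apply_getElem _ hnodup i (by rw [hlen]; exact hi)
    simp only [List.getElem_map, List.getElem_range, List.length_map, List.length_range] at h1
    rw [h1, hmod, pow_succ', Perm.mul_apply]
  · exact Nat.div_pos (Nat.le_of_dvd hLpos hdvd) (D.len_pos j)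
  · rw [Nat.div_mul_cancel hdvd, PD.walk, List.map_map]
    refine List.map_congr_left fun i _ => ?_
    rw [Function.comp_apply, theta_pow D σ θ hθ, hθ0]

theorem exists_lists {Ω : Type} [Finite Ω] [DecidableEq Ω] (σ : Perm Ω) (θ : Ω → P)
    (hθ : ∀ x, θ (σ x) = D.s (θ x)) :
    ∃ (ls : List (List Ω)) (js : List (Option (ι × Bool) × ℕ)),
      ls.flatten.Nodup ∧ (∀ x, x ∈ ls.flatten) ∧ (∀ l ∈ ls, ∀ x ∈ l, σ x = l.formPerm x) ∧
      ls.length = cyc σ ∧ (∀ y ∈ js, 0 < y.2) ∧
      ls.map (List.map θ) = js.map (fun y => D.walk y.1 (y.2 * D.len y.1)) := by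
  classical
  choose l y h1 h2 h3 h4 h5 using lists_one D σ θ hθ
  have := Fintype.ofFinite (Quotient (Perm.SameCycle.setoid σ))
  set cs : List (Quotient (Perm.SameCycle.setoid σ)) := Finset.univ.toList with hcs
  have hcsn : cs.Nodup := Finset.nodup_toList _
  have hcl : ∀ c : Quotient (Perm.SameCycle.setoid σ), ∀ z ∈ l c.out,
      (Quotient.mk _ z : Quotient (Perm.SameCycle.setoid σ)) = c := by
    intro c z hz
    rw [h2] at hz
    conv_rhs => rw [← Quotient.out_eq c]
    exact Quotient.sound hz.symm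
  refine ⟨cs.map fun c => l c.out, cs.map fun c => y c.out, ?_, ?_, ?_, ?_, ?_, ?_⟩
  · rw [List.nodup_flatten]
    refine ⟨?_, ?_⟩
    · intro m hm
      rw [List.mem_map] at hm
      obtain ⟨c, _, rfl⟩ := hm
      exact h1 _
    · rw [List.pairwise_map]
      refine hcsn.pairwise_of_forall_ne ?_
      intro a _ b _ hab z hza hzb
      exact hab ((hcl a z hza).symm.trans (hcl b z hzb))
  · intro x
    rw [List.mem_flatten]
    refine ⟨l (Quotient.mk (Perm.SameCycle.setoid σ) x).out, ?_, ?_⟩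
    · rw [List.mem_map]
      exact ⟨Quotient.mk (Perm.SameCycle.setoid σ) x, Finset.mem_toList.2 (Finset.mem_univ _),
        rfl⟩
    · rw [h2]
      exact Quotient.exact (Quotient.out_eq (Quotient.mk (Perm.SameCycle.setoid σ) x))
  · intro m hm
    rw [List.mem_map] at hm
    obtain ⟨c, _, rfl⟩ := hm
    exact h3 _
  · rw [List.length_map, hcs, Finset.length_toList, Finset.card_univ, cyc,
      Nat.card_eq_fintype_card]
  · intro z hz
    rw [List.mem_map] at hz
    obtain ⟨c, _, rfl⟩ := hz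
    exact h4 _
  · rw [List.map_map, List.map_map]
    exact List.map_congr_left fun c _ => h5 _

end Pool.MP_ed1a61_al.Fill
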