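import Pool.Agent.Lib.MP_ed1a61_al.Fill.Defs

/-! # The words of the position data -/

set_option autoImplicit false

namespace Pool.MP_ed1a61_al.Fill

open Equiv

variable {α ι P : Type} (D : PD α ι P)

theorem Words_ais {Q : Type} (f : Perm Q) (x : Q) : f (f⁻¹ x) = x := f.apply_symm_apply x

theorem Words_add (p : P) (a b : ℕ) : D.wd p (a + b) = D.wd p a ++ D.wd ((D.s ^ a) p) b := by
  unfold PD.wd
  rw [List.range_add, List.map_append, List.map_map]
  congr 1
  refine List.map_congr_left fun k _ => ?_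
  simp only [Function.comp_apply]
  rw [add_comm a k, pow_add, Perm.mul_apply]

theorem Words_per (j : Option (ι × Bool)) (m : ℕ) :
    (D.s ^ (m * D.len j)) (D.base j) = D.base j :=
  (D.per j _).2 (dvd_mul_left _ _)

theorem mk_wd (j : Option (ι × Bool)) (m : ℕ) :
    FreeGroup.mk (D.wd (D.base j) (m * D.len j)) = D.el j ^ m := by
  induction m with
  | zero =>
    rw [zero_mul, pow_zero]
    rfl
  | succ m ih =>
    rw [add_mul, one_mul, Words_add, Words_per, ← FreeGroup.mul_mk, ih, pow_succ]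
    rfl

theorem Words_mu {q : P} (hq : D.ty q ≠ none) (j : ℕ) :
    (D.s ^ j) (D.μ ((D.s ^ j) q)) = D.μ q ∧ D.ty ((D.s ^ j) q) = D.ty q := by
  induction j with
  | zero => exact ⟨rfl, rfl⟩
  | succ j ih =>
    obtain ⟨h1, h2⟩ := ih
    have h3 : (D.s ^ (j + 1)) q = D.s ((D.s ^ j) q) := by
      rw [pow_succ', Perm.mul_apply]
    constructor
    · rw [h3, D.μ_s _ (by rw [h2]; exact hq), pow_succ, Perm.mul_apply,
        Words_ais, h1]
    · rw [h3, D.ty_s, h2]

/-- mirror words are inverse to each other -/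
theorem wd_mirror {p : P} (hp : D.ty p ≠ none) {m : ℕ} (hm : (D.s ^ m) p = p) :
    D.wd (D.s (D.μ p)) m = FreeGroup.invRev (D.wd p m) := by
  unfold PD.wd FreeGroup.invRev
  refine List.ext_getElem (by simp) fun k h1 h2 => ?_
  rw [List.length_map, List.length_range] at h1
  rw [List.getElem_reverse]
  simp only [List.getElem_map, List.getElem_range, List.length_map, List.length_range]
  have hq := (Words_mu D hp (m - 1 - k)).2
  have h4 := (Words_mu D (q := (D.s ^ (m - 1 - k)) p) (by rw [hq]; exact hp) (k + 1)).1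
  have h5 : (D.s ^ (k + 1)) ((D.s ^ (m - 1 - k)) p) = p := by
    rw [← Perm.mul_apply, ← pow_add]
    have : k + 1 + (m - 1 - k) = m := by omega
    rw [this, hm]
  rw [h5] at h4
  have h6 : (D.s ^ k) (D.s (D.μ p)) = (D.s ^ (k + 1)) (D.μ p) := by
    rw [pow_succ, Perm.mul_apply]
  rw [h6, h4, D.ℓ_μ _ (by rw [hq]; exact hp)]
  rfl

theorem el_false (i : ι) : D.el (some (i, false)) = (D.el (some (i, true)))⁻¹ := by
  unfold PD.el
  have hb : D.base (some (i, false)) = D.s (D.μ (D.base (some (i, true)))) := by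
    have h1 : D.ty (D.s⁻¹ (D.base (some (i, true)))) ≠ none := by
      have h2 := D.ty_s (D.s⁻¹ (D.base (some (i, true))))
      rw [Words_ais, D.ty_base] at h2
      rw [← h2]
      simp
    have h3 := D.μ_s _ h1
    rw [Words_ais] at h3
    rw [h3, Words_ais, D.base_μ]
  have hp : (D.s ^ (D.len (some (i, true)))) (D.base (some (i, true))) =
      D.base (some (i, true)) := (D.per _ _).2 dvd_rfl
  rw [FreeGroup.inv_mk, ← wd_mirror D (by rw [D.ty_base]; simp) hp, hb, D.len_symm]

theorem Words_rot {p : P} {L : ℕ} (hL : 0 < L) (h : (D.s ^ L) p = p) :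
    (D.wd p L).rotate 1 = D.wd (D.s p) L := by
  obtain ⟨L, rfl⟩ : ∃ K, L = K + 1 := ⟨L - 1, by omega⟩
  have h1 : D.wd p (L + 1) = D.ℓ p :: D.wd (D.s p) L := by
    rw [add_comm L 1, Words_add, pow_one]
    rfl
  have h2 : D.wd (D.s p) (L + 1) = D.wd (D.s p) L ++ [D.ℓ p] := by
    rw [Words_add]
    congr 1
    have h3 : (D.s ^ L) (D.s p) = p := by
      rw [← Perm.mul_apply, ← pow_succ, h]
    rw [h3]
    rfl
  rw [h1, h2, List.rotate_cons_succ, List.rotate_zero]

/-- rotations of words -/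
theorem wd_rotate {j : Option (ι × Bool)} {m : ℕ} (k : ℕ) (hm : 0 < m) :
    (D.wd (D.base j) (m * D.len j)).rotate k = D.wd ((D.s ^ k) (D.base j)) (m * D.len j) := by
  induction k with
  | zero => simp
  | succ k ih =>
    rw [← List.rotate_rotate, ih, Words_rot D (Nat.mul_pos hm (D.len_pos j)), pow_succ',
      Perm.mul_apply]
    rw [← Perm.mul_apply, ← pow_add, add_comm, pow_add, Perm.mul_apply, Words_per]

end Pool.MP_ed1a61_al.Fill
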