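import Pool.Agent.Lib.MP_ed1a61_al.Fill.Surface
import Pool.Agent.Lib.MP_ed1a61_al.Fill.Lists
import Pool.Agent.Lib.MP_ed1a61_al.Fill.CardBase
import Pool.Agent.Lib.MP_ed1a61_al.Fill.Words
import Pool.Agent.Lib.MP_ed1a61_al.Fill.BdOfStr

/-! # An irreducible vector gives an identity in the free group -/

set_option autoImplicit false

namespace Pool.MP_ed1a61_al.Fill

open Equiv

variable {α ι P : Type} [DecidableEq P] [Finite P] [Fintype ι] (D : PD α ι P)

theorem ExBd_words {Ω : Type} {θ : Ω → P} {ls : List (List Ω)}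
    {js : List (Option (ι × Bool) × ℕ)}
    (h : ls.map (List.map θ) = js.map (fun y => D.walk y.1 (y.2 * D.len y.1))) :
    (ls.map (List.map fun x => D.ℓ (θ x))).map FreeGroup.mk =
      js.map (fun y => D.el y.1 ^ y.2) := by
  have h1 : ls.map (List.map fun x => D.ℓ (θ x)) = (ls.map (List.map θ)).map (List.map D.ℓ) := by
    rw [List.map_map]
    refine List.map_congr_left fun l _ => ?_
    simp only [Function.comp_apply, List.map_map]
    rfl
  rw [h1, h, List.map_map, List.map_map]
  refine List.map_congr_left fun y _ => ?_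
  simp only [Function.comp_apply]
  rw [← mk_wd]
  congr 1
  unfold PD.walk PD.wd
  rw [List.map_map]
  rfl

/-- an irreducible vector gives an identity in the free group -/
theorem exists_bd {u : D.Cy → ℕ} (hu : D.Irr u) :
    ∃ (K : ℕ) (js : List (Option (ι × Bool) × ℕ)), (∀ y ∈ js, 0 < y.2) ∧
      Bd K (js.map (fun y => D.el y.1 ^ y.2)) ∧
      2 * (2 * (K : ℤ) - 2 + js.length) ≤ D.cost u ∧
      (∀ p : Option (ι × Bool), ∀ [DecidableEq ι],
        ((js.filter (fun y => y.1 = p)).map Prod.snd).sum = D.cnt u (D.base p)) := by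
  classical
  obtain ⟨Ω, hΩ, σ, π, θ, hπ, hθσ, hℓπ, hcyc, hcard, hcnt, hcomps⟩ := exists_surface D hu
  obtain ⟨ls, js, hnd, hall, hform, hlen, hjs, hmap⟩ := exists_lists D σ θ hθσ
  have hstr : IsStr σ π (fun x => D.ℓ (θ x)) ls :=
    ⟨hπ, hℓπ, hnd, hform, fun x hx => absurd (hall x) hx⟩
  obtain ⟨K, hK, hb⟩ := bd_of_str ⟨Ω, hΩ, inferInstance, σ, π, fun x => D.ℓ (θ x), ls, hstr,
    rfl, le_refl (gen σ π)⟩
  rw [ExBd_words D hmap] at hb
  refine ⟨K, js, hjs, hb, ?_, ?_⟩
  · have h1 := cyc_invol hπ hstr.pi_ne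
    have h2 : ls.length = js.length := by
      have := congrArg List.length hmap
      rwa [List.length_map, List.length_map] at this
    unfold gen at hK
    unfold PD.cost
    rw [hcomps, hcyc, hcard, ← hlen, h2] at hK
    rw [hcard] at h1
    push_cast at hK
    omega
  · intro p inst
    exact (card_base D hnd hall hmap p).symm.trans (hcnt _)

end Pool.MP_ed1a61_al.Fill
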