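import Pool.Agent.Lib.MP_ed1a61_al.Fill.VecAdj

/-! # Counting visits -/

set_option autoImplicit false

namespace Pool.MP_ed1a61_al.Fill

variable {α ι P : Type} [DecidableEq P] {D : PD α ι P}

namespace PD

variable [Finite P] {u v : D.Cy → ℕ}

theorem sum_flow_left (p : P) : ∑ᶠ q, D.flow u p q = D.cnt u p := by
  classical
  have := Fintype.ofFinite P
  have := Fintype.ofFinite D.Cy
  unfold flow cnt
  simp only [finsum_eq_sum_of_fintype]
  rw [Finset.sum_comm]
  refine Finset.sum_congr rfl fun c _ => ?_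
  by_cases h : p ∈ c.1
  · simp [h]
  · simp [h]

theorem sum_flow_right (q : P) : ∑ᶠ p, D.flow u p q = D.cnt u q := by
  classical
  have := Fintype.ofFinite P
  have := Fintype.ofFinite D.Cy
  unfold flow cnt
  simp only [finsum_eq_sum_of_fintype]
  rw [Finset.sum_comm]
  refine Finset.sum_congr rfl fun c _ => ?_
  have e : ∀ p : P, (p ∈ c.1 ∧ c.1.formPerm p = q) ↔ (p = c.1.formPerm⁻¹ q ∧ q ∈ c.1) := by
    intro p
    constructor
    · rintro ⟨h1, h2⟩
      refine ⟨?_, ?_⟩
      · rw [← h2]; simp
      · rw [← h2]; exact List.formPerm_mem_iff_mem.2 h1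
    · rintro ⟨h1, h2⟩
      have h3 : c.1.formPerm p = q := by rw [h1]; simp
      refine ⟨?_, h3⟩
      rw [← List.formPerm_mem_iff_mem, h3]
      exact h2
  simp only [e]
  by_cases h : q ∈ c.1
  · simp [h]
  · simp [h]

theorem sum_cnt : ∑ᶠ p, D.cnt u p = D.size u := by
  classical
  have := Fintype.ofFinite P
  have := Fintype.ofFinite D.Cy
  unfold cnt size
  simp only [finsum_eq_sum_of_fintype]
  rw [Finset.sum_comm]
  refine Finset.sum_congr rfl fun c _ => ?_
  have e : (Finset.univ.filter fun p : P => p ∈ c.1) = c.1.toFinset := by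
    ext p; simp
  rw [← Finset.sum_filter, Finset.sum_const, e, List.toFinset_card_of_nodup c.2.2.1,
    smul_eq_mul, mul_comm]

theorem flow_adj {p q : P} (h : D.flow u p q ≠ 0) : D.Adj p q := by
  classical
  by_contra hA
  apply h
  unfold flow
  refine finsum_eq_zero_of_forall_eq_zero fun c => ?_
  rw [if_neg]
  rintro ⟨h1, h2⟩
  apply hA
  have := c.2.2.2 p h1
  rwa [h2] at this

theorem VecSum_cnt_s (hu : D.Sym u) (p : P) : D.cnt u (D.s p) = D.cnt u p := by
  rw [← sum_flow_left p, ← sum_flow_right (D.s p)]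
  rw [← finsum_comp_equiv (D.s⁻¹ : Equiv.Perm P) (f := fun p' => D.flow u p' (D.s p))]
  refine finsum_congr fun q => ?_
  exact (hu p q).symm

/-- in a symmetric vector all the positions of the same type are visited equally often -/
theorem cnt_base (hu : D.Sym u) (p : P) : D.cnt u p = D.cnt u (D.base (D.ty p)) := by
  have key : ∀ (k : ℕ) (x : P), D.cnt u ((D.s ^ k) x) = D.cnt u x := by
    intro k
    induction k with
    | zero => intro x; simp
    | succ k ih =>
      intro x
      rw [pow_succ', Equiv.Perm.mul_apply, VecSum_cnt_s hu, ih]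
  obtain ⟨k, hk⟩ := D.reach p
  have := key k (D.base (D.ty p))
  rw [hk] at this
  exact this

theorem VecSum_two_mul_num_le (u : D.Cy → ℕ) : 2 * D.num u ≤ D.size u := by
  classical
  have := Fintype.ofFinite D.Cy
  unfold num size
  simp only [finsum_eq_sum_of_fintype]
  rw [Finset.mul_sum]
  refine Finset.sum_le_sum fun c _ => ?_
  rw [mul_comm]
  exact Nat.mul_le_mul_left _ (len_ne_one D c)

theorem cost_nonneg (u : D.Cy → ℕ) : 0 ≤ D.cost u := by
  have := VecSum_two_mul_num_le u
  unfold cost
  omega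

theorem two_mul_num_le (u : D.Cy → ℕ) : 2 * D.num u ≤ D.size u := VecSum_two_mul_num_le u

end PD

end Pool.MP_ed1a61_al.Fill
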