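import Pool.Agent.Lib.MP_ed1a61_al.Fill.Split
import Pool.Agent.Lib.MP_ed1a61_al.Fill.Vec

/-! # From a permutation with labels to a vector of simple closed walks -/

set_option autoImplicit false

namespace Pool.MP_ed1a61_al.Fill

open Equiv

variable {α ι P : Type} [DecidableEq P] [Finite P] (D : PD α ι P)

namespace ExVec

/-- the next element in a mapped list -/
theorem formPerm_map_apply {A B : Type} [DecidableEq A] [DecidableEq B] {θ : A → B} {l : List A}
    (hl : l.Nodup) (hm : (l.map θ).Nodup) {x : A} (hx : x ∈ l) :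
    (l.map θ).formPerm (θ x) = θ (l.formPerm x) := by
  obtain ⟨i, hi, rfl⟩ := List.getElem_of_mem hx
  have h1 := List.formPerm_apply_getElem l hl i hi
  have h2 := List.formPerm_apply_getElem (l.map θ) hm i (by simpa using hi)
  rw [h1]
  simpa using h2

/-- counting along the fibres of a map -/
theorem card_fiber {A B : Type} [Finite A] [Finite B] (w : A → B) (R : B → Prop)
    [DecidablePred R] :
    ∑ᶠ c, (if R c then Nat.card {a // w a = c} else 0) = Nat.card {a // R (w a)} := by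
  have := Fintype.ofFinite B
  rw [finsum_eq_sum_of_fintype,
    Nat.card_congr (Equiv.sigmaFiberEquiv (fun a : {a // R (w a)} => w a.1)).symm,
    Nat.card_sigma]
  refine Finset.sum_congr rfl fun c _ => ?_
  by_cases hc : R c
  · rw [if_pos hc]
    refine Nat.card_congr ⟨fun a => ⟨⟨a.1, by rw [a.2]; exact hc⟩, a.2⟩,
      fun a => ⟨a.1.1, a.2⟩, fun _ => rfl, fun _ => rfl⟩
  · rw [if_neg hc]
    have : IsEmpty {a : {a // R (w a)} // w a.1 = c} :=
      ⟨fun a => hc (by have := a.1.2; rw [a.2] at this; exact this)⟩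
    rw [Nat.card_of_isEmpty]

end ExVec

theorem exists_vec {Ω : Type} [Finite Ω] (τ : Perm Ω) (θ : Ω → P)
    (h : ∀ x, D.Adj (θ x) (θ (τ x))) :
    ∃ u : D.Cy → ℕ, (∀ p q, D.flow u p q = Nat.card {x // θ x = p ∧ θ (τ x) = q}) ∧
      cyc τ ≤ D.num u := by
  classical
  obtain ⟨τ', h1, h2, h3⟩ := exists_split τ θ
  have := Fintype.ofFinite Ω
  have hadj : ∀ x, D.Adj (θ x) (θ (τ' x)) := by
    intro x
    have hc : Nat.card {z // θ z = θ x ∧ θ (τ' z) = θ (τ' x)} ≠ 0 := by
      rw [Nat.card_ne_zero]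
      exact ⟨⟨x, rfl, rfl⟩, inferInstance⟩
    rw [h1, Nat.card_ne_zero] at hc
    obtain ⟨⟨z, hz1, hz2⟩⟩ := hc.1
    rw [← hz1, ← hz2]
    exact h z
  have hsup : ∀ x, x ∈ τ'.support := by
    intro x
    rw [Perm.mem_support]
    intro hx
    have h4 := hadj x
    rw [hx] at h4
    exact PD.not_adj_self D _ h4
  have hmem : ∀ x y, y ∈ τ'.toList x ↔ τ'.SameCycle x y := fun x y => by
    rw [Perm.mem_toList_iff]
    exact ⟨fun h => h.1, fun h => ⟨h, hsup x⟩⟩
  have hnd : ∀ x, ((τ'.toList x).map θ).Nodup := by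
    intro x
    refine List.Nodup.map_on ?_ (Perm.nodup_toList τ' x)
    intro a ha b hb hab
    rw [hmem] at ha hb
    exact h3 a b (ha.symm.trans hb) hab
  have hnext : ∀ x y, τ'.SameCycle x y →
      ((τ'.toList x).map θ).formPerm (θ y) = θ (τ' y) := by
    intro x y hxy
    rw [ExVec.formPerm_map_apply (Perm.nodup_toList τ' x) (hnd x) ((hmem x y).2 hxy),
      Perm.formPerm_toList, hxy.cycleOf_apply]
  let W : Ω → D.Cy := fun x => ⟨(τ'.toList x).map θ, by
      intro h0
      have h4 : x ∈ τ'.toList x := (hmem x x).2 (Perm.SameCycle.refl _ _)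
      rw [List.map_eq_nil_iff] at h0
      rw [h0] at h4
      exact List.not_mem_nil h4, hnd x, by
      intro p hp
      obtain ⟨y, hy, rfl⟩ := List.mem_map.1 hp
      rw [hnext x y ((hmem x y).1 hy)]
      exact hadj y⟩
  have key : ∀ (x : Ω) (p q : P), (p ∈ (W x).1 ∧ (W x).1.formPerm p = q) ↔
      ∃ y, τ'.SameCycle x y ∧ θ y = p ∧ θ (τ' y) = q := by
    intro x p q
    constructor
    · rintro ⟨hp, hq⟩
      obtain ⟨y, hy, rfl⟩ := List.mem_map.1 hp
      have hy' := (hmem x y).1 hy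
      exact ⟨y, hy', rfl, by rw [← hq]; exact (hnext x y hy').symm⟩
    · rintro ⟨y, hy, rfl, rfl⟩
      exact ⟨List.mem_map.2 ⟨y, (hmem x y).2 hy, rfl⟩, hnext x y hy⟩
  let w : Quotient (Perm.SameCycle.setoid τ') → D.Cy := fun C => W C.out
  have hout : ∀ x y, (Quotient.mk (Perm.SameCycle.setoid τ') x).out = y →
      τ'.SameCycle y x := by
    intro x y hxy
    have h5 : (Quotient.mk (Perm.SameCycle.setoid τ') y) = Quotient.mk _ x := by
      rw [← hxy, Quotient.out_eq]
    exact Quotient.exact h5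
  refine ⟨fun c => Nat.card {C // w C = c}, ?_, ?_⟩
  · intro p q
    rw [← h1 p q]
    refine (ExVec.card_fiber w (fun c => p ∈ c.1 ∧ c.1.formPerm p = q)).trans ?_
    symm
    refine Nat.card_congr (Equiv.ofBijective
      (fun x => ⟨Quotient.mk _ x.1, (key _ p q).2
        ⟨x.1, hout x.1 _ rfl, x.2.1, x.2.2⟩⟩) ⟨?_, ?_⟩)
    · intro x y hxy
      have h5 := Quotient.exact (congrArg Subtype.val hxy)
      exact Subtype.ext (h3 _ _ h5 (x.2.1.trans y.2.1.symm))
    · rintro ⟨C, hC⟩
      obtain ⟨y, hy, hy1, hy2⟩ := (key _ p q).1 hC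
      refine ⟨⟨y, hy1, hy2⟩, Subtype.ext ?_⟩
      have h6 : Quotient.mk (Perm.SameCycle.setoid τ') y = Quotient.mk _ C.out :=
        Quotient.sound hy.symm
      exact h6.trans (Quotient.out_eq C)
  · refine h2.trans (le_of_eq ?_)
    have h7 := ExVec.card_fiber w (fun _ => True)
    simp only [if_true] at h7
    rw [PD.num, h7, cyc]
    exact Nat.card_congr (Equiv.Set.univ _).symm

end Pool.MP_ed1a61_al.Fill
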