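import Pool.Agent.Lib.MP_ed1a61_al.Fill.StrOfBd
import Pool.Agent.Lib.MP_ed1a61_al.Fill.Words

/-! # A relation in the quotient gives a surface with faces -/

set_option autoImplicit false

namespace Pool.MP_ed1a61_al.Fill

variable {α ι P : Type} (D : PD α ι P)

theorem Faces_mk (N : ι → ℕ) (i : ι) :
    FreeGroup.mk (D.face N (i, true)) = D.el (some (i, true)) ^ N i ∧
      FreeGroup.mk (D.face N (i, false)) = (D.el (some (i, true)) ^ N i)⁻¹ := by
  refine ⟨mk_wd D _ _, ?_⟩
  have h := mk_wd D (some (i, false)) (N i)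
  rw [el_false, inv_pow] at h
  exact h

theorem Faces_inv (N : ι → ℕ) (f : ι × Bool) :
    FreeGroup.mk (D.face N (f.1, !f.2)) = (FreeGroup.mk (D.face N f))⁻¹ := by
  obtain ⟨i, b⟩ := f
  obtain ⟨h1, h2⟩ := Faces_mk D N i
  cases b
  · simp only [Bool.not_false]
    rw [h1, h2, inv_inv]
  · simp only [Bool.not_true]
    rw [h1, h2]

theorem Faces_exists (N : ι → ℕ) {z : FreeGroup α}
    (hz : z ∈ Subgroup.normalClosure (Set.range fun i => (D.el (some (i, true))) ^ N i)) :
    ∃ (fs : List (ι × Bool)) (vs : List (FreeGroup α)),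
      List.Forall₂ IsConj (fs.map (fun f => FreeGroup.mk (D.face N f))) vs ∧ vs.prod = z := by
  unfold Subgroup.normalClosure at hz
  induction hz using Subgroup.closure_induction with
  | mem x hx =>
    obtain ⟨a, ⟨i, rfl⟩, hax⟩ := Group.mem_conjugatesOfSet_iff.1 hx
    refine ⟨[(i, true)], [x], ?_, by simp⟩
    rw [List.map_cons, List.map_nil]
    refine List.Forall₂.cons ?_ List.Forall₂.nil
    rw [(Faces_mk D N i).1]
    exact hax
  | one => exact ⟨[], [], List.Forall₂.nil, rfl⟩
  | mul x y _ _ ihx ihy =>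
    obtain ⟨fs, vs, h1, h2⟩ := ihx
    obtain ⟨fs', vs', h1', h2'⟩ := ihy
    refine ⟨fs ++ fs', vs ++ vs', ?_, by rw [List.prod_append, h2, h2']⟩
    rw [List.map_append]
    exact List.rel_append h1 h1'
  | inv x _ ihx =>
    obtain ⟨fs, vs, h1, h2⟩ := ihx
    refine ⟨(fs.map (fun f => (f.1, !f.2))).reverse, (vs.map (fun x => x⁻¹)).reverse, ?_, by
      rw [← List.prod_inv_reverse, h2]⟩
    rw [List.map_reverse, List.forall₂_reverse_iff, List.map_map, List.forall₂_map_left_iff,
      List.forall₂_map_right_iff]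
    rw [List.forall₂_map_left_iff] at h1
    refine h1.imp ?_
    intro f v hfv
    simp only [Function.comp_apply]
    rw [Faces_inv]
    obtain ⟨c, hc⟩ := isConj_iff.1 hfv
    refine isConj_iff.2 ⟨c, ?_⟩
    rw [← hc]
    group

theorem exists_faces (N : ι → ℕ) (n k : ℕ) {z : FreeGroup α}
    (hz : z ∈ Subgroup.normalClosure (Set.range fun i => (D.el (some (i, true))) ^ N i))
    (h : CL k (D.el none ^ n * z)) :
    ∃ fs : List (ι × Bool),
      Str (2 * k) (D.wd (D.base none) (n * D.len none) :: fs.map (D.face N)) := by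
  obtain ⟨fs, vs, h1, h2⟩ := Faces_exists D N hz
  refine ⟨fs, str_of_bd ⟨(D.el none ^ n) :: vs, ?_, ?_⟩⟩
  · rw [List.map_cons, mk_wd, List.map_map]
    exact List.Forall₂.cons (IsConj.refl _) h1
  · rw [List.prod_cons, h2]
    exact h

end Pool.MP_ed1a61_al.Fill
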