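import Pool.Agent.Lib.MP_ed1a61_al.Fill.Vec
import Pool.Agent.Lib.MP_ed1a61_al.Fill.Cyc

/-! # Gluing the walks of a symmetric vector -/

set_option autoImplicit false

namespace Pool.MP_ed1a61_al.Fill

open Equiv

namespace Glue

/-- matching the points whose labels are exchanged by an involution `opp` -/
theorem exists_invol {A T : Type} [Finite A] [Finite T] (opp : T → T)
    (hopp : ∀ t, opp (opp t) = t) (f : A → T) (hne : ∀ x, f x ≠ opp (f x))
    (hcard : ∀ t, Nat.card {x // f x = t} = Nat.card {x // f x = opp t}) :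
    ∃ β : Perm A, (∀ x, β (β x) = x) ∧ ∀ x, f (β x) = opp (f x) := by
  classical
  let e : ∀ t, {x // f x = t} ≃ {x // f x = opp t} := fun t =>
    Classical.choice (Finite.card_eq.1 (hcard t))
  let ρ : T → ℕ := fun t => (Finite.equivFin T t).val
  have hρ : Function.Injective ρ := Fin.val_injective.comp (Finite.equivFin T).injective
  let b : A → A := fun x => if ρ (f x) < ρ (opp (f x)) then ((e (f x)) ⟨x, rfl⟩).1
    else ((e (opp (f x))).symm ⟨x, (hopp (f x)).symm⟩).1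
  have hb1 : ∀ x, ρ (f x) < ρ (opp (f x)) → b x = ((e (f x)) ⟨x, rfl⟩).1 :=
    fun x h => if_pos h
  have hb2 : ∀ x, ¬ ρ (f x) < ρ (opp (f x)) →
      b x = ((e (opp (f x))).symm ⟨x, (hopp (f x)).symm⟩).1 := fun x h => if_neg h
  have hfb : ∀ x, f (b x) = opp (f x) := by
    intro x
    by_cases h : ρ (f x) < ρ (opp (f x))
    · rw [hb1 x h]
      exact ((e (f x)) ⟨x, rfl⟩).2
    · rw [hb2 x h]
      exact ((e (opp (f x))).symm ⟨x, (hopp (f x)).symm⟩).2
  have hbb : ∀ x, b (b x) = x := by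
    intro x
    by_cases h : ρ (f x) < ρ (opp (f x))
    · have h2 : ¬ ρ (f (b x)) < ρ (opp (f (b x))) := by
        rw [hfb, hopp]
        omega
      have gen : ∀ t (ht : f x = t) (hy : f (b x) = opp t),
          ((e t).symm ⟨b x, hy⟩).1 = x := by
        rintro t rfl hy
        have h3 : (⟨b x, hy⟩ : {z // f z = opp (f x)}) = e (f x) ⟨x, rfl⟩ :=
          Subtype.ext (hb1 x h)
        rw [h3, Equiv.symm_apply_apply]
      rw [hb2 (b x) h2]
      exact gen _ (by rw [hfb, hopp]) _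
    · have h1 : ρ (opp (f x)) ≠ ρ (f x) := fun h4 => hne x (hρ h4).symm
      have h2 : ρ (f (b x)) < ρ (opp (f (b x))) := by
        rw [hfb, hopp]
        omega
      have gen : ∀ t (ht : opp (f x) = t) (hy : f (b x) = t),
          ((e t) ⟨b x, hy⟩).1 = x := by
        rintro t rfl hy
        have h3 : (⟨b x, hy⟩ : {z // f z = opp (f x)}) =
            (e (opp (f x))).symm ⟨x, (hopp (f x)).symm⟩ := Subtype.ext (hb2 x h)
        rw [h3, Equiv.apply_symm_apply]
      rw [hb1 (b x) h2]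
      exact gen _ (hfb x).symm rfl
  exact ⟨Function.Involutive.toPerm b hbb, hbb, hfb⟩

/-- an invariant function is constant on the cycles -/
theorem eq_of_sameCycle {A B : Type} {σ : Perm A} {f : A → B} (h : ∀ x, f (σ x) = f x)
    {x y : A} (hxy : σ.SameCycle x y) : f x = f y := by
  obtain ⟨i, rfl⟩ := hxy
  symm
  induction i using Int.induction_on with
  | zero => rfl
  | succ n ih => rw [add_comm, zpow_add, zpow_one, Perm.mul_apply, h]; exact ih
  | pred n ih =>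
    have h1 := h ((σ ^ (-(n : ℤ) - 1)) x)
    rw [← Perm.mul_apply, ← zpow_one_add] at h1
    rw [← h1, show 1 + (-(n : ℤ) - 1) = -(n : ℤ) by ring]
    exact ih

variable {α ι P : Type} [DecidableEq P] (D : PD α ι P) (u : D.Cy → ℕ)

/-- the copies of the walks -/
abbrev K : Type := Σ c : D.Cy, Fin (u c)

/-- the points of the copies of the walks -/
abbrev Om : Type := {x : K D u × P // x.2 ∈ x.1.1.1}

/-- the successor on the walks -/
def tau : Perm (Om D u) where
  toFun x := ⟨(x.1.1, x.1.1.1.1.formPerm x.1.2), List.formPerm_mem_iff_mem.2 x.2⟩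
  invFun x := ⟨(x.1.1, x.1.1.1.1.formPerm⁻¹ x.1.2), by
    rw [← List.formPerm_mem_iff_mem]
    simpa using x.2⟩
  left_inv x := Subtype.ext (Prod.ext rfl (by simp))
  right_inv x := Subtype.ext (Prod.ext rfl (by simp))

theorem tau_pow (n : ℕ) (x : Om D u) :
    ((tau D u ^ n) x).1 = (x.1.1, (x.1.1.1.1.formPerm ^ n) x.1.2) := by
  induction n with
  | zero => rfl
  | succ n ih =>
    have h1 : ((tau D u ^ (n + 1)) x) = tau D u ((tau D u ^ n) x) := by
      rw [pow_succ', Perm.mul_apply]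
    have h2 : (tau D u ((tau D u ^ n) x)).1 =
      (((tau D u ^ n) x).1.1, ((tau D u ^ n) x).1.1.1.1.formPerm ((tau D u ^ n) x).1.2) := rfl
    rw [h1, h2, ih, pow_succ', Perm.mul_apply]

theorem sameCycle_iff (x y : Om D u) : (tau D u).SameCycle x y ↔ x.1.1 = y.1.1 := by
  constructor
  · intro h
    exact eq_of_sameCycle (f := fun z : Om D u => z.1.1) (fun z => rfl) h
  · obtain ⟨⟨k, p⟩, hp⟩ := x
    obtain ⟨⟨k', q⟩, hq⟩ := y
    intro h
    have h' : k = k' := h
    subst h'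
    change p ∈ k.1.1 at hp
    change q ∈ k.1.1 at hq
    obtain ⟨i, hi, hpi⟩ := List.getElem_of_mem hp
    obtain ⟨j, hj, hqj⟩ := List.getElem_of_mem hq
    refine ⟨((j + (k.1.1.length - i) : ℕ) : ℤ), ?_⟩
    rw [zpow_natCast]
    refine Subtype.ext ?_
    rw [tau_pow]
    refine Prod.ext rfl ?_
    change (k.1.1.formPerm ^ (j + (k.1.1.length - i))) p = q
    rw [← hpi, List.formPerm_pow_apply_getElem _ k.1.2.2.1]
    rw [← hqj]
    congr 1
    rw [show i + (j + (k.1.1.length - i)) = j + k.1.1.length by omega, Nat.add_mod_right,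
      Nat.mod_eq_of_lt hj]

/-- a point of every copy -/
theorem exists_pt (k : K D u) : ∃ x : Om D u, x.1.1 = k :=
  ⟨⟨(k, k.1.1.head k.1.2.1), List.head_mem _⟩, rfl⟩

theorem card_K [Finite P] (R : K D u → Prop) :
    Nat.card {k : K D u // R k} = ∑ᶠ c, Nat.card {i : Fin (u c) // R ⟨c, i⟩} := by
  have := Fintype.ofFinite D.Cy
  rw [finsum_eq_sum_of_fintype, ← Nat.card_sigma]
  exact Nat.card_congr ⟨fun k => ⟨k.1.1, ⟨k.1.2, k.2⟩⟩, fun k => ⟨⟨k.1, k.2.1⟩, k.2.2⟩,
    fun _ => rfl, fun _ => rfl⟩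

theorem cyc_tau [Finite P] : cyc (tau D u) = D.num u := by
  have h1 : cyc (tau D u) = Nat.card (K D u) := by
    refine Nat.card_congr (Equiv.ofBijective (Quotient.lift (fun x : Om D u => x.1.1)
      (fun a b h => (sameCycle_iff D u a b).1 h)) ⟨?_, ?_⟩)
    · intro a b
      induction a using Quotient.inductionOn with
      | h x =>
        induction b using Quotient.inductionOn with
        | h y => exact fun h => Quotient.sound ((sameCycle_iff D u x y).2 h)
    · intro k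
      obtain ⟨x, hx⟩ := exists_pt D u k
      exact ⟨Quotient.mk _ x, hx⟩
  have := Fintype.ofFinite D.Cy
  rw [h1, PD.num, finsum_eq_sum_of_fintype, Nat.card_sigma]
  exact Finset.sum_congr rfl fun c _ => Nat.card_fin _

/-- the copy `k` lies in `S` -/
def inS (S : Set (Om D u)) (k : K D u) : Prop := ∃ x ∈ S, x.1.1 = k

theorem inS_iff {S : Set (Om D u)} (hS : ∀ x, tau D u x ∈ S ↔ x ∈ S) (x : Om D u) :
    inS D u S x.1.1 ↔ x ∈ S := by
  constructor
  · rintro ⟨y, hy, hxy⟩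
    have h1 := eq_of_sameCycle (f := fun z => z ∈ S) (fun z => propext (hS z))
      ((sameCycle_iff D u y x).2 hxy)
    exact h1 ▸ hy
  · intro hx
    exact ⟨x, hx, rfl⟩

/-- number of copies inside of `S` -/
noncomputable def vec (S : Set (Om D u)) (c : D.Cy) : ℕ :=
  Nat.card {i : Fin (u c) // inS D u S ⟨c, i⟩}

theorem vec_univ : vec D u Set.univ = u := by
  funext c
  have h1 : ∀ i : Fin (u c), inS D u Set.univ ⟨c, i⟩ := fun i => by
    obtain ⟨x, hx⟩ := exists_pt D u ⟨c, i⟩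
    exact ⟨x, Set.mem_univ x, hx⟩
  rw [vec, Nat.card_congr (Equiv.subtypeUnivEquiv h1), Nat.card_fin]

theorem vec_le (S : Set (Om D u)) : vec D u S ≤ u := by
  intro c
  have h1 := Finite.card_subtype_le (fun i : Fin (u c) => inS D u S ⟨c, i⟩)
  rw [Nat.card_fin] at h1
  exact h1

theorem flow_vec [Finite P] {S : Set (Om D u)} (hS : ∀ x, tau D u x ∈ S ↔ x ∈ S) (p q : P) :
    D.flow (vec D u S) p q =
      Nat.card {x : Om D u // x ∈ S ∧ x.1.2 = p ∧ (tau D u x).1.2 = q} := by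
  have h1 : Nat.card {x : Om D u // x ∈ S ∧ x.1.2 = p ∧ (tau D u x).1.2 = q} =
      Nat.card {k : K D u // (p ∈ k.1.1 ∧ k.1.1.formPerm p = q) ∧ inS D u S k} := by
    refine Nat.card_congr ⟨fun x => ⟨x.1.1.1, ⟨?_, ?_⟩, (inS_iff D u hS x.1).2 x.2.1⟩,
      fun k => ⟨⟨(k.1, p), k.2.1.1⟩, (inS_iff D u hS _).1 k.2.2, rfl, k.2.1.2⟩, ?_, ?_⟩
    · have h2 := x.1.2
      rw [x.2.2.1] at h2
      exact h2
    · have h2 := x.2.2.2
      have h3 := x.2.2.1
      change x.1.1.1.1.1.formPerm x.1.1.2 = q at h2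
      rw [h3] at h2
      exact h2
    · rintro ⟨⟨⟨k, p'⟩, hp⟩, h2, h3, h4⟩
      change p' = p at h3
      subst h3
      rfl
    · rintro ⟨k, h2⟩
      rfl
  rw [h1, card_K D u (fun k => (p ∈ k.1.1 ∧ k.1.1.formPerm p = q) ∧ inS D u S k), PD.flow]
  refine finsum_congr fun c => ?_
  by_cases hc : p ∈ c.1 ∧ c.1.formPerm p = q
  · rw [if_pos hc, vec]
    refine Nat.card_congr (Equiv.subtypeEquivRight fun i => ?_)
    exact ⟨fun h => ⟨hc, h⟩, fun h => h.2⟩
  · rw [if_neg hc]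
    have : IsEmpty {i : Fin (u c) // (p ∈ c.1 ∧ c.1.formPerm p = q) ∧ inS D u S ⟨c, i⟩} :=
      ⟨fun i => hc i.2.1⟩
    rw [Nat.card_of_isEmpty]

theorem card_theta [Finite P] (p : P) : Nat.card {x : Om D u // x.1.2 = p} = D.cnt u p := by
  have h1 : Nat.card {x : Om D u // x.1.2 = p} = Nat.card {k : K D u // p ∈ k.1.1} := by
    refine Nat.card_congr ⟨fun x => ⟨x.1.1.1, ?_⟩, fun k => ⟨⟨(k.1, p), k.2⟩, rfl⟩, ?_, ?_⟩
    · have h2 := x.1.2
      rw [x.2] at h2
      exact h2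
    · rintro ⟨⟨⟨k, p'⟩, hp⟩, h3⟩
      change p' = p at h3
      subst h3
      rfl
    · rintro ⟨k, h2⟩
      rfl
  rw [h1, card_K D u (fun k => p ∈ k.1.1), PD.cnt]
  refine finsum_congr fun c => ?_
  by_cases hc : p ∈ c.1
  · rw [if_pos hc, Nat.card_congr (Equiv.subtypeUnivEquiv fun i : Fin (u c) => hc),
      Nat.card_fin]
  · rw [if_neg hc]
    have : IsEmpty {i : Fin (u c) // p ∈ c.1} := ⟨fun i => hc i.2⟩
    rw [Nat.card_of_isEmpty]

end Glue

variable {α ι P : Type} [DecidableEq P] [Finite P] (D : PD α ι P)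

/-- the disjoint union of the walks, and an involution `β` which matches the two ends of the
bands -/
theorem exists_glue {u : D.Cy → ℕ} (hu : D.Sym u) :
    ∃ (Ω : Type) (_ : Finite Ω) (τ β : Perm Ω) (θ : Ω → P),
      (∀ x, β (β x) = x) ∧ (∀ x, D.Adj (θ x) (θ (τ x))) ∧
      (∀ x, θ (β x) = D.s⁻¹ (θ (τ x))) ∧ (∀ x, θ (τ (β x)) = D.s (θ x)) ∧
      cyc τ = D.num u ∧ (∀ p, Nat.card {x // θ x = p} = D.cnt u p) ∧
      (∀ S : Set Ω, (∀ x, τ x ∈ S ↔ x ∈ S) → (∀ x, β x ∈ S ↔ x ∈ S) →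
        ∃ v : D.Cy → ℕ, D.Sym v ∧ v ≤ u ∧ (v = 0 → S = ∅) ∧ (v = u → S = Set.univ)) := by
  have hadj : ∀ x : Glue.Om D u, D.Adj x.1.2 (Glue.tau D u x).1.2 :=
    fun x => x.1.1.1.2.2.2 x.1.2 x.2
  have hflow : ∀ p q, D.flow u p q =
      Nat.card {x : Glue.Om D u // (x.1.2, (Glue.tau D u x).1.2) = (p, q)} := by
    intro p q
    have h1 := Glue.flow_vec D u (S := Set.univ) (fun x => by simp) p q
    rw [Glue.vec_univ] at h1
    rw [h1]
    refine Nat.card_congr (Equiv.subtypeEquivRight fun x => ?_)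
    simp
  obtain ⟨β, hβ, hf⟩ := Glue.exists_invol (T := P × P) (fun t => (D.s⁻¹ t.2, D.s t.1))
    (fun t => by simp) (fun x : Glue.Om D u => (x.1.2, (Glue.tau D u x).1.2))
    (fun x h => PD.adj_ne D (hadj x) (congrArg Prod.fst h).symm)
    (fun t => by
      have h1 := hu t.1 t.2
      rw [hflow, hflow] at h1
      exact h1)
  have hf1 : ∀ x, (β x).1.2 = D.s⁻¹ (Glue.tau D u x).1.2 := fun x => congrArg Prod.fst (hf x)
  have hf2 : ∀ x, (Glue.tau D u (β x)).1.2 = D.s x.1.2 := fun x => congrArg Prod.snd (hf x)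
  refine ⟨Glue.Om D u, inferInstance, Glue.tau D u, β, fun x => x.1.2, hβ, hadj, hf1, hf2,
    Glue.cyc_tau D u, Glue.card_theta D u, ?_⟩
  intro S hS1 hS2
  refine ⟨Glue.vec D u S, ?_, Glue.vec_le D u S, ?_, ?_⟩
  · intro p q
    rw [Glue.flow_vec D u hS1, Glue.flow_vec D u hS1]
    refine Nat.card_congr (β.subtypeEquiv fun x => ?_)
    rw [hS2, hf1, hf2]
    constructor
    · rintro ⟨h1, h2, h3⟩
      exact ⟨h1, by rw [h3], by rw [h2]⟩
    · rintro ⟨h1, h2, h3⟩
      exact ⟨h1, D.s.injective h3, (D.s⁻¹).injective h2⟩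
  · intro h0
    rw [Set.eq_empty_iff_forall_notMem]
    intro x hx
    have h1 := congrFun h0 x.1.1.1
    have h2 := (Glue.inS_iff D u hS1 x).2 hx
    rw [Glue.vec] at h1
    have h3 : Nonempty {i : Fin (u x.1.1.1) // Glue.inS D u S ⟨x.1.1.1, i⟩} :=
      ⟨⟨x.1.1.2, h2⟩⟩
    have h4 : 0 < Nat.card {i : Fin (u x.1.1.1) // Glue.inS D u S ⟨x.1.1.1, i⟩} :=
      Nat.card_pos
    rw [h1] at h4
    exact absurd h4 (lt_irrefl _)
  · intro h0
    rw [Set.eq_univ_iff_forall]
    intro x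
    rw [← Glue.inS_iff D u hS1 x]
    have h1 := congrFun h0 x.1.1.1
    rw [Glue.vec] at h1
    have h2 : Function.Bijective (Subtype.val :
        {i : Fin (u x.1.1.1) // Glue.inS D u S ⟨x.1.1.1, i⟩} → Fin (u x.1.1.1)) :=
      Subtype.val_injective.bijective_of_nat_card_le (by rw [h1, Nat.card_fin])
    obtain ⟨i, hi⟩ := h2.2 x.1.1.2
    have h3 := i.2
    rw [hi] at h3
    exact h3

end Pool.MP_ed1a61_al.Fill
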