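import Pool.Agent.Lib.MP_ed1a61_al.Fill.ScBasic

/-! # From the two estimates to the limit -/

set_option autoImplicit false

namespace Pool.MP_ed1a61_al.Fill

open Filter Topology

variable {H : Type} [Group H]

private theorem limit_aux {a : ℕ → ℕ} {lam : ℝ} (hlow : ∀ n : ℕ, 0 < n → lam * n ≤ a n)
    (hup : ∀ ε : ℝ, 0 < ε → ∃ C : ℝ, ∀ n : ℕ, (a n : ℝ) ≤ (lam + ε) * n + C) :
    Tendsto (fun n : ℕ => (a n : ℝ) / (n : ℝ)) atTop (𝓝 lam) := by
  rw [Metric.tendsto_atTop]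
  intro δ hδ
  obtain ⟨C, hC⟩ := hup (δ / 2) (half_pos hδ)
  obtain ⟨N, hN⟩ := exists_nat_gt (2 * |C| / δ)
  refine ⟨N + 1, fun n hn => ?_⟩
  have hn0 : 0 < n := by omega
  have hnR : (0 : ℝ) < n := by exact_mod_cast hn0
  have hNn : (N : ℝ) ≤ n := by exact_mod_cast (by omega : N ≤ n)
  have h1 := hlow n hn0
  have h2 := hC n
  have h3 : 2 * |C| < δ * n := by
    rw [div_lt_iff₀ hδ] at hN
    nlinarith
  have h4 := le_abs_self C
  rw [Real.dist_eq, abs_lt]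
  constructor
  · have h5 : lam ≤ (a n : ℝ) / n := by rwa [le_div_iff₀ hnR]
    linarith
  · have h5 : (a n : ℝ) / n < lam + δ := by
      rw [div_lt_iff₀ hnR]
      nlinarith
    linarith

private theorem limit_cl {g : H} (hg : g ∈ commutator H) (n : ℕ) :
    CL (sInf {k : ℕ | CL k (g ^ n)}) (g ^ n) := by
  obtain ⟨k, hk⟩ := exists_cl (pow_mem hg n)
  exact Nat.sInf_mem (s := {k : ℕ | CL k (g ^ n)}) ⟨k, hk⟩

theorem tendsto_of_bounds {g : H} (hg : g ∈ commutator H) {lam : ℝ} (hsc : Sc [g] lam)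
    (hlow : ∀ n k : ℕ, 0 < n → CL k (g ^ n) → 2 * lam * n ≤ 2 * k - 1) :
    Tendsto (fun n : ℕ => ((sInf {k : ℕ | CL k (g ^ n)} : ℕ) : ℝ) / (n : ℝ)) atTop (𝓝 lam) := by
  refine limit_aux (fun n hn => ?_) fun ε hε => ?_
  · have h1 := hlow n _ hn (limit_cl hg n)
    linarith
  · obtain ⟨m, hm, C, hC⟩ := hsc ε hε
    refine ⟨C + |lam + ε| * m + ∑ r ∈ Finset.range m, ((sInf {k : ℕ | CL k (g ^ r)} : ℕ) : ℝ),
      fun n => ?_⟩
    obtain ⟨k, hk1, hk2⟩ := hC (n / m)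
    rw [List.map_cons, List.map_nil, List.prod_cons, List.prod_nil, mul_one] at hk1
    have h1 : CL (k + sInf {k : ℕ | CL k (g ^ (n % m))}) (g ^ n) := by
      have h2 := hk1.mul (limit_cl hg (n % m))
      rwa [← pow_add, Nat.div_add_mod] at h2
    have h3 : sInf {k : ℕ | CL k (g ^ n)} ≤ k + sInf {k : ℕ | CL k (g ^ (n % m))} :=
      Nat.sInf_le h1
    have h4 : ((sInf {k : ℕ | CL k (g ^ n)} : ℕ) : ℝ)
        ≤ k + ((sInf {k : ℕ | CL k (g ^ (n % m))} : ℕ) : ℝ) := by exact_mod_cast h3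
    have h5 : ((sInf {k : ℕ | CL k (g ^ (n % m))} : ℕ) : ℝ)
        ≤ ∑ r ∈ Finset.range m, ((sInf {k : ℕ | CL k (g ^ r)} : ℕ) : ℝ) :=
      Finset.single_le_sum (f := fun r => ((sInf {k : ℕ | CL k (g ^ r)} : ℕ) : ℝ))
        (fun i _ => Nat.cast_nonneg _) (Finset.mem_range.2 (Nat.mod_lt n hm))
    have h6 : (n : ℝ) = (m * (n / m) : ℕ) + (n % m : ℕ) := by
      exact_mod_cast (Nat.div_add_mod n m).symm
    have h7 : ((n % m : ℕ) : ℝ) ≤ m := by exact_mod_cast (Nat.mod_lt n hm).le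
    have h8 : (0 : ℝ) ≤ ((n % m : ℕ) : ℝ) := Nat.cast_nonneg _
    have h9 : -(|lam + ε| * m) ≤ (lam + ε) * ((n % m : ℕ) : ℝ) := by
      have h10 := neg_abs_le (lam + ε)
      have h11 := abs_nonneg (lam + ε)
      nlinarith
    have h12 : (lam + ε) * (n : ℝ)
        = (lam + ε) * (m * (n / m) : ℕ) + (lam + ε) * ((n % m : ℕ) : ℝ) := by
      rw [← mul_add, ← h6]
    rw [h12]
    linarith

/-- torsion -/
theorem tendsto_of_torsion {g : H} (hg : g ∈ commutator H) {d : ℕ} (hd : 0 < d)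
    (ht : g ^ d = 1) :
    Tendsto (fun n : ℕ => ((sInf {k : ℕ | CL k (g ^ n)} : ℕ) : ℝ) / (n : ℝ)) atTop (𝓝 0) := by
  refine limit_aux (fun n hn => ?_) fun ε hε => ?_
  · rw [zero_mul]
    exact Nat.cast_nonneg _
  · refine ⟨∑ r ∈ Finset.range d, ((sInf {k : ℕ | CL k (g ^ r)} : ℕ) : ℝ), fun n => ?_⟩
    have h1 : g ^ n = g ^ (n % d) := by
      conv_lhs => rw [← Nat.div_add_mod n d, pow_add, pow_mul, ht, one_pow, one_mul]
    rw [h1]
    have h5 : ((sInf {k : ℕ | CL k (g ^ (n % d))} : ℕ) : ℝ)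
        ≤ ∑ r ∈ Finset.range d, ((sInf {k : ℕ | CL k (g ^ r)} : ℕ) : ℝ) :=
      Finset.single_le_sum (f := fun r => ((sInf {k : ℕ | CL k (g ^ r)} : ℕ) : ℝ))
        (fun i _ => Nat.cast_nonneg _) (Finset.mem_range.2 (Nat.mod_lt n hd))
    have h6 : (0 : ℝ) ≤ (0 + ε) * n := mul_nonneg (by linarith) (Nat.cast_nonneg _)
    linarith

end Pool.MP_ed1a61_al.Fill
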