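import Pool.Agent.Lib.MP_ed1a61_al.Fill.LowerVec
import Pool.Agent.Lib.MP_ed1a61_al.Fill.Dickson

/-! # The lower bound -/

set_option autoImplicit false

namespace Pool.MP_ed1a61_al.Fill

open Equiv

variable {α ι P : Type} [DecidableEq P] [Finite P] [Fintype ι] (D : PD α ι P)

theorem LowerBound_val_add (N : ι → ℕ) (u v : D.Cy → ℕ) :
    D.val N (u + v) = D.val N u + D.val N v := by
  unfold PD.val
  simp only [PD.cost_add, PD.X_add]
  push_cast
  simp only [add_div, Finset.sum_add_distrib]
  ring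

theorem LowerBound_val_zero (N : ι → ℕ) : D.val N 0 = 0 := by
  have h := LowerBound_val_add D N 0 0
  rw [add_zero] at h
  linarith

theorem LowerBound_sum (N : ι → ℕ) {lam : ℚ}
    (h0 : ∀ u, D.Irr u → D.cnt u (D.base none) = 0 → 0 ≤ D.val N u)
    (h1 : ∀ u, D.Irr u → D.cnt u (D.base none) ≠ 0 →
      2 * lam * D.cnt u (D.base none) ≤ D.val N u) (m : Multiset (D.Cy → ℕ)) :
    (∀ u ∈ m, D.Irr u) → 2 * lam * D.cnt m.sum (D.base none) ≤ D.val N m.sum := by
  induction m using Multiset.induction_on with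
  | empty =>
    intro _
    have h2 : D.cnt (0 : D.Cy → ℕ) (D.base none) = 0 := by
      have h3 := PD.cnt_add (D := D) (u := 0) (v := 0) (D.base none)
      rw [add_zero] at h3
      omega
    rw [Multiset.sum_zero, h2, LowerBound_val_zero]
    simp
  | cons u m ih =>
    intro hm
    have h2 := ih fun v hv => hm v (Multiset.mem_cons_of_mem hv)
    have h3 : 2 * lam * D.cnt u (D.base none) ≤ D.val N u := by
      by_cases h4 : D.cnt u (D.base none) = 0
      · rw [h4]
        simpa using h0 u (hm u (Multiset.mem_cons_self u m)) h4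
      · exact h1 u (hm u (Multiset.mem_cons_self u m)) h4
    rw [Multiset.sum_cons, LowerBound_val_add, PD.cnt_add]
    push_cast
    linarith

/-- the lower bound: `lam` is a lower bound for the values of the irreducible vectors -/
theorem lower_bound {N : ι → ℕ} (hN : ∀ i, 0 < N i) {lam : ℚ}
    (h0 : ∀ u, D.Irr u → D.cnt u (D.base none) = 0 → 0 ≤ D.val N u)
    (h1 : ∀ u, D.Irr u → D.cnt u (D.base none) ≠ 0 →
      2 * lam * D.cnt u (D.base none) ≤ D.val N u)
    {n k : ℕ} (hn : 0 < n) {z : FreeGroup α}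
    (hz : z ∈ Subgroup.normalClosure (Set.range fun i => (D.el (some (i, true))) ^ N i))
    (h : CL k (D.el none ^ n * z)) : 2 * lam * n ≤ 2 * k - 1 := by
  obtain ⟨t, hs, hc, hv⟩ := exists_lower_vec D N hN hn hz h
  obtain ⟨m, hm, rfl⟩ := exists_sum_irr hs
  have h2 := LowerBound_sum D N h0 h1 m hm
  rw [hc] at h2
  exact h2.trans hv

end Pool.MP_ed1a61_al.Fill
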