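import Pool.Agent.Lib.MP_ed1a61_al.Fill.MirrorFree
import Pool.Agent.Lib.MP_ed1a61_al.Fill.ExVec

/-! # The vector of a relation -/

set_option autoImplicit false

namespace Pool.MP_ed1a61_al.Fill

open Equiv

variable {α ι P : Type} [DecidableEq P] [Finite P] [Fintype ι] (D : PD α ι P)

namespace LowerVec

/-- counting along the fibres -/
theorem sum_card {A B : Type} [Finite A] [Finite B] (w : A → B) :
    ∑ᶠ c, Nat.card {a // w a = c} = Nat.card A := by
  classical
  have h := ExVec.card_fiber w (fun _ => True)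
  simp only [if_true] at h
  rw [h]
  exact Nat.card_congr (Equiv.subtypeUnivEquiv fun _ => trivial)

/-- counting along the fibres, on a subtype -/
theorem sum_card_and {A B : Type} [Finite A] [Finite B] (R : A → Prop) (w : A → B) :
    ∑ᶠ c, Nat.card {a // R a ∧ w a = c} = Nat.card {a // R a} := by
  rw [← sum_card (fun a : {a // R a} => w a.1)]
  refine finsum_congr fun c => ?_
  exact Nat.card_congr (Equiv.subtypeSubtypeEquivSubtypeInter R (fun a => w a = c)).symm

theorem sum_filter {ι : Type} [Fintype ι] [DecidableEq ι] (fs : List (ι × Bool)) :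
    ∑ i, (fs.filter (fun f => f.1 = i)).length = fs.length := by
  induction fs with
  | nil => simp
  | cons f fs ih =>
    have h : ∀ i, ((f :: fs).filter (fun f => f.1 = i)).length =
        (fs.filter (fun f => f.1 = i)).length + if f.1 = i then 1 else 0 := by
      intro i
      by_cases hi : f.1 = i
      · simp [hi]
      · simp [hi]
    rw [Finset.sum_congr rfl fun i _ => h i, Finset.sum_add_distrib, ih]
    simp

end LowerVec

theorem exists_lower_vec (N : ι → ℕ) (hN : ∀ i, 0 < N i) {n k : ℕ} (hn : 0 < n)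
    {z : FreeGroup α}
    (hz : z ∈ Subgroup.normalClosure (Set.range fun i => (D.el (some (i, true))) ^ N i))
    (h : CL k (D.el none ^ n * z)) :
    ∃ u : D.Cy → ℕ, D.Sym u ∧ D.cnt u (D.base none) = n ∧
      (D.cost u : ℚ) / 2 - ∑ i, (D.X u i : ℚ) / N i ≤ 2 * k - 1 := by
  classical
  obtain ⟨fs, Ω, _, σ, π, θ, hinv, hθ, hlab, hmir, hgen, hcyc, hcn, hci⟩ :=
    exists_mirror_free D N hN hn hz h
  have hadj : ∀ x, D.Adj (θ x) (θ ((π * σ) x)) := by
    intro x
    refine ⟨?_, fun hx => ?_⟩
    · rw [Perm.mul_apply, hlab, hθ]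
    · have h1 := hmir (σ x) (by rw [hθ, D.ty_s]; exact hx)
      rw [hθ] at h1
      exact h1
  obtain ⟨u, hu, hnum⟩ := exists_vec D (π * σ) θ hadj
  have hcnt : ∀ p, D.cnt u p = Nat.card {x // θ x = p} := by
    intro p
    rw [← D.sum_flow_left, finsum_congr (hu p)]
    exact LowerVec.sum_card_and (fun x => θ x = p) (fun x => θ ((π * σ) x))
  have hsize : D.size u = Nat.card Ω := by
    rw [← D.sum_cnt, finsum_congr hcnt]
    exact LowerVec.sum_card θ
  have hs : ∀ y, σ (σ⁻¹ y) = y := fun y => σ.apply_symm_apply y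
  refine ⟨u, ?_, ?_, ?_⟩
  · intro p q
    rw [hu, hu]
    refine Nat.card_congr (Equiv.subtypeEquiv (σ⁻¹ * (π * σ)) fun x => ?_)
    have e1 : D.s (θ ((σ⁻¹ * (π * σ)) x)) = θ ((π * σ) x) := by
      rw [← hθ, Perm.mul_apply, hs]
    have e2 : θ ((π * σ) ((σ⁻¹ * (π * σ)) x)) = D.s (θ x) := by
      rw [Perm.mul_apply π σ, Perm.mul_apply σ⁻¹, hs, Perm.mul_apply, hinv, hθ]
    rw [e2, Perm.eq_inv_iff_eq, e1, D.s.injective.eq_iff]
    exact and_comm
  · rw [hcnt]
    exact hcn
  · have hfix : ∀ x, π x ≠ x := by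
      intro x hx
      have h1 := hlab x
      rw [hx] at h1
      exact linv_ne _ h1.symm
    have hpi := cyc_invol hinv hfix
    have hne : Nonempty Ω := by
      have h1 : 0 < Nat.card {x // θ x = D.base none} := by rw [hcn]; exact hn
      obtain ⟨x, _⟩ := (Nat.card_pos_iff.1 h1).1
      exact ⟨x⟩
    have hcomps : 1 ≤ comps σ π := by
      unfold comps
      have : Nonempty (Quotient (connS σ π)) := hne.map (Quotient.mk _)
      exact Nat.card_pos
    have hX : ∀ i, (D.X u i : ℚ) / N i = ((fs.filter (fun f => f.1 = i)).length : ℚ) := by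
      intro i
      have h1 : D.X u i = N i * (fs.filter (fun f => f.1 = i)).length := by
        unfold PD.X
        rw [hcnt, hcnt]
        exact hci i
      have h2 : (N i : ℚ) ≠ 0 := by
        exact_mod_cast (hN i).ne'
      rw [h1]
      push_cast
      field_simp
    rw [Finset.sum_congr rfl fun i _ => hX i, ← Nat.cast_sum, LowerVec.sum_filter]
    have h1 : (D.cost u : ℚ) = (Nat.card Ω : ℚ) - 2 * (D.num u : ℚ) := by
      unfold PD.cost
      rw [hsize]
      push_cast
      ring
    have h2 : (cyc (π * σ) : ℚ) ≤ (D.num u : ℚ) := by exact_mod_cast hnum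
    have h3 : (Nat.card Ω : ℚ) + 2 * (comps σ π : ℚ) - cyc σ - cyc π - cyc (π * σ) ≤ 2 * k := by
      have h4 := hgen
      unfold gen at h4
      exact_mod_cast h4
    have h4 : (2 : ℚ) * cyc π = Nat.card Ω := by exact_mod_cast hpi
    have h5 : (cyc σ : ℚ) = fs.length + 1 := by exact_mod_cast hcyc
    have h6 : (1 : ℚ) ≤ comps σ π := by exact_mod_cast hcomps
    rw [h1]
    linarith

end Pool.MP_ed1a61_al.Fill
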