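import Pool.Agent.Lib.MP_ed1a61_al.Fill.PDMain
import Pool.Agent.Lib.MP_ed1a61_al.Fill.ConcPD

/-! # The main theorem -/

set_option autoImplicit false

namespace Pool.MP_ed1a61_al.Fill

open Filter Topology

namespace Main

theorem isConj_pow {G : Type} [Group G] {a b : G} (h : IsConj a b) (n : ℕ) :
    IsConj (a ^ n) (b ^ n) := by
  rw [isConj_iff] at h ⊢
  obtain ⟨c, hc⟩ := h
  exact ⟨c, by rw [← hc, conj_pow]⟩

theorem isConj_zpow {G : Type} [Group G] {a b : G} (h : IsConj a b) (n : ℤ) :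
    IsConj (a ^ n) (b ^ n) := by
  rw [isConj_iff] at h ⊢
  obtain ⟨c, hc⟩ := h
  exact ⟨c, by rw [← hc, conj_zpow]⟩

theorem isConj_inv {G : Type} [Group G] {a b : G} (h : IsConj a b) :
    IsConj a⁻¹ b⁻¹ := by
  rw [isConj_iff] at h ⊢
  obtain ⟨c, hc⟩ := h
  exact ⟨c, by rw [← hc]; group⟩

theorem isConj_map {G H : Type} [Group G] [Group H] (f : G →* H) {a b : G} (h : IsConj a b) :
    IsConj (f a) (f b) := by
  rw [isConj_iff] at h ⊢
  obtain ⟨c, hc⟩ := h
  exact ⟨f c, by rw [← hc]; simp⟩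

/-- normal closures of conjugate families -/
theorem normalClosure_conj {G ι : Type} [Group G] {a b : ι → G} (h : ∀ i, IsConj (a i) (b i)) :
    Subgroup.normalClosure (Set.range a) = Subgroup.normalClosure (Set.range b) := by
  have key : ∀ {a b : ι → G}, (∀ i, IsConj (a i) (b i)) →
      Subgroup.normalClosure (Set.range a) ≤ Subgroup.normalClosure (Set.range b) := by
    intro a b h
    refine Subgroup.normalClosure_le_normal ?_
    rintro _ ⟨i, rfl⟩
    obtain ⟨c, hc⟩ := isConj_iff.1 (h i).symm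
    rw [← hc]
    exact Subgroup.normalClosure_normal.conj_mem _
      (Subgroup.subset_normalClosure (Set.mem_range_self i)) c
  exact le_antisymm (key h) (key fun i => (h i).symm)

theorem map_commutator_mem {G H : Type} [Group G] [Group H] (f : G →* H) {g : G}
    (hg : g ∈ commutator G) : f g ∈ commutator H := by
  obtain ⟨k, l, hl, hc, rfl⟩ := exists_cl hg
  rw [map_list_prod]
  refine Subgroup.list_prod_mem _ fun x hx => ?_
  rw [List.mem_map] at hx
  obtain ⟨c, hc', rfl⟩ := hx
  obtain ⟨a, b, rfl⟩ := hc c hc'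
  rw [map_commutatorElement]
  exact Subgroup.commutator_mem_commutator (Subgroup.mem_top _) (Subgroup.mem_top _)

theorem inf_zero {ι : Type} [Fintype ι] (N : ι → ℕ) (hJ : ({(0, 0)} :
    Finset (ℚ × (ι → ℚ))).Nonempty) :
    ((({(0, 0)} : Finset (ℚ × (ι → ℚ))).inf' hJ
      (fun x => x.1 - ∑ i, x.2 i / (N i : ℚ)) : ℚ) : ℝ) = 0 := by
  simp

end Main

theorem main_quot {α ι : Type} [Fintype ι] (r : ι → FreeGroup α)
    (hprim : ∀ i, ∀ (x : FreeGroup α) (m : ℕ), x ^ m = r i → m = 1)
    (hconj : ∀ i j, i ≠ j → ¬ IsConj (r i) (r j) ∧ ¬ IsConj (r i) (r j)⁻¹)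
    (g : FreeGroup α) (hg : g ∈ commutator (FreeGroup α)) :
    ∃ (J : Finset (ℚ × (ι → ℚ))) (hJ : J.Nonempty) (N0 M : ℕ), 0 < M ∧
      ∀ N : ι → ℕ, (∀ i, N0 ≤ N i ∧ M ∣ N i) →
      ∀ (H : Type) [Group H] (f : FreeGroup α →* H), Function.Surjective f →
        f.ker = Subgroup.normalClosure (Set.range fun i => r i ^ N i) →
        f g ∈ commutator H ∧
        Tendsto (fun n : ℕ => ((sInf {k : ℕ | CL k (f g ^ n)} : ℕ) : ℝ) / (n : ℝ)) atTop
          (𝓝 ((J.inf' hJ (fun x => x.1 - ∑ i, x.2 i / (N i : ℚ)) : ℚ) : ℝ)) := by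
  classical
  by_cases hspec : g = 1 ∨ ∃ (i : ι) (a : ℕ) (b : ℤ), 0 < a ∧ IsConj (g ^ a) (r i ^ b)
  · -- the image of `g` is a torsion element
    refine ⟨{(0, 0)}, Finset.singleton_nonempty _, 1, 1, one_pos, ?_⟩
    intro N hN H _ f hf hker
    have hgH := Main.map_commutator_mem f hg
    refine ⟨hgH, ?_⟩
    rw [Main.inf_zero]
    have htor : ∃ d : ℕ, 0 < d ∧ f g ^ d = 1 := by
      rcases hspec with h1 | ⟨i, a, b, ha, hab⟩
      · exact ⟨1, one_pos, by rw [h1, map_one, one_pow]⟩
      · refine ⟨a * N i, Nat.mul_pos ha (lt_of_lt_of_le one_pos (hN i).1), ?_⟩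
        have hri : f (r i ^ N i) = 1 := by
          rw [← MonoidHom.mem_ker, hker]
          exact Subgroup.subset_normalClosure (Set.mem_range_self i)
        have h2 := Main.isConj_map f (Main.isConj_pow hab (N i))
        have h3 : f ((r i ^ b) ^ N i) = 1 := by
          rw [← zpow_natCast, ← zpow_mul, mul_comm, zpow_mul, zpow_natCast, map_zpow, hri,
            one_zpow]
        rw [h3, isConj_one_left] at h2
        rw [pow_mul, ← map_pow, ← map_pow]
        exact h2
    obtain ⟨d, hd, hd1⟩ := htor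
    exact tendsto_of_torsion hgH hd hd1
  · push Not at hspec
    obtain ⟨hg1, hcomm⟩ := hspec
    obtain ⟨P, _, D, hno, hDg, hDr⟩ := exists_pd r g hg1 hprim hconj
    have hel : D.el none ∈ commutator (FreeGroup α) := by
      obtain ⟨c, hc⟩ := isConj_iff.1 hDg
      rw [← hc]
      exact (inferInstance : (commutator (FreeGroup α)).Normal).conj_mem _ hg c
    have hel1 : D.el none ≠ 1 := by
      intro h0
      rw [h0, isConj_one_left] at hDg
      exact hg1 hDg
    have hcomm' : ∀ (i : ι) (a : ℕ) (b : ℤ), 0 < a → ¬ IsConj (D.el none ^ a)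
        (D.el (some (i, true)) ^ b) := by
      intro i a b ha hab
      exact hcomm i a b ha (((Main.isConj_pow hDg a).trans hab).trans
        (Main.isConj_zpow (hDr i) b).symm)
    obtain ⟨J, hJ, N0, M, hM, hmain⟩ := pd_main D hno hel hel1 hcomm'
    refine ⟨J, hJ, N0, M, hM, ?_⟩
    intro N hN H _ f hf hker
    refine ⟨Main.map_commutator_mem f hg, ?_⟩
    have hker' : f.ker = Subgroup.normalClosure
        (Set.range fun i => (D.el (some (i, true))) ^ N i) := by
      rw [hker]
      exact Main.normalClosure_conj fun i => Main.isConj_pow (hDr i) (N i)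
    have h1 := hmain N hN H f hf hker'
    have h2 : ∀ n : ℕ, {k : ℕ | CL k (f (D.el none) ^ n)} = {k : ℕ | CL k (f g ^ n)} := by
      intro n
      ext k
      have h3 : IsConj (f g ^ n) (f (D.el none) ^ n) :=
        Main.isConj_pow (Main.isConj_map f hDg) n
      exact ⟨fun h => h.of_isConj h3.symm, fun h => h.of_isConj h3⟩
    simp only [h2] at h1
    exact h1

end Pool.MP_ed1a61_al.Fill
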