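import Pool.Agent.Lib.MP_ed1a61_al.Fill.PDMain

/-! # The main theorem for position data, strong form -/

set_option autoImplicit false

namespace Pool.MP_ed1a61_al.Fill

open Filter Topology

variable {α ι P : Type} [DecidableEq P] [Finite P] [Fintype ι] (D : PD α ι P)

theorem pd_strong (hno : D.NoOverlap) (hg : D.el none ∈ commutator (FreeGroup α))
    (h1 : D.el none ≠ 1)
    (hcomm : ∀ (i : ι) (a : ℕ) (b : ℤ), 0 < a → ¬ IsConj (D.el none ^ a)
      (D.el (some (i, true)) ^ b)) :
    ∃ (J : Finset (ℚ × (ι → ℚ))) (hJ : J.Nonempty) (N0 M : ℕ), 0 < M ∧ 0 < N0 ∧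
      (∀ x ∈ J, 0 ≤ x.1 ∧ ∀ i, 0 ≤ x.2 i) ∧
      ∀ N : ι → ℕ, (∀ i, N0 ≤ N i) →
      ∀ (H : Type) [Group H] (f : FreeGroup α →* H), Function.Surjective f →
        f.ker = Subgroup.normalClosure (Set.range fun i => (D.el (some (i, true))) ^ N i) →
        (∀ n k : ℕ, CL k (f (D.el none) ^ n) →
          (J.inf' hJ (fun x => x.1 - ∑ i, x.2 i / (N i : ℚ))) * n ≤ k) ∧
        (((∀ i, M ∣ N i) ∨ ∃ x ∈ J, x.2 = 0 ∧
          x.1 = J.inf' hJ (fun x => x.1 - ∑ i, x.2 i / (N i : ℚ))) →
        Tendsto (fun n : ℕ => ((sInf {k : ℕ | CL k (f (D.el none) ^ n)} : ℕ) : ℝ) / (n : ℝ)) atTop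
          (𝓝 ((J.inf' hJ (fun x => x.1 - ∑ i, x.2 i / (N i : ℚ)) : ℚ) : ℝ))) := by
  classical
  set B : Finset (D.Cy → ℕ) := (finite_irr (D := D)).toFinset with hB
  have memB : ∀ u, u ∈ B ↔ D.Irr u := fun u => by rw [hB]; simp
  obtain ⟨u0, hu0, hn0⟩ := PDMain_exists D hg
  have hne : ((B.filter fun u => D.cnt u (D.base none) ≠ 0).image (PDMain_fn D)).Nonempty :=
    ⟨PDMain_fn D u0, Finset.mem_image_of_mem _ (Finset.mem_filter.2 ⟨(memB u0).2 hu0, hn0⟩)⟩
  set K : ℕ := ∑ u ∈ B, ∑ i, D.X u i with hK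
  have leK : ∀ u, D.Irr u → ∑ i, D.X u i ≤ K := fun u hu =>
    Finset.single_le_sum (f := fun u => ∑ i, D.X u i) (fun _ _ => Nat.zero_le _) ((memB u).2 hu)
  have leK' : ∀ u, D.Irr u → ∀ i, D.X u i ≤ K := fun u hu i =>
    (Finset.single_le_sum (f := fun i => D.X u i) (fun _ _ => Nat.zero_le _)
      (Finset.mem_univ i)).trans (leK u hu)
  refine ⟨_, hne, 2 * K + 1, K.factorial, Nat.factorial_pos _, Nat.succ_pos _, ?_, ?_⟩
  · intro x hx
    obtain ⟨u, hu, rfl⟩ := Finset.mem_image.1 hx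
    unfold PDMain_fn
    refine ⟨div_nonneg ?_ (by positivity), fun i => by positivity⟩
    exact_mod_cast PD.cost_nonneg u
  intro N hN H _ f hf hker
  set lam : ℚ := ((B.filter fun u => D.cnt u (D.base none) ≠ 0).image (PDMain_fn D)).inf' hne
    (fun x => x.1 - ∑ i, x.2 i / (N i : ℚ)) with hlam
  have hNpos : ∀ i, 0 < N i := fun i => by have := hN i; omega
  have lam_le : ∀ u, D.Irr u → D.cnt u (D.base none) ≠ 0 →
      2 * lam * D.cnt u (D.base none) ≤ D.val N u := by
    intro u hu hn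
    have h2 : lam ≤ D.val N u / (2 * D.cnt u (D.base none)) := by
      rw [← PDMain_val, hlam]
      exact Finset.inf'_le (fun x : ℚ × (ι → ℚ) => x.1 - ∑ i, x.2 i / (N i : ℚ))
        (Finset.mem_image_of_mem _ (Finset.mem_filter.2 ⟨(memB u).2 hu, hn⟩))
    have h3 : (0 : ℚ) < 2 * D.cnt u (D.base none) := by
      have : (0 : ℚ) < D.cnt u (D.base none) := by exact_mod_cast Nat.pos_of_ne_zero hn
      linarith
    rw [le_div_iff₀ h3] at h2
    linarith
  have val0 : ∀ u, D.Irr u → D.cnt u (D.base none) = 0 → 0 ≤ D.val N u := by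
    intro u hu hn
    have hc := cost_pos hno hu.1 hu.2.1 hn
    have hc' : (1 : ℚ) ≤ D.cost u := by exact_mod_cast hc
    have hs : ∑ i, (D.X u i : ℚ) / N i ≤ 1 / 2 := by
      have h2 : ∀ i ∈ (Finset.univ : Finset ι), (D.X u i : ℚ) / N i ≤
          (D.X u i : ℚ) / (2 * K + 1) := by
        intro i _
        have h3 : ((2 * K + 1 : ℕ) : ℚ) ≤ N i := by exact_mod_cast hN i
        push_cast at h3
        exact div_le_div_of_nonneg_left (by positivity) (by positivity) h3
      refine (Finset.sum_le_sum h2).trans ?_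
      rw [← Finset.sum_div]
      have h4 : ((∑ i, D.X u i : ℕ) : ℚ) ≤ K := by exact_mod_cast leK u hu
      push_cast at h4
      rw [div_le_div_iff₀ (by positivity) (by norm_num)]
      linarith
    unfold PD.val
    linarith
  have hfc : f (D.el none) ∈ commutator H := by
    have h2 := Subgroup.mem_map_of_mem f hg
    rw [commutator_def, Subgroup.map_commutator] at h2
    rw [commutator_def]
    exact Subgroup.commutator_mono le_top le_top h2
  have hlow : ∀ n k : ℕ, 0 < n → CL k (f (D.el none) ^ n) → 2 * lam * n ≤ 2 * k - 1 := by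
    intro n k hn hCL
    obtain ⟨x, hxk, hfx⟩ := CL.lift hf hCL
    have hz : (D.el none ^ n)⁻¹ * x ∈
        Subgroup.normalClosure (Set.range fun i => (D.el (some (i, true))) ^ N i) := by
      rw [← hker, MonoidHom.mem_ker, map_mul, map_inv, map_pow, hfx, inv_mul_cancel]
    exact lower_bound D hNpos val0 lam_le hn hz (k := k) (by rwa [mul_inv_cancel_left])
  refine ⟨?_, ?_⟩
  · intro n k hCL
    rcases Nat.eq_zero_or_pos n with hn | hn
    · subst hn
      rw [Nat.cast_zero, mul_zero]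
      exact Nat.cast_nonneg k
    · have h2 := hlow n k hn hCL
      linarith
  · intro hcase
    have hup : ∃ u, D.Irr u ∧ D.cnt u (D.base none) ≠ 0 ∧
        lam = D.val N u / (2 * D.cnt u (D.base none)) ∧
        ∀ i (w : ℕ), 0 < w → w ≤ D.X u i → w ∣ N i ∧ 2 * w ≤ N i := by
      rcases hcase with hM | ⟨x, hx, hx2, hx1⟩
      · obtain ⟨x, hx, hxe⟩ := Finset.exists_mem_eq_inf' hne
          (fun x : ℚ × (ι → ℚ) => x.1 - ∑ i, x.2 i / (N i : ℚ))
        obtain ⟨u, hu, rfl⟩ := Finset.mem_image.1 hx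
        rw [Finset.mem_filter, memB] at hu
        refine ⟨u, hu.1, hu.2, by rw [← PDMain_val, hlam]; exact hxe, ?_⟩
        intro i w hw hwX
        have h2 : w ≤ K := hwX.trans (leK' u hu.1 i)
        refine ⟨(Nat.dvd_factorial hw h2).trans (hM i), ?_⟩
        have := hN i
        omega
      · obtain ⟨u, hu, rfl⟩ := Finset.mem_image.1 hx
        rw [Finset.mem_filter, memB] at hu
        have hX : ∀ i, D.X u i = 0 := by
          intro i
          have h2 := congrFun hx2 i
          unfold PDMain_fn at h2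
          dsimp only [Pi.zero_apply] at h2
          rw [div_eq_zero_iff] at h2
          rcases h2 with h2 | h2
          · exact_mod_cast h2
          · exfalso
            apply hu.2
            have h3 : ((D.cnt u (D.base none) : ℕ) : ℚ) = 0 := by linarith
            exact_mod_cast h3
        refine ⟨u, hu.1, hu.2, ?_, ?_⟩
        · rw [← PDMain_val, hx2, ← hx1]
          simp
        · intro i w hw hwX
          rw [hX i] at hwX
          omega
    obtain ⟨u, hu, hn, hlam', hdiv⟩ := hup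
    refine tendsto_of_bounds hfc ?_ ?_
    · rw [hlam']
      refine sc_upper D hu hn f (N := N) ?_ hdiv h1 hcomm
      intro i
      rw [← map_pow, ← MonoidHom.mem_ker, hker]
      exact Subgroup.subset_normalClosure ⟨i, rfl⟩
    · intro n k hn hCL
      exact_mod_cast hlow n k hn hCL

end Pool.MP_ed1a61_al.Fill
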