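import Pool.Agent.Lib.MP_ed1a61_al.Fill.Main
import Pool.Agent.Lib.MP_ed1a61_al.Fill.PDStrong

/-! # The main theorem, strong form -/

set_option autoImplicit false

namespace Pool.MP_ed1a61_al.Fill

open Filter Topology

theorem main_strong {α ι : Type} [Fintype ι] (r : ι → FreeGroup α)
    (hprim : ∀ i, ∀ (x : FreeGroup α) (m : ℕ), x ^ m = r i → m = 1)
    (hconj : ∀ i j, i ≠ j → ¬ IsConj (r i) (r j) ∧ ¬ IsConj (r i) (r j)⁻¹)
    (g : FreeGroup α) (hg : g ∈ commutator (FreeGroup α)) :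
    ∃ (J : Finset (ℚ × (ι → ℚ))) (hJ : J.Nonempty) (N0 M : ℕ), 0 < M ∧ 0 < N0 ∧
      (∀ x ∈ J, 0 ≤ x.1 ∧ ∀ i, 0 ≤ x.2 i) ∧
      ∀ N : ι → ℕ, (∀ i, N0 ≤ N i) →
      ∀ (H : Type) [Group H] (f : FreeGroup α →* H), Function.Surjective f →
        f.ker = Subgroup.normalClosure (Set.range fun i => r i ^ N i) →
        f g ∈ commutator H ∧
        (∀ n k : ℕ, CL k (f g ^ n) →
          (J.inf' hJ (fun x => x.1 - ∑ i, x.2 i / (N i : ℚ))) * n ≤ k) ∧
        (((∀ i, M ∣ N i) ∨ ∃ x ∈ J, x.2 = 0 ∧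
          x.1 = J.inf' hJ (fun x => x.1 - ∑ i, x.2 i / (N i : ℚ))) →
        Tendsto (fun n : ℕ => ((sInf {k : ℕ | CL k (f g ^ n)} : ℕ) : ℝ) / (n : ℝ)) atTop
          (𝓝 ((J.inf' hJ (fun x => x.1 - ∑ i, x.2 i / (N i : ℚ)) : ℚ) : ℝ))) := by
  classical
  by_cases hspec : g = 1 ∨ ∃ (i : ι) (a : ℕ) (b : ℤ), 0 < a ∧ IsConj (g ^ a) (r i ^ b)
  · -- the image of `g` is a torsion element
    refine ⟨{(0, 0)}, Finset.singleton_nonempty _, 1, 1, one_pos, one_pos, ?_, ?_⟩
    · intro x hx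
      rw [Finset.mem_singleton] at hx
      subst hx
      exact ⟨le_refl _, fun i => le_refl _⟩
    intro N hN H _ f hf hker
    have hgH := Main.map_commutator_mem f hg
    refine ⟨hgH, ?_, ?_⟩
    · intro n k _
      have h0 : (({(0, 0)} : Finset (ℚ × (ι → ℚ))).inf' (Finset.singleton_nonempty _)
        (fun x => x.1 - ∑ i, x.2 i / (N i : ℚ))) = 0 := by simp
      rw [h0, zero_mul]
      exact Nat.cast_nonneg k
    intro _
    rw [Main.inf_zero]
    have htor : ∃ d : ℕ, 0 < d ∧ f g ^ d = 1 := by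
      rcases hspec with h1 | ⟨i, a, b, ha, hab⟩
      · exact ⟨1, one_pos, by rw [h1, map_one, one_pow]⟩
      · refine ⟨a * N i, Nat.mul_pos ha (lt_of_lt_of_le one_pos (hN i)), ?_⟩
        have hri : f (r i ^ N i) = 1 := by
          rw [← MonoidHom.mem_ker, hker]
          exact Subgroup.subset_normalClosure (Set.mem_range_self i)
        have h2 := Main.isConj_map f (Main.isConj_pow hab (N i))
        have h3 : f ((r i ^ b) ^ N i) = 1 := by
          rw [← zpow_natCast, ← zpow_mul, mul_comm, zpow_mul, zpow_natCast, map_zpow, hri,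
            one_zpow]
        rw [h3, isConj_one_left] at h2
        rw [pow_mul, ← map_pow, ← map_pow]
        exact h2
    obtain ⟨d, hd, hd1⟩ := htor
    exact tendsto_of_torsion hgH hd hd1
  · push Not at hspec
    obtain ⟨hg1, hcomm⟩ := hspec
    obtain ⟨P, _, D, hno, hDg, hDr⟩ := exists_pd r g hg1 hprim hconj
    have hel : D.el none ∈ commutator (FreeGroup α) := by
      obtain ⟨c, hc⟩ := isConj_iff.1 hDg
      rw [← hc]
      exact (inferInstance : (commutator (FreeGroup α)).Normal).conj_mem _ hg c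
    have hel1 : D.el none ≠ 1 := by
      intro h0
      rw [h0, isConj_one_left] at hDg
      exact hg1 hDg
    have hcomm' : ∀ (i : ι) (a : ℕ) (b : ℤ), 0 < a → ¬ IsConj (D.el none ^ a)
        (D.el (some (i, true)) ^ b) := by
      intro i a b ha hab
      exact hcomm i a b ha (((Main.isConj_pow hDg a).trans hab).trans
        (Main.isConj_zpow (hDr i) b).symm)
    obtain ⟨J, hJ, N0, M, hM, hN0, hpos, hmain⟩ := pd_strong D hno hel hel1 hcomm'
    refine ⟨J, hJ, N0, M, hM, hN0, hpos, ?_⟩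
    intro N hN H _ f hf hker
    refine ⟨Main.map_commutator_mem f hg, ?_⟩
    have hker' : f.ker = Subgroup.normalClosure
        (Set.range fun i => (D.el (some (i, true))) ^ N i) := by
      rw [hker]
      exact Main.normalClosure_conj fun i => Main.isConj_pow (hDr i) (N i)
    obtain ⟨h1l, h1⟩ := hmain N hN H f hf hker'
    have h3 : ∀ n : ℕ, IsConj (f g ^ n) (f (D.el none) ^ n) := fun n =>
      Main.isConj_pow (Main.isConj_map f hDg) n
    have h2 : ∀ n : ℕ, {k : ℕ | CL k (f (D.el none) ^ n)} = {k : ℕ | CL k (f g ^ n)} := by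
      intro n
      ext k
      exact ⟨fun h => h.of_isConj (h3 n).symm, fun h => h.of_isConj (h3 n)⟩
    refine ⟨fun n k h => h1l n k (h.of_isConj (h3 n)), fun hc => ?_⟩
    have h4 := h1 hc
    simp only [h2] at h4
    exact h4

end Pool.MP_ed1a61_al.Fill
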