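import Pool.Agent.Lib.MP_ed1a61_al.Fill.StrBasic

/-! # From lists to positions -/

set_option autoImplicit false

namespace Pool.MP_ed1a61_al.Fill

open Equiv

variable {α ι P : Type} (D : PD α ι P)

private theorem theta_mem {A B : Type} {R : A → B → Prop} {l : List A} {m : List B}
    (h : List.Forall₂ R l m) {a : A} (ha : a ∈ l) : ∃ b, R a b := by
  induction h with
  | nil => cases ha
  | cons hab _ ih =>
    rcases List.mem_cons.1 ha with rfl | ha
    · exact ⟨_, hab⟩
    · exact ih ha

private theorem theta_map {A B C : Type} {f : A → C} {g : B → C} :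
    ∀ {l : List A} {m : List B}, List.Forall₂ (fun a b => f a = g b) l m ↔ l.map f = m.map g
  | [], [] => by simp
  | [], b :: m => by simp
  | a :: l, [] => by simp
  | a :: l, b :: m => by
    rw [List.forall₂_cons, theta_map, List.map_cons, List.map_cons, List.cons_eq_cons]

private theorem theta_ex {Ω : Type} [DecidableEq Ω] {lab : Ω → α × Bool} {ls : List (List Ω)}
    {js : List (Option (ι × Bool) × ℕ)}
    (h : List.Forall₂ (fun l y => l.map lab = D.wd (D.base y.1) (y.2 * D.len y.1)) ls js)
    (hn : ls.flatten.Nodup) :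
    ∃ θ : Ω → P, List.Forall₂ (fun l y => l.map lab = D.wd (D.base y.1) (y.2 * D.len y.1) ∧
      l.map θ = D.walk y.1 (y.2 * D.len y.1)) ls js := by
  induction h with
  | nil => exact ⟨fun _ => D.base none, List.Forall₂.nil⟩
  | @cons l y ls js hly _ ih =>
    rw [List.flatten_cons] at hn
    obtain ⟨n1, n2, n3⟩ := List.nodup_append.1 hn
    obtain ⟨θ, hθ⟩ := ih n2
    have hL : l.length = y.2 * D.len y.1 := by
      have := congrArg List.length hly
      simpa [PD.wd] using this
    refine ⟨fun x => if x ∈ l then (D.s ^ (l.idxOf x)) (D.base y.1) else θ x,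
      List.Forall₂.cons ⟨hly, ?_⟩ ?_⟩
    · refine List.ext_getElem ?_ fun k h1 h2 => ?_
      · rw [List.length_map, hL]
        simp [PD.walk]
      · rw [List.length_map] at h1
        rw [List.getElem_map, if_pos (List.getElem_mem h1), List.Nodup.idxOf_getElem n1]
        simp [PD.walk]
    · have key : ∀ (ls' : List (List Ω)) (js' : List (Option (ι × Bool) × ℕ)),
          (∀ l' ∈ ls', ∀ x ∈ l', x ∉ l) → List.Forall₂ (fun l y =>
            l.map lab = D.wd (D.base y.1) (y.2 * D.len y.1) ∧
            l.map θ = D.walk y.1 (y.2 * D.len y.1)) ls' js' → List.Forall₂ (fun l' y' =>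
            l'.map lab = D.wd (D.base y'.1) (y'.2 * D.len y'.1) ∧
            l'.map (fun x => if x ∈ l then (D.s ^ (l.idxOf x)) (D.base y.1) else θ x) =
              D.walk y'.1 (y'.2 * D.len y'.1)) ls' js' := by
        intro ls' js' hd h'
        induction h' with
        | nil => exact List.Forall₂.nil
        | @cons l' y' ls' js' hl _ ih' =>
          refine List.Forall₂.cons ⟨hl.1, ?_⟩ (ih' fun l'' hl'' => hd l''
            (List.mem_cons_of_mem _ hl''))
          rw [← hl.2]
          refine List.map_congr_left fun x hx => ?_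
          rw [if_neg (hd l' List.mem_cons_self x hx)]
      refine key ls js (fun l' hl' x hx hxl => ?_) hθ
      exact n3 x hxl x (List.mem_flatten.2 ⟨l', hl', hx⟩) rfl

/-- conversely, from lists to positions -/
theorem exists_theta {Ω : Type} [Finite Ω] [DecidableEq Ω] {σ π : Perm Ω} {lab : Ω → α × Bool}
    {ls : List (List Ω)} (h : IsStr σ π lab ls) (hall : ∀ x, x ∈ ls.flatten)
    {js : List (Option (ι × Bool) × ℕ)} (hjs : ∀ y ∈ js, 0 < y.2)
    (hw : ls.map (List.map lab) = js.map (fun y => D.wd (D.base y.1) (y.2 * D.len y.1))) :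
    ∃ θ : Ω → P, (∀ x, θ (σ x) = D.s (θ x)) ∧ (∀ x, lab x = D.ℓ (θ x)) ∧
      ls.map (List.map θ) = js.map (fun y => D.walk y.1 (y.2 * D.len y.1)) := by
  obtain ⟨θ, hθ⟩ := theta_ex D (theta_map.2 hw) h.nodup
  have hel : ∀ l ∈ ls, ∃ y : Option (ι × Bool) × ℕ, l.length = y.2 * D.len y.1 ∧
      ∀ (k : ℕ) (hk : k < l.length), θ l[k] = (D.s ^ k) (D.base y.1) ∧
        lab l[k] = D.ℓ ((D.s ^ k) (D.base y.1)) := by
    intro l hl
    obtain ⟨y, h1, h2⟩ := theta_mem hθ hl
    have hL : l.length = y.2 * D.len y.1 := by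
      have := congrArg List.length h1
      simpa [PD.wd] using this
    refine ⟨y, hL, fun k hk => ⟨?_, ?_⟩⟩
    · have h3 := congrArg (fun t => t[k]?) h2
      simp only [PD.walk, List.getElem?_map, List.getElem?_range (hL ▸ hk : k < y.2 * D.len y.1),
        List.getElem?_eq_getElem hk, Option.map_some, Option.some.injEq] at h3
      exact h3
    · have h3 := congrArg (fun t => t[k]?) h1
      simp only [PD.wd, List.getElem?_map, List.getElem?_range (hL ▸ hk : k < y.2 * D.len y.1),
        List.getElem?_eq_getElem hk, Option.map_some, Option.some.injEq] at h3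
      exact h3
  refine ⟨θ, fun x => ?_, fun x => ?_, ?_⟩
  · obtain ⟨l, hl, hx⟩ := List.mem_flatten.1 (hall x)
    obtain ⟨y, hL, hk⟩ := hel l hl
    obtain ⟨k, hk1, rfl⟩ := List.getElem_of_mem hx
    have hn : l.Nodup := (List.nodup_flatten.1 h.nodup).1 l hl
    rw [h.sig l hl _ hx, List.formPerm_apply_getElem _ hn, (hk k hk1).1, (hk _ _).1]
    have hp : (D.s ^ (l.length)) (D.base y.1) = D.base y.1 := by
      rw [D.per, hL]
      exact Dvd.intro_left _ rfl
    rcases Nat.lt_or_ge (k + 1) l.length with h1 | h1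
    · rw [Nat.mod_eq_of_lt h1, pow_succ', Perm.mul_apply]
    · have h2 : k + 1 = l.length := by omega
      rw [h2, Nat.mod_self, pow_zero, Perm.one_apply]
      rw [← Perm.mul_apply, ← pow_succ', h2, hp]
  · obtain ⟨l, hl, hx⟩ := List.mem_flatten.1 (hall x)
    obtain ⟨y, hL, hk⟩ := hel l hl
    obtain ⟨k, hk1, rfl⟩ := List.getElem_of_mem hx
    rw [(hk k hk1).1, (hk k hk1).2]
  · exact theta_map.1 (hθ.imp fun _ _ h => h.2)

end Pool.MP_ed1a61_al.Fill
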