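import Pool.Agent.Lib.MP_ed1a61_al.Fill.RemMirror
import Pool.Agent.Lib.MP_ed1a61_al.Fill.Faces
import Pool.Agent.Lib.MP_ed1a61_al.Fill.Clean
import Pool.Agent.Lib.MP_ed1a61_al.Fill.CycLen
import Pool.Agent.Lib.MP_ed1a61_al.Fill.Theta
import Pool.Agent.Lib.MP_ed1a61_al.Fill.CardBase

/-! # A surface with the least number of faces has no mirror pair -/

set_option autoImplicit false

namespace Pool.MP_ed1a61_al.Fill

open Equiv

variable {α ι P : Type} (D : PD α ι P)

namespace MirrorFree

theorem mem_walk_ty {j : Option (ι × Bool)} {m : ℕ} {p : P} (hp : p ∈ D.walk j m) :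
    D.ty p = j := by
  unfold PD.walk at hp
  rw [List.mem_map] at hp
  obtain ⟨k, _, rfl⟩ := hp
  have h : ∀ (k : ℕ) (q : P), D.ty ((D.s ^ k) q) = D.ty q := by
    intro k
    induction k with
    | zero => intro q; rfl
    | succ k ih =>
      intro q
      rw [pow_succ', Perm.mul_apply, D.ty_s, ih]
  rw [h, D.ty_base]

theorem sum_faces [DecidableEq ι] (N : ι → ℕ) (i : ι) (fs : List (ι × Bool)) :
    (((fs.map (fun f => (some f, N f.1))).filter
      (fun y : Option (ι × Bool) × ℕ => y.1 = some (i, true))).map Prod.snd).sum +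
    (((fs.map (fun f => (some f, N f.1))).filter
      (fun y : Option (ι × Bool) × ℕ => y.1 = some (i, false))).map Prod.snd).sum =
      N i * (fs.filter (fun f => f.1 = i)).length := by
  induction fs with
  | nil => simp
  | cons f fs ih =>
    obtain ⟨a, b⟩ := f
    by_cases hab : a = i
    · subst hab
      cases b <;> simp at ih ⊢ <;> rw [Nat.mul_add, ← ih] <;> ring
    · have h1 : ((a, b) : ι × Bool) ≠ (i, true) := fun h => hab (congrArg Prod.fst h)
      have h2 : ((a, b) : ι × Bool) ≠ (i, false) := fun h => hab (congrArg Prod.fst h)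
      simp [hab] at ih ⊢
      exact ih

theorem sum_none [DecidableEq ι] (N : ι → ℕ) (n : ℕ) (fs : List (ι × Bool)) :
    ((((none, n) :: fs.map (fun f => (some f, N f.1))).filter
      (fun y : Option (ι × Bool) × ℕ => y.1 = none)).map Prod.snd).sum = n := by
  induction fs with
  | nil => simp
  | cons f fs ih =>
    simp at ih ⊢
    exact ih

end MirrorFree

theorem exists_mirror_free [DecidableEq ι] (N : ι → ℕ) (hN : ∀ i, 0 < N i) {n k : ℕ} (hn : 0 < n)
    {z : FreeGroup α}
    (hz : z ∈ Subgroup.normalClosure (Set.range fun i => (D.el (some (i, true))) ^ N i))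
    (h : CL k (D.el none ^ n * z)) :
    ∃ (fs : List (ι × Bool)) (Ω : Type) (_ : Finite Ω) (σ π : Perm Ω) (θ : Ω → P),
      (∀ x, π (π x) = x) ∧ (∀ x, θ (σ x) = D.s (θ x)) ∧
      (∀ x, D.ℓ (θ (π x)) = linv (D.ℓ (θ x))) ∧
      (∀ x, D.ty (θ x) ≠ none → θ (π x) ≠ D.μ (θ x)) ∧
      gen σ π ≤ 2 * k ∧ cyc σ = fs.length + 1 ∧ Nat.card {x // θ x = D.base none} = n ∧
      ∀ i, Nat.card {x // θ x = D.base (some (i, true))} +
        Nat.card {x // θ x = D.base (some (i, false))} =
          N i * (fs.filter (fun f => f.1 = i)).length := by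
  classical
  -- the least number of faces
  have hex : ∃ m : ℕ, ∃ fs : List (ι × Bool), fs.length = m ∧
      Str (2 * k) (D.wd (D.base none) (n * D.len none) :: fs.map (D.face N)) := by
    obtain ⟨fs, hfs⟩ := exists_faces D N n k hz h
    exact ⟨_, fs, rfl, hfs⟩
  obtain ⟨fs, hlen, hstr⟩ := Nat.find_spec hex
  have hmin : ∀ fs' : List (ι × Bool), fs'.length < fs.length →
      ¬ Str (2 * k) (D.wd (D.base none) (n * D.len none) :: fs'.map (D.face N)) := by
    intro fs' hl hs
    rw [hlen] at hl
    exact Nat.find_min hex hl ⟨fs', rfl, hs⟩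
  obtain ⟨Ω, _, _, σ, π, lab, ls, hS, hws, hgen, hall⟩ := exists_clean hstr
  have hjs0 : ∀ y ∈ ((none, n) :: fs.map (fun f => (some f, N f.1)) :
      List (Option (ι × Bool) × ℕ)), 0 < y.2 := by
    intro y hy
    rw [List.mem_cons, List.mem_map] at hy
    rcases hy with rfl | ⟨f, _, rfl⟩
    · exact hn
    · exact hN f.1
  have hw1 : ls.map (List.map lab) = ((none, n) :: fs.map (fun f => (some f, N f.1)) :
      List (Option (ι × Bool) × ℕ)).map (fun y => D.wd (D.base y.1) (y.2 * D.len y.1)) := by
    rw [hws, List.map_cons, List.map_map]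
    rfl
  obtain ⟨θ, hθ, hlab, hw2⟩ := exists_theta D hS hall hjs0 hw1
  refine ⟨fs, Ω, inferInstance, σ, π, θ, hS.inv, hθ, ?_, ?_, hgen, ?_, ?_, ?_⟩
  · intro x
    rw [← hlab, ← hlab, hS.lab_inv]
  · -- no mirror pair
    intro x hx hm
    cases ls with
    | nil => simp at hws
    | cons lg lfs =>
      rw [List.map_cons, List.cons.injEq] at hws
      rw [List.map_cons, List.map_cons, List.cons.injEq, List.map_map] at hw2
      obtain ⟨hg1, hf1⟩ := hws
      obtain ⟨hg2, hf2⟩ := hw2
      -- the pairs (list, face)
      have hl : lfs.length = fs.length := by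
        have := congrArg List.length hf1
        simpa using this
      have hz1 : ∀ z ∈ lfs.zip fs, z.1.map lab = D.face N z.2 := by
        intro z hz
        rw [List.mem_iff_getElem] at hz
        obtain ⟨i, hi, rfl⟩ := hz
        rw [List.length_zip, hl, min_self] at hi
        rw [List.getElem_zip]
        have h1 : (lfs.map (List.map lab))[i]? = (fs.map (D.face N))[i]? := by rw [hf1]
        rw [List.getElem?_map, List.getElem?_map, List.getElem?_eq_getElem (by omega),
          List.getElem?_eq_getElem hi] at h1
        simpa using h1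
      have hz2 : ∀ z ∈ lfs.zip fs, z.1.map θ = D.walk (some z.2) (N z.2.1 * D.len (some z.2)) := by
        intro z hz
        rw [List.mem_iff_getElem] at hz
        obtain ⟨i, hi, rfl⟩ := hz
        rw [List.length_zip, hl, min_self] at hi
        rw [List.getElem_zip]
        have h1 := congrArg (fun t => t[i]?) hf2
        rw [List.getElem?_map, List.getElem?_map, List.getElem?_eq_getElem (by omega),
          List.getElem?_eq_getElem hi] at h1
        simpa using h1
      have hmem : ∀ y : Ω, D.ty (θ y) ≠ none → ∃ z ∈ lfs.zip fs, y ∈ z.1 := by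
        intro y hy
        have h1 := hall y
        rw [List.mem_flatten] at h1
        obtain ⟨l, hl1, hyl⟩ := h1
        rw [List.mem_cons] at hl1
        rcases hl1 with rfl | hl1
        · exfalso
          have h2 : θ y ∈ l.map θ := List.mem_map_of_mem hyl
          rw [hg2] at h2
          exact hy (MirrorFree.mem_walk_ty D h2)
        · obtain ⟨i, hi, rfl⟩ := List.mem_iff_getElem.1 hl1
          refine ⟨(lfs[i], fs[i]'(by omega)), ?_, hyl⟩
          rw [List.mem_iff_getElem]
          exact ⟨i, by rw [List.length_zip]; omega, by rw [List.getElem_zip]⟩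
      have hxπ : D.ty (θ (π x)) = (D.ty (θ x)).map (fun t => (t.1, !t.2)) := by
        rw [hm, D.ty_μ]
      obtain ⟨z, hz, hxz⟩ := hmem x hx
      have hty : D.ty (θ x) = some z.2 := by
        have h2 : θ x ∈ z.1.map θ := List.mem_map_of_mem hxz
        rw [hz2 z hz] at h2
        exact MirrorFree.mem_walk_ty D h2
      obtain ⟨z', hz', hxz'⟩ := hmem (π x) (by rw [hxπ, hty]; simp)
      have hty' : D.ty (θ (π x)) = some z'.2 := by
        have h2 : θ (π x) ∈ z'.1.map θ := List.mem_map_of_mem hxz'
        rw [hz2 z' hz'] at h2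
        exact MirrorFree.mem_walk_ty D h2
      have hne : z' ≠ z := by
        rintro rfl
        rw [hxπ, hty] at hty'
        simp only [Option.map_some, Option.some.injEq] at hty'
        have := congrArg Prod.snd hty'
        simp at this
      have hp1 := List.perm_cons_erase hz
      have hz'' : z' ∈ (lfs.zip fs).erase z := (List.mem_erase_of_ne hne).2 hz'
      have hp2 := List.perm_cons_erase hz''
      obtain ⟨zs, hzs⟩ : ∃ zs, zs = ((lfs.zip fs).erase z).erase z' := ⟨_, rfl⟩
      rw [← hzs] at hp2
      have hp : (lfs.zip fs).Perm (z :: z' :: zs) := hp1.trans (hp2.cons z)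
      have hfst : lfs.Perm (z.1 :: z'.1 :: zs.map Prod.fst) := by
        have h1 := hp.map Prod.fst
        rw [List.map_fst_zip (by omega)] at h1
        exact h1
      have hsnd : fs.Perm (z.2 :: z'.2 :: zs.map Prod.snd) := by
        have h1 := hp.map Prod.snd
        rw [List.map_snd_zip (by omega)] at h1
        exact h1
      have hS2 : IsStr σ π lab (z.1 :: z'.1 :: lg :: zs.map Prod.fst) := by
        refine hS.perm ?_
        refine (hfst.cons lg).trans ?_
        refine (List.Perm.swap _ _ _).trans ?_
        exact (List.Perm.swap _ _ _).cons _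
      have h5 := str_remove_mirror D (N := N) (f := z.2) (f' := z'.2) hS2 hθ hlab (hz2 z hz)
        (hz2 z' hz') hxz hxz' hm
      have h6 := Str.mono h5 hgen
      have hsub : ∀ y ∈ zs, y ∈ lfs.zip fs := fun y hy =>
        hp.symm.subset (List.mem_cons_of_mem _ (List.mem_cons_of_mem _ hy))
      have h7 : (lg :: zs.map Prod.fst).map (List.map lab) =
          D.wd (D.base none) (n * D.len none) :: (zs.map Prod.snd).map (D.face N) := by
        rw [List.map_cons, hg1, List.map_map, List.map_map]
        congr 1
        refine List.map_congr_left fun y hy => ?_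
        exact hz1 y (hsub y hy)
      rw [h7] at h6
      refine hmin _ ?_ h6
      have h8 := hsnd.length_eq
      simp only [List.length_cons, List.length_map] at h8
      rw [List.length_map]
      omega
  · rw [cyc_eq_length hS hall]
    · have h1 := congrArg List.length hws
      simpa using h1
    · intro l hl h0
      have h1 : l.map lab ∈ ls.map (List.map lab) := List.mem_map_of_mem hl
      rw [hw1, List.mem_map] at h1
      obtain ⟨y, hy, hy2⟩ := h1
      rw [h0] at hy2
      have h2 := congrArg List.length hy2
      unfold PD.wd at h2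
      simp only [List.length_map, List.length_range, List.length_nil, List.map_nil] at h2
      have h3 := Nat.mul_pos (hjs0 y hy) (D.len_pos y.1)
      omega
  · rw [card_base D hS.nodup hall hw2]
    exact MirrorFree.sum_none N n fs
  · intro i
    rw [card_base D hS.nodup hall hw2, card_base D hS.nodup hall hw2]
    rw [← MirrorFree.sum_faces N i fs]
    simp

end Pool.MP_ed1a61_al.Fill
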