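import Pool.Agent.Lib.MP_ed1a61_al.Fill.Vec

/-! # Surfaces without a `g`-boundary have negative Euler characteristic -/

set_option autoImplicit false

namespace Pool.MP_ed1a61_al.Fill

variable {α ι P : Type} [DecidableEq P] [Finite P] {D : PD α ι P}

private theorem rCost_flow {u : D.Cy → ℕ} {p q : P} :
    D.flow u p q ≠ 0 ↔ ∃ c : D.Cy, u c ≠ 0 ∧ p ∈ c.1 ∧ c.1.formPerm p = q := by
  classical
  have := Fintype.ofFinite D.Cy
  unfold PD.flow
  rw [finsum_eq_sum_of_fintype, Ne, Finset.sum_eq_zero_iff]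
  push Not
  constructor
  · rintro ⟨c, -, hc⟩
    rw [Ne, ite_eq_right_iff] at hc
    push Not at hc
    exact ⟨c, hc.2, hc.1.1, hc.1.2⟩
  · rintro ⟨c, h1, h2, h3⟩
    refine ⟨c, Finset.mem_univ c, ?_⟩
    rw [if_pos ⟨h2, h3⟩]
    exact h1

private theorem rCost_cnt {u : D.Cy → ℕ} {p : P} (c : D.Cy) (hc : u c ≠ 0) (hp : p ∈ c.1) :
    D.cnt u p ≠ 0 := by
  classical
  have := Fintype.ofFinite D.Cy
  unfold PD.cnt
  rw [finsum_eq_sum_of_fintype, Ne, Finset.sum_eq_zero_iff]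
  intro h
  have h1 := h c (Finset.mem_univ c)
  rw [if_pos hp] at h1
  exact hc h1

private theorem rCost_len {u : D.Cy → ℕ} (h : D.size u ≤ 2 * D.num u) (c : D.Cy)
    (hc : u c ≠ 0) : c.1.length = 2 := by
  classical
  have := Fintype.ofFinite D.Cy
  unfold PD.size PD.num at h
  rw [finsum_eq_sum_of_fintype, finsum_eq_sum_of_fintype, Finset.mul_sum] at h
  have hle : ∀ c ∈ (Finset.univ : Finset D.Cy), 2 * u c ≤ u c * c.1.length := by
    intro c _
    rw [mul_comm]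
    exact Nat.mul_le_mul_left _ (PD.len_ne_one D c)
  have heq := (Finset.sum_eq_sum_iff_of_le hle).1 (le_antisymm (Finset.sum_le_sum hle) h) c
    (Finset.mem_univ c)
  rw [mul_comm] at heq
  exact (Nat.eq_of_mul_eq_mul_left (Nat.pos_of_ne_zero hc) heq).symm

private theorem rCost_swap {u : D.Cy → ℕ} (hl : ∀ c : D.Cy, u c ≠ 0 → c.1.length = 2) {p q : P}
    (h : D.flow u p q ≠ 0) : D.flow u q p ≠ 0 := by
  rw [rCost_flow] at h ⊢
  obtain ⟨c, hc, hp, hq⟩ := h
  refine ⟨c, hc, ?_, ?_⟩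
  · rw [← hq]
    exact List.formPerm_mem_iff_mem.2 hp
  · obtain ⟨x, y, hxy⟩ := List.length_eq_two.1 (hl c hc)
    rw [← hq, hxy, List.formPerm_pair]
    rw [← Equiv.Perm.mul_apply, Equiv.swap_mul_self, Equiv.Perm.one_apply]

theorem cost_pos (hno : D.NoOverlap) {u : D.Cy → ℕ} (h0 : u ≠ 0) (hu : D.Sym u)
    (hg : D.cnt u (D.base none) = 0) : 0 < D.cost u := by
  by_contra hcon
  have hsize : D.size u ≤ 2 * D.num u := by
    unfold PD.cost at hcon
    omega
  have hl := rCost_len hsize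
  obtain ⟨c, hc⟩ := Function.ne_iff.1 h0
  have hc0 : u c ≠ 0 := hc
  obtain ⟨p, hp⟩ := List.exists_mem_of_ne_nil c.1 c.2.1
  set q := c.1.formPerm p with hq
  have hqc : q ∈ c.1 := List.formPerm_mem_iff_mem.2 hp
  have hflow : D.flow u p q ≠ 0 := rCost_flow.2 ⟨c, hc0, hp, rfl⟩
  have hty : ∀ x ∈ c.1, D.ty x ≠ none := by
    intro x hx hn
    have h1 := PD.cnt_base hu x
    rw [hn, hg] at h1
    exact rCost_cnt c hc0 hx h1
  have key : ∀ k : ℕ, D.flow u ((D.s ^ k) p) ((D.s⁻¹ ^ k) q) ≠ 0 := by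
    intro k
    induction k with
    | zero => simpa using hflow
    | succ k ih =>
      rw [hu] at ih
      have h2 := rCost_swap hl ih
      rw [pow_succ', pow_succ', Equiv.Perm.mul_apply, Equiv.Perm.mul_apply]
      exact h2
  have h1 : q = D.μ (D.s p) := by
    apply hno p q (hty p hp) (hty q hqc)
    intro k
    have h2 := (PD.flow_adj (key k)).1
    rw [h2, pow_succ', Equiv.Perm.mul_apply]
  exact (PD.flow_adj hflow).2 (hty p hp) h1

end Pool.MP_ed1a61_al.Fill
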