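import Pool.Agent.Lib.MP_ed1a61_al.Fill.ScUpper
import Pool.Agent.Lib.MP_ed1a61_al.Fill.LowerBound
import Pool.Agent.Lib.MP_ed1a61_al.Fill.RCost
import Pool.Agent.Lib.MP_ed1a61_al.Fill.Limit

/-! # The main theorem for position data -/

set_option autoImplicit false

namespace Pool.MP_ed1a61_al.Fill

open Filter Topology

variable {α ι P : Type} [DecidableEq P] [Finite P] [Fintype ι] (D : PD α ι P)

omit [Finite P] in
theorem PDMain_cnt_zero (p : P) : D.cnt 0 p = 0 := by
  classical
  unfold PD.cnt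
  refine finsum_eq_zero_of_forall_eq_zero fun c => ?_
  simp

/-- some irreducible vector visits `g` -/
theorem PDMain_exists (hg : D.el none ∈ commutator (FreeGroup α)) :
    ∃ u, D.Irr u ∧ D.cnt u (D.base none) ≠ 0 := by
  obtain ⟨k, hk⟩ := exists_cl hg
  have hk' : CL k (D.el none ^ 1 * 1) := by simpa using hk
  obtain ⟨u, hu, hn, -⟩ := exists_lower_vec D (fun _ => 1) (fun _ => Nat.one_pos) Nat.one_pos
    (one_mem _) hk'
  obtain ⟨m, hm, rfl⟩ := exists_sum_irr hu
  by_contra hc
  push Not at hc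
  have key : ∀ m : Multiset (D.Cy → ℕ), (∀ u ∈ m, D.Irr u) → D.cnt m.sum (D.base none) = 0 := by
    intro m
    induction m using Multiset.induction_on with
    | empty => intro _; rw [Multiset.sum_zero]; exact PDMain_cnt_zero D _
    | cons a s ih =>
      intro h
      rw [Multiset.sum_cons, PD.cnt_add, hc a (h a (Multiset.mem_cons_self a s)),
        ih fun u hu => h u (Multiset.mem_cons_of_mem hu)]
  rw [key m hm] at hn
  exact absurd hn (by norm_num)

/-- the rational function of an irreducible vector -/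
noncomputable def PDMain_fn (u : D.Cy → ℕ) : ℚ × (ι → ℚ) :=
  ((D.cost u : ℚ) / (4 * D.cnt u (D.base none)),
    fun i => (D.X u i : ℚ) / (2 * D.cnt u (D.base none)))

theorem PDMain_val (N : ι → ℕ) (u : D.Cy → ℕ) :
    (PDMain_fn D u).1 - ∑ i, (PDMain_fn D u).2 i / (N i : ℚ)
      = D.val N u / (2 * D.cnt u (D.base none)) := by
  unfold PDMain_fn PD.val
  rw [sub_div, Finset.sum_div]
  congr 1
  · rw [div_div]; ring
  · refine Finset.sum_congr rfl fun i _ => ?_
    rw [div_div, div_div, mul_comm]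

theorem pd_main (hno : D.NoOverlap) (hg : D.el none ∈ commutator (FreeGroup α))
    (h1 : D.el none ≠ 1)
    (hcomm : ∀ (i : ι) (a : ℕ) (b : ℤ), 0 < a → ¬ IsConj (D.el none ^ a)
      (D.el (some (i, true)) ^ b)) :
    ∃ (J : Finset (ℚ × (ι → ℚ))) (hJ : J.Nonempty) (N0 M : ℕ), 0 < M ∧
      ∀ N : ι → ℕ, (∀ i, N0 ≤ N i ∧ M ∣ N i) →
      ∀ (H : Type) [Group H] (f : FreeGroup α →* H), Function.Surjective f →
        f.ker = Subgroup.normalClosure (Set.range fun i => (D.el (some (i, true))) ^ N i) →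
        Tendsto (fun n : ℕ => ((sInf {k : ℕ | CL k (f (D.el none) ^ n)} : ℕ) : ℝ) / (n : ℝ)) atTop
          (𝓝 ((J.inf' hJ (fun x => x.1 - ∑ i, x.2 i / (N i : ℚ)) : ℚ) : ℝ)) := by
  classical
  set B : Finset (D.Cy → ℕ) := (finite_irr (D := D)).toFinset with hB
  have memB : ∀ u, u ∈ B ↔ D.Irr u := fun u => by rw [hB]; simp
  obtain ⟨u0, hu0, hn0⟩ := PDMain_exists D hg
  have hne : ((B.filter fun u => D.cnt u (D.base none) ≠ 0).image (PDMain_fn D)).Nonempty :=
    ⟨PDMain_fn D u0, Finset.mem_image_of_mem _ (Finset.mem_filter.2 ⟨(memB u0).2 hu0, hn0⟩)⟩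
  set K : ℕ := ∑ u ∈ B, ∑ i, D.X u i with hK
  have leK : ∀ u, D.Irr u → ∑ i, D.X u i ≤ K := fun u hu =>
    Finset.single_le_sum (f := fun u => ∑ i, D.X u i) (fun _ _ => Nat.zero_le _) ((memB u).2 hu)
  have leK' : ∀ u, D.Irr u → ∀ i, D.X u i ≤ K := fun u hu i =>
    (Finset.single_le_sum (f := fun i => D.X u i) (fun _ _ => Nat.zero_le _)
      (Finset.mem_univ i)).trans (leK u hu)
  refine ⟨_, hne, 2 * K + 1, K.factorial, Nat.factorial_pos _, ?_⟩
  intro N hN H _ f hf hker
  set lam : ℚ := ((B.filter fun u => D.cnt u (D.base none) ≠ 0).image (PDMain_fn D)).inf' hne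
    (fun x => x.1 - ∑ i, x.2 i / (N i : ℚ)) with hlam
  have hNpos : ∀ i, 0 < N i := fun i => by have := (hN i).1; omega
  have lam_le : ∀ u, D.Irr u → D.cnt u (D.base none) ≠ 0 →
      2 * lam * D.cnt u (D.base none) ≤ D.val N u := by
    intro u hu hn
    have h2 : lam ≤ D.val N u / (2 * D.cnt u (D.base none)) := by
      rw [← PDMain_val, hlam]
      exact Finset.inf'_le (fun x : ℚ × (ι → ℚ) => x.1 - ∑ i, x.2 i / (N i : ℚ))
        (Finset.mem_image_of_mem _ (Finset.mem_filter.2 ⟨(memB u).2 hu, hn⟩))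
    have h3 : (0 : ℚ) < 2 * D.cnt u (D.base none) := by
      have : (0 : ℚ) < D.cnt u (D.base none) := by exact_mod_cast Nat.pos_of_ne_zero hn
      linarith
    rw [le_div_iff₀ h3] at h2
    linarith
  have val0 : ∀ u, D.Irr u → D.cnt u (D.base none) = 0 → 0 ≤ D.val N u := by
    intro u hu hn
    have hc := cost_pos hno hu.1 hu.2.1 hn
    have hc' : (1 : ℚ) ≤ D.cost u := by exact_mod_cast hc
    have hs : ∑ i, (D.X u i : ℚ) / N i ≤ 1 / 2 := by
      have h2 : ∀ i ∈ (Finset.univ : Finset ι), (D.X u i : ℚ) / N i ≤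
          (D.X u i : ℚ) / (2 * K + 1) := by
        intro i _
        have h3 : ((2 * K + 1 : ℕ) : ℚ) ≤ N i := by exact_mod_cast (hN i).1
        push_cast at h3
        exact div_le_div_of_nonneg_left (by positivity) (by positivity) h3
      refine (Finset.sum_le_sum h2).trans ?_
      rw [← Finset.sum_div]
      have h4 : ((∑ i, D.X u i : ℕ) : ℚ) ≤ K := by exact_mod_cast leK u hu
      push_cast at h4
      rw [div_le_div_iff₀ (by positivity) (by norm_num)]
      linarith
    unfold PD.val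
    linarith
  obtain ⟨x, hx, hxe⟩ := Finset.exists_mem_eq_inf' hne
    (fun x : ℚ × (ι → ℚ) => x.1 - ∑ i, x.2 i / (N i : ℚ))
  obtain ⟨u, hu, rfl⟩ := Finset.mem_image.1 hx
  rw [Finset.mem_filter, memB] at hu
  have hlam' : lam = D.val N u / (2 * D.cnt u (D.base none)) := by
    rw [← PDMain_val, hlam]; exact hxe
  have hfc : f (D.el none) ∈ commutator H := by
    have h2 := Subgroup.mem_map_of_mem f hg
    rw [commutator_def, Subgroup.map_commutator] at h2
    rw [commutator_def]
    exact Subgroup.commutator_mono le_top le_top h2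
  refine tendsto_of_bounds hfc ?_ ?_
  · rw [hlam']
    refine sc_upper D hu.1 hu.2 f (N := N) ?_ ?_ h1 hcomm
    · intro i
      rw [← map_pow, ← MonoidHom.mem_ker, hker]
      exact Subgroup.subset_normalClosure ⟨i, rfl⟩
    · intro i w hw hwX
      have h2 : w ≤ K := hwX.trans (leK' u hu.1 i)
      refine ⟨(Nat.dvd_factorial hw h2).trans (hN i).2, ?_⟩
      have := (hN i).1
      omega
  · intro n k hn hCL
    obtain ⟨x, hxk, hfx⟩ := CL.lift hf hCL
    have hz : (D.el none ^ n)⁻¹ * x ∈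
        Subgroup.normalClosure (Set.range fun i => (D.el (some (i, true))) ^ N i) := by
      rw [← hker, MonoidHom.mem_ker, map_mul, map_inv, map_pow, hfx, inv_mul_cancel]
    have h2 := lower_bound D hNpos val0 lam_le hn hz (k := k) (by rwa [mul_inv_cancel_left])
    exact_mod_cast h2

end Pool.MP_ed1a61_al.Fill
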