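import Pool.Agent.Lib.MP_ed1a61_al.Fill.ScBasic

/-! # The pair of pants -/

set_option autoImplicit false

namespace Pool.MP_ed1a61_al.Fill

variable {H : Type} [Group H] {us us' : List H} {s s' : ℝ} {a b u v : H}

private theorem Pants_aux (x y : H) (n : ℕ) :
    CL (n / 2) ((x ^ n)⁻¹ * (x * y) ^ n * (y ^ n)⁻¹) := by
  induction n using Nat.twoStepInduction with
  | zero => simpa using cl_one
  | one =>
    have : (x ^ 1)⁻¹ * (x * y) ^ 1 * (y ^ 1)⁻¹ = 1 := by group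
    rw [this]
    exact cl_one
  | more n ih _ =>
    have hk : (n + 2) / 2 = 1 + n / 2 := by omega
    rw [hk]
    have e : (x ^ (n + 2))⁻¹ * (x * y) ^ (n + 2) * (y ^ (n + 2))⁻¹ =
        ((x * x ^ n)⁻¹ * y * x⁻¹) *
        ((((x * x ^ n) * ((x ^ n)⁻¹ * (x * y) ^ n * (y ^ n)⁻¹) * y ^ n) *
          ((x * y⁻¹) * ((y ^ n)⁻¹ * (x * x ^ n)⁻¹) * (x * y⁻¹)⁻¹ *
            ((y ^ n)⁻¹ * (x * x ^ n)⁻¹)⁻¹) *
          ((x * x ^ n) * ((x ^ n)⁻¹ * (x * y) ^ n * (y ^ n)⁻¹) * y ^ n)⁻¹) *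
          ((x * x ^ n) * ((x ^ n)⁻¹ * (x * y) ^ n * (y ^ n)⁻¹) * (x * x ^ n)⁻¹)) *
        ((x * x ^ n)⁻¹ * y * x⁻¹)⁻¹ := by
      have e1 : x ^ (n + 2) = x * (x * x ^ n) := by rw [pow_succ', pow_succ']
      have e2 : y ^ (n + 2) = y ^ n * y * y := by rw [pow_succ, pow_succ]
      have e3 : (x * y) ^ (n + 2) = (x * y) * ((x * y) ^ n * (x * y)) := by
        rw [pow_succ', pow_succ]
      rw [e1, e2, e3]
      generalize x ^ n = X
      generalize y ^ n = Y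
      generalize (x * y) ^ n = P
      group
    rw [e]
    refine CL.conj (CL.mul ?_ ?_) _
    · exact CL.conj (cl_commutator _ _) _
    · exact CL.conj ih _

/-- pair of pants: `(a b)^n b^{-n} a^{-n}` is a product of `⌊n/2⌋` commutators -/
theorem cl_pants (a b : H) (n : ℕ) : CL (n / 2) ((a * b) ^ n * (b⁻¹) ^ n * (a⁻¹) ^ n) := by
  have h := CL.conj (Pants_aux a b n) (a ^ n)
  have e : a ^ n * ((a ^ n)⁻¹ * (a * b) ^ n * (b ^ n)⁻¹) * (a ^ n)⁻¹ =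
      (a * b) ^ n * (b⁻¹) ^ n * (a⁻¹) ^ n := by
    rw [inv_pow, inv_pow]
    group
  rwa [e] at h

theorem sc_pants (a b : H) : Sc [a * b, b⁻¹, a⁻¹] (1 / 2) := by
  intro ε hε
  refine ⟨1, one_pos, 0, fun n => ⟨n / 2, ?_, ?_⟩⟩
  · have h := cl_pants a b n
    simpa [mul_assoc] using h
  · have h1 : ((n / 2 : ℕ) : ℝ) ≤ (n : ℝ) / 2 := by exact_mod_cast Nat.cast_div_le
    have h2 : (0:ℝ) ≤ n := Nat.cast_nonneg n
    have h3 : 0 ≤ ε * n := by positivity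
    rw [one_mul, add_zero]
    linarith

end Pool.MP_ed1a61_al.Fill
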