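import Pool.Agent.Lib.MP_ed1a61_al.Fill.ScTorsion

/-! # The upper bound for scl given by a surface with torsion boundary components -/

set_option autoImplicit false

namespace Pool.MP_ed1a61_al.Fill

variable {H : Type} [Group H]

private theorem qi_conj {us vs : List H} (h : List.Forall₂ IsConj us vs) {s : ℝ} :
    ∀ ws : List H, Sc (vs ++ ws) s → Sc (us ++ ws) s := by
  induction h with
  | nil => exact fun ws h => h
  | cons hxy _ ih =>
    intro ws hs
    have h1 := Sc.of_isConj hs hxy.symm
    have h2 := ih (_ :: ws) (h1.perm List.perm_middle.symm)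
    exact h2.perm List.perm_middle

private theorem qi_tor {cs : List H} {ds : List ℕ}
    (hds : List.Forall₂ (fun c d => c ^ d = 1 ∧ 2 ≤ d) cs ds) {us : List H} :
    ∀ (a : H) (s : ℝ), Sc (a :: us) s →
      Sc ((a * cs.prod) :: us) (s + (ds.map (fun d : ℕ => 1 - 1 / (d : ℝ))).sum / 2) := by
  induction hds with
  | nil =>
    intro a s h
    simpa using h
  | cons hcd _ ih =>
    intro a s h
    have h1 := h.mul_torsion (by have := hcd.2; omega) hcd.1
    have h2 := ih _ _ h1
    rw [List.prod_cons, ← mul_assoc]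
    refine h2.mono (le_of_eq ?_)
    rw [List.map_cons, List.sum_cons]
    ring

private theorem qi_conj_tor {cs vs : List H} (h : List.Forall₂ IsConj cs vs) {ds : List ℕ}
    (hds : List.Forall₂ (fun c d => c ^ d = 1 ∧ 2 ≤ d) cs ds) :
    List.Forall₂ (fun c d => c ^ d = 1 ∧ 2 ≤ d) vs ds := by
  induction h generalizing ds with
  | nil => exact hds
  | cons hxy _ ih =>
    cases hds with
    | cons hcd hrest =>
      refine List.Forall₂.cons ⟨?_, hcd.2⟩ (ih hrest)
      obtain ⟨g, hg⟩ := isConj_iff.1 hxy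
      rw [← hg, conj_pow, hcd.1, mul_one, mul_inv_cancel]

private theorem qi_inv_tor {cs : List H} {ds : List ℕ}
    (hds : List.Forall₂ (fun c d => c ^ d = 1 ∧ 2 ≤ d) cs ds) :
    List.Forall₂ (fun c d => c ^ d = 1 ∧ 2 ≤ d) (cs.map (fun c => c⁻¹)) ds := by
  induction hds with
  | nil => exact List.Forall₂.nil
  | cons hcd _ ih =>
    refine List.Forall₂.cons ⟨?_, hcd.2⟩ ih
    rw [inv_pow, hcd.1, inv_one]

private theorem qi_split {us cs : List H} : ∀ {vs : List H},
    List.Forall₂ IsConj (us ++ cs) vs → ∃ vu vc, vs = vu ++ vc ∧ List.Forall₂ IsConj us vu ∧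
      List.Forall₂ IsConj cs vc := by
  induction us with
  | nil => exact fun h => ⟨[], _, rfl, List.Forall₂.nil, h⟩
  | cons u us ih =>
    intro vs h
    cases h with
    | cons huv hrest =>
      obtain ⟨vu, vc, rfl, h1, h2⟩ := ih hrest
      exact ⟨_ :: vu, vc, rfl, List.Forall₂.cons huv h1, h2⟩

theorem sc_of_bd {K : ℕ} {us cs : List H} {ds : List ℕ}
    (hds : List.Forall₂ (fun c d => c ^ d = 1 ∧ 2 ≤ d) cs ds) (hB : Bd K (us ++ cs))
    (hus : us ≠ []) (hex : ¬ (K = 0 ∧ us.length = 1 ∧ cs.length ≤ 1)) :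
    Sc us ((2 * (K : ℝ) - 2 + us.length + (ds.map (fun d : ℕ => 1 - 1 / (d : ℝ))).sum) / 2) := by
  obtain ⟨vs, hvs, hCL⟩ := hB
  obtain ⟨vu, vc, rfl, hvu, hvc⟩ := qi_split hvs
  rw [List.prod_append] at hCL
  have hlen : us.length = vu.length := hvu.length_eq
  have hlc : cs.length = vc.length := hvc.length_eq
  have htor := List.rel_reverse (qi_inv_tor (qi_conj_tor hvc hds))
  have hprod : (vc.map (fun c => c⁻¹)).reverse.prod = vc.prod⁻¹ := by
    rw [List.prod_inv_reverse]
  have hsum : (ds.reverse.map (fun d : ℕ => 1 - 1 / (d : ℝ))).sum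
      = (ds.map (fun d : ℕ => 1 - 1 / (d : ℝ))).sum := by
    rw [List.map_reverse, List.sum_reverse]
  have hvu0 : vu ≠ [] := by
    rintro rfl
    exact hus (List.length_eq_zero_iff.1 hlen)
  have hfin : ∀ s, Sc vu s → Sc us s := by
    intro s h
    have h1 := qi_conj hvu [] (by rwa [List.append_nil])
    rwa [List.append_nil] at h1
  apply hfin
  rw [hlen]
  rcases Nat.eq_zero_or_pos K with hK | hK
  · subst hK
    rw [cl_zero_iff] at hCL
    have hV : vu.prod = vc.prod⁻¹ := eq_inv_of_mul_eq_one_left hCL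
    rcases vu with _ | ⟨v, _ | ⟨v', vr⟩⟩
    · exact absurd rfl hvu0
    · have h2 : 2 ≤ (vc.map (fun c => c⁻¹)).reverse.length := by
        rw [List.length_reverse, List.length_map]
        simp at hex hlen
        omega
      have h3 := sc_many_torsion htor h2
      rw [hprod, ← hV, hsum, List.prod_singleton] at h3
      refine h3.mono (le_of_eq ?_)
      simp
      ring
    · set Z : H := (v' :: vr).prod with hZ
      have hv : v * Z = vc.prod⁻¹ := by
        rw [← hV, hZ]
        simp
      have h0 : Sc [Z⁻¹, Z] (0 : ℝ) := by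
        have h1 : Sc [Z⁻¹, Z⁻¹⁻¹] (0 : ℝ) := sc_cancel_iff.2 sc_nil
        rwa [inv_inv] at h1
      have h1 := qi_tor htor Z⁻¹ 0 h0
      rw [hprod, ← hv, hsum] at h1
      have h2 : IsConj (Z⁻¹ * (v * Z)) v := isConj_iff.2 ⟨Z, by group⟩
      have h3 := h1.of_isConj h2
      have h4 := h3.perm (List.Perm.swap Z v [])
      have h5 := Sc.split_prod (l := v' :: vr) (List.cons_ne_nil _ _) h4
      have h6 : ((v' :: vr) ++ [v]).Perm (v :: v' :: vr) := by
        have := List.perm_append_comm (l₁ := v' :: vr) (l₂ := [v])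
        simpa using this
      refine (h5.perm h6).mono (le_of_eq ?_)
      rw [List.length_cons (a := v)]
      push_cast
      ring
  · have h1 := sc_of_cl hK hCL
    have h2 := qi_tor htor _ _ h1
    rw [hprod, mul_inv_cancel_right, hsum] at h2
    have h3 := Sc.split_prod hvu0 h2
    rw [List.append_nil] at h3
    refine h3.mono (le_of_eq ?_)
    ring

end Pool.MP_ed1a61_al.Fill
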