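import Pool.Agent.Lib.MP_ed1a61_al.Fill.StrOps

/-! # Surfaces with one boundary component -/

set_option autoImplicit false

namespace Pool.MP_ed1a61_al.Fill

open Equiv

variable {α : Type}

/-- a rotation of the list of letters keeps the structure -/
theorem Red1_rotated {Ω : Type} [DecidableEq Ω] {σ π : Perm Ω} {lab : Ω → α × Bool}
    {l l' : List Ω} (h : IsStr σ π lab [l]) (hl : l.IsRotated l') : IsStr σ π lab [l'] := by
  obtain ⟨n, rfl⟩ := hl
  exact h.rotate n

/-- a pair of partners inside a list -/
theorem Red1_pair {Ω : Type} {π : Perm Ω} (hinv : ∀ x, π (π x) = x) (hne : ∀ x, π x ≠ x)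
    {U : List Ω} {s : Ω} (hs : s ∈ U) (hs' : π s ∈ U) :
    ∃ (x : Ω) (A B C : List Ω), U = A ++ x :: (B ++ π x :: C) := by
  obtain ⟨A, B, rfl⟩ := List.append_of_mem hs
  rcases List.mem_append.1 hs' with h1 | h1
  · obtain ⟨A1, A2, rfl⟩ := List.append_of_mem h1
    refine ⟨π s, A1, A2, B, ?_⟩
    rw [hinv]
    simp
  · rcases List.mem_cons.1 h1 with h2 | h2
    · exact absurd h2 (hne s)
    · obtain ⟨B1, B2, rfl⟩ := List.append_of_mem h2
      exact ⟨s, A, B1, B2, rfl⟩

/-- one step for a surface with one boundary component -/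
theorem str_reduce_one {κ : ℤ} {Ω : Type} [Finite Ω] [DecidableEq Ω] {σ π : Perm Ω}
    {lab : Ω → α × Bool} {l : List Ω} (h : IsStr σ π lab [l]) (hg : gen σ π ≤ κ)
    (hne : l ≠ []) :
    (∃ (x : α × Bool) (w : List (α × Bool)), (l.map lab).IsRotated (x :: linv x :: w) ∧
        Str κ [w]) ∨
    (∃ (x : α × Bool) (u v : List (α × Bool)),
        (l.map lab).IsRotated ((x :: u) ++ (linv x :: v)) ∧ Str (κ - 2) [u, v]) := by
  classical
  have hmem : ∀ {l' : List Ω}, IsStr σ π lab [l'] → ∀ {x : Ω}, x ∈ l' → π x ∈ l' := by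
    intro l' h' x hx
    have h1 := (h'.pi_mem_flatten (x := x)).2 (by simpa using hx)
    simpa using h1
  -- the lengths of the first parts
  let P : ℕ → Prop := fun n => ∃ (p : Ω) (U V : List Ω), l.IsRotated (p :: U ++ π p :: V) ∧
    U.length = n
  have hP : ∃ n, P n := by
    obtain ⟨p, t, rfl⟩ := List.exists_cons_of_ne_nil hne
    have h1 : π p ∈ p :: t := hmem h List.mem_cons_self
    rcases List.mem_cons.1 h1 with h2 | h2
    · exact absurd h2 (h.pi_ne p)
    · obtain ⟨U, V, rfl⟩ := List.append_of_mem h2
      exact ⟨U.length, p, U, V, List.IsRotated.refl _, rfl⟩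
  obtain ⟨p, U, V, hrot, hlen⟩ := Nat.find_spec hP
  have hmin : ∀ m, m < Nat.find hP → ¬ P m := fun m hm => Nat.find_min hP hm
  have h' : IsStr σ π lab [p :: U ++ π p :: V] := Red1_rotated h hrot
  have hrotl := hrot.map lab
  by_cases hU : U = []
  · left
    subst hU
    obtain ⟨σ', π', h2, h3⟩ := IsStr.fold (ls := []) (l := V) h' (h.lab_inv p)
    refine ⟨lab p, V.map lab, ?_, Ω, inferInstance, inferInstance, σ', π', lab, [V], h2, rfl,
      h3.trans hg⟩
    rw [← h.lab_inv p]
    simpa using hrotl
  · right
    obtain ⟨s, hs⟩ := List.exists_mem_of_ne_nil U hU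
    have hnd : (p :: U ++ π p :: V).Nodup := by
      have := h'.nodup
      simpa using this
    have hsl : s ∈ p :: U ++ π p :: V := by simp [hs]
    have hps := hmem h' hsl
    have hpU : p ∉ U := by
      intro hc
      rw [List.cons_append, List.nodup_cons] at hnd
      exact hnd.1 (List.mem_append_left _ hc)
    have hqU : π p ∉ U := by
      intro hc
      rw [List.cons_append, List.nodup_cons] at hnd
      exact (List.disjoint_of_nodup_append hnd.2) hc List.mem_cons_self
    have hsV : π s ∈ V := by
      rw [List.cons_append, List.mem_cons, List.mem_append, List.mem_cons] at hps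
      rcases hps with h1 | h1 | h1 | h1
      · exfalso
        apply hqU
        rw [← h1, h.inv]
        exact hs
      · exfalso
        obtain ⟨x, A, B, C, hABC⟩ := Red1_pair h.inv h.pi_ne hs h1
        refine hmin B.length ?_ ⟨x, B, C ++ π p :: V ++ p :: A, ?_, rfl⟩
        · rw [← hlen, hABC]
          simp only [List.length_append, List.length_cons]
          omega
        · refine hrot.trans ?_
          rw [hABC]
          have e1 : p :: (A ++ x :: (B ++ π x :: C)) ++ π p :: V =
              (p :: A) ++ (x :: B ++ π x :: C ++ π p :: V) := by simp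
          have e2 : x :: B ++ π x :: (C ++ π p :: V ++ p :: A) =
              (x :: B ++ π x :: C ++ π p :: V) ++ (p :: A) := by simp
          rw [e1, e2]
          exact List.isRotated_append
      · exfalso
        apply hpU
        rw [← π.injective h1]
        exact hs
      · exact h1
    obtain ⟨σ', h2, h3⟩ := IsStr.cut_band (ls := []) h' rfl hs hsV
    refine ⟨lab p, U.map lab, V.map lab, ?_, Ω, inferInstance, inferInstance, σ', π, lab, [U, V],
      h2, rfl, ?_⟩
    · rw [← h.lab_inv p]
      simpa using hrotl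
    · exact h3.trans (sub_le_sub_right hg 2)

end Pool.MP_ed1a61_al.Fill
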