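import Pool.Agent.Lib.MP_ed1a61_al.Fill.StrFoldAll
import Pool.Agent.Lib.MP_ed1a61_al.Fill.Words

/-! # Removing two faces glued along a mirror band -/

set_option autoImplicit false

namespace Pool.MP_ed1a61_al.Fill

open Equiv

variable {α ι P : Type} (D : PD α ι P)

/-- the position reached in a walk of a list split at `x` -/
private theorem remMirror_pos {Ω : Type} {θ : Ω → P} {j : Option (ι × Bool)} {L : ℕ}
    {u v : List Ω} {x : Ω} (hl : (u ++ x :: v).map θ = D.walk j L) :
    u.length < L ∧ (D.s ^ u.length) (D.base j) = θ x := by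
  have hlen : (u ++ x :: v).length = L := by
    have := congrArg List.length hl
    simpa [PD.walk] using this
  have hlt : u.length < L := by
    rw [← hlen]; simp
  refine ⟨hlt, ?_⟩
  have h1 : ((u ++ x :: v).map θ)[u.length]? = (D.walk j L)[u.length]? := by rw [hl]
  rw [List.getElem?_map] at h1
  simp only [PD.walk, List.getElem?_map, List.getElem?_range hlt, Option.map_some] at h1
  rw [List.getElem?_append_right le_rfl] at h1
  simp only [Nat.sub_self, List.getElem?_cons_zero, Option.map_some, Option.some.injEq] at h1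
  exact h1.symm

private theorem remMirror_ty (k : ℕ) (p : P) : D.ty ((D.s ^ k) p) = D.ty p := by
  induction k with
  | zero => rfl
  | succ k ih => rw [pow_succ', Perm.mul_apply, D.ty_s, ih]

private theorem remMirror_wd {Ω : Type} {lab : Ω → α × Bool} {θ : Ω → P}
    (hlab : ∀ x, lab x = D.ℓ (θ x)) {l : List Ω} {j : Option (ι × Bool)} {L : ℕ}
    (hl : l.map θ = D.walk j L) : l.map lab = D.wd (D.base j) L := by
  have h1 : l.map lab = (l.map θ).map D.ℓ := by
    rw [List.map_map]
    exact List.map_congr_left fun x _ => hlab x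
  rw [h1, hl, PD.walk, PD.wd, List.map_map]
  rfl

/-- two faces which are glued along a mirror band can be removed -/
theorem str_remove_mirror {N : ι → ℕ} {f f' : ι × Bool}
    {Ω : Type} [Finite Ω] [DecidableEq Ω] {σ π : Perm Ω} {lab : Ω → α × Bool}
    {l l' : List Ω} {ls : List (List Ω)} (h : IsStr σ π lab (l :: l' :: ls))
    {θ : Ω → P} (hθ : ∀ x, θ (σ x) = D.s (θ x)) (hlab : ∀ x, lab x = D.ℓ (θ x))
    (hl : l.map θ = D.walk (some f) (N f.1 * D.len (some f)))
    (hl' : l'.map θ = D.walk (some f') (N f'.1 * D.len (some f')))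
    {x : Ω} (hx : x ∈ l) (hx' : π x ∈ l') (hm : θ (π x) = D.μ (θ x)) :
    Str (gen σ π) (ls.map (List.map lab)) := by
  obtain ⟨u, v, rfl⟩ := List.append_of_mem hx
  obtain ⟨u', v', rfl⟩ := List.append_of_mem hx'
  obtain ⟨hlt, hpos⟩ := remMirror_pos D hl
  obtain ⟨hlt', hpos'⟩ := remMirror_pos D hl'
  -- the types
  have hty : D.ty (θ x) = some f := by rw [← hpos, remMirror_ty, D.ty_base]
  have hty' : D.ty (θ (π x)) = some f' := by rw [← hpos', remMirror_ty, D.ty_base]
  have hf' : f' = (f.1, !f.2) := by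
    rw [hm, D.ty_μ, hty] at hty'
    exact (Option.some.inj hty').symm
  have hN : 0 < N f.1 := by
    rcases Nat.eq_zero_or_pos (N f.1) with h0 | h0
    · rw [h0, zero_mul] at hlt
      exact absurd hlt (Nat.not_lt_zero _)
    · exact h0
  have hN' : 0 < N f'.1 := by rw [hf']; exact hN
  have hlen : D.len (some f') = D.len (some f) := by
    rw [hf']
    obtain ⟨i, b⟩ := f
    cases b
    · exact (D.len_symm i).symm
    · exact D.len_symm i
  have hLL : N f'.1 * D.len (some f') = N f.1 * D.len (some f) := by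
    rw [hlen, hf']
  -- the words
  have hw : (u ++ x :: v).map lab = D.wd (D.base (some f)) (N f.1 * D.len (some f)) :=
    remMirror_wd D hlab hl
  have hw' : (u' ++ π x :: v').map lab = D.wd (D.base (some f')) (N f'.1 * D.len (some f')) :=
    remMirror_wd D hlab hl'
  have e1 : (u ++ x :: v).rotate u.length = x :: (v ++ u) := by
    rw [List.rotate_append_length_eq]; rfl
  have e2 : (u' ++ π x :: v').rotate (u'.length + 1) = (v' ++ u') ++ [π x] := by
    have : u' ++ π x :: v' = (u' ++ [π x]) ++ v' := by simp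
    rw [this, show u'.length + 1 = (u' ++ [π x]).length by simp, List.rotate_append_length_eq]
    simp
  have w1 : (x :: (v ++ u)).map lab = D.wd (θ x) (N f.1 * D.len (some f)) := by
    rw [← e1, List.map_rotate, hw, wd_rotate D _ hN, hpos]
  have w2 : ((v' ++ u') ++ [π x]).map lab
      = FreeGroup.invRev (D.wd (θ x) (N f.1 * D.len (some f))) := by
    have hper : (D.s ^ (N f.1 * D.len (some f))) (θ x) = θ x := by
      rw [← hpos, ← Perm.mul_apply, ← pow_add, add_comm, pow_add, Perm.mul_apply,
        (D.per (some f) _).mpr (Dvd.intro_left _ rfl)]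
    rw [← wd_mirror D (by rw [hty]; exact Option.some_ne_none _) hper, ← hm, ← e2,
      List.map_rotate, hw', wd_rotate D _ hN', pow_succ', Perm.mul_apply, hpos', hLL]
  -- joining
  have h1 : IsStr σ π lab ((u ++ x :: v).rotate u.length :: (u' ++ π x :: v') :: ls) :=
    h.rotate _
  have h2 : IsStr σ π lab ((u' ++ π x :: v') :: (u ++ x :: v).rotate u.length :: ls) :=
    h1.perm (List.Perm.swap _ _ _)
  have h3 : IsStr σ π lab ((u ++ x :: v).rotate u.length
      :: (u' ++ π x :: v').rotate (u'.length + 1) :: ls) :=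
    (h2.rotate (u'.length + 1)).perm (List.Perm.swap _ _ _)
  rw [e1, e2] at h3
  obtain ⟨σ', h4, h5⟩ := h3.join_band rfl
  have h6 : Str (gen σ π) ((((x :: (v ++ u)) ++ ((v' ++ u') ++ [π x])).map lab)
      :: ls.map (List.map lab)) :=
    ⟨Ω, inferInstance, inferInstance, σ', π, lab, _, h4, rfl, h5⟩
  refine h6.fold_all ?_
  rw [List.map_append, w1, w2, ← FreeGroup.mul_mk, ← FreeGroup.inv_mk, mul_inv_cancel]

end Pool.MP_ed1a61_al.Fill
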