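import Pool.Agent.Lib.MP_ed1a61_al.Fill.Words

/-! # Positions with the same infinite word -/

set_option autoImplicit false

namespace Pool.MP_ed1a61_al.Fill

open Equiv

variable {α ι : Type}

private theorem SameWord_pow_add {P : Type} (D : PD α ι P) (a b : ℕ) (p : P) :
    (D.s ^ (a + b)) p = (D.s ^ a) ((D.s ^ b) p) := by
  rw [pow_add, Perm.mul_apply]

private theorem SameWord_per {P : Type} (D : PD α ι P) (p : P) :
    (D.s ^ D.len (D.ty p)) p = p := by
  obtain ⟨k, hk⟩ := D.reach p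
  have h1 := (D.per (D.ty p) (D.len (D.ty p))).2 dvd_rfl
  calc (D.s ^ D.len (D.ty p)) p = (D.s ^ D.len (D.ty p)) ((D.s ^ k) (D.base (D.ty p))) := by
        rw [hk]
    _ = (D.s ^ k) ((D.s ^ D.len (D.ty p)) (D.base (D.ty p))) := by
        rw [← SameWord_pow_add, ← SameWord_pow_add, add_comm]
    _ = p := by rw [h1, hk]

private theorem SameWord_per_mul {P : Type} (D : PD α ι P) (p : P) (m : ℕ) :
    (D.s ^ (D.len (D.ty p) * m)) p = p := by
  induction m with
  | zero => simp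
  | succ m ih => rw [Nat.mul_succ, SameWord_pow_add, SameWord_per, ih]

private theorem SameWord_rot (l : List (α × Bool)) (k : ℕ) :
    IsConj (FreeGroup.mk l) (FreeGroup.mk (l.rotate k)) := by
  rw [List.rotate_eq_drop_append_take_mod, ← FreeGroup.mul_mk, isConj_iff]
  refine ⟨(FreeGroup.mk (l.take (k % l.length)))⁻¹, ?_⟩
  have h : FreeGroup.mk l = FreeGroup.mk (l.take (k % l.length)) *
      FreeGroup.mk (l.drop (k % l.length)) := by
    rw [FreeGroup.mul_mk, List.take_append_drop]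
  rw [h]
  group

private theorem SameWord_conj {P : Type} (D : PD α ι P) (p : P) :
    IsConj (D.el (D.ty p)) (FreeGroup.mk (D.wd p (D.len (D.ty p)))) := by
  obtain ⟨k, hk⟩ := D.reach p
  have h1 := wd_rotate D (j := D.ty p) (m := 1) k one_pos
  rw [one_mul, hk] at h1
  rw [← h1]
  exact SameWord_rot _ _

private theorem SameWord_wd_add {P : Type} (D : PD α ι P) (p : P) (a b : ℕ) :
    D.wd p (a + b) = D.wd p a ++ D.wd ((D.s ^ a) p) b := by
  unfold PD.wd
  rw [List.range_add, List.map_append, List.map_map]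
  congr 1
  refine List.map_congr_left fun k _ => ?_
  simp only [Function.comp]
  rw [add_comm, SameWord_pow_add]

private theorem SameWord_wd_congr {P : Type} (D : PD α ι P) {p q : P}
    (h : ∀ k : ℕ, D.ℓ ((D.s ^ k) p) = D.ℓ ((D.s ^ k) q)) (m : ℕ) : D.wd p m = D.wd q m := by
  unfold PD.wd
  exact List.map_congr_left fun k _ => h k

private theorem SameWord_period_mul {P : Type} (D : PD α ι P) {p : P} {d : ℕ}
    (hd : ∀ k : ℕ, D.ℓ ((D.s ^ (k + d)) p) = D.ℓ ((D.s ^ k) p)) (m k : ℕ) :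
    D.ℓ ((D.s ^ (k + m * d)) p) = D.ℓ ((D.s ^ k) p) := by
  induction m with
  | zero => simp
  | succ m ih =>
    have : k + (m + 1) * d = (k + m * d) + d := by ring
    rw [this, hd, ih]

private theorem SameWord_mk_pow {P : Type} (D : PD α ι P) {p : P} {d : ℕ}
    (hd : ∀ k : ℕ, D.ℓ ((D.s ^ (k + d)) p) = D.ℓ ((D.s ^ k) p)) (m : ℕ) :
    FreeGroup.mk (D.wd p (m * d)) = FreeGroup.mk (D.wd p d) ^ m := by
  induction m with
  | zero =>
    rw [zero_mul, pow_zero]
    rfl
  | succ m ih =>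
    have h1 : D.wd ((D.s ^ (m * d)) p) d = D.wd p d := by
      refine SameWord_wd_congr D (fun k => ?_) d
      rw [← SameWord_pow_add]
      exact SameWord_period_mul D hd m k
    rw [Nat.succ_mul, SameWord_wd_add, ← FreeGroup.mul_mk, ih, h1, pow_succ]

private theorem SameWord_gcd {P : Type} (D : PD α ι P) {p : P} {a b : ℕ} (ha : 0 < a)
    (hb : 0 < b)
    (h1 : ∀ k : ℕ, D.ℓ ((D.s ^ (k + a)) p) = D.ℓ ((D.s ^ k) p))
    (h2 : ∀ k : ℕ, D.ℓ ((D.s ^ (k + b)) p) = D.ℓ ((D.s ^ k) p)) (k : ℕ) :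
    D.ℓ ((D.s ^ (k + Nat.gcd a b)) p) = D.ℓ ((D.s ^ k) p) := by
  obtain ⟨x, y, hxy⟩ : ∃ x y : ℕ, Nat.gcd a b + y * b = x * a := by
    have hbez := Nat.gcd_eq_gcd_ab a b
    set u := Nat.gcdA a b
    set v := Nat.gcdB a b
    refine ⟨(u + (u.natAbs + v.natAbs) * b).toNat, ((u.natAbs + v.natAbs) * a - v).toNat, ?_⟩
    have hu : (0 : ℤ) ≤ u + (u.natAbs + v.natAbs) * b := by
      have e1 : -(u.natAbs : ℤ) ≤ u := by omega
      have e2 : (1 : ℤ) ≤ b := by exact_mod_cast hb
      have e3 : (0 : ℤ) ≤ (u.natAbs : ℤ) + v.natAbs := by positivity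
      nlinarith
    have hv : (0 : ℤ) ≤ (u.natAbs + v.natAbs) * a - v := by
      have e1 : v ≤ (v.natAbs : ℤ) := by omega
      have e2 : (1 : ℤ) ≤ a := by exact_mod_cast ha
      have e3 : (0 : ℤ) ≤ (u.natAbs : ℤ) + v.natAbs := by positivity
      nlinarith
    have h3 : ((Nat.gcd a b + ((u.natAbs + v.natAbs) * a - v).toNat * b : ℕ) : ℤ) =
        (((u + (u.natAbs + v.natAbs) * b).toNat * a : ℕ) : ℤ) := by
      rw [Nat.cast_add, Nat.cast_mul, Nat.cast_mul, Int.toNat_of_nonneg hu,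
        Int.toNat_of_nonneg hv, hbez]
      ring
    exact_mod_cast h3
  have e1 := SameWord_period_mul D h2 y (k + Nat.gcd a b)
  have e2 := SameWord_period_mul D h1 x k
  rw [← e1, ← e2, add_assoc, hxy]

private theorem SameWord_prim {P : Type} (D : PD α ι P)
    (hprim : ∀ i, ∀ (x : FreeGroup α) (m : ℕ), x ^ m = D.el (some (i, true)) → m = 1)
    {j : Option (ι × Bool)} (hj : j ≠ none) {x y : FreeGroup α} {m : ℕ} (h : IsConj (D.el j) y)
    (hx : x ^ m = y) : m = 1 := by
  obtain ⟨c, hc⟩ := isConj_iff.1 h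
  have h1 : (c⁻¹ * x * c) ^ m = D.el j := by
    have : (c⁻¹ * x * c) ^ m = c⁻¹ * x ^ m * c := by
      have := conj_pow (a := c⁻¹) (b := x) (i := m)
      rwa [inv_inv] at this
    rw [this, hx, ← hc]
    group
  obtain ⟨⟨i, ε⟩, rfl⟩ := Option.ne_none_iff_exists'.1 hj
  cases ε with
  | true => exact hprim i _ m h1
  | false =>
    refine hprim i (c⁻¹ * x * c)⁻¹ m ?_
    rw [inv_pow, h1, el_false, inv_inv]

private theorem SameWord_dvd {P : Type} (D : PD α ι P)
    (hprim : ∀ i, ∀ (x : FreeGroup α) (m : ℕ), x ^ m = D.el (some (i, true)) → m = 1)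
    {p : P} (hp : D.ty p ≠ none) {n : ℕ} (hn : 0 < n)
    (h : ∀ k : ℕ, D.ℓ ((D.s ^ (k + n)) p) = D.ℓ ((D.s ^ k) p)) : D.len (D.ty p) ∣ n := by
  set L := D.len (D.ty p) with hL
  have hL0 : 0 < L := D.len_pos _
  have hper : ∀ k : ℕ, D.ℓ ((D.s ^ (k + L)) p) = D.ℓ ((D.s ^ k) p) := by
    intro k
    rw [SameWord_pow_add, hL, SameWord_per]
  have hd := SameWord_gcd D hL0 hn hper h
  set d := Nat.gcd L n with hdd
  obtain ⟨m, hm⟩ : d ∣ L := Nat.gcd_dvd_left L n
  have h1 := SameWord_mk_pow D hd m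
  have h2 : m * d = L := by rw [hm, mul_comm]
  have h3 := SameWord_conj D p
  rw [← hL, ← h2, h1] at h3
  have h4 := SameWord_prim D hprim hp h3 rfl
  rw [h4, one_mul] at h2
  rw [← h2]
  exact Nat.gcd_dvd_right L n

private theorem SameWord_same {P : Type} (D : PD α ι P) {p q : P} (h : D.ty p = D.ty q) :
    ∃ e : ℕ, 0 < e ∧ q = (D.s ^ e) p := by
  obtain ⟨k, hk⟩ := D.reach p
  obtain ⟨l, hl⟩ := D.reach q
  set L := D.len (D.ty p) with hL
  have hL0 : 0 < L := D.len_pos _
  refine ⟨l + (L * k - k) + L, by omega, ?_⟩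
  have hle : k ≤ L * k := Nat.le_mul_of_pos_left k hL0
  have hb : ∀ m : ℕ, (D.s ^ (L * m)) (D.base (D.ty p)) = D.base (D.ty p) := fun m =>
    (D.per _ _).2 (dvd_mul_right _ _)
  calc q = (D.s ^ l) (D.base (D.ty p)) := by rw [h, hl]
    _ = (D.s ^ l) ((D.s ^ (L * (k + 1))) (D.base (D.ty p))) := by rw [hb]
    _ = (D.s ^ (l + (L * k - k) + L)) ((D.s ^ k) (D.base (D.ty p))) := by
        rw [← SameWord_pow_add, ← SameWord_pow_add]
        congr 2
        rw [Nat.mul_succ]
        omega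
    _ = (D.s ^ (l + (L * k - k) + L)) p := by rw [hk]

private theorem SameWord_ty_pow {P : Type} (D : PD α ι P) (p : P) (k : ℕ) :
    D.ty ((D.s ^ k) p) = D.ty p := by
  induction k with
  | zero => simp
  | succ k ih => rw [add_comm, SameWord_pow_add, pow_one, D.ty_s, ih]

private theorem SameWord_μ_pow {P : Type} (D : PD α ι P) {q : P} (hq : D.ty q ≠ none) (k : ℕ) :
    (D.s ^ k) (D.μ ((D.s ^ k) q)) = D.μ q := by
  induction k with
  | zero => simp
  | succ k ih =>
    have h1 : (D.s ^ (k + 1)) q = D.s ((D.s ^ k) q) := by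
      rw [add_comm, SameWord_pow_add, pow_one]
    rw [h1, D.μ_s _ (by rw [SameWord_ty_pow]; exact hq), SameWord_pow_add, pow_one,
      Equiv.Perm.inv_def, Equiv.apply_symm_apply, ih]

private theorem SameWord_linv_ne (x : α × Bool) : linv x ≠ x := by
  intro h
  have := congrArg Prod.snd h
  simp [linv] at this

private theorem SameWord_mirror {P : Type} (D : PD α ι P) {p q : P} {i : ι} {ε : Bool}
    (hp : D.ty p = some (i, ε)) (hq : D.ty q = some (i, !ε))
    (h : ∀ k : ℕ, D.ℓ ((D.s ^ k) p) = D.ℓ ((D.s ^ k) q)) : False := by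
  have hq0 : D.ty q ≠ none := by rw [hq]; exact Option.some_ne_none _
  have hty : D.ty p = D.ty (D.μ q) := by
    rw [D.ty_μ, hq, hp]
    simp
  obtain ⟨a, -, ha⟩ := SameWord_same D hty
  have key : ∀ k l : ℕ, k + l = a → linv (D.ℓ ((D.s ^ k) p)) = D.ℓ ((D.s ^ l) p) := by
    intro k l hkl
    have h1 := SameWord_μ_pow D hq0 k
    rw [ha, ← hkl, SameWord_pow_add] at h1
    have h2 : D.μ ((D.s ^ k) q) = (D.s ^ l) p := (D.s ^ k).injective h1
    rw [← h2, D.ℓ_μ _ (by rw [SameWord_ty_pow]; exact hq0), h]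
  rcases Nat.even_or_odd' a with ⟨b, hb | hb⟩
  · exact SameWord_linv_ne _ (key b b (by omega))
  · have h3 := key b (b + 1) (by omega)
    have h4 : (D.s ^ (b + 1)) p = D.s ((D.s ^ b) p) := by
      rw [add_comm, SameWord_pow_add, pow_one]
    rw [h4] at h3
    exact D.red _ h3.symm

private theorem SameWord_inv {G : Type} [Group G] {a b : G} (h : IsConj a b) :
    IsConj a⁻¹ b⁻¹ := by
  obtain ⟨c, hc⟩ := isConj_iff.1 h
  refine isConj_iff.2 ⟨c, ?_⟩
  rw [← hc]
  group

/-- two positions (not on `g`) with the same infinite word coincide -/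
theorem eq_of_same_word {P : Type} (D : PD α ι P)
    (hprim : ∀ i, ∀ (x : FreeGroup α) (m : ℕ), x ^ m = D.el (some (i, true)) → m = 1)
    (hconj : ∀ i j, i ≠ j → ¬ IsConj (D.el (some (i, true))) (D.el (some (j, true))) ∧
      ¬ IsConj (D.el (some (i, true))) (D.el (some (j, true)))⁻¹)
    {p q : P} (hp : D.ty p ≠ none) (hq : D.ty q ≠ none)
    (h : ∀ k : ℕ, D.ℓ ((D.s ^ k) p) = D.ℓ ((D.s ^ k) q)) : p = q := by
  have d1 : D.len (D.ty p) ∣ D.len (D.ty q) := by
    refine SameWord_dvd D hprim hp (D.len_pos _) fun k => ?_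
    rw [h, h, SameWord_pow_add, SameWord_per]
  have d2 : D.len (D.ty q) ∣ D.len (D.ty p) := by
    refine SameWord_dvd D hprim hq (D.len_pos _) fun k => ?_
    rw [← h, ← h, SameWord_pow_add, SameWord_per]
  have hlen : D.len (D.ty p) = D.len (D.ty q) := Nat.dvd_antisymm d1 d2
  have hcj : IsConj (D.el (D.ty p)) (D.el (D.ty q)) := by
    have h1 := SameWord_conj D p
    have h2 := SameWord_conj D q
    rw [hlen, SameWord_wd_congr D h] at h1
    exact h1.trans h2.symm
  obtain ⟨⟨i, ε⟩, hi⟩ := Option.ne_none_iff_exists'.1 hp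
  obtain ⟨⟨j, δ⟩, hj⟩ := Option.ne_none_iff_exists'.1 hq
  by_cases hij : i = j
  · subst hij
    by_cases hεδ : ε = δ
    · subst hεδ
      obtain ⟨e, he0, he⟩ := SameWord_same D (p := p) (q := q) (by rw [hi, hj])
      have h3 : D.len (D.ty p) ∣ e := by
        refine SameWord_dvd D hprim hp he0 fun k => ?_
        rw [SameWord_pow_add, ← he, h]
      obtain ⟨m, hm⟩ := h3
      rw [he, hm, SameWord_per_mul]
    · exfalso
      have hδ : δ = !ε := by
        cases ε <;> cases δ <;> simp_all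
      rw [hδ] at hj
      exact SameWord_mirror D hi hj h
  · exfalso
    obtain ⟨n1, n2⟩ := hconj i j hij
    rw [hi, hj] at hcj
    cases ε <;> cases δ
    · rw [el_false, el_false] at hcj
      have := SameWord_inv hcj
      rw [inv_inv, inv_inv] at this
      exact n1 this
    · rw [el_false] at hcj
      have := SameWord_inv hcj
      rw [inv_inv] at this
      exact n2 this
    · rw [el_false] at hcj
      exact n2 hcj
    · exact n1 hcj

end Pool.MP_ed1a61_al.Fill
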