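import Pool.Agent.Lib.MP_ed1a61_al.Fill.BdBasic

/-! # Upper bounds for the stable commutator length of chains -/

set_option autoImplicit false

namespace Pool.MP_ed1a61_al.Fill

variable {H : Type} [Group H] {us us' : List H} {s s' : ℝ} {a b u v : H}

theorem ScBasic_congr (h : ∀ N : ℕ, (us.map (fun u => u ^ N)).prod =
    (us'.map (fun u => u ^ N)).prod) : Sc us s ↔ Sc us' s := by
  unfold Sc
  simp only [h]

/-- a bounded number of commutators (it does not depend on `f`) is lost -/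
theorem ScBasic_perm (hp : us.Perm us') :
    ∃ c : ℕ, ∀ f : H → H, CL c ((us.map f).prod⁻¹ * (us'.map f).prod) := by
  induction hp with
  | nil => exact ⟨0, fun f => by simpa using cl_one⟩
  | cons x _ ih =>
    obtain ⟨c, hc⟩ := ih
    refine ⟨c, fun f => ?_⟩
    have h1 := hc f
    simp only [List.map_cons, List.prod_cons, mul_inv_rev]
    rwa [mul_assoc, inv_mul_cancel_left]
  | swap x y l =>
    refine ⟨1, fun f => ?_⟩
    have h1 := (cl_commutator (f x)⁻¹ (f y)⁻¹).conj (l.map f).prod⁻¹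
    convert h1 using 1
    simp only [List.map_cons, List.prod_cons]
    group
  | trans _ _ ih1 ih2 =>
    obtain ⟨c, hc⟩ := ih1
    obtain ⟨c', hc'⟩ := ih2
    refine ⟨c + c', fun f => ?_⟩
    have h1 := (hc f).mul (hc' f)
    rwa [mul_assoc, mul_inv_cancel_left] at h1

theorem Sc.mono (h : Sc us s) (hs : s ≤ s') : Sc us s' := by
  intro ε hε
  obtain ⟨m, hm, C, hC⟩ := h ε hε
  refine ⟨m, hm, C, fun n => ?_⟩
  obtain ⟨k, hk, hk'⟩ := hC n
  refine ⟨k, hk, hk'.trans ?_⟩
  have h1 : (0 : ℝ) ≤ ((m * n : ℕ) : ℝ) := Nat.cast_nonneg _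
  have h2 := mul_le_mul_of_nonneg_right (by linarith : s + ε ≤ s' + ε) h1
  linarith

/-- it is enough to have the estimate for all `s' > s` -/
theorem sc_of_forall (h : ∀ s' : ℝ, s < s' → Sc us s') : Sc us s := by
  intro ε hε
  obtain ⟨m, hm, C, hC⟩ := h (s + ε / 2) (by linarith) (ε / 2) (by linarith)
  refine ⟨m, hm, C, fun n => ?_⟩
  obtain ⟨k, hk, hk'⟩ := hC n
  refine ⟨k, hk, hk'.trans (le_of_eq ?_)⟩
  ring

theorem Sc.perm (h : Sc us s) (hp : us.Perm us') : Sc us' s := by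
  obtain ⟨c, hc⟩ := ScBasic_perm hp
  intro ε hε
  obtain ⟨m, hm, C, hC⟩ := h ε hε
  refine ⟨m, hm, C + c, fun n => ?_⟩
  obtain ⟨k, hk, hk'⟩ := hC n
  refine ⟨k + c, ?_, ?_⟩
  · have h1 := hk.mul (hc fun u => u ^ (m * n))
    rwa [mul_inv_cancel_left] at h1
  · push_cast at hk' ⊢
    linarith

theorem Sc.of_isConj (h : Sc (u :: us) s) (hh : IsConj u v) : Sc (v :: us) s := by
  obtain ⟨x, rfl⟩ := isConj_iff.1 hh
  intro ε hε
  obtain ⟨m, hm, C, hC⟩ := h ε hε
  refine ⟨m, hm, C + 1, fun n => ?_⟩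
  obtain ⟨k, hk, hk'⟩ := hC n
  refine ⟨1 + k, ?_, ?_⟩
  · have h1 := (cl_commutator x (u ^ (m * n))).mul hk
    rw [List.map_cons, List.prod_cons] at h1 ⊢
    rw [conj_pow]
    convert h1 using 1
    group
  · push_cast at hk' ⊢
    linarith

theorem Sc.append (h : Sc us s) (h' : Sc us' s') : Sc (us ++ us') (s + s') := by
  intro ε hε
  obtain ⟨m, hm, C, hC⟩ := h (ε / 2) (by linarith)
  obtain ⟨m', hm', C', hC'⟩ := h' (ε / 2) (by linarith)
  refine ⟨m * m', Nat.mul_pos hm hm', C + C', fun n => ?_⟩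
  obtain ⟨k, hk, h1⟩ := hC (m' * n)
  obtain ⟨k', hk', h1'⟩ := hC' (m * n)
  have e1 : m * (m' * n) = m * m' * n := by ring
  have e2 : m' * (m * n) = m * m' * n := by ring
  rw [e1] at hk h1
  rw [e2] at hk' h1'
  refine ⟨k + k', ?_, ?_⟩
  · rw [List.map_append, List.prod_append]
    exact hk.mul hk'
  · rw [Nat.cast_add]
    linarith

theorem sc_cancel_iff : Sc (u :: u⁻¹ :: us) s ↔ Sc us s := by
  refine ScBasic_congr fun N => ?_
  simp [inv_pow]

theorem sc_pow_iff (m : ℕ) : Sc (u ^ m :: us) s ↔ Sc (List.replicate m u ++ us) s := by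
  refine ScBasic_congr fun N => ?_
  rw [List.map_append, List.prod_append, List.map_replicate, List.prod_replicate, List.map_cons,
    List.prod_cons, ← pow_mul, ← pow_mul, mul_comm m N]

theorem sc_nil : Sc ([] : List H) 0 := by
  intro ε hε
  refine ⟨1, Nat.one_pos, 0, fun n => ⟨0, by simpa using cl_one, ?_⟩⟩
  rw [Nat.cast_zero]
  positivity

end Pool.MP_ed1a61_al.Fill
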