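import Pool.Agent.Lib.MP_ed1a61_al.Fill.ScBasic

/-! # Torsion and division -/

set_option autoImplicit false

namespace Pool.MP_ed1a61_al.Fill

variable {H : Type} [Group H] {us us' : List H} {s s' : ℝ} {a b u v : H}

/-- two products of the same factors differ by a bounded number of commutators -/
theorem ScDiv_perm : ∀ (l l' : List H), l.Perm l' → CL l.length (l.prod⁻¹ * l'.prod) := by
  intro l
  induction l with
  | nil =>
    intro l' h
    rw [List.nil_perm] at h
    rw [h]
    simpa using (cl_one : CL 0 (1 : H))
  | cons x l ih =>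
    intro l' h
    have hx : x ∈ l' := h.subset List.mem_cons_self
    obtain ⟨l1, l2, rfl⟩ := List.append_of_mem hx
    have h1 : l.Perm (l1 ++ l2) := by
      have h2 : (x :: l).Perm (x :: (l1 ++ l2)) := h.trans List.perm_middle
      exact (List.perm_cons x).1 h2
    have h3 := ih _ h1
    have h4 := ((cl_commutator x⁻¹ l1.prod).conj l.prod⁻¹).mul h3
    rw [List.length_cons, add_comm]
    convert h4 using 1
    simp only [List.prod_cons, List.prod_append]
    group

/-- `m` copies of a list, sorted -/
theorem ScDiv_sort (m : ℕ) : ∀ us : List H,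
    (List.replicate m us).flatten.Perm (us.flatMap (List.replicate m)) := by
  intro us
  induction us with
  | nil => simp
  | cons x us ih =>
    have h1 : ∀ m : ℕ, (List.replicate m (x :: us)).flatten.Perm
        (List.replicate m x ++ (List.replicate m us).flatten) := by
      intro m
      induction m with
      | zero => simp
      | succ m ihm =>
        simp only [List.replicate_succ, List.flatten_cons, List.cons_append]
        refine List.Perm.cons x ?_
        have h2 := ihm.append_left us
        refine h2.trans ?_
        rw [← List.append_assoc, ← List.append_assoc]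
        exact List.perm_append_comm.append_right _
    rw [List.flatMap_cons]
    exact (h1 m).trans (ih.append_left _)

theorem ScDiv_prod (m N : ℕ) : ∀ us : List H,
    ((us.flatMap (List.replicate m)).map (fun u => u ^ N)).prod =
      (us.map (fun u => u ^ (N * m))).prod := by
  intro us
  induction us with
  | nil => simp
  | cons x us ih =>
    rw [List.flatMap_cons, List.map_append, List.prod_append, ih, List.map_cons, List.prod_cons,
      List.map_replicate, List.prod_replicate, ← pow_mul]

theorem sc_torsion_iff {d : ℕ} (hd : 0 < d) (hu : u ^ d = 1) : Sc (u :: us) s ↔ Sc us s := by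
  have key : ∀ m n : ℕ, ((u :: us).map (fun u => u ^ (m * (d * n)))).prod =
      (us.map (fun u => u ^ (m * (d * n)))).prod := by
    intro m n
    rw [List.map_cons, List.prod_cons]
    have h1 : u ^ (m * (d * n)) = 1 := by
      rw [show m * (d * n) = d * (m * n) by ring, pow_mul, hu, one_pow]
    rw [h1, one_mul]
  have e : ∀ m n : ℕ, m * d * n = m * (d * n) := fun m n => by ring
  constructor
  · intro h ε hε
    obtain ⟨m, hm, C, hC⟩ := h ε hε
    refine ⟨m * d, Nat.mul_pos hm hd, C, fun n => ?_⟩
    obtain ⟨k, hk, hk'⟩ := hC (d * n)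
    refine ⟨k, ?_, ?_⟩
    · rw [key m n] at hk
      simpa only [e] using hk
    · simpa only [e] using hk'
  · intro h ε hε
    obtain ⟨m, hm, C, hC⟩ := h ε hε
    refine ⟨m * d, Nat.mul_pos hm hd, C, fun n => ?_⟩
    obtain ⟨k, hk, hk'⟩ := hC (d * n)
    refine ⟨k, ?_, ?_⟩
    · rw [← key m n] at hk
      simpa only [e] using hk
    · simpa only [e] using hk'

theorem Sc.div {m : ℕ} (hm : 0 < m) (h : Sc (List.replicate m us).flatten (m * s)) :
    Sc us s := by
  intro ε hε
  have hm' : (0 : ℝ) < m := by exact_mod_cast hm
  obtain ⟨m₀, hm₀, C, hC⟩ := h (m * ε) (mul_pos hm' hε)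
  refine ⟨m₀ * m, Nat.mul_pos hm₀ hm, C + (List.replicate m us).flatten.length, fun n => ?_⟩
  obtain ⟨k, hk, hk'⟩ := hC n
  refine ⟨k + (List.replicate m us).flatten.length, ?_, ?_⟩
  · have h1 := ScDiv_perm _ _ ((ScDiv_sort m us).map (fun u => u ^ (m₀ * n)))
    have h2 := hk.mul h1
    rw [mul_inv_cancel_left, ScDiv_prod, List.length_map] at h2
    rw [show m₀ * m * n = m₀ * n * m by ring]
    exact h2
  · push_cast at hk' ⊢
    nlinarith [hk']

end Pool.MP_ed1a61_al.Fill
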