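import Pool.Agent.Lib.MP_ed1a61_al.Fill.ScDiv
import Pool.Agent.Lib.MP_ed1a61_al.Fill.Pants

/-! # Products -/

set_option autoImplicit false

namespace Pool.MP_ed1a61_al.Fill

variable {H : Type} [Group H] {us us' : List H} {s s' : ℝ} {a b c u v : H}

theorem Sc.mul (h : Sc (a :: b :: us) s) : Sc ((a * b) :: us) (s + 1 / 2) := by
  have h1 := (sc_pants a b).append h
  have h2 : ([a * b, b⁻¹, a⁻¹] ++ (a :: b :: us)).Perm
      (a :: a⁻¹ :: b :: b⁻¹ :: (a * b) :: us) := by
    classical
    rw [List.perm_iff_count]
    intro x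
    simp only [List.count_cons, List.count_append, List.count_nil]
    ring
  have h3 := sc_cancel_iff.1 (sc_cancel_iff.1 (h1.perm h2))
  rwa [add_comm] at h3

theorem Sc.split (h : Sc ((a * b) :: us) s) : Sc (a :: b :: us) (s + 1 / 2) := by
  have h1 := (sc_pants b⁻¹ a⁻¹).append h
  rw [inv_inv, inv_inv, ← mul_inv_rev] at h1
  have h2 : ([(a * b)⁻¹, a, b] ++ ((a * b) :: us)).Perm
      ((a * b) :: (a * b)⁻¹ :: a :: b :: us) := by
    classical
    rw [List.perm_iff_count]
    intro x
    simp only [List.count_cons, List.count_append, List.count_nil]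
    ring
  have h3 := sc_cancel_iff.1 (h1.perm h2)
  rwa [add_comm] at h3

/-- a product of `m` elements -/
theorem Sc.prod {l : List H} (hl : l ≠ []) (h : Sc (l ++ us) s) :
    Sc (l.prod :: us) (s + (l.length - 1) / 2) := by
  induction l generalizing us s with
  | nil => exact absurd rfl hl
  | cons x l ih =>
    rcases l with _ | ⟨y, l⟩
    · rw [List.prod_singleton, List.length_singleton, Nat.cast_one, sub_self, zero_div, add_zero]
      exact h
    · have hp : ((x :: y :: l) ++ us).Perm ((y :: l) ++ (x :: us)) := List.perm_middle.symm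
      have h1 := ih (List.cons_ne_nil y l) (h.perm hp)
      have h2 := (h1.perm (List.Perm.swap x (y :: l).prod us)).mul
      rw [List.prod_cons]
      refine h2.mono (le_of_eq ?_)
      rw [List.length_cons (a := x)]
      push_cast
      ring

theorem Sc.split_prod {l : List H} (hl : l ≠ []) (h : Sc (l.prod :: us) s) :
    Sc (l ++ us) (s + (l.length - 1) / 2) := by
  induction l generalizing us s with
  | nil => exact absurd rfl hl
  | cons x l ih =>
    rcases l with _ | ⟨y, l⟩
    · rw [List.prod_singleton] at h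
      rw [List.length_singleton, Nat.cast_one, sub_self, zero_div, add_zero]
      exact h
    · rw [List.prod_cons] at h
      have h1 := h.split.perm (List.Perm.swap (y :: l).prod x us)
      have h2 := ih (List.cons_ne_nil y l) h1
      have hp : ((y :: l) ++ (x :: us)).Perm ((x :: y :: l) ++ us) := List.perm_middle
      refine (h2.perm hp).mono (le_of_eq ?_)
      rw [List.length_cons (a := x)]
      push_cast
      ring

theorem sc_commutator (a b : H) : Sc [a * b * a⁻¹ * b⁻¹] (1 / 2) := by
  have h1 : Sc [a, a⁻¹] 0 := sc_cancel_iff.2 sc_nil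
  have h2 : Sc [a⁻¹, a] 0 := h1.perm (List.Perm.swap _ _ _)
  have h3 : IsConj a⁻¹ (b * a⁻¹ * b⁻¹) := isConj_iff.2 ⟨b, rfl⟩
  have h4 : Sc [a, b * a⁻¹ * b⁻¹] 0 := (h2.of_isConj h3).perm (List.Perm.swap _ _ _)
  have h5 := h4.mul
  rw [zero_add, ← mul_assoc, ← mul_assoc] at h5
  exact h5

theorem sc_of_cl {K : ℕ} (hK : 1 ≤ K) (h : CL K u) : Sc [u] (K - 1 / 2) := by
  obtain ⟨l, hl, hc, rfl⟩ := h
  have key : ∀ l : List H, (∀ c ∈ l, c ∈ commutatorSet H) → Sc l (l.length / 2) := by
    intro l
    induction l with
    | nil =>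
      intro _
      rw [List.length_nil, Nat.cast_zero, zero_div]
      exact sc_nil
    | cons x l ih =>
      intro hx
      obtain ⟨a, b, hab⟩ := hx x List.mem_cons_self
      have h1 := sc_commutator a b
      have h2 : x = a * b * a⁻¹ * b⁻¹ := by
        rw [← hab]
        rfl
      rw [← h2] at h1
      have h3 := h1.append (ih fun c hc => hx c (List.mem_cons_of_mem x hc))
      refine Sc.mono (us := x :: l) h3 (le_of_eq ?_)
      rw [List.length_cons]
      push_cast
      ring
  have hne : l ≠ [] := by
    intro h0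
    rw [h0] at hl
    simp at hl
    omega
  have h1 : Sc (l ++ []) (l.length / 2 : ℝ) := by
    rw [List.append_nil]
    exact key l hc
  refine (h1.prod hne).mono (le_of_eq ?_)
  rw [hl]
  ring

end Pool.MP_ed1a61_al.Fill
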