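import Pool.Agent.Lib.MP_ed1a61_al.Fill.ScMul

/-! # Products with torsion elements -/

set_option autoImplicit false

namespace Pool.MP_ed1a61_al.Fill

variable {H : Type} [Group H] {us us' : List H} {s s' : ℝ} {a b c u v : H}

private theorem ScTorsion_rep (h : Sc us s) (d : ℕ) :
    Sc (List.replicate d us).flatten (d * s) := by
  induction d with
  | zero => simpa using sc_nil
  | succ d ih =>
    rw [List.replicate_succ, List.flatten_cons]
    refine (h.append ih).mono (le_of_eq ?_)
    push_cast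
    ring

private theorem ScTorsion_conj {l l' : List H} (hl : List.Forall₂ IsConj l l') :
    ∀ W : List H, Sc (l ++ W) s → Sc (l' ++ W) s := by
  induction hl with
  | nil => intro W h; exact h
  | @cons x y l l' hxy _ ih =>
    intro W h
    have h1 : Sc (y :: (l ++ W)) s := Sc.of_isConj h hxy
    have h2 : (y :: (l ++ W)).Perm (l ++ (y :: W)) := List.perm_middle.symm
    have h3 := ih (y :: W) (h1.perm h2)
    exact h3.perm List.perm_middle

private theorem ScTorsion_flat (x : H) (d : ℕ) :
    ((List.replicate d (x :: us)).flatten).Perm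
      (List.replicate d x ++ (List.replicate d us).flatten) := by
  induction d with
  | zero => simp
  | succ d ih =>
    rw [List.replicate_succ, List.flatten_cons, List.replicate_succ, List.replicate_succ,
      List.flatten_cons, List.cons_append, List.cons_append]
    refine List.Perm.cons x ?_
    refine (List.Perm.append_left us ih).trans ?_
    rw [← List.append_assoc, ← List.append_assoc]
    exact List.Perm.append_right _ List.perm_append_comm

private theorem ScTorsion_pow (a c : H) (d : ℕ) :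
    (a * c) ^ d = ((List.range d).map (fun i => c ^ i * a * (c ^ i)⁻¹)).prod * c ^ d := by
  induction d with
  | zero => simp
  | succ d ih =>
    rw [pow_succ, ih, List.range_succ, List.map_append, List.prod_append]
    simp only [List.map_cons, List.map_nil, List.prod_cons, List.prod_nil, mul_one]
    rw [pow_succ]
    group

/-- multiplication by a torsion element -/
theorem Sc.mul_torsion {d : ℕ} (hd : 0 < d) (hc : c ^ d = 1) (h : Sc (a :: us) s) :
    Sc ((a * c) :: us) (s + (1 - 1 / (d : ℝ)) / 2) := by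
  have hd' : (0:ℝ) < d := by exact_mod_cast hd
  refine Sc.div hd ?_
  refine Sc.perm ?_ (ScTorsion_flat (a * c) d).symm
  rw [← sc_pow_iff, ScTorsion_pow, hc, mul_one]
  have h1 := (ScTorsion_rep h d).perm (ScTorsion_flat a d)
  set l := (List.range d).map (fun i => c ^ i * a * (c ^ i)⁻¹) with hl
  have hlen : l.length = d := by simp [hl]
  have h2 : List.Forall₂ IsConj (List.replicate d a) l := by
    rw [List.forall₂_iff_get]
    refine ⟨by simp [hl], fun i h1 h2 => ?_⟩
    simp only [List.get_eq_getElem, List.getElem_replicate, hl, List.getElem_map,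
      List.getElem_range]
    exact isConj_iff.2 ⟨c ^ i, rfl⟩
  have h3 := ScTorsion_conj h2 _ h1
  have hne : l ≠ [] := by
    intro h0
    rw [h0] at hlen
    simp at hlen
    omega
  refine (h3.prod hne).mono (le_of_eq ?_)
  rw [hlen]
  field_simp

private theorem ScTorsion_many {cs : List H} {ds : List ℕ}
    (hds : List.Forall₂ (fun c d => c ^ d = 1 ∧ 2 ≤ d) cs ds) :
    ∀ (x : H) (s : ℝ), Sc [x] s →
      Sc [x * cs.prod] (s + (ds.map (fun d : ℕ => 1 - 1 / (d : ℝ))).sum / 2) := by
  induction hds with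
  | nil => intro x s h; simpa using h
  | @cons c d cs ds hcd _ ih =>
    intro x s h
    have h1 := h.mul_torsion (c := c) (by omega : 0 < d) hcd.1
    have h2 := ih (x * c) _ h1
    rw [List.prod_cons, ← mul_assoc]
    refine h2.mono (le_of_eq ?_)
    rw [List.map_cons, List.sum_cons]
    ring

private theorem ScTorsion_half {m : ℕ} (hm : 2 ≤ m) (ha : a ^ m = 1) (hb : b ^ m = 1) :
    Sc [a * b] (1 / 2) := by
  have h0 : Sc [a, b] 0 :=
    (sc_torsion_iff (by omega : 0 < m) ha).2 ((sc_torsion_iff (by omega : 0 < m) hb).2 sc_nil)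
  have := h0.mul
  rwa [zero_add] at this

/-- the `n`-th power of `a b` with `bⁿ = 1`, `aᵐ = 1` -/
private theorem ScTorsion_step {m n : ℕ} (hm : 2 ≤ m) (hn : 2 ≤ n) {t : ℝ}
    (ht : ∀ x y : H, x ^ m = 1 → y ^ m = 1 → Sc [x * y] t) (ha : a ^ m = 1) (hb : b ^ n = 1) :
    Sc [a * b] ((t + ((n : ℝ) - 2) * (1 - 1 / (m : ℝ)) / 2) / n) := by
  have hn' : (0:ℝ) < n := by exact_mod_cast (by omega : 0 < n)
  refine Sc.div (m := n) (by omega) ?_
  have e1 : (List.replicate n [a * b]).flatten = List.replicate n (a * b) ++ [] := by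
    rw [List.append_nil]
    induction n with
    | zero => rfl
    | succ n _ => simp
  rw [e1, ← sc_pow_iff, ScTorsion_pow, hb, mul_one]
  obtain ⟨k, rfl⟩ := Nat.exists_eq_add_of_le' hn
  have e2 : (List.range (k + 2)).map (fun i => b ^ i * a * (b ^ i)⁻¹) =
      a :: (b * a * b⁻¹) :: (List.range k).map (fun i => b ^ (i + 2) * a * (b ^ (i + 2))⁻¹) := by
    rw [List.range_succ_eq_map, List.range_succ_eq_map]
    simp [Function.comp_def]
  rw [e2, List.prod_cons, List.prod_cons, ← mul_assoc]
  have hconj : ∀ y : H, (y * a * y⁻¹) ^ m = 1 := by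
    intro y
    rw [conj_pow, ha]
    simp
  have h1 : Sc [a * (b * a * b⁻¹)] t := ht _ _ ha (hconj b)
  have h2 : List.Forall₂ (fun c d => c ^ d = 1 ∧ 2 ≤ d)
      ((List.range k).map (fun i => b ^ (i + 2) * a * (b ^ (i + 2))⁻¹)) (List.replicate k m) := by
    rw [List.forall₂_iff_get]
    refine ⟨by simp, fun i h1 h2 => ?_⟩
    simp only [List.get_eq_getElem, List.getElem_replicate, List.getElem_map]
    exact ⟨hconj _, hm⟩
  refine (ScTorsion_many h2 _ _ h1).mono (le_of_eq ?_)
  rw [List.map_replicate, List.sum_replicate, nsmul_eq_mul]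
  push_cast
  field_simp
  ring

private theorem ScTorsion_eq {m : ℕ} (hm : 2 ≤ m) (ha : a ^ m = 1) (hb : b ^ m = 1) :
    Sc [a * b] ((1 - 2 / (m : ℝ)) / 2) := by
  have hm' : (2:ℝ) ≤ m := by exact_mod_cast hm
  have key : ∀ k : ℕ, ∀ x y : H, x ^ m = 1 → y ^ m = 1 →
      Sc [x * y] ((1 - 2 / (m : ℝ)) / 2 + (1 / (m : ℝ)) ^ k * (1 / (m : ℝ))) := by
    intro k
    induction k with
    | zero =>
      intro x y hx hy
      refine (ScTorsion_half hm hx hy).mono (le_of_eq ?_)
      rw [pow_zero]
      field_simp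
      ring
    | succ k ih =>
      intro x y hx hy
      refine (ScTorsion_step hm hm ih hx hy).mono (le_of_eq ?_)
      rw [pow_succ]
      field_simp
      ring
  refine sc_of_forall fun s' hs' => ?_
  have h0 : 0 ≤ 1 / (m : ℝ) := by positivity
  have h1 : 1 / (m : ℝ) < 1 := by
    rw [div_lt_one (by linarith)]
    linarith
  obtain ⟨k, hk⟩ := exists_pow_lt_of_lt_one (sub_pos.2 hs') h1
  refine (key k a b ha hb).mono ?_
  have h2 : (1 / (m : ℝ)) ^ k * (1 / (m : ℝ)) ≤ (1 / (m : ℝ)) ^ k :=
    mul_le_of_le_one_right (by positivity) h1.le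
  linarith

/-- the product of two torsion elements -/
theorem sc_two_torsion {m n : ℕ} (hm : 2 ≤ m) (hn : 2 ≤ n) (ha : a ^ m = 1) (hb : b ^ n = 1) :
    Sc [a * b] ((1 - 1 / (m : ℝ) - 1 / (n : ℝ)) / 2) := by
  have hm' : (2:ℝ) ≤ m := by exact_mod_cast hm
  have hn' : (2:ℝ) ≤ n := by exact_mod_cast hn
  refine (ScTorsion_step hm hn (fun x y hx hy => ScTorsion_eq hm hx hy) ha hb).mono (le_of_eq ?_)
  field_simp
  ring

/-- the product of several torsion elements -/
theorem sc_many_torsion {cs : List H} {ds : List ℕ}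
    (hds : List.Forall₂ (fun c d => c ^ d = 1 ∧ 2 ≤ d) cs ds) (hlen : 2 ≤ cs.length) :
    Sc [cs.prod] (((ds.map (fun d : ℕ => 1 - 1 / (d : ℝ))).sum - 1) / 2) := by
  rcases hds with _ | ⟨h1, hds⟩
  · simp at hlen
  rcases hds with _ | ⟨h2, hds⟩
  · simp at hlen
  rename_i c₁ d₁ c₂ d₂ cs ds
  have h3 := ScTorsion_many hds (c₁ * c₂) _ (sc_two_torsion h1.2 h2.2 h1.1 h2.1)
  rw [List.prod_cons, List.prod_cons, ← mul_assoc]
  refine h3.mono (le_of_eq ?_)
  rw [List.map_cons, List.map_cons, List.sum_cons, List.sum_cons]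
  ring

end Pool.MP_ed1a61_al.Fill
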