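import Pool.Agent.Lib.MP_ed1a61_al.Fill.ExBd
import Pool.Agent.Lib.MP_ed1a61_al.Fill.QI

/-! # The upper bound -/

set_option autoImplicit false

namespace Pool.MP_ed1a61_al.Fill

open Equiv

variable {α ι P : Type} [DecidableEq P] [Finite P] [Fintype ι] (D : PD α ι P)

namespace ScUpper

/-- weight of a face -/
noncomputable def wt (N : ι → ℕ) (y : Option (ι × Bool) × ℕ) : ℝ :=
  match y.1 with
  | none => 0
  | some x => (y.2 : ℝ) / N x.1

/-- order of a face -/
def ord (N : ι → ℕ) (y : Option (ι × Bool) × ℕ) : ℕ :=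
  match y.1 with
  | none => 1
  | some x => N x.1 / y.2

theorem sum_wt [DecidableEq ι] (N : ι → ℕ) (js : List (Option (ι × Bool) × ℕ)) :
    (js.map (wt N)).sum = ∑ i, ((((js.filter (fun y => y.1 = some (i, true))).map Prod.snd).sum +
      ((js.filter (fun y => y.1 = some (i, false))).map Prod.snd).sum : ℕ) : ℝ) / N i := by
  induction js with
  | nil => simp
  | cons y js ih =>
    obtain ⟨j, w⟩ := y
    rw [List.map_cons, List.sum_cons, ih]
    cases j with
    | none => simp [wt]
    | some x =>
      obtain ⟨i0, ε⟩ := x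
      have h1 : wt N (some (i0, ε), w) = ∑ i, (if i = i0 then (w : ℝ) / N i else 0) := by
        rw [Finset.sum_ite_eq' Finset.univ i0]
        simp [wt]
      rw [h1, ← Finset.sum_add_distrib]
      refine Finset.sum_congr rfl fun i _ => ?_
      by_cases hi : i = i0
      · subst hi
        cases ε <;> simp <;> ring
      · have hi' : i0 ≠ i := fun h => hi h.symm
        simp [hi, hi']

theorem sc_replicate {H : Type} [Group H] {h : H} {s : ℝ} (as : List ℕ) :
    ∀ {L : List H}, Sc (as.map (fun a => h ^ a) ++ L) s →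
      Sc (List.replicate as.sum h ++ L) s := by
  induction as with
  | nil =>
    intro L hs
    simpa using hs
  | cons a as ih =>
    intro L hs
    rw [List.map_cons, List.cons_append, sc_pow_iff] at hs
    have h1 : (List.replicate a h ++ (as.map (fun a => h ^ a) ++ L)).Perm
        (as.map (fun a => h ^ a) ++ (List.replicate a h ++ L)) := by
      rw [← List.append_assoc, ← List.append_assoc]
      exact List.perm_append_comm.append_right L
    have h2 := ih (hs.perm h1)
    rw [List.sum_cons, List.replicate_add, List.append_assoc]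
    refine h2.perm ?_
    rw [← List.append_assoc, ← List.append_assoc]
    exact List.perm_append_comm.append_right L

theorem flatten_replicate_singleton {H : Type} (m : ℕ) (h : H) :
    (List.replicate m [h]).flatten = List.replicate m h := by
  induction m with
  | zero => rfl
  | succ m ih => rw [List.replicate_succ, List.flatten_cons, ih, List.replicate_succ]; rfl

theorem le_sum_filter [DecidableEq ι] {js : List (Option (ι × Bool) × ℕ)}
    {y : Option (ι × Bool) × ℕ} (hy : y ∈ js) :
    y.2 ≤ ((js.filter (fun z => z.1 = y.1)).map Prod.snd).sum := by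
  refine List.single_le_sum (fun _ _ => Nat.zero_le _) _ ?_
  refine List.mem_map_of_mem ?_
  rw [List.mem_filter]
  exact ⟨hy, by simp⟩

end ScUpper

theorem sc_upper {u : D.Cy → ℕ} (hu : D.Irr u) (hg : D.cnt u (D.base none) ≠ 0)
    {H : Type} [Group H] (f : FreeGroup α →* H) {N : ι → ℕ}
    (hf : ∀ i, f (D.el (some (i, true))) ^ N i = 1)
    (hN : ∀ i (w : ℕ), 0 < w → w ≤ D.X u i → w ∣ N i ∧ 2 * w ≤ N i)
    (h1 : D.el none ≠ 1)
    (hcomm : ∀ (i : ι) (a : ℕ) (b : ℤ), 0 < a → ¬ IsConj (D.el none ^ a)
      (D.el (some (i, true)) ^ b)) :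
    Sc [f (D.el none)] (((D.val N u / (2 * D.cnt u (D.base none)) : ℚ) : ℝ)) := by
  classical
  obtain ⟨K, js, hjs0, hB, hcost, hcnt⟩ := exists_bd D hu
  obtain ⟨A, hA⟩ : ∃ A, A = js.filter (fun y => y.1 = none) := ⟨_, rfl⟩
  obtain ⟨C, hC⟩ : ∃ C, C = js.filter (fun y => !(decide (y.1 = none))) := ⟨_, rfl⟩
  have hAC : (A ++ C).Perm js := by
    rw [hA, hC]
    exact List.filter_append_perm _ js
  have hlen : js.length = A.length + C.length := by
    rw [← hAC.length_eq, List.length_append]
  have hA1 : ∀ y ∈ A, y.1 = none ∧ y ∈ js := by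
    intro y hy
    rw [hA, List.mem_filter] at hy
    exact ⟨by simpa using hy.2, hy.1⟩
  have hC1 : ∀ y ∈ C, y.1 ≠ none ∧ y ∈ js := by
    intro y hy
    rw [hC, List.mem_filter] at hy
    exact ⟨by simpa using hy.2, hy.1⟩
  have hB1 : Bd K ((A.map Prod.snd).map (fun a => D.el none ^ a) ++
      C.map (fun y => D.el y.1 ^ y.2)) := by
    have h2 := hB.perm (hAC.symm.map _)
    rw [List.map_append] at h2
    have h3 : A.map (fun y => D.el y.1 ^ y.2) = (A.map Prod.snd).map (fun a => D.el none ^ a) := by
      rw [List.map_map]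
      refine List.map_congr_left fun y hy => ?_
      rw [(hA1 y hy).1]
      rfl
    rw [h3] at h2
    exact h2
  have hB2 := hB1.map f
  rw [List.map_append] at hB2
  -- the faces
  have hface : ∀ y ∈ C, ∃ i ε, y.1 = some (i, ε) ∧ 0 < y.2 ∧ y.2 ∣ N i ∧ 2 * y.2 ≤ N i := by
    intro y hy
    obtain ⟨hy1, hy2⟩ := hC1 y hy
    obtain ⟨x, hx⟩ := Option.ne_none_iff_exists'.1 hy1
    obtain ⟨i, ε⟩ := x
    have h2 := ScUpper.le_sum_filter hy2
    rw [hx, hcnt (some (i, ε))] at h2
    have h3 : y.2 ≤ D.X u i := by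
      refine h2.trans ?_
      unfold PD.X
      cases ε
      · exact Nat.le_add_left _ _
      · exact Nat.le_add_right _ _
    have h4 := hN i y.2 (hjs0 y hy2) h3
    exact ⟨i, ε, hx, hjs0 y hy2, h4.1, h4.2⟩
  have hds : List.Forall₂ (fun c d => c ^ d = 1 ∧ 2 ≤ d) ((C.map (fun y => D.el y.1 ^ y.2)).map f)
      (C.map (ScUpper.ord N)) := by
    rw [List.map_map, List.forall₂_map_left_iff, List.forall₂_map_right_iff, List.forall₂_same]
    intro y hy
    obtain ⟨i, ε, hx, h0, hd, h2⟩ := hface y hy
    have e1 : ScUpper.ord N y = N i / y.2 := by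
      unfold ScUpper.ord
      rw [hx]
    rw [e1]
    refine ⟨?_, (Nat.le_div_iff_mul_le h0).2 h2⟩
    simp only [Function.comp_apply, hx]
    rw [map_pow, ← pow_mul, Nat.mul_div_cancel' hd]
    cases ε
    · rw [el_false, map_inv, inv_pow, hf i, inv_one]
    · exact hf i
  have hus : ((A.map Prod.snd).map (fun a => D.el none ^ a)).map f ≠ [] := by
    intro h0
    rw [List.map_eq_nil_iff, List.map_eq_nil_iff, List.map_eq_nil_iff] at h0
    apply hg
    rw [← hcnt none, ← hA, h0]
    rfl
  have hA0 : ∀ a ∈ A.map Prod.snd, 0 < a := by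
    intro a ha
    rw [List.mem_map] at ha
    obtain ⟨y, hy, rfl⟩ := ha
    exact hjs0 y (hA1 y hy).2
  have hex : ¬ (K = 0 ∧ (((A.map Prod.snd).map (fun a => D.el none ^ a)).map f).length = 1 ∧
      ((C.map (fun y => D.el y.1 ^ y.2)).map f).length ≤ 1) := by
    rintro ⟨hK, hl1, hl2⟩
    rw [List.length_map, List.length_map] at hl1 hl2
    obtain ⟨a, ha⟩ := List.length_eq_one_iff.1 hl1
    rw [ha] at hB1 hA0
    have ha0 : 0 < a := hA0 a (by simp)
    rw [hK] at hB1
    obtain ⟨vs, hvs, hcl⟩ := hB1
    rw [cl_zero_iff] at hcl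
    cases C with
    | nil =>
      simp only [List.map_cons, List.map_nil, List.append_nil, List.forall₂_cons_left_iff,
        List.forall₂_nil_left_iff] at hvs
      obtain ⟨v, t, hv, rfl, rfl⟩ := hvs
      rw [List.prod_singleton] at hcl
      rw [hcl, isConj_one_left] at hv
      exact h1 ((pow_eq_one_iff_left ha0.ne').1 hv)
    | cons y C' =>
      cases C' with
      | cons _ _ => simp at hl2
      | nil =>
        simp only [List.map_cons, List.map_nil, List.cons_append, List.nil_append,
          List.forall₂_cons_left_iff, List.forall₂_nil_left_iff] at hvs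
        obtain ⟨v, t, hv, ⟨v', t', hv', rfl, rfl⟩, rfl⟩ := hvs
        simp only [List.prod_cons, List.prod_nil, mul_one] at hcl
        obtain ⟨i, ε, hx, h0, hd, h2⟩ := hface y (by simp)
        have hvv : v = v'⁻¹ := eq_inv_of_mul_eq_one_left hcl
        have hv'' : IsConj ((D.el y.1 ^ y.2)⁻¹) v := by
          rw [hvv]
          rw [isConj_iff] at hv' ⊢
          obtain ⟨c, hc⟩ := hv'
          refine ⟨c, ?_⟩
          rw [← hc]
          group
        have hfin := hv.trans hv''.symm
        rw [hx] at hfin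
        cases ε
        · rw [el_false, inv_pow, inv_inv] at hfin
          exact hcomm i a y.2 ha0 (by rw [zpow_natCast]; exact hfin)
        · exact hcomm i a (-(y.2 : ℤ)) ha0 (by rw [zpow_neg, zpow_natCast]; exact hfin)
  have hsc := sc_of_bd hds hB2 hus hex
  -- the powers of `g`
  obtain ⟨m, hm⟩ : ∃ m, m = D.cnt u (D.base none) := ⟨_, rfl⟩
  have hm0 : 0 < m := by rw [hm]; exact Nat.pos_of_ne_zero hg
  have hsum : (A.map Prod.snd).sum = m := by
    rw [hm, ← hcnt none, hA]
  have e3 : ((A.map Prod.snd).map (fun a => D.el none ^ a)).map f =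
      (A.map Prod.snd).map (fun a => f (D.el none) ^ a) := by
    rw [List.map_map]
    refine List.map_congr_left fun a _ => ?_
    simp
  rw [e3] at hsc
  have hsc2 := ScUpper.sc_replicate (h := f (D.el none)) (A.map Prod.snd) (L := [])
    (by rw [List.append_nil]; exact hsc)
  rw [List.append_nil, hsum, ← ScUpper.flatten_replicate_singleton] at hsc2
  have hmR : (0 : ℝ) < m := by exact_mod_cast hm0
  obtain ⟨s0, hs0⟩ : ∃ s0 : ℝ, s0 = (2 * (K : ℝ) - 2 +
      ((A.map Prod.snd).map (fun a => f (D.el none) ^ a)).length +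
      ((C.map (ScUpper.ord N)).map (fun d : ℕ => 1 - 1 / (d : ℝ))).sum) / 2 := ⟨_, rfl⟩
  rw [← hs0] at hsc2
  have hsc3 : Sc [f (D.el none)] (s0 / m) := by
    refine Sc.div hm0 ?_
    rw [mul_div_cancel₀ _ hmR.ne']
    exact hsc2
  refine hsc3.mono ?_
  -- the numbers
  have hwt : ((C.map (ScUpper.ord N)).map (fun d : ℕ => 1 - 1 / (d : ℝ))).sum =
      C.length - (C.map (ScUpper.wt N)).sum := by
    have h5 : ∀ C' : List (Option (ι × Bool) × ℕ), (∀ y ∈ C', y ∈ C) →
        ((C'.map (ScUpper.ord N)).map (fun d : ℕ => 1 - 1 / (d : ℝ))).sum =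
          C'.length - (C'.map (ScUpper.wt N)).sum := by
      intro C'
      induction C' with
      | nil => intro _; simp
      | cons y C' ih =>
        intro hsub
        rw [List.map_cons, List.map_cons, List.sum_cons, ih (fun z hz => hsub z (by simp [hz])),
          List.map_cons, List.sum_cons, List.length_cons]
        obtain ⟨i, ε, hx, h0, hd, h2⟩ := hface y (hsub y (by simp))
        have e1 : ScUpper.ord N y = N i / y.2 := by
          unfold ScUpper.ord
          rw [hx]
        have e2 : ScUpper.wt N y = (y.2 : ℝ) / N i := by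
          unfold ScUpper.wt
          rw [hx]
        have h0' : (y.2 : ℝ) ≠ 0 := by exact_mod_cast h0.ne'
        rw [e1, e2, Nat.cast_div hd h0', one_div_div]
        push_cast
        ring
    exact h5 C (fun y hy => hy)
  have hwt2 : (C.map (ScUpper.wt N)).sum = (js.map (ScUpper.wt N)).sum := by
    rw [← (hAC.map (ScUpper.wt N)).sum_eq, List.map_append, List.sum_append]
    have h6 : (A.map (ScUpper.wt N)).sum = 0 := by
      refine List.sum_eq_zero fun x hx => ?_
      rw [List.mem_map] at hx
      obtain ⟨y, hy, rfl⟩ := hx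
      unfold ScUpper.wt
      rw [(hA1 y hy).1]
    rw [h6, zero_add]
  have hX : (js.map (ScUpper.wt N)).sum = ∑ i, (D.X u i : ℝ) / N i := by
    rw [ScUpper.sum_wt]
    refine Finset.sum_congr rfl fun i _ => ?_
    rw [hcnt (some (i, true)), hcnt (some (i, false))]
    rfl
  have hcostR : 2 * (2 * (K : ℝ) - 2 + js.length) ≤ (D.cost u : ℝ) := by exact_mod_cast hcost
  have hs1 : s0 ≤ ((D.cost u : ℝ) / 2 - ∑ i, (D.X u i : ℝ) / N i) / 2 := by
    rw [hs0, hwt, hwt2, hX, List.length_map, List.length_map]
    have h7 : (js.length : ℝ) = A.length + C.length := by exact_mod_cast hlen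
    rw [h7] at hcostR
    linarith
  have hval : ((D.val N u / (2 * D.cnt u (D.base none)) : ℚ) : ℝ) =
      (((D.cost u : ℝ) / 2 - ∑ i, (D.X u i : ℝ) / N i) / 2) / m := by
    unfold PD.val
    rw [hm]
    push_cast
    rw [div_div]
  rw [hval]
  exact div_le_div_of_nonneg_right hs1 hmR.le

end Pool.MP_ed1a61_al.Fill
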