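import Pool.Agent.Lib.MP_ed1a61_al.Fill.Cyc

/-! # Making the labels injective on cycles -/

set_option autoImplicit false

namespace Pool.MP_ed1a61_al.Fill

open Equiv

variable {P : Type}

/-- one can rearrange `τ` so that `θ` is injective on every cycle -/
theorem exists_split {Ω : Type} [Finite Ω] (τ : Perm Ω) (θ : Ω → P) :
    ∃ τ' : Perm Ω, (∀ p q, Nat.card {x // θ x = p ∧ θ (τ' x) = q} =
        Nat.card {x // θ x = p ∧ θ (τ x) = q}) ∧ cyc τ ≤ cyc τ' ∧
      ∀ x y, τ'.SameCycle x y → θ x = θ y → x = y := by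
  classical
  have hne : ({τ' : Perm Ω | ∀ p q, Nat.card {x // θ x = p ∧ θ (τ' x) = q} =
      Nat.card {x // θ x = p ∧ θ (τ x) = q}}).Nonempty := ⟨τ, fun _ _ => rfl⟩
  obtain ⟨τ', h1, h2⟩ := Set.exists_max_image _ cyc (Set.toFinite _) hne
  refine ⟨τ', h1, h2 τ (fun _ _ => rfl), ?_⟩
  intro x y hxy hθ
  by_contra hxy'
  have h3 := cyc_mul_swap_same hxy hxy'
  have hsw : ∀ z, θ (swap x y z) = θ z := by
    intro z
    rcases eq_or_ne z x with rfl | hzx
    · rw [swap_apply_left, hθ]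
    · rcases eq_or_ne z y with rfl | hzy
      · rw [swap_apply_right, hθ]
      · rw [swap_apply_of_ne_of_ne hzx hzy]
  have h4 := h2 (τ' * swap x y) (by
    intro p q
    rw [← h1 p q]
    refine Nat.card_congr ((swap x y).subtypeEquiv ?_)
    intro z
    rw [Perm.mul_apply, hsw])
  omega

end Pool.MP_ed1a61_al.Fill
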