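import Pool.Agent.Lib.MP_ed1a61_al.Fill.Defs

/-! # Surfaces with labelled boundary: basic properties -/

set_option autoImplicit false

namespace Pool.MP_ed1a61_al.Fill

open Equiv

variable {α : Type}

theorem linv_linv (x : α × Bool) : linv (linv x) = x := by
  cases x; simp [linv]

theorem linv_ne (x : α × Bool) : linv x ≠ x := by
  obtain ⟨a, b⟩ := x
  cases b <;> simp [linv]

theorem mk_linv_cons (x : α × Bool) (w : List (α × Bool)) :
    FreeGroup.mk (x :: linv x :: w) = FreeGroup.mk w := by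
  obtain ⟨a, b⟩ := x
  exact Quot.sound FreeGroup.Red.Step.cons_not

namespace IsStr

variable {Ω : Type} [DecidableEq Ω] {σ π : Perm Ω} {lab : Ω → α × Bool} {ls ls' : List (List Ω)}
  {l : List Ω}

theorem pi_ne (h : IsStr σ π lab ls) (x : Ω) : π x ≠ x := by
  intro hx
  have h1 := h.lab_inv x
  rw [hx] at h1
  exact linv_ne _ h1.symm

theorem sig_mem (h : IsStr σ π lab ls) (hl : l ∈ ls) {x : Ω} (hx : x ∈ l) : σ x ∈ l := by
  rw [h.sig l hl x hx]
  exact List.formPerm_apply_mem_of_mem hx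

private theorem sig_mem_iff (h : IsStr σ π lab ls) (hl : l ∈ ls) {x : Ω} : σ x ∈ l ↔ x ∈ l := by
  refine ⟨fun hx => ?_, fun hx => h.sig_mem hl hx⟩
  obtain ⟨y, hy⟩ := l.formPerm.surjective (σ x)
  have hyl : y ∈ l := by
    rw [← List.formPerm_mem_iff_mem, hy]
    exact hx
  have h1 : σ y = σ x := by rw [h.sig l hl y hyl, hy]
  rwa [σ.injective h1] at hyl

theorem sig_mem_flatten [Finite Ω] (h : IsStr σ π lab ls) {x : Ω} :
    σ x ∈ ls.flatten ↔ x ∈ ls.flatten := by
  rw [List.mem_flatten, List.mem_flatten]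
  constructor
  · rintro ⟨l, hl, hx⟩
    exact ⟨l, hl, (h.sig_mem_iff hl).1 hx⟩
  · rintro ⟨l, hl, hx⟩
    exact ⟨l, hl, (h.sig_mem_iff hl).2 hx⟩

theorem pi_mem_flatten [Finite Ω] (h : IsStr σ π lab ls) {x : Ω} :
    π x ∈ ls.flatten ↔ x ∈ ls.flatten := by
  have key : ∀ z, π z ∈ ls.flatten → z ∈ ls.flatten := by
    intro z hz
    by_contra hcon
    rw [← h.gar z hcon, h.sig_mem_flatten] at hz
    exact hcon hz
  refine ⟨key x, fun hx => key _ ?_⟩
  rwa [h.inv]

theorem sameCycle_iff (h : IsStr σ π lab ls) (hl : l ∈ ls) {x y : Ω} (hx : x ∈ l) :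
    σ.SameCycle x y ↔ y ∈ l := by
  have hnd : l.Nodup := (List.nodup_flatten.1 h.nodup).1 l hl
  constructor
  · rintro ⟨i, rfl⟩
    induction i using Int.induction_on with
    | zero => simpa using hx
    | succ i ih =>
      rw [add_comm, zpow_add, zpow_one, Perm.mul_apply]
      exact h.sig_mem hl ih
    | pred i ih =>
      rw [← h.sig_mem_iff hl, ← Perm.mul_apply, ← zpow_one_add]
      have e : (1 + (-(i : ℤ) - 1)) = -(i : ℤ) := by ring
      rw [e]
      exact ih
  · intro hy
    obtain ⟨i, hi, rfl⟩ := List.getElem_of_mem hx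
    obtain ⟨j, hj, rfl⟩ := List.getElem_of_mem hy
    have hpow : ∀ n : ℕ, (σ ^ n) l[i] = (l.formPerm ^ n) l[i] := by
      intro n
      induction n with
      | zero => rfl
      | succ n ih =>
        rw [pow_succ', Perm.mul_apply, ih, pow_succ', Perm.mul_apply]
        refine h.sig l hl _ ?_
        rw [List.formPerm_pow_apply_getElem l hnd]
        exact List.getElem_mem _
    refine ⟨((j + (l.length - i) : ℕ) : ℤ), ?_⟩
    rw [zpow_natCast, hpow, List.formPerm_pow_apply_getElem l hnd]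
    congr 1
    have e : i + (j + (l.length - i)) = j + l.length := by omega
    rw [e, Nat.add_mod_right, Nat.mod_eq_of_lt hj]

theorem perm (h : IsStr σ π lab ls) (hp : ls.Perm ls') : IsStr σ π lab ls' := by
  have hf := hp.flatten
  exact ⟨h.inv, h.lab_inv, hf.nodup_iff.1 h.nodup, fun l hl => h.sig l (hp.mem_iff.2 hl),
    fun x hx => h.gar x fun h1 => hx (hf.mem_iff.1 h1)⟩

theorem rotate (h : IsStr σ π lab (l :: ls)) (n : ℕ) : IsStr σ π lab (l.rotate n :: ls) := by
  have hnd : l.Nodup := (List.nodup_flatten.1 h.nodup).1 l List.mem_cons_self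
  have hf : (l.rotate n :: ls).flatten.Perm (l :: ls).flatten := by
    rw [List.flatten_cons, List.flatten_cons]
    exact (List.rotate_perm l n).append_right _
  refine ⟨h.inv, h.lab_inv, hf.nodup_iff.2 h.nodup, ?_,
    fun x hx => h.gar x fun h1 => hx (hf.mem_iff.2 h1)⟩
  intro l' hl' x hx
  rcases List.mem_cons.1 hl' with rfl | hl'
  · rw [List.formPerm_rotate l hnd]
    exact h.sig l List.mem_cons_self x (List.mem_rotate.1 hx)
  · exact h.sig l' (List.mem_cons_of_mem _ hl') x hx

theorem cons_nil_iff : IsStr σ π lab ([] :: ls) ↔ IsStr σ π lab ls := by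
  have hf : ([] :: ls : List (List Ω)).flatten = ls.flatten := by
    rw [List.flatten_cons, List.nil_append]
  constructor
  · intro h
    exact ⟨h.inv, h.lab_inv, hf ▸ h.nodup, fun l hl => h.sig l (List.mem_cons_of_mem _ hl),
      fun x hx => h.gar x (hf ▸ hx)⟩
  · intro h
    refine ⟨h.inv, h.lab_inv, hf ▸ h.nodup, fun l hl x hx => ?_, fun x hx => h.gar x (hf ▸ hx)⟩
    rcases List.mem_cons.1 hl with rfl | hl
    · exact absurd hx List.not_mem_nil
    · exact h.sig l hl x hx

end IsStr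

end Pool.MP_ed1a61_al.Fill
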