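import Pool.Agent.Lib.MP_ed1a61_al.Fill.StrBasic

/-! # Removing bigons -/

set_option autoImplicit false

namespace Pool.MP_ed1a61_al.Fill

open Equiv

variable {α : Type}

namespace IsStr

variable {Ω : Type} [DecidableEq Ω] {σ π : Perm Ω} {lab : Ω → α × Bool} {ls ls' : List (List Ω)}
  {l : List Ω}

/-- a bigon which is a component of its own becomes garbage -/
theorem drop {p q : Ω} (h : IsStr σ π lab ([p, q] :: ls)) (hpq : π p = q) :
    IsStr σ π lab ls := by
  have hnd := h.nodup
  rw [List.flatten_cons, List.nodup_append] at hnd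
  obtain ⟨hn1, hn2, -⟩ := hnd
  have hsig := h.sig [p, q] (by simp)
  have hp := hsig p (by simp)
  have hq := hsig q (by simp)
  rw [List.formPerm_pair] at hp hq
  rw [swap_apply_left] at hp
  rw [swap_apply_right] at hq
  have hqp : π q = p := by rw [← hpq, h.inv]
  refine ⟨h.inv, h.lab_inv, hn2, fun l hl => h.sig l (List.mem_cons_of_mem _ hl), ?_⟩
  intro x hx
  by_cases h1 : x = p
  · rw [h1, hp, hpq]
  by_cases h2 : x = q
  · rw [h2, hq, hqp]
  apply h.gar
  rw [List.flatten_cons, List.mem_append]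
  rintro (h3 | h3)
  · simp only [List.mem_cons, List.not_mem_nil, or_false] at h3
    exact h3.elim h1 h2
  · exact hx h3

/-- a bigon is collapsed -/
theorem bigon [Finite Ω] {p q : Ω} (h : IsStr σ π lab ([p, q] :: ls)) (hl : lab q = linv (lab p))
    (hpq : π p ≠ q) : IsStr σ (swap q (π p) * π * swap q (π p)) lab ls := by
  have hnd := h.nodup
  rw [List.flatten_cons, List.nodup_append] at hnd
  obtain ⟨hn1, hn2, -⟩ := hnd
  have hpq' : p ≠ q := by
    intro hc
    rw [hc] at hn1
    simp at hn1
  have hsig := h.sig [p, q] (by simp)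
  have hp := hsig p (by simp)
  have hq := hsig q (by simp)
  rw [List.formPerm_pair] at hp hq
  rw [swap_apply_left] at hp
  rw [swap_apply_right] at hq
  obtain ⟨u, hu⟩ : ∃ u, π p = u := ⟨_, rfl⟩
  obtain ⟨v, hv⟩ : ∃ v, π q = v := ⟨_, rfl⟩
  rw [hu] at hpq ⊢
  have hup : π u = p := by rw [← hu, h.inv]
  have hvq : π v = q := by rw [← hv, h.inv]
  have hpu : p ≠ u := by
    intro hc
    exact h.pi_ne p (hu.trans hc.symm)
  have hvne : v ≠ q := by
    intro hc
    exact h.pi_ne q (hv.trans hc)
  have hvu : v ≠ u := by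
    intro hc
    rw [hc, hup] at hvq
    exact hpq' hvq
  have e1 : (swap q u * π * swap q u) p = q := by
    rw [Perm.mul_apply, Perm.mul_apply, swap_apply_of_ne_of_ne hpq' hpu, hu, swap_apply_right]
  have e2 : (swap q u * π * swap q u) q = p := by
    rw [Perm.mul_apply, Perm.mul_apply, swap_apply_left, hup, swap_apply_of_ne_of_ne hpq' hpu]
  have e3 : (swap q u * π * swap q u) u = v := by
    rw [Perm.mul_apply, Perm.mul_apply, swap_apply_right, hv, swap_apply_of_ne_of_ne hvne hvu]
  have e4 : (swap q u * π * swap q u) v = u := by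
    rw [Perm.mul_apply, Perm.mul_apply, swap_apply_of_ne_of_ne hvne hvu, hvq, swap_apply_left]
  have e5 : ∀ x, x ≠ p → x ≠ q → x ≠ u → x ≠ v → (swap q u * π * swap q u) x = π x := by
    intro x h1 h2 h3 h4
    rw [Perm.mul_apply, Perm.mul_apply, swap_apply_of_ne_of_ne h2 h3, swap_apply_of_ne_of_ne]
    · intro hc
      apply h4
      rw [← hv, ← hc, h.inv]
    · intro hc
      apply h1
      rw [← hup, ← hc, h.inv]
  have hlu : lab u = linv (lab p) := by rw [← hu, h.lab_inv]
  have hlv : lab v = lab p := by rw [← hv, h.lab_inv, hl, linv_linv]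
  refine ⟨?_, ?_, hn2, fun l hl => h.sig l (List.mem_cons_of_mem _ hl), ?_⟩
  · intro x
    simp only [Perm.mul_apply, swap_apply_self, h.inv]
  · intro x
    by_cases h1 : x = p
    · rw [h1, e1, hl]
    by_cases h2 : x = q
    · rw [h2, e2, hl, linv_linv]
    by_cases h3 : x = u
    · rw [h3, e3, hlv, hlu, linv_linv]
    by_cases h4 : x = v
    · rw [h4, e4, hlv, hlu]
    rw [e5 x h1 h2 h3 h4, h.lab_inv]
  · intro x hx
    by_cases h1 : x = p
    · rw [h1, e1, hp]
    by_cases h2 : x = q
    · rw [h2, e2, hq]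
    have hx' : x ∉ ([p, q] :: ls).flatten := by
      rw [List.flatten_cons, List.mem_append]
      rintro (h3 | h3)
      · simp only [List.mem_cons, List.not_mem_nil, or_false] at h3
        exact h3.elim h1 h2
      · exact hx h3
    have hpm : p ∈ ([p, q] :: ls).flatten := by simp
    have hqm : q ∈ ([p, q] :: ls).flatten := by simp
    have hum : u ∈ ([p, q] :: ls).flatten := by
      rw [← hu]
      exact h.pi_mem_flatten.2 hpm
    have hvm : v ∈ ([p, q] :: ls).flatten := by
      rw [← hv]
      exact h.pi_mem_flatten.2 hqm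
    rw [e5 x h1 h2 (fun hc => hx' (hc ▸ hum)) (fun hc => hx' (hc ▸ hvm))]
    exact h.gar x hx'

end IsStr

end Pool.MP_ed1a61_al.Fill
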