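import Pool.Agent.Lib.MP_ed1a61_al.Fill.StrMoves

/-! # Operations on the predicate `Str` -/

set_option autoImplicit false

namespace Pool.MP_ed1a61_al.Fill

open Equiv

variable {α : Type} {κ κ' : ℤ} {ws ws' : List (List (α × Bool))} {u v w : List (α × Bool)}

private theorem strOps_perm_lift {A B : Type} {f : A → B} {m m' : List B} (hp : m.Perm m') :
    ∀ l : List A, l.map f = m → ∃ l', l.Perm l' ∧ l'.map f = m' := by
  induction hp with
  | nil =>
    intro l h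
    exact ⟨l, List.Perm.refl l, h⟩
  | cons x _ ih =>
    intro l h
    obtain ⟨a, l₁, rfl, rfl, h1⟩ := List.map_eq_cons_iff.1 h
    obtain ⟨l₁', hp', h2⟩ := ih l₁ h1
    exact ⟨a :: l₁', hp'.cons a, by rw [List.map_cons, h2]⟩
  | swap x y m =>
    intro l h
    obtain ⟨a, l₁, rfl, rfl, h1⟩ := List.map_eq_cons_iff.1 h
    obtain ⟨b, l₂, rfl, rfl, rfl⟩ := List.map_eq_cons_iff.1 h1
    exact ⟨b :: a :: l₂, List.Perm.swap _ _ _, rfl⟩
  | trans _ _ ih1 ih2 =>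
    intro l h
    obtain ⟨l₁, hp1, h1⟩ := ih1 l h
    obtain ⟨l₂, hp2, h2⟩ := ih2 l₁ h1
    exact ⟨l₂, hp1.trans hp2, h2⟩

theorem Str.mono (h : Str κ ws) (hk : κ ≤ κ') : Str κ' ws := by
  obtain ⟨Ω, h1, h2, σ, π, lab, ls, h3, h4, h5⟩ := h
  exact ⟨Ω, h1, h2, σ, π, lab, ls, h3, h4, h5.trans hk⟩

theorem Str.perm (h : Str κ ws) (hp : ws.Perm ws') : Str κ ws' := by
  obtain ⟨Ω, h1, h2, σ, π, lab, ls, h3, h4, h5⟩ := h
  obtain ⟨ls', hp', h6⟩ := strOps_perm_lift hp ls h4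
  exact ⟨Ω, h1, h2, σ, π, lab, ls', h3.perm hp', h6, h5⟩

theorem Str.rotate (h : Str κ (w :: ws)) (n : ℕ) : Str κ (w.rotate n :: ws) := by
  obtain ⟨Ω, h1, h2, σ, π, lab, ls, h3, h4, h5⟩ := h
  obtain ⟨l, ls', rfl, rfl, rfl⟩ := List.map_eq_cons_iff.1 h4
  exact ⟨Ω, h1, h2, σ, π, lab, l.rotate n :: ls', h3.rotate n, by
    rw [List.map_cons, List.map_rotate], h5⟩

theorem str_cons_nil : Str κ ([] :: ws) ↔ Str κ ws := by
  constructor
  · rintro ⟨Ω, h1, h2, σ, π, lab, ls, h3, h4, h5⟩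
    obtain ⟨l, ls', rfl, h6, rfl⟩ := List.map_eq_cons_iff.1 h4
    rw [List.map_eq_nil_iff] at h6
    subst h6
    exact ⟨Ω, h1, h2, σ, π, lab, ls', IsStr.cons_nil_iff.1 h3, rfl, h5⟩
  · rintro ⟨Ω, h1, h2, σ, π, lab, ls, h3, rfl, h5⟩
    exact ⟨Ω, h1, h2, σ, π, lab, [] :: ls, IsStr.cons_nil_iff.2 h3, rfl, h5⟩

theorem str_nil : Str 0 ([] : List (List (α × Bool))) := by
  refine ⟨Empty, inferInstance, inferInstance, 1, 1, fun x => x.elim, [], ⟨?_, ?_, ?_, ?_, ?_⟩,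
    rfl, ?_⟩
  · exact fun x => x.elim
  · exact fun x => x.elim
  · exact List.nodup_nil
  · intro l hl
    exact absurd hl List.not_mem_nil
  · exact fun x => x.elim
  · exact (gen_self (fun x : Empty => x.elim) fun x : Empty => x.elim).le

/-- folding -/
theorem Str.fold {x : α × Bool} (h : Str κ ((x :: linv x :: w) :: ws)) : Str κ (w :: ws) := by
  obtain ⟨Ω, h1, h2, σ, π, lab, ls, h3, h4, h5⟩ := h
  obtain ⟨l, ls', rfl, h6, rfl⟩ := List.map_eq_cons_iff.1 h4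
  obtain ⟨p, l₁, rfl, rfl, h7⟩ := List.map_eq_cons_iff.1 h6
  obtain ⟨q, l₂, rfl, h8, rfl⟩ := List.map_eq_cons_iff.1 h7
  obtain ⟨σ', π', h9, h10⟩ := h3.fold h8
  exact ⟨Ω, h1, h2, σ', π', lab, l₂ :: ls', h9, rfl, h10.trans h5⟩

/-- cutting -/
theorem Str.cut (h : Str κ ((u ++ v) :: ws)) : Str κ (u :: v :: ws) := by
  obtain ⟨Ω, h1, h2, σ, π, lab, ls, h3, h4, h5⟩ := h
  obtain ⟨l, ls', rfl, h6, rfl⟩ := List.map_eq_cons_iff.1 h4
  obtain ⟨A, B, rfl, rfl, rfl⟩ := List.map_eq_append_iff.1 h6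
  by_cases hA : A = []
  · subst hA
    exact ⟨Ω, h1, h2, σ, π, lab, [] :: B :: ls', IsStr.cons_nil_iff.2 h3, rfl, h5⟩
  by_cases hB : B = []
  · subst hB
    rw [List.append_nil] at h3
    exact ⟨Ω, h1, h2, σ, π, lab, A :: [] :: ls',
      (IsStr.cons_nil_iff.2 h3).perm (List.Perm.swap _ _ _), rfl, h5⟩
  have hn : (A ++ B).Nodup := by
    have h7 := h3.nodup
    rw [List.flatten_cons] at h7
    exact (List.nodup_append.1 h7).1
  have ha : A.getLast hA ∈ A := List.getLast_mem hA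
  have hb : B.getLast hB ∈ B := List.getLast_mem hB
  have hne : A.getLast hA ≠ B.getLast hB := (List.nodup_append.1 hn).2.2 _ ha _ hb
  have hs : σ.SameCycle (A.getLast hA) (B.getLast hB) :=
    (h3.sameCycle_iff List.mem_cons_self (List.mem_append_left _ ha)).2
      (List.mem_append_right _ hb)
  exact ⟨Ω, h1, h2, _, π, lab, A :: B :: ls', h3.cut hA hB, rfl, (gen_cut hs hne).trans h5⟩

/-- joining -/
theorem Str.join (h : Str κ (u :: v :: ws)) : Str (κ + 2) ((u ++ v) :: ws) := by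
  obtain ⟨Ω, h1, h2, σ, π, lab, ls, h3, h4, h5⟩ := h
  obtain ⟨A, ls₁, rfl, rfl, h6⟩ := List.map_eq_cons_iff.1 h4
  obtain ⟨B, ls', rfl, rfl, rfl⟩ := List.map_eq_cons_iff.1 h6
  by_cases hA : A = []
  · subst hA
    exact ⟨Ω, h1, h2, σ, π, lab, B :: ls', IsStr.cons_nil_iff.1 h3, by
      rw [List.map_nil, List.nil_append, List.map_cons], by omega⟩
  by_cases hB : B = []
  · subst hB
    exact ⟨Ω, h1, h2, σ, π, lab, A :: ls',
      IsStr.cons_nil_iff.1 (h3.perm (List.Perm.swap _ _ _)), by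
      rw [List.map_nil, List.append_nil, List.map_cons], by omega⟩
  have ha : A.getLast hA ∈ A := List.getLast_mem hA
  have hb : B.getLast hB ∈ B := List.getLast_mem hB
  have hs : ¬ σ.SameCycle (A.getLast hA) (B.getLast hB) := by
    intro hs
    have h7 := (h3.sameCycle_iff List.mem_cons_self ha).1 hs
    have h8 := h3.nodup
    rw [List.flatten_cons, List.flatten_cons] at h8
    exact (List.nodup_append.1 h8).2.2 _ h7 _ (List.mem_append_left _ hb) rfl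
  refine ⟨Ω, h1, h2, _, π, lab, (A ++ B) :: ls', h3.join hA hB, by
    rw [List.map_cons, List.map_append], ?_⟩
  have := gen_join (π := π) hs
  omega

end Pool.MP_ed1a61_al.Fill
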