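import Pool.Agent.Lib.MP_ed1a61_al.Fill.StrSum
import Pool.Agent.Lib.MP_ed1a61_al.Fill.StrOps

/-! # Building surfaces: sums and bigons -/

set_option autoImplicit false

namespace Pool.MP_ed1a61_al.Fill

open Equiv

variable {α : Type} {κ κ' : ℤ} {ws ws' : List (List (α × Bool))} {u v w : List (α × Bool)}

private theorem sb1_map {Ω Ω' : Type} (lab : Ω → α × Bool) (lab' : Ω' → α × Bool)
    (ls : List (List Ω)) (ls' : List (List Ω')) :
    (ls.map (List.map Sum.inl) ++ ls'.map (List.map Sum.inr)).map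
      (List.map (Sum.elim lab lab')) = ls.map (List.map lab) ++ ls'.map (List.map lab') := by
  rw [List.map_append, List.map_map, List.map_map]
  congr 1
  · refine List.map_congr_left fun l _ => ?_
    show List.map (Sum.elim lab lab') (List.map Sum.inl l) = _
    rw [List.map_map]
    rfl
  · refine List.map_congr_left fun l _ => ?_
    show List.map (Sum.elim lab lab') (List.map Sum.inr l) = _
    rw [List.map_map]
    rfl

private theorem sb1_conn {Ω Ω' : Type} {σ π : Perm Ω} {σ' π' : Perm Ω'} {x y : Ω ⊕ Ω'}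
    (h : (connS (Perm.sumCongr σ σ') (Perm.sumCongr π π')) x y) : x.isLeft = y.isLeft := by
  have h' : Relation.EqvGen (fun x y => y = (Perm.sumCongr σ σ') x ∨
    y = (Perm.sumCongr π π') x) x y := h
  clear h
  induction h' with
  | rel a b hab =>
    rcases hab with rfl | rfl
    · cases a <;> simp
    · cases a <;> simp
  | refl a => rfl
  | symm a b _ ih => exact ih.symm
  | trans a b c _ _ ih1 ih2 => exact ih1.trans ih2

/-- disjoint union -/
theorem Str.append (h : Str κ ws) (h' : Str κ' ws') : Str (κ + κ') (ws ++ ws') := by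
  obtain ⟨Ω, hF, hD, σ, π, lab, ls, hs, hw, hg⟩ := h
  obtain ⟨Ω', hF', hD', σ', π', lab', ls', hs', hw', hg'⟩ := h'
  refine ⟨Ω ⊕ Ω', inferInstance, inferInstance, Perm.sumCongr σ σ', Perm.sumCongr π π',
    Sum.elim lab lab', _, hs.sum hs', ?_, ?_⟩
  · rw [sb1_map, hw, hw']
  · rw [gen_sum]
    exact add_le_add hg hg'

/-- connected sum along the boundary -/
theorem Str.merge (h : Str κ (u :: ws)) (h' : Str κ' (v :: ws')) :
    Str (κ + κ') ((u ++ v) :: (ws ++ ws')) := by
  obtain ⟨Ω, hF, hD, σ, π, lab, ls, hs, hw, hg⟩ := h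
  obtain ⟨Ω', hF', hD', σ', π', lab', ls', hs', hw', hg'⟩ := h'
  obtain ⟨A, ls1, rfl, hA, hls1⟩ := List.map_eq_cons_iff.1 hw
  obtain ⟨B, ls2, rfl, hB, hls2⟩ := List.map_eq_cons_iff.1 hw'
  have hsum := hs.sum hs'
  have hperm : ((A :: ls1).map (List.map Sum.inl) ++ (B :: ls2).map (List.map Sum.inr)).Perm
      ((A.map (Sum.inl : Ω → Ω ⊕ Ω')) :: (B.map (Sum.inr : Ω' → Ω ⊕ Ω')) ::
        (ls1.map (List.map Sum.inl) ++ ls2.map (List.map Sum.inr))) := by
    rw [List.map_cons, List.map_cons, List.cons_append]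
    exact List.Perm.cons _ List.perm_middle
  have h2 := hsum.perm hperm
  obtain ⟨τ, hτ, hgτ⟩ := h2.join_diff (by
    intro a ha b hb hab
    obtain ⟨a', -, rfl⟩ := List.mem_map.1 ha
    obtain ⟨b', -, rfl⟩ := List.mem_map.1 hb
    have := sb1_conn hab
    simp at this)
  refine ⟨Ω ⊕ Ω', inferInstance, inferInstance, τ, Perm.sumCongr π π', Sum.elim lab lab', _, hτ,
    ?_, ?_⟩
  · rw [List.map_cons, sb1_map, hls1, hls2, List.map_append, List.map_map, List.map_map]
    congr 1
    rw [← hA, ← hB]
    rfl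
  · refine hgτ.trans ?_
    rw [gen_sum]
    exact add_le_add hg hg'

theorem str_bigon (x : α × Bool) : Str 0 [[x, linv x]] := by
  have hinv : ∀ y : Bool, (swap true false : Perm Bool) ((swap true false : Perm Bool) y) = y :=
    fun y => swap_apply_self _ _ _
  refine ⟨Bool, inferInstance, inferInstance, swap true false, swap true false,
    fun b => if b then x else linv x, [[true, false]], ⟨hinv, ?_, ?_, ?_, ?_⟩, ?_, ?_⟩
  · intro y
    cases y
    · simp [linv_linv]
    · simp
  · simp
  · intro l hl y _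
    rw [List.mem_singleton] at hl
    subst hl
    rw [List.formPerm_pair]
  · intro y _
    rfl
  · simp
  · refine (gen_self hinv ?_).le
    intro y
    cases y
    · simp
    · simp

theorem Str.spur (h : Str κ (w :: ws)) (x : α × Bool) : Str κ ((x :: linv x :: w) :: ws) := by
  have h1 := (str_bigon x).merge h
  rw [zero_add] at h1
  exact h1

end Pool.MP_ed1a61_al.Fill
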