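import Pool.Agent.Lib.MP_ed1a61_al.Fill.StrBuild1

/-! # Building surfaces: annuli and handles -/

set_option autoImplicit false

namespace Pool.MP_ed1a61_al.Fill

open Equiv

variable {α : Type} {κ κ' : ℤ} {ws ws' : List (List (α × Bool))} {u v w : List (α × Bool)}

private theorem StrBuild2_invRev_cons (x : α × Bool) (u : List (α × Bool)) :
    FreeGroup.invRev (x :: u) = FreeGroup.invRev u ++ [linv x] := by
  simp [FreeGroup.invRev, linv]

theorem Str.conj (h : Str κ (w :: ws)) (u : List (α × Bool)) :
    Str κ ((u ++ w ++ FreeGroup.invRev u) :: ws) := by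
  induction u with
  | nil => simpa [FreeGroup.invRev] using h
  | cons y u ih =>
    have h1 := (ih.spur (linv y)).rotate 1
    rw [linv_linv] at h1
    have e : (linv y :: y :: (u ++ w ++ FreeGroup.invRev u)).rotate 1 =
        (y :: u) ++ w ++ FreeGroup.invRev (y :: u) := by
      rw [StrBuild2_invRev_cons]
      simp
    rwa [e] at h1

private theorem StrBuild2_disc (w : List (α × Bool)) : Str 0 [w ++ FreeGroup.invRev w] := by
  have h := (str_cons_nil.2 (str_nil (α := α))).conj w
  rwa [List.append_nil] at h

theorem str_annulus (w : List (α × Bool)) : Str 0 [w, FreeGroup.invRev w] :=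
  (StrBuild2_disc w).cut

theorem str_commutator (u v : List (α × Bool)) :
    Str 2 [u ++ v ++ FreeGroup.invRev u ++ FreeGroup.invRev v] := by
  set u' := FreeGroup.invRev u with hu'
  set v' := FreeGroup.invRev v with hv'
  have h1 : Str (0 + 0) [u ++ u' ++ (v ++ v')] := (StrBuild2_disc u).merge (StrBuild2_disc v)
  have h2 := h1.rotate u.length
  rw [List.append_assoc, List.rotate_append_length_eq] at h2
  have e1 : u' ++ (v ++ v') ++ u = (u' ++ v) ++ (v' ++ u) := by simp
  rw [e1] at h2
  have h3 := h2.cut.rotate u'.length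
  rw [List.rotate_append_length_eq] at h3
  have h4 := h3.join.rotate (v ++ u' ++ v').length
  have e2 : v ++ u' ++ (v' ++ u) = (v ++ u' ++ v') ++ u := by simp
  rw [e2, List.rotate_append_length_eq] at h4
  have e3 : u ++ (v ++ u' ++ v') = u ++ v ++ u' ++ v' := by simp
  rw [e3] at h4
  simpa using h4

end Pool.MP_ed1a61_al.Fill
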