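import Pool.Agent.Lib.MP_ed1a61_al.Fill.StrOps

/-! # Folding a trivial boundary word -/

set_option autoImplicit false

namespace Pool.MP_ed1a61_al.Fill

open Equiv

variable {α : Type} {κ κ' : ℤ} {ws ws' : List (List (α × Bool))} {u v w : List (α × Bool)}

private theorem fold_all_aux (n : ℕ) : ∀ w : List (α × Bool), w.length = n →
    Str κ (w :: ws) → FreeGroup.mk w = 1 → Str κ ws := by
  induction n using Nat.strong_induction_on with
  | _ n ih =>
    intro w hn h hw
    have h1 : FreeGroup.mk w = FreeGroup.mk ([] : List (α × Bool)) := by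
      rw [hw]
      rfl
    obtain ⟨c, hc1, hc2⟩ := FreeGroup.Red.exact.1 h1
    rw [FreeGroup.Red.nil_iff] at hc2
    subst hc2
    rcases Relation.ReflTransGen.cases_head hc1 with h2 | ⟨w', hstep, hred⟩
    · subst h2
      exact str_cons_nil.1 h
    · have h3 : FreeGroup.mk w' = FreeGroup.mk ([] : List (α × Bool)) :=
        FreeGroup.Red.exact.2 ⟨[], hred, FreeGroup.Red.refl⟩
      cases hstep with
      | @not L₁ L₂ x b =>
        have h4 := h.rotate L₁.length
        rw [List.rotate_append_length_eq] at h4
        have h5 : Str κ ((L₂ ++ L₁) :: ws) := Str.fold (x := (x, b)) h4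
        refine ih (L₂ ++ L₁).length ?_ (L₂ ++ L₁) rfl h5 ?_
        · rw [← hn]
          simp only [List.length_append, List.length_cons]
          omega
        · have h6 : FreeGroup.mk L₁ * FreeGroup.mk L₂ = 1 := by
            rw [FreeGroup.mul_mk, h3]
            rfl
          rw [← FreeGroup.mul_mk]
          rw [mul_eq_one_iff_eq_inv] at h6 ⊢
          rw [h6, inv_inv]

/-- folding a boundary word which is trivial in the free group -/
theorem Str.fold_all (h : Str κ (w :: ws)) (hw : FreeGroup.mk w = 1) : Str κ ws :=
  fold_all_aux w.length w rfl h hw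

end Pool.MP_ed1a61_al.Fill
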