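import Pool.Agent.Lib.MP_ed1a61_al.Fill.StrBasic

/-! # Joining and cutting boundary cycles -/

set_option autoImplicit false

namespace Pool.MP_ed1a61_al.Fill

open Equiv

variable {α : Type}

section aux

variable {Ω : Type} [DecidableEq Ω]

theorem StrJoin_fst {A B : List Ω} (hn : (A ++ B).Nodup) (hA : A ≠ []) {x : Ω} (hx : x ∈ A)
    (hne : x ≠ A.getLast hA) : (A ++ B).formPerm x = A.formPerm x := by
  obtain ⟨i, hi, rfl⟩ := List.getElem_of_mem hx
  have hi1 : i + 1 < A.length := by
    by_contra hcon
    have h2 : i = A.length - 1 := by omega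
    apply hne
    rw [List.getLast_eq_getElem]
    simp [h2]
  have hnA : A.Nodup := (List.nodup_append.1 hn).1
  rw [List.formPerm_apply_lt_getElem A hnA i hi1]
  have h3 : i + 1 < (A ++ B).length := by simp; omega
  have h4 := List.formPerm_apply_lt_getElem (A ++ B) hn i h3
  rw [List.getElem_append_left (by omega), List.getElem_append_left hi1] at h4
  exact h4

theorem StrJoin_snd {A B : List Ω} (hn : (A ++ B).Nodup) (hB : B ≠ []) {x : Ω} (hx : x ∈ B)
    (hne : x ≠ B.getLast hB) : (A ++ B).formPerm x = B.formPerm x := by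
  obtain ⟨i, hi, rfl⟩ := List.getElem_of_mem hx
  have hi1 : i + 1 < B.length := by
    by_contra hcon
    have h2 : i = B.length - 1 := by omega
    apply hne
    rw [List.getLast_eq_getElem]
    simp [h2]
  have hnB : B.Nodup := (List.nodup_append.1 hn).2.1
  rw [List.formPerm_apply_lt_getElem B hnB i hi1]
  have h3 : (A.length + i) + 1 < (A ++ B).length := by simp; omega
  have h4 := List.formPerm_apply_lt_getElem (A ++ B) hn (A.length + i) h3
  rw [List.getElem_append_right (by omega), List.getElem_append_right (by omega)] at h4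
  have e1 : A.length + i - A.length = i := by omega
  have e2 : A.length + i + 1 - A.length = i + 1 := by omega
  simp only [e1, e2] at h4
  exact h4

theorem StrJoin_mid {A B : List Ω} (hn : (A ++ B).Nodup) (hA : A ≠ []) (hB : B ≠ []) :
    (A ++ B).formPerm (A.getLast hA) = B.head hB := by
  have hlA : 0 < A.length := List.length_pos_iff.2 hA
  have hlB : 0 < B.length := List.length_pos_iff.2 hB
  have h3 : (A.length - 1) + 1 < (A ++ B).length := by simp; omega
  have h4 := List.formPerm_apply_lt_getElem (A ++ B) hn (A.length - 1) h3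
  rw [List.getElem_append_left (by omega), List.getElem_append_right (by omega)] at h4
  have e2 : A.length - 1 + 1 - A.length = 0 := by omega
  simp only [e2] at h4
  rw [List.getLast_eq_getElem, List.head_eq_getElem]
  exact h4

theorem StrJoin_last {A : List Ω} (hA : A ≠ []) :
    A.formPerm (A.getLast hA) = A.head hA := by
  cases A with
  | nil => exact absurd rfl hA
  | cons a A => exact List.formPerm_apply_getLast a A

theorem StrJoin_end {A B : List Ω} (hA : A ≠ []) (hB : B ≠ []) :
    (A ++ B).formPerm (B.getLast hB) = A.head hA := by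
  have h := StrJoin_last (A := A ++ B) (by simp [hA])
  rw [List.getLast_append_of_ne_nil _ hB, List.head_append_of_ne_nil hA] at h
  exact h

end aux

namespace IsStr

variable {Ω : Type} [DecidableEq Ω] {σ π : Perm Ω} {lab : Ω → α × Bool} {ls ls' : List (List Ω)}
  {l : List Ω}

/-- joining two boundary cycles at their last letters -/
theorem join {A B : List Ω} (h : IsStr σ π lab (A :: B :: ls)) (hA : A ≠ []) (hB : B ≠ []) :
    IsStr (σ * swap (A.getLast hA) (B.getLast hB)) π lab ((A ++ B) :: ls) := by
  have hfl : ((A ++ B) :: ls).flatten = (A :: B :: ls).flatten := by simp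
  have hn0 := h.nodup
  rw [← hfl, List.flatten_cons] at hn0
  have hn : (A ++ B).Nodup := (List.nodup_append.1 hn0).1
  have hdj : ∀ a ∈ A ++ B, ∀ b ∈ ls.flatten, a ≠ b := (List.nodup_append.1 hn0).2.2
  have hAB : ∀ a ∈ A, ∀ b ∈ B, a ≠ b := (List.nodup_append.1 hn).2.2
  have haA : A.getLast hA ∈ A := List.getLast_mem hA
  have hbB : B.getLast hB ∈ B := List.getLast_mem hB
  have hsA : ∀ x ∈ A, σ x = A.formPerm x := h.sig A (by simp)
  have hsB : ∀ x ∈ B, σ x = B.formPerm x := h.sig B (by simp)
  refine ⟨h.inv, h.lab_inv, hfl ▸ h.nodup, ?_, ?_⟩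
  · intro l hl x hx
    rcases List.mem_cons.1 hl with rfl | hl
    · rw [Perm.mul_apply]
      by_cases hxa : x = A.getLast hA
      · subst hxa
        rw [swap_apply_left, hsB _ hbB, StrJoin_last hB, StrJoin_mid hn hA hB]
      · by_cases hxb : x = B.getLast hB
        · subst hxb
          rw [swap_apply_right, hsA _ haA, StrJoin_last hA, StrJoin_end hA hB]
        · rw [swap_apply_of_ne_of_ne hxa hxb]
          rcases List.mem_append.1 hx with hx | hx
          · rw [hsA x hx, StrJoin_fst hn hA hx hxa]
          · rw [hsB x hx, StrJoin_snd hn hB hx hxb]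
    · have hxf : x ∈ ls.flatten := List.mem_flatten.2 ⟨l, hl, hx⟩
      rw [Perm.mul_apply, swap_apply_of_ne_of_ne
        (fun e => hdj _ (List.mem_append_left _ haA) x hxf e.symm)
        (fun e => hdj _ (List.mem_append_right _ hbB) x hxf e.symm)]
      exact h.sig l (by simp [hl]) x hx
  · intro x hx
    rw [hfl] at hx
    have hxa : x ≠ A.getLast hA := by
      rintro rfl
      exact hx (List.mem_flatten.2 ⟨A, by simp, haA⟩)
    have hxb : x ≠ B.getLast hB := by
      rintro rfl
      exact hx (List.mem_flatten.2 ⟨B, by simp, hbB⟩)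
    rw [Perm.mul_apply, swap_apply_of_ne_of_ne hxa hxb]
    exact h.gar x hx

/-- cutting a boundary cycle -/
theorem cut {A B : List Ω} (h : IsStr σ π lab ((A ++ B) :: ls)) (hA : A ≠ []) (hB : B ≠ []) :
    IsStr (σ * swap (A.getLast hA) (B.getLast hB)) π lab (A :: B :: ls) := by
  have hfl : ((A ++ B) :: ls).flatten = (A :: B :: ls).flatten := by simp
  have hn0 := h.nodup
  rw [List.flatten_cons] at hn0
  have hn : (A ++ B).Nodup := (List.nodup_append.1 hn0).1
  have hdj : ∀ a ∈ A ++ B, ∀ b ∈ ls.flatten, a ≠ b := (List.nodup_append.1 hn0).2.2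
  have hAB : ∀ a ∈ A, ∀ b ∈ B, a ≠ b := (List.nodup_append.1 hn).2.2
  have haA : A.getLast hA ∈ A := List.getLast_mem hA
  have hbB : B.getLast hB ∈ B := List.getLast_mem hB
  have hs : ∀ x ∈ A ++ B, σ x = (A ++ B).formPerm x := h.sig (A ++ B) (by simp)
  refine ⟨h.inv, h.lab_inv, hfl ▸ h.nodup, ?_, ?_⟩
  · intro l hl x hx
    rw [Perm.mul_apply]
    rcases List.mem_cons.1 hl with rfl | hl
    · by_cases hxa : x = l.getLast hA
      · subst hxa
        rw [swap_apply_left, hs _ (List.mem_append_right _ hbB), StrJoin_end hA hB,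
          StrJoin_last hA]
      · rw [swap_apply_of_ne_of_ne hxa (hAB x hx _ hbB), hs x (List.mem_append_left _ hx),
          StrJoin_fst hn hA hx hxa]
    · rcases List.mem_cons.1 hl with rfl | hl
      · by_cases hxb : x = l.getLast hB
        · subst hxb
          rw [swap_apply_right, hs _ (List.mem_append_left _ haA), StrJoin_mid hn hA hB,
            StrJoin_last hB]
        · rw [swap_apply_of_ne_of_ne (fun e => hAB _ haA x hx e.symm) hxb,
            hs x (List.mem_append_right _ hx), StrJoin_snd hn hB hx hxb]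
      · have hxf : x ∈ ls.flatten := List.mem_flatten.2 ⟨l, hl, hx⟩
        rw [swap_apply_of_ne_of_ne
          (fun e => hdj _ (List.mem_append_left _ haA) x hxf e.symm)
          (fun e => hdj _ (List.mem_append_right _ hbB) x hxf e.symm)]
        exact h.sig l (by simp [hl]) x hx
  · intro x hx
    rw [← hfl] at hx
    have hxa : x ≠ A.getLast hA := by
      rintro rfl
      exact hx (List.mem_flatten.2 ⟨A ++ B, by simp, List.mem_append_left _ haA⟩)
    have hxb : x ≠ B.getLast hB := by
      rintro rfl
      exact hx (List.mem_flatten.2 ⟨A ++ B, by simp, List.mem_append_right _ hbB⟩)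
    rw [Perm.mul_apply, swap_apply_of_ne_of_ne hxa hxb]
    exact h.gar x hx

end IsStr

end Pool.MP_ed1a61_al.Fill
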