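import Pool.Agent.Lib.MP_ed1a61_al.Fill.StrMoves1
import Pool.Agent.Lib.MP_ed1a61_al.Fill.ConnBasic

/-! # Cutting at a band -/

set_option autoImplicit false

namespace Pool.MP_ed1a61_al.Fill

open Equiv

variable {α : Type}

namespace IsStr

variable {Ω : Type} [Finite Ω] [DecidableEq Ω] {σ π : Perm Ω} {lab : Ω → α × Bool}
  {ls : List (List Ω)}

/-- cutting a boundary cycle at a band whose removal does not disconnect -/
theorem cut_band {p q s : Ω} {U V : List Ω} (h : IsStr σ π lab ((p :: U ++ q :: V) :: ls))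
    (hpq : π p = q) (hs : s ∈ U) (hs' : π s ∈ V) :
    ∃ σ' : Perm Ω, IsStr σ' π lab (U :: V :: ls) ∧ gen σ' π ≤ gen σ π - 2 := by
  have hV : V ≠ [] := List.ne_nil_of_mem hs'
  have hU : U ≠ [] := List.ne_nil_of_mem hs
  have hA : (p :: U ++ [q]) ≠ [] := by simp
  have e1 : (p :: U ++ q :: V) = (p :: U ++ [q]) ++ V := by simp
  have h0 : IsStr σ π lab (((p :: U ++ [q]) ++ V) :: ls) := by rw [← e1]; exact h
  have hlast : (p :: U ++ [q]).getLast hA = q := by simp
  have h1 := h0.cut hA hV
  rw [hlast] at h1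
  set x0 := V.getLast hV with hx0
  have hx0V : x0 ∈ V := List.getLast_mem hV
  -- the list has no repetition
  have nd : ((p :: U ++ [q]) ++ V).Nodup := by
    have := h0.nodup
    rw [List.flatten_cons] at this
    exact (List.nodup_append.mp this).1
  have ndA : (p :: U ++ [q]).Nodup := (List.nodup_append.mp nd).1
  have hqx : q ≠ x0 := by
    intro hc
    exact (List.nodup_append.mp nd).2.2 q (by simp) x0 hx0V hc
  have hmem : ((p :: U ++ [q]) ++ V) ∈ (((p :: U ++ [q]) ++ V) :: ls) := List.mem_cons_self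
  have hx0L : x0 ∈ ((p :: U ++ [q]) ++ V) := List.mem_append_right _ hx0V
  have hsc : σ.SameCycle q x0 :=
    (h0.sameCycle_iff hmem (show q ∈ ((p :: U ++ [q]) ++ V) by simp)).mpr hx0L
  have hσx : σ x0 = p := by
    rw [h0.sig _ hmem x0 hx0L]
    have e2 : ((p :: U ++ [q]) ++ V) = p :: (U ++ [q] ++ V) := by simp
    have e3 : x0 = (p :: (U ++ [q] ++ V)).getLast (List.cons_ne_nil _ _) := by
      rw [List.getLast_cons (by simp), List.getLast_append_of_ne_nil (by simp) hV]
    rw [e2, e3]
    exact List.formPerm_apply_getLast p _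
  have hsc' : (π * σ).SameCycle q x0 := by
    have : (π * σ) x0 = q := by rw [Perm.mul_apply, hσx, hpq]
    exact (show (π * σ).SameCycle x0 q from ⟨1, by rw [zpow_one]; exact this⟩).symm
  have hmA : (p :: U ++ [q]) ∈ ((p :: U ++ [q]) :: V :: ls) := List.mem_cons_self
  have hmV : V ∈ ((p :: U ++ [q]) :: V :: ls) := List.mem_cons_of_mem _ List.mem_cons_self
  have c1 : (connS (σ * swap q x0) π) q s :=
    conn_of_sameCycle ((h1.sameCycle_iff hmA (show q ∈ (p :: U ++ [q]) by simp)).mpr
      (by simp [hs]))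
  have c2 : (connS (σ * swap q x0) π) s (π s) := conn_right _ _ s
  have c3 : (connS (σ * swap q x0) π) (π s) x0 :=
    conn_of_sameCycle ((h1.sameCycle_iff hmV hs').mpr hx0V)
  have g1 : gen (σ * swap q x0) π ≤ gen σ π - 2 :=
    gen_cut_lt hsc hqx hsc' ((connS _ _).trans ((connS _ _).trans c1 c2) c3)
  -- rotate the first list and cut off the bigon
  have h2 := h1.rotate (p :: U).length
  rw [List.rotate_append_length_eq] at h2
  have e4 : [q] ++ p :: U = [q, p] ++ U := rfl
  rw [e4] at h2
  have h3 := h2.cut (A := [q, p]) (by simp) hU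
  have hlast2 : ([q, p] : List Ω).getLast (by simp) = p := rfl
  rw [hlast2] at h3
  have hpU : p ≠ U.getLast hU := by
    intro hc
    have h5 : p ∉ U := by
      have h6 : (p :: (U ++ [q])).Nodup := ndA
      intro h7
      exact (List.nodup_cons.mp h6).1 (List.mem_append_left _ h7)
    exact h5 (by rw [hc]; exact List.getLast_mem hU)
  have hm2 : ([q, p] ++ U) ∈ (([q, p] ++ U) :: V :: ls) := List.mem_cons_self
  have hsc2 : (σ * swap q x0).SameCycle p (U.getLast hU) :=
    (h2.sameCycle_iff hm2 (show p ∈ [q, p] ++ U by simp)).mpr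
      (List.mem_append_right _ (List.getLast_mem hU))
  have g2 : gen (σ * swap q x0 * swap p (U.getLast hU)) π ≤ gen (σ * swap q x0) π :=
    gen_cut hsc2 hpU
  have hqp : π q = p := by rw [← hpq]; exact h.inv p
  exact ⟨_, h3.drop hqp, g2.trans g1⟩

end IsStr

end Pool.MP_ed1a61_al.Fill
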