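import Pool.Agent.Lib.MP_ed1a61_al.Fill.StrJoin
import Pool.Agent.Lib.MP_ed1a61_al.Fill.StrBigon
import Pool.Agent.Lib.MP_ed1a61_al.Fill.Moves

/-! # Folding and joining -/

set_option autoImplicit false

namespace Pool.MP_ed1a61_al.Fill

open Equiv

variable {α : Type}

namespace IsStr

variable {Ω : Type} [Finite Ω] [DecidableEq Ω] {σ π : Perm Ω} {lab : Ω → α × Bool}
  {ls : List (List Ω)}

theorem StrMoves1_fold0 {p q : Ω} (h : IsStr σ π lab ([p, q] :: ls))
    (hl : lab q = linv (lab p)) :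
    ∃ σ' π' : Perm Ω, IsStr σ' π' lab ls ∧ gen σ' π' ≤ gen σ π := by
  by_cases hpq : π p = q
  · exact ⟨σ, π, h.drop hpq, le_rfl⟩
  · have hnd : [p, q].Nodup := (List.nodup_flatten.1 h.nodup).1 _ List.mem_cons_self
    have hne : p ≠ q := by
      intro e
      subst e
      simp at hnd
    have h1 := h.sig _ List.mem_cons_self p (by simp)
    have h2 := h.sig _ List.mem_cons_self q (by simp)
    rw [List.formPerm_pair, swap_apply_left] at h1
    rw [List.formPerm_pair, swap_apply_right] at h2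
    exact ⟨σ, _, h.bigon hl hpq, gen_bigon h1 h2 hne h.inv h.pi_ne rfl hpq⟩

/-- folding two consecutive inverse letters -/
theorem fold {p q : Ω} {l : List Ω} (h : IsStr σ π lab ((p :: q :: l) :: ls))
    (hl : lab q = linv (lab p)) :
    ∃ σ' π' : Perm Ω, IsStr σ' π' lab (l :: ls) ∧ gen σ' π' ≤ gen σ π := by
  by_cases hn : l = []
  · subst hn
    obtain ⟨σ', π', h1, h2⟩ := StrMoves1_fold0 h hl
    exact ⟨σ', π', cons_nil_iff.2 h1, h2⟩
  · have h0 : IsStr σ π lab (([p, q] ++ l) :: ls) := h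
    have hnd : ([p, q] ++ l).Nodup := (List.nodup_flatten.1 h0.nodup).1 _ List.mem_cons_self
    have h1 := h0.cut (by simp) hn
    have hq : [p, q].getLast (by simp) = q := by simp
    rw [hq] at h1
    obtain ⟨σ', π', h2, h3⟩ := StrMoves1_fold0 h1 hl
    refine ⟨σ', π', h2, h3.trans (gen_cut ?_ ?_)⟩
    · rw [h0.sameCycle_iff List.mem_cons_self (by simp)]
      exact List.mem_append_right _ (List.getLast_mem hn)
    · intro e
      have h4 := List.getLast_mem hn
      rw [← e] at h4
      exact (List.disjoint_of_nodup_append hnd) (by simp) h4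

/-- joining two boundary cycles across a band -/
theorem join_band {p q : Ω} {A B : List Ω} (h : IsStr σ π lab ((p :: A) :: (B ++ [q]) :: ls))
    (hpq : π p = q) :
    ∃ σ' : Perm Ω, IsStr σ' π lab (((p :: A) ++ (B ++ [q])) :: ls) ∧ gen σ' π ≤ gen σ π := by
  have hBq : B ++ [q] ≠ [] := by simp
  have h1 := h.join (List.cons_ne_nil p A) hBq
  have hq : (B ++ [q]).getLast hBq = q := by simp
  rw [hq] at h1
  refine ⟨_, h1, gen_join_band ?_ ?_⟩
  · rw [h.sameCycle_iff List.mem_cons_self (List.getLast_mem _)]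
    intro h2
    have h3 := h.nodup
    rw [List.flatten_cons, List.flatten_cons] at h3
    exact (List.disjoint_of_nodup_append h3) h2 (by simp)
  · refine ⟨1, ?_⟩
    rw [zpow_one, Perm.mul_apply, h.sig _ List.mem_cons_self _ (List.getLast_mem _),
      List.formPerm_apply_getLast, hpq]

/-- joining two boundary cycles of different components -/
theorem join_diff {A B : List Ω} (h : IsStr σ π lab (A :: B :: ls))
    (hd : ∀ a ∈ A, ∀ b ∈ B, ¬ (connS σ π) a b) :
    ∃ σ' : Perm Ω, IsStr σ' π lab ((A ++ B) :: ls) ∧ gen σ' π ≤ gen σ π := by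
  by_cases hA : A = []
  · subst hA
    exact ⟨σ, cons_nil_iff.1 h, le_rfl⟩
  by_cases hB : B = []
  · subst hB
    rw [List.append_nil]
    exact ⟨σ, cons_nil_iff.1 (h.perm (List.Perm.swap _ _ _)), le_rfl⟩
  · exact ⟨_, h.join hA hB, gen_join_diff (hd _ (List.getLast_mem hA) _ (List.getLast_mem hB))⟩

end IsStr

end Pool.MP_ed1a61_al.Fill
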