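import Pool.Agent.Lib.MP_ed1a61_al.Fill.StrBuild2
import Pool.Agent.Lib.MP_ed1a61_al.Fill.StrFoldAll
import Pool.Agent.Lib.MP_ed1a61_al.Fill.BdBasic

/-! # From algebra to surfaces -/

set_option autoImplicit false

namespace Pool.MP_ed1a61_al.Fill

variable {α : Type}

/-- some boundary word which represents `h` can be added to `ws` -/
private def SBQ (κ : ℤ) (h : FreeGroup α) (ws : List (List (α × Bool))) : Prop :=
  ∃ W, FreeGroup.mk W = h ∧ Str κ (W :: ws)

private theorem sbq_rep (y : FreeGroup α) : ∃ u, FreeGroup.mk u = y := Quot.exists_rep y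

private theorem sbq_one : SBQ 0 (1 : FreeGroup α) [] :=
  ⟨[], rfl, str_cons_nil.2 str_nil⟩

private theorem sbq_mul {κ κ' : ℤ} {h h' : FreeGroup α} {ws ws' : List (List (α × Bool))}
    (H : SBQ κ h ws) (H' : SBQ κ' h' ws') : SBQ (κ + κ') (h * h') (ws ++ ws') := by
  obtain ⟨W, rfl, h1⟩ := H
  obtain ⟨W', rfl, h2⟩ := H'
  exact ⟨W ++ W', FreeGroup.mul_mk.symm, h1.merge h2⟩

private theorem sbq_perm {κ : ℤ} {h : FreeGroup α} {ws ws' : List (List (α × Bool))}
    (H : SBQ κ h ws) (hp : ws.Perm ws') : SBQ κ h ws' := by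
  obtain ⟨W, rfl, h1⟩ := H
  exact ⟨W, rfl, h1.perm (hp.cons W)⟩

private theorem sbq_annulus (y : FreeGroup α) (w : List (α × Bool)) :
    SBQ 0 (y * (FreeGroup.mk w)⁻¹ * y⁻¹) [w] := by
  obtain ⟨u, rfl⟩ : ∃ u, FreeGroup.mk u = y := sbq_rep y
  refine ⟨u ++ FreeGroup.invRev w ++ FreeGroup.invRev u, ?_, ?_⟩
  · rw [← FreeGroup.mul_mk, ← FreeGroup.mul_mk, ← FreeGroup.inv_mk, ← FreeGroup.inv_mk]
  · exact ((str_annulus w).perm (List.Perm.swap _ _ _)).conj u

private theorem sbq_commutator (a b : FreeGroup α) : SBQ 2 (a * b * a⁻¹ * b⁻¹) [] := by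
  obtain ⟨u, rfl⟩ : ∃ u, FreeGroup.mk u = a := sbq_rep a
  obtain ⟨v, rfl⟩ : ∃ v, FreeGroup.mk v = b := sbq_rep b
  refine ⟨u ++ v ++ FreeGroup.invRev u ++ FreeGroup.invRev v, ?_, str_commutator u v⟩
  rw [← FreeGroup.mul_mk, ← FreeGroup.mul_mk, ← FreeGroup.mul_mk, ← FreeGroup.inv_mk,
    ← FreeGroup.inv_mk]

private theorem sbq_cl (l : List (FreeGroup α)) (hl : ∀ c ∈ l, c ∈ commutatorSet (FreeGroup α)) :
    SBQ (2 * (l.length : ℤ)) l.prod [] := by
  induction l with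
  | nil => simpa using sbq_one (α := α)
  | cons c l ih =>
    obtain ⟨a, b, hab⟩ := hl c List.mem_cons_self
    have h1 := sbq_commutator a b
    have h2 := sbq_mul h1 (ih fun d hd => hl d (List.mem_cons_of_mem _ hd))
    have h3 : a * b * a⁻¹ * b⁻¹ = c := hab
    rw [h3] at h2
    rw [List.prod_cons, List.length_cons]
    have h4 : (2 : ℤ) + 2 * (l.length : ℤ) = 2 * ((l.length + 1 : ℕ) : ℤ) := by
      push_cast
      ring
    rw [h4] at h2
    exact h2

private theorem sbq_conj : ∀ (ws : List (List (α × Bool))) (vs : List (FreeGroup α)),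
    List.Forall₂ IsConj (ws.map FreeGroup.mk) vs → SBQ 0 (vs.prod)⁻¹ ws := by
  intro ws
  induction ws with
  | nil =>
    intro vs h
    rw [List.map_nil, List.forall₂_nil_left_iff] at h
    rw [h, List.prod_nil, inv_one]
    exact sbq_one
  | cons w ws ih =>
    intro vs h
    rw [List.map_cons] at h
    obtain ⟨v, vs0, hv, h0, rfl⟩ := List.forall₂_cons_left_iff.1 h
    obtain ⟨y, rfl⟩ := isConj_iff.1 hv
    have h1 := sbq_mul (ih vs0 h0) (sbq_annulus y w)
    rw [List.prod_cons]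
    have h2 : (y * FreeGroup.mk w * y⁻¹ * vs0.prod)⁻¹
        = vs0.prod⁻¹ * (y * (FreeGroup.mk w)⁻¹ * y⁻¹) := by group
    rw [h2]
    rw [add_zero] at h1
    exact sbq_perm h1 (List.perm_append_singleton w ws)

theorem str_of_bd {K : ℕ} {ws : List (List (α × Bool))} (h : Bd K (ws.map FreeGroup.mk)) :
    Str (2 * K) ws := by
  obtain ⟨vs, h1, l, hl, hc, hp⟩ := h
  have h2 := sbq_mul (sbq_conj ws vs h1) (sbq_cl l hc)
  rw [hp, inv_mul_cancel, zero_add, List.append_nil, hl] at h2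
  obtain ⟨W, hW, hS⟩ := h2
  exact hS.fold_all hW

end Pool.MP_ed1a61_al.Fill
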