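import Pool.Agent.Lib.MP_ed1a61_al.Fill.StrBasic

/-! # Disjoint union of surfaces -/

set_option autoImplicit false

namespace Pool.MP_ed1a61_al.Fill

open Equiv

variable {α : Type}

theorem StrSum_formPerm_map {A B : Type} [DecidableEq A] [DecidableEq B] {f : A → B}
    (hf : Function.Injective f) : ∀ (l : List A) (z : A),
    (l.map f).formPerm (f z) = f (l.formPerm z)
  | [], z => by simp
  | [x], z => by simp
  | x :: y :: l, z => by
    have ih := StrSum_formPerm_map hf (y :: l) z
    rw [List.map_cons, List.map_cons, List.formPerm_cons_cons, List.formPerm_cons_cons,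
      Perm.mul_apply, Perm.mul_apply, ← List.map_cons, ih, hf.swap_apply]

theorem StrSum_flatten {A B : Type} (ls : List (List A)) (ls' : List (List B)) :
    (ls.map (List.map Sum.inl) ++ ls'.map (List.map Sum.inr)).flatten =
      ls.flatten.map (Sum.inl : A → A ⊕ B) ++ ls'.flatten.map (Sum.inr : B → A ⊕ B) := by
  rw [List.flatten_append, List.map_flatten, List.map_flatten]

namespace IsStr

variable {Ω : Type} [DecidableEq Ω] {σ π : Perm Ω} {lab : Ω → α × Bool} {ls ls' : List (List Ω)}
  {l : List Ω}

theorem sum {Ω' : Type} [DecidableEq Ω'] {σ' π' : Perm Ω'} {lab' : Ω' → α × Bool}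
    {ls' : List (List Ω')} (h : IsStr σ π lab ls) (h' : IsStr σ' π' lab' ls') :
    IsStr (Perm.sumCongr σ σ') (Perm.sumCongr π π') (Sum.elim lab lab')
      (ls.map (List.map Sum.inl) ++ ls'.map (List.map Sum.inr)) where
  inv := by
    rintro (x | x)
    · simp [h.inv]
    · simp [h'.inv]
  lab_inv := by
    rintro (x | x)
    · simp [h.lab_inv]
    · simp [h'.lab_inv]
  nodup := by
    rw [StrSum_flatten]
    refine List.Nodup.append (h.nodup.map Sum.inl_injective) (h'.nodup.map Sum.inr_injective) ?_
    intro x hx hx'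
    rw [List.mem_map] at hx hx'
    obtain ⟨a, -, rfl⟩ := hx
    obtain ⟨b, -, hb⟩ := hx'
    exact absurd hb (by simp)
  sig := by
    intro l hl x hx
    rw [List.mem_append, List.mem_map, List.mem_map] at hl
    rcases hl with ⟨m, hm, rfl⟩ | ⟨m, hm, rfl⟩
    · rw [List.mem_map] at hx
      obtain ⟨y, hy, rfl⟩ := hx
      rw [StrSum_formPerm_map Sum.inl_injective, ← h.sig m hm y hy]
      simp
    · rw [List.mem_map] at hx
      obtain ⟨y, hy, rfl⟩ := hx
      rw [StrSum_formPerm_map Sum.inr_injective, ← h'.sig m hm y hy]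
      simp
  gar := by
    intro x hx
    rw [StrSum_flatten, List.mem_append, not_or, List.mem_map, List.mem_map] at hx
    rcases x with x | x
    · have h1 : x ∉ ls.flatten := fun h2 => hx.1 ⟨x, h2, rfl⟩
      simp [h.gar x h1]
    · have h1 : x ∉ ls'.flatten := fun h2 => hx.2 ⟨x, h2, rfl⟩
      simp [h'.gar x h1]

end IsStr

end Pool.MP_ed1a61_al.Fill
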