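import Pool.Agent.Lib.MP_ed1a61_al.Fill.Glue
import Pool.Agent.Lib.MP_ed1a61_al.Fill.Comps

/-! # An irreducible vector gives a connected surface -/

set_option autoImplicit false

namespace Pool.MP_ed1a61_al.Fill

open Equiv

variable {α ι P : Type} [DecidableEq P] [Finite P] (D : PD α ι P)

private theorem eq_zero_of_size {u : D.Cy → ℕ} (h : D.size u = 0) : u = 0 := by
  have h1 := PD.two_mul_num_le (D := D) u
  have h2 : D.num u = 0 := by omega
  have := Fintype.ofFinite D.Cy
  rw [PD.num, finsum_eq_sum_of_fintype, Finset.sum_eq_zero_iff] at h2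
  funext c
  exact h2 c (Finset.mem_univ c)

/-- an irreducible vector gives a connected surface -/
theorem exists_surface {u : D.Cy → ℕ} (hu : D.Irr u) :
    ∃ (Ω : Type) (_ : Finite Ω) (σ π : Perm Ω) (θ : Ω → P),
      (∀ x, π (π x) = x) ∧ (∀ x, θ (σ x) = D.s (θ x)) ∧
      (∀ x, D.ℓ (θ (π x)) = linv (D.ℓ (θ x))) ∧ cyc (π * σ) = D.num u ∧
      Nat.card Ω = D.size u ∧ (∀ p, Nat.card {x // θ x = p} = D.cnt u p) ∧ comps σ π = 1 := by
  obtain ⟨hu0, hus, hui⟩ := hu
  obtain ⟨Ω, hΩ, τ, β, θ, hββ, hadj, hθβ, hθτβ, hcyc, hcard, hglue⟩ := exists_glue D hus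
  have hτ : τ * β * τ⁻¹ * (τ * β) = τ := by
    have hb : β * β = 1 := by
      ext x
      exact hββ x
    calc τ * β * τ⁻¹ * (τ * β) = τ * (β * β) := by group
      _ = τ := by rw [hb, mul_one]
  have hsize : Nat.card Ω = D.size u := by
    have := Fintype.ofFinite P
    rw [← PD.sum_cnt, finsum_eq_sum_of_fintype, Nat.card_congr (Equiv.sigmaFiberEquiv θ).symm,
      Nat.card_sigma]
    exact Finset.sum_congr rfl fun p _ => hcard p
  refine ⟨Ω, hΩ, τ * β, τ * β * τ⁻¹, θ, ?_, ?_, ?_, ?_, hsize, hcard, ?_⟩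
  · intro x
    have h1 : τ⁻¹ (τ (β (τ⁻¹ x))) = β (τ⁻¹ x) := τ.symm_apply_apply _
    have h2 : τ (τ⁻¹ x) = x := τ.apply_symm_apply x
    simp only [Perm.mul_apply]
    rw [h1, hββ, h2]
  · intro x
    exact hθτβ x
  · intro x
    have h1 : (τ * β * τ⁻¹) x = τ (β (τ⁻¹ x)) := rfl
    rw [h1, hθτβ]
    have h2 := (hadj (τ⁻¹ x)).1
    rw [show τ (τ⁻¹ x) = x from τ.apply_symm_apply x] at h2
    rw [h2]
    simp [linv]
  · rw [hτ, hcyc]
  · have hconn : ∀ x y : Ω, (connS (τ * β) (τ * β * τ⁻¹)) x y := by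
      intro x
      set R := connS (τ * β) (τ * β * τ⁻¹) with hR
      have hσ : ∀ y, R x ((τ * β) y) ↔ R x y := fun y =>
        ⟨fun h => R.trans h (R.symm (Relation.EqvGen.rel _ _ (Or.inl rfl))),
          fun h => R.trans h (Relation.EqvGen.rel _ _ (Or.inl rfl))⟩
      have hπ : ∀ y, R x ((τ * β * τ⁻¹) y) ↔ R x y := fun y =>
        ⟨fun h => R.trans h (R.symm (Relation.EqvGen.rel _ _ (Or.inr rfl))),
          fun h => R.trans h (Relation.EqvGen.rel _ _ (Or.inr rfl))⟩
      have hτR : ∀ y, R x (τ y) ↔ R x y := by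
        intro y
        have h1 : τ y = (τ * β * τ⁻¹) ((τ * β) y) := by
          conv_lhs => rw [← hτ]
          rfl
        rw [h1, hπ, hσ]
      have hβR : ∀ y, R x (β y) ↔ R x y := by
        intro y
        rw [← hτR (β y)]
        exact hσ y
      obtain ⟨v, hv, hvu, hv0, hv1⟩ := hglue {y | R x y} hτR hβR
      rcases hui v hv hvu with h | h
      · have h1 : x ∈ ({y | R x y} : Set Ω) := R.refl x
        rw [hv0 h] at h1
        exact absurd h1 (Set.notMem_empty x)
      · intro y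
        have h1 : y ∈ (Set.univ : Set Ω) := Set.mem_univ y
        rw [← hv1 h] at h1
        exact h1
    have hne : Nonempty Ω := by
      by_contra hcon
      rw [not_nonempty_iff] at hcon
      apply hu0
      apply eq_zero_of_size D
      rw [← hsize]
      exact Nat.card_of_isEmpty
    rw [comps, Nat.card_eq_one_iff_unique]
    refine ⟨⟨fun a b => ?_⟩, ?_⟩
    · induction a using Quotient.inductionOn with
      | h x =>
        induction b using Quotient.inductionOn with
        | h y => exact Quotient.sound (hconn x y)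
    · obtain ⟨x⟩ := hne
      exact ⟨Quotient.mk _ x⟩

end Pool.MP_ed1a61_al.Fill
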