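import Pool.Agent.Lib.MP_ed1a61_al.Fill.VecAdj

/-! # Sums of vectors -/

set_option autoImplicit false

namespace Pool.MP_ed1a61_al.Fill

variable {α ι P : Type} [DecidableEq P] {D : PD α ι P}

namespace PD

variable [Finite P] {u v : D.Cy → ℕ}

private theorem vecAdd_aux (f g : D.Cy → ℕ) : ∑ᶠ c, (f c + g c) = ∑ᶠ c, f c + ∑ᶠ c, g c :=
  finsum_add_distrib (Set.toFinite _) (Set.toFinite _)

theorem flow_add (p q : P) : D.flow (u + v) p q = D.flow u p q + D.flow v p q := by
  classical
  unfold flow
  rw [← vecAdd_aux]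
  refine finsum_congr fun c => ?_
  rw [Pi.add_apply]
  split_ifs
  · rfl
  · rfl

theorem cnt_add (p : P) : D.cnt (u + v) p = D.cnt u p + D.cnt v p := by
  classical
  unfold cnt
  rw [← vecAdd_aux]
  refine finsum_congr fun c => ?_
  rw [Pi.add_apply]
  split_ifs
  · rfl
  · rfl

theorem num_add : D.num (u + v) = D.num u + D.num v := by
  unfold num
  rw [← vecAdd_aux]
  exact finsum_congr fun c => rfl

theorem size_add : D.size (u + v) = D.size u + D.size v := by
  unfold size
  rw [← vecAdd_aux]
  refine finsum_congr fun c => ?_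
  rw [Pi.add_apply, add_mul]

theorem cost_add : D.cost (u + v) = D.cost u + D.cost v := by
  unfold cost
  rw [size_add, num_add]
  push_cast
  ring

theorem X_add (i : ι) : D.X (u + v) i = D.X u i + D.X v i := by
  unfold X
  rw [cnt_add, cnt_add]
  ring

theorem Sym.add (hu : D.Sym u) (hv : D.Sym v) : D.Sym (u + v) := by
  intro p q
  rw [flow_add, flow_add, hu p q, hv p q]

/-- `v ≤ u` both symmetric: the difference is symmetric -/
theorem Sym.sub (hu : D.Sym u) (hv : D.Sym v) (h : v ≤ u) : D.Sym (u - v) := by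
  intro p q
  have h1 : u - v + v = u := tsub_add_cancel_of_le h
  have h2 : ∀ p q, D.flow (u - v) p q + D.flow v p q = D.flow u p q := fun p q => by
    rw [← flow_add, h1]
  have h3 := h2 p q
  have h4 := h2 (D.s⁻¹ q) (D.s p)
  have h5 := hu p q
  have h6 := hv p q
  omega

end PD

end Pool.MP_ed1a61_al.Fill
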