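import Pool.Agent.Lib.MP_ed1a61_al.Fill.Defs

/-! # Adjacency of positions -/

set_option autoImplicit false

namespace Pool.MP_ed1a61_al.Fill

variable {α ι P : Type} [DecidableEq P] (D : PD α ι P)

private theorem vecAdj_linv_linv (x : α × Bool) : linv (linv x) = x := by
  cases x; simp [linv]

private theorem vecAdj_linv_ne (x : α × Bool) : linv x ≠ x := by
  obtain ⟨a, b⟩ := x
  cases b <;> simp [linv]

private theorem vecAdj_ai (s : Equiv.Perm P) (q : P) : s (s⁻¹ q) = q :=
  s.apply_symm_apply q

namespace PD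

theorem adj_symm {p q : P} (h : D.Adj p q) : D.Adj (D.s⁻¹ q) (D.s p) := by
  obtain ⟨h1, h2⟩ := h
  refine ⟨?_, ?_⟩
  · rw [vecAdj_ai, h1, vecAdj_linv_linv]
  · rw [vecAdj_ai]
    intro ht hc
    have e1 : D.ty (D.s⁻¹ q) = D.ty q := by
      have := D.ty_s (D.s⁻¹ q)
      rw [vecAdj_ai] at this
      exact this.symm
    have ht2 : D.ty p ≠ none := by
      rw [← D.ty_s p, hc, D.ty_μ q]
      intro h3
      rw [Option.map_eq_none_iff] at h3
      exact ht (e1.trans h3)
    exact h2 ht2 (by rw [hc, D.μ_μ])

/-- the type `(p, q)` of a band is different from the type of the other end of the band -/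
theorem adj_ne {p q : P} (h : D.Adj p q) : D.s⁻¹ q ≠ p := by
  intro hc
  have hq : q = D.s p := by rw [← hc, vecAdj_ai]
  have h1 := h.1
  rw [hq] at h1
  exact vecAdj_linv_ne _ h1.symm

theorem not_adj_self (p : P) : ¬ D.Adj p p := by
  intro h
  apply D.red p
  have h1 := h.1
  rw [h1, vecAdj_linv_linv]

theorem len_ne_one (c : D.Cy) : 2 ≤ c.1.length := by
  obtain ⟨c, hne, hnd, hadj⟩ := c
  change 2 ≤ c.length
  match c, hne, hadj with
  | [], hne, _ => exact absurd rfl hne
  | [p], _, hadj =>
    exfalso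
    have h1 := hadj p (by simp)
    rw [List.formPerm_singleton] at h1
    exact D.not_adj_self p h1
  | p :: q :: l, _, _ => simp

instance finite_Cy [Finite P] : Finite D.Cy := by
  classical
  cases nonempty_fintype P
  exact Finite.of_injective (fun c : D.Cy => (⟨c.1, c.2.2.1⟩ : {l : List P // l.Nodup}))
    (fun c d h => Subtype.ext
      (congrArg (Subtype.val : {l : List P // l.Nodup} → List P) h))

end PD

end Pool.MP_ed1a61_al.Fill
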